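import Pool.Agent.Lib.K3.Defs

/-! K3, module Basis (80 lines): a basis of the functions on `ZMod p` among the given functions.

PROOF. The hypothesis says that the span of the `f i` is everything: otherwise there is a nonzero linear form vanishing
on the span (`Submodule.exists_le_ker_of_lt_top` / `Submodule.exists_dual_map_eq_bot_of_lt_top`), and linear forms on
`ZMod p → ZMod p` are `∑_t g t * · t` (`Module.Dual`/`LinearMap.pi_apply_eq_sum_univ`). A spanning family contains a basis
(`exists_linearIndependent'`/`Basis.ofSpan`/`exists_linearIndependent`), with `finrank = p` elements: an injective map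
`a : ZMod p → ι` (`Fintype.card (ZMod p) = p`) with linearly independent `f (a i)`. The matrix is then invertible:
`∑_i x i f (a i) t = 0` for all `t` implies `x = 0`. -/

open Finset

namespace Pool.K3

theorem exists_basis {p : ℕ} [Fact p.Prime] {ι : Type} [Fintype ι] (f : ι → ZMod p → ZMod p)
    (h : ∀ g : ZMod p → ZMod p, (∀ i, ∑ t : ZMod p, g t * f i t = 0) → g = 0) :
    ∃ a : ZMod p → ι, Function.Injective a ∧
      ∀ x : ZMod p → ZMod p, (∀ t, ∑ i : ZMod p, x i * f (a i) t = 0) → x = 0 := by
  classical
  have hspan : Submodule.span (ZMod p) (Set.range f) = ⊤ := by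
    by_contra hne
    obtain ⟨φ, hφ, hle⟩ := Submodule.exists_le_ker_of_lt_top _ (lt_top_iff_ne_top.2 hne)
    apply hφ
    have hg := h (fun t => φ (fun j => if t = j then 1 else 0)) (fun i => by
      have h1 : f i ∈ LinearMap.ker φ := hle (Submodule.subset_span ⟨i, rfl⟩)
      rw [LinearMap.mem_ker, LinearMap.pi_apply_eq_sum_univ] at h1
      refine Eq.trans (sum_congr rfl fun t _ => ?_) h1
      rw [smul_eq_mul, mul_comm])
    refine LinearMap.ext fun v => ?_
    rw [LinearMap.pi_apply_eq_sum_univ, LinearMap.zero_apply]
    apply sum_eq_zero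
    intro j _
    have h2 : φ (fun i => if j = i then 1 else 0) = 0 := congrFun hg j
    rw [h2, smul_zero]
  obtain ⟨κ, a, ha, hsp, hli⟩ := exists_linearIndependent' (ZMod p) f
  rw [hspan] at hsp
  let b := Module.Basis.mk hli hsp.ge
  haveI : Fintype κ := Fintype.ofInjective a ha
  have hcard : Fintype.card κ = Fintype.card (ZMod p) := by
    rw [← Module.finrank_eq_card_basis b, Module.finrank_fintype_fun_eq_card]
  let e : ZMod p ≃ κ := (Fintype.equivOfCardEq hcard).symm
  refine ⟨fun t => a (e t), ha.comp e.injective, ?_⟩
  intro x hx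
  have h1 : LinearIndependent (ZMod p) (fun t : ZMod p => f (a (e t))) :=
    hli.comp e e.injective
  rw [Fintype.linearIndependent_iff] at h1
  funext i
  refine h1 x ?_ i
  funext t
  rw [Finset.sum_apply]
  simpa using hx t

end Pool.K3
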