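import Pool.Agent.Lib.K3.Defs
import Pool.Agent.Lib.MZFin.BFz

/-! K3, module Bern: the vanishing primes are the primes `p` dividing the numerator of `B_(p-3)`. -/

open Finset

namespace Pool.K3

private theorem Bern_univ (p : ℕ) [NeZero p] (f : ZMod p → ZMod p) :
    ∑ x : ZMod p, f x = ∑ n ∈ range p, f (n : ZMod p) := by
  refine Finset.sum_nbij' (fun x => x.val) (fun n => (n : ZMod p)) ?_ ?_ ?_ ?_ ?_
  · intro x _
    exact mem_range.2 (ZMod.val_lt x)
  · intro n _
    exact mem_univ _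
  · intro x _
    exact ZMod.natCast_rightInverse x
  · intro n hn
    exact ZMod.val_natCast_of_lt (mem_range.1 hn)
  · intro x _
    rw [ZMod.natCast_rightInverse x]

/-- the sum `∑ H_1(t) / t²` is the finite multiple zeta value of the index `(2, 1)` -/
theorem beta_eq_fz {p : ℕ} [Fact p.Prime] :
    ∑ t : ZMod p, (t⁻¹) ^ 2 * HH p 1 t = Pool.MZFin.fz p [2, 1] := by
  have hp := (Fact.out : p.Prime)
  rw [Bern_univ p fun t => (t⁻¹) ^ 2 * HH p 1 t]
  unfold Pool.MZFin.fz
  rw [Pool.MZFin.hs_cons]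
  have h1 : range p = range ((p - 1) + 1) := by
    congr 1
    have := hp.one_lt
    omega
  rw [h1, sum_range_succ', Nat.cast_zero, inv_zero, zero_pow (by norm_num), zero_mul, add_zero]
  refine sum_congr rfl fun n hn => ?_
  have hn' : n + 1 < p := by
    have := mem_range.1 hn
    omega
  have h2 : ((n + 1 : ℕ) : ZMod p).val = n + 1 := ZMod.val_natCast_of_lt hn'
  have h3 : HH p 1 ((n + 1 : ℕ) : ZMod p) = Pool.MZFin.hs (Pool.MZFin.wp p) [1] n := by
    unfold HH
    rw [h2, sum_range_succ', Nat.cast_zero, inv_zero, zero_pow (by norm_num), add_zero,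
      Pool.MZFin.hs_cons]
    refine sum_congr rfl fun j _ => ?_
    rw [Pool.MZFin.hs_nil, mul_one]
    rfl
  rw [h3]
  rfl

/-- `∑ H_1(t) / t²` is `B_(p-3)` modulo `p` -/
theorem beta_eq_bern {p : ℕ} [Fact p.Prime] (hp : 5 ≤ p) :
    ∑ t : ZMod p, (t⁻¹) ^ 2 * HH p 1 t = Pool.MZFin.rc p (bernoulli (p - 3)) := by
  have hp' := (Fact.out : p.Prime)
  rw [beta_eq_fz, Pool.MZFin.fz_two hp' 2 1 (by norm_num) (by norm_num) (by omega)]
  have h1 : ((-1) ^ 2 * ((2 + 1).choose 2 : ℚ) / ((2 + 1 : ℕ) : ℚ)) = ((1 : ℤ) : ℚ) := by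
    have : (2 + 1).choose 2 = 3 := by decide
    rw [this]
    norm_num
  rw [h1, Pool.MZFin.rc_intCast, Int.cast_one, one_mul]

/-- the vanishing primes are the primes that divide the numerator of `B_(p-3)` -/
theorem van_iff {p : ℕ} [Fact p.Prime] (hp : 5 ≤ p) :
    Van p ↔ (p : ℤ) ∣ (bernoulli (p - 3)).num := by
  have hp' := (Fact.out : p.Prime)
  unfold Van
  rw [beta_eq_bern hp]
  exact Pool.MZFin.rc_zero_iff hp' (Pool.MZFin.bern_PI hp' _ (by omega))

end Pool.K3
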