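import Pool.Agent.Lib.K3.IVal

/-! K3, module TOp (200 lines): the operator `T` and the recursion of the functional `Y_F` for all polynomials.

PROOF. `TT P = ∑_l C (nc P l / (l+1)) * bP l`. `TT_spec`: for `P = bP l`: `x C(x-1,l)/(l+1) - (x-1) C(x-2,l)/(l+1) =`
`C(x, l+1) - C(x-1, l+1) = C(x-1, l)`; as polynomial identity: `(x - 1 - l) bP l (x) = (x-1) bP l (x-1)` (shift of the
product), so `x bP l (x) - (x-1) bP l (x-1) = (l+1) bP l (x)`. Sum over `l` with `newton`.
`YP` is linear: `YP_eq`: for `natDegree P ≤ n`: `YP F P = ∑_(l ≤ n) nc P l * yv F l` (`nc_zero_of_lt`), `nc` is linear in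
`P`, so `YP_add`, `YP_C_mul`; `YP F (bP l) = yv F l` (`nc (bP l) j = [j = l]`: the value of `bP l` at `1 + j` is
`C(j, l)`; or uniqueness of the Newton expansion). `De_bP`: `De 0 (bP l) = ∑_(q<l) C ((-1)^(l-1-q)/(q+1)) * bP q`
(multiply by `X`: `X bP q = (q+1) (bP (q+1) + bP q)`, telescoping, and `(bP l).eval 0 = (-1)^l`; `De_spec`, cancel `X`).
`De_iter_bP`: `(De 0)^[r] (bP l) = ∑_(j ≤ l) C (dc r l j) * bP j` (induction on `r` with the recursion of `dc`:
`(De 0)^[r+1] (bP l) = (De 0)^[r] (De 0 (bP l))`, linearity of `De 0`).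
`YP_rec`: both sides are linear in `P`; for `P = bP l` it is `yv_eq`: `TT (bP l) = C (1/(l+1)) * bP l`. -/

open Finset Polynomial

namespace Pool.K3

/-- the operator `T`: `t * T P (t) = ∑_(n=1)^t P(n)` -/
noncomputable def TT (P : ℚ[X]) : ℚ[X] :=
  ∑ l ∈ range (P.natDegree + 1), C (nc P l / ((l : ℚ) + 1)) * bP l

private theorem TOp_eval_bP (l : ℕ) (x : ℚ) :
    (bP l).eval x = 1 / (l.factorial : ℚ) * ∏ i ∈ range l, (x - (1 + (i : ℚ))) := by
  unfold bP
  rw [eval_mul, eval_C, eval_prod]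
  simp only [eval_sub, eval_X, eval_C]

private theorem TOp_bP_zero : bP 0 = 1 := by simp [bP]

private theorem TOp_bP_succ (l : ℕ) :
    C ((l : ℚ) + 1) * bP (l + 1) = (X - C (1 + (l : ℚ))) * bP l := by
  unfold bP
  rw [prod_range_succ, ← mul_assoc, ← C_mul, Nat.factorial_succ]
  have h : ((l : ℚ) + 1) * (1 / (((l + 1) * l.factorial : ℕ) : ℚ)) = 1 / (l.factorial : ℚ) := by
    push_cast
    field_simp
  rw [h]
  ring

private theorem TOp_X_mul (l : ℕ) : X * bP l = C ((l : ℚ) + 1) * (bP (l + 1) + bP l) := by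
  rw [mul_add, TOp_bP_succ, C_add, C_add, C_1]
  ring

private theorem TOp_shift (l : ℕ) (x : ℚ) :
    x * (bP l).eval x - (x - 1) * (bP l).eval (x - 1) = ((l : ℚ) + 1) * (bP l).eval x := by
  have h : (x - 1) * ∏ i ∈ range l, (x - 1 - (1 + (i : ℚ))) =
      (∏ i ∈ range l, (x - (1 + (i : ℚ)))) * (x - (1 + (l : ℚ))) := by
    rw [← prod_range_succ (fun i : ℕ => x - (1 + (i : ℚ))) l, prod_range_succ', mul_comm]
    congr 1
    · refine prod_congr rfl fun i _ => ?_
      push_cast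
      ring
    · simp
  rw [TOp_eval_bP, TOp_eval_bP]
  linear_combination (-(1 / (l.factorial : ℚ))) * h

private theorem TOp_eval_nat (l j : ℕ) : (bP l).eval (1 + (j : ℚ)) = (j.choose l : ℚ) := by
  rw [TOp_eval_bP]
  have h : ∏ i ∈ range l, (1 + (j : ℚ) - (1 + (i : ℚ))) = (j.descFactorial l : ℚ) := by
    rw [← descPochhammer_eval_eq_descFactorial ℚ j l, descPochhammer_eval_eq_prod_range]
    refine prod_congr rfl fun i _ => ?_
    ring
  rw [h, Nat.descFactorial_eq_factorial_mul_choose]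
  have h2 : (l.factorial : ℚ) ≠ 0 := by exact_mod_cast l.factorial_ne_zero
  push_cast
  field_simp

private theorem TOp_nc_bP (l j : ℕ) : nc (bP l) j = if j = l then 1 else 0 := by
  unfold nc
  have h := fwdDiff_iter_choose_zero l j
  rw [fwdDiff_iter_eq_sum_shift] at h
  have h2 := congrArg (Int.cast : ℤ → ℚ) h
  simp only [zero_add, smul_eq_mul, mul_one] at h2
  push_cast at h2
  simp only [TOp_eval_nat]
  rw [← h2]

private theorem TOp_nc_add (P Q : ℚ[X]) (l : ℕ) : nc (P + Q) l = nc P l + nc Q l := by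
  unfold nc
  rw [← sum_add_distrib]
  refine sum_congr rfl fun j _ => ?_
  rw [eval_add]
  ring

private theorem TOp_nc_C_mul (c : ℚ) (P : ℚ[X]) (l : ℕ) : nc (C c * P) l = c * nc P l := by
  unfold nc
  rw [mul_sum]
  refine sum_congr rfl fun j _ => ?_
  rw [eval_mul, eval_C]
  ring

private theorem TOp_YP_eq (F : ℕ × ℕ) (P : ℚ[X]) {n : ℕ} (h : P.natDegree ≤ n) :
    YP F P = ∑ l ∈ range (n + 1), nc P l * yv F l := by
  unfold YP
  refine sum_subset (fun x hx => ?_) fun x _ hx => ?_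
  · rw [mem_range] at hx ⊢
    omega
  · rw [mem_range] at hx
    rw [nc_zero_of_lt P (by omega), zero_mul]

theorem natDegree_TT (P : ℚ[X]) : (TT P).natDegree ≤ P.natDegree := by
  unfold TT
  refine natDegree_sum_le_of_forall_le _ _ fun l hl => ?_
  refine (natDegree_C_mul_le _ _).trans ?_
  rw [natDegree_bP]
  rw [mem_range] at hl
  omega

theorem TT_spec (P : ℚ[X]) (x : ℚ) :
    x * (TT P).eval x - (x - 1) * (TT P).eval (x - 1) = P.eval x := by
  conv_rhs => rw [newton P]
  unfold TT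
  simp only [eval_finsetSum, eval_mul, eval_C]
  rw [mul_sum, mul_sum, ← sum_sub_distrib]
  refine sum_congr rfl fun l _ => ?_
  have h := TOp_shift l x
  have h2 : (l : ℚ) + 1 ≠ 0 := by positivity
  calc x * (nc P l / ((l : ℚ) + 1) * (bP l).eval x) -
        (x - 1) * (nc P l / ((l : ℚ) + 1) * (bP l).eval (x - 1))
      = nc P l / ((l : ℚ) + 1) * (x * (bP l).eval x - (x - 1) * (bP l).eval (x - 1)) := by ring
    _ = nc P l / ((l : ℚ) + 1) * (((l : ℚ) + 1) * (bP l).eval x) := by rw [h]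
    _ = nc P l * (bP l).eval x := by field_simp

theorem YP_bP (F : ℕ × ℕ) (l : ℕ) : YP F (bP l) = yv F l := by
  rw [TOp_YP_eq F (bP l) (natDegree_bP l).le]
  simp only [TOp_nc_bP, ite_mul, one_mul, zero_mul, sum_ite_eq', mem_range]
  rw [if_pos (by omega)]

theorem YP_add (F : ℕ × ℕ) (P Q : ℚ[X]) : YP F (P + Q) = YP F P + YP F Q := by
  rw [TOp_YP_eq F (P + Q) (natDegree_add_le P Q), TOp_YP_eq F P (le_max_left _ Q.natDegree),
    TOp_YP_eq F Q (le_max_right P.natDegree _), ← sum_add_distrib]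
  refine sum_congr rfl fun l _ => ?_
  rw [TOp_nc_add]
  ring

theorem YP_C_mul (F : ℕ × ℕ) (c : ℚ) (P : ℚ[X]) : YP F (C c * P) = c * YP F P := by
  rw [TOp_YP_eq F (C c * P) (natDegree_C_mul_le c P), TOp_YP_eq F P le_rfl, mul_sum]
  refine sum_congr rfl fun l _ => ?_
  rw [TOp_nc_C_mul]
  ring

private theorem TOp_YP_zero (F : ℕ × ℕ) : YP F 0 = 0 := by
  have h := YP_C_mul F 0 0
  rw [C_0, zero_mul, zero_mul] at h
  exact h

private theorem TOp_YP_sum (F : ℕ × ℕ) (s : Finset ℕ) (c : ℕ → ℚ) (Q : ℕ → ℚ[X]) :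
    YP F (∑ l ∈ s, C (c l) * Q l) = ∑ l ∈ s, c l * YP F (Q l) := by
  induction s using Finset.induction_on with
  | empty => simp [TOp_YP_zero]
  | insert a s ha ih => rw [sum_insert ha, sum_insert ha, YP_add, YP_C_mul, ih]

private theorem TOp_De_zero (e : ℤ) : De e 0 = 0 := by
  have h := De_C_mul e 0 0
  rw [C_0, zero_mul, zero_mul] at h
  exact h

private theorem TOp_De_sum1 (s : Finset ℕ) (c : ℕ → ℚ) (Q : ℕ → ℚ[X]) :
    De 0 (∑ l ∈ s, C (c l) * Q l) = ∑ l ∈ s, C (c l) * De 0 (Q l) := by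
  induction s using Finset.induction_on with
  | empty => simp [TOp_De_zero]
  | insert a s ha ih => rw [sum_insert ha, sum_insert ha, De_add, De_C_mul, ih]

private theorem TOp_De_sum (s : Finset ℕ) (c : ℕ → ℚ) (Q : ℕ → ℚ[X]) (r : ℕ) :
    (De 0)^[r] (∑ l ∈ s, C (c l) * Q l) = ∑ l ∈ s, C (c l) * (De 0)^[r] (Q l) := by
  induction r generalizing Q with
  | zero => rfl
  | succ r ih =>
    rw [Function.iterate_succ_apply, TOp_De_sum1, ih]
    rfl

private theorem TOp_X_sum (l : ℕ) :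
    X * (∑ q ∈ range l, C ((-1) ^ (l - 1 - q) / ((q : ℚ) + 1)) * bP q) =
      bP l - C ((-1) ^ l) := by
  induction l with
  | zero => simp [TOp_bP_zero]
  | succ l ih =>
    have h1 : ∑ q ∈ range (l + 1), C ((-1) ^ (l + 1 - 1 - q) / ((q : ℚ) + 1)) * bP q =
        C (1 / ((l : ℚ) + 1)) * bP l -
          ∑ q ∈ range l, C ((-1) ^ (l - 1 - q) / ((q : ℚ) + 1)) * bP q := by
      rw [sum_range_succ, Nat.add_sub_cancel, Nat.sub_self, pow_zero]
      have h2 : ∑ q ∈ range l, C ((-1) ^ (l - q) / ((q : ℚ) + 1)) * bP q =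
          - ∑ q ∈ range l, C ((-1) ^ (l - 1 - q) / ((q : ℚ) + 1)) * bP q := by
        rw [← sum_neg_distrib]
        refine sum_congr rfl fun q hq => ?_
        rw [mem_range] at hq
        have h3 : l - q = (l - 1 - q) + 1 := by omega
        rw [h3, pow_succ, ← neg_mul, ← C_neg]
        congr 2
        ring
      rw [h2]
      ring
    rw [h1, mul_sub, ih]
    have h4 : X * (C (1 / ((l : ℚ) + 1)) * bP l) = bP (l + 1) + bP l := by
      have h5 : X * (C (1 / ((l : ℚ) + 1)) * bP l) = C (1 / ((l : ℚ) + 1)) * (X * bP l) := by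
        ring
      rw [h5, TOp_X_mul, ← mul_assoc, ← C_mul]
      have h6 : 1 / ((l : ℚ) + 1) * ((l : ℚ) + 1) = 1 := by
        have : (l : ℚ) + 1 ≠ 0 := by positivity
        field_simp
      rw [h6, C_1, one_mul]
    rw [h4, pow_succ]
    have h7 : (C ((-1) ^ l * -1) : ℚ[X]) = - C ((-1) ^ l) := by
      rw [← C_neg]
      congr 1
      ring
    rw [h7]
    ring

private theorem TOp_eval_zero (l : ℕ) : (bP l).eval 0 = (-1) ^ l := by
  have h := congrArg (Polynomial.eval 0) (TOp_X_sum l)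
  rw [eval_mul, eval_X, zero_mul, eval_sub, eval_C] at h
  linarith

private theorem TOp_De_bP (l : ℕ) :
    De 0 (bP l) = ∑ q ∈ range l, C ((-1) ^ (l - 1 - q) / ((q : ℚ) + 1)) * bP q := by
  have h1 := De_spec 0 (bP l)
  have h2 := TOp_X_sum l
  have h3 : X * De 0 (bP l) = bP l - C ((-1) ^ l) := by
    rw [Int.cast_zero, C_0, sub_zero, TOp_eval_zero] at h1
    conv_rhs => rw [h1]
    ring
  exact mul_left_cancel₀ X_ne_zero (h3.trans h2.symm)

private theorem TOp_dc_zero (r : ℕ) {l j : ℕ} (h : l < j) : dc r l j = 0 := by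
  induction r generalizing l with
  | zero =>
    unfold dc
    rw [if_neg (by omega)]
  | succ r ih =>
    unfold dc
    refine sum_eq_zero fun q hq => ?_
    rw [mem_range] at hq
    rw [ih (by omega), mul_zero]

theorem De_iter_bP (r l : ℕ) :
    (De 0)^[r] (bP l) = ∑ j ∈ range (l + 1), C (dc r l j) * bP j := by
  induction r generalizing l with
  | zero =>
    unfold dc
    rw [Function.iterate_zero, id, sum_eq_single l]
    · rw [if_pos rfl, C_1, one_mul]
    · intro j _ hj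
      rw [if_neg (Ne.symm hj), C_0, zero_mul]
    · intro h
      exact absurd (mem_range.2 (Nat.lt_succ_self l)) h
  | succ r ih =>
    rw [Function.iterate_succ_apply, TOp_De_bP, TOp_De_sum]
    have h1 : ∀ q ∈ range l, C ((-1) ^ (l - 1 - q) / ((q : ℚ) + 1)) * (De 0)^[r] (bP q) =
        ∑ j ∈ range (l + 1), C ((-1) ^ (l - 1 - q) / ((q : ℚ) + 1) * dc r q j) * bP j := by
      intro q hq
      rw [mem_range] at hq
      rw [ih q, mul_sum]
      have h2 : ∑ j ∈ range (q + 1), C ((-1) ^ (l - 1 - q) / ((q : ℚ) + 1)) * (C (dc r q j) * bP j) =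
          ∑ j ∈ range (l + 1), C ((-1) ^ (l - 1 - q) / ((q : ℚ) + 1)) * (C (dc r q j) * bP j) := by
        refine sum_subset (fun x hx => ?_) fun x _ hx => ?_
        · rw [mem_range] at hx ⊢
          omega
        · rw [mem_range] at hx
          rw [TOp_dc_zero r (by omega), C_0, zero_mul, mul_zero]
      rw [h2]
      refine sum_congr rfl fun j _ => ?_
      rw [C_mul, mul_assoc]
    rw [sum_congr rfl h1, sum_comm]
    refine sum_congr rfl fun j _ => ?_
    rw [← sum_mul]
    congr 1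
    rw [← map_sum]
    congr 1

/-- the recursion of `Y_F` -/
theorem YP_rec (F : ℕ × ℕ) (P : ℚ[X]) : YP F P = - ∑ G ∈ Sub F, (cf F G : ℚ) *
    (YP G ((De 0)^[kk F G - 1] (TT P)) -
      if G = (0, 0) then ((De 0)^[kk F G - 1] (TT P)).eval 0 else 0) := by
  have h1 : ∀ G ∈ Sub F, (cf F G : ℚ) *
    (YP G ((De 0)^[kk F G - 1] (TT P)) -
      if G = (0, 0) then ((De 0)^[kk F G - 1] (TT P)).eval 0 else 0) =
      ∑ l ∈ range (P.natDegree + 1), nc P l / ((l : ℚ) + 1) * ((cf F G : ℚ) *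
        ∑ j ∈ range (l + 1), dc (kk F G - 1) l j *
          (yv G j - if G = (0, 0) then (-1) ^ j else 0)) := by
    intro G _
    have h2 : (De 0)^[kk F G - 1] (TT P) = ∑ l ∈ range (P.natDegree + 1),
        C (nc P l / ((l : ℚ) + 1)) *
          ∑ j ∈ range (l + 1), C (dc (kk F G - 1) l j) * bP j := by
      unfold TT
      rw [TOp_De_sum]
      exact sum_congr rfl fun l _ => by rw [De_iter_bP]
    have h3 : YP G ((De 0)^[kk F G - 1] (TT P)) = ∑ l ∈ range (P.natDegree + 1),
        nc P l / ((l : ℚ) + 1) * ∑ j ∈ range (l + 1), dc (kk F G - 1) l j * yv G j := by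
      rw [h2, TOp_YP_sum]
      refine sum_congr rfl fun l _ => ?_
      rw [TOp_YP_sum]
      congr 1
      exact sum_congr rfl fun j _ => by rw [YP_bP]
    have h4 : (if G = (0, 0) then ((De 0)^[kk F G - 1] (TT P)).eval 0 else 0) =
        ∑ l ∈ range (P.natDegree + 1), nc P l / ((l : ℚ) + 1) *
          ∑ j ∈ range (l + 1), dc (kk F G - 1) l j * (if G = (0, 0) then (-1) ^ j else 0) := by
      by_cases hG : G = (0, 0)
      · simp only [if_pos hG]
        rw [h2, eval_finsetSum]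
        refine sum_congr rfl fun l _ => ?_
        rw [eval_mul, eval_C, eval_finsetSum]
        congr 1
        refine sum_congr rfl fun j _ => ?_
        rw [eval_mul, eval_C, TOp_eval_zero]
      · simp only [if_neg hG, mul_zero, sum_const_zero]
    rw [h3, h4, ← sum_sub_distrib, mul_sum]
    refine sum_congr rfl fun l _ => ?_
    have h5 : ∑ j ∈ range (l + 1), dc (kk F G - 1) l j *
          (yv G j - if G = (0, 0) then (-1) ^ j else 0) =
        ∑ j ∈ range (l + 1), dc (kk F G - 1) l j * yv G j -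
        ∑ j ∈ range (l + 1), dc (kk F G - 1) l j * (if G = (0, 0) then (-1) ^ j else 0) := by
      rw [← sum_sub_distrib]
      exact sum_congr rfl fun j _ => by ring
    rw [h5]
    ring
  rw [sum_congr rfl h1, sum_comm, ← sum_neg_distrib]
  unfold YP
  refine sum_congr rfl fun l _ => ?_
  rw [yv_eq, ← mul_sum]
  ring

end Pool.K3
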