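import Pool.Agent.Lib.K3.Defs

/-! K3, module XInt (180 lines): denominators of `H_i(e)`, `X_F(k, e)` and of the pole × pole entries.

PROOF. `L` is any natural number divisible by `1, .., m`. `hz_int`: `L^i hz i e` is a sum of `± (L/n)^i`, `1 ≤ n ≤ m`
(for `|e| ≤ m`). `pp_int`: let `L` be divisible by `1..m`, `M1, M2` be multiples of `L` and of `e - f` (`e ≠ f`). Then
`M1^k M2^j L^w pp X g k e j f` is an integer if `L^(r+w) X r e`, `L^(r+w) X r f`, `L^w g e`, `L^w g f` are (`r ≥ 1`): in the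
first sum of `pp` the term with `X r e` has the denominator `(e-f)^(j+k-r) L^(r+w)`; use `j` factors from `M2^j` and `k-r`
factors from `M1^k` for `(e-f)`, the remaining `r` factors of `M1^k` for `L^r`. The term with `g f`: `(e-f)^(j+k) L^w`.
The second sum is symmetric. If `e = f` (then `M1`, `M2` multiples of `L` suffice): `L^(k+j+w) X (k+j) e`.
`Xv_int`: strong induction on `F`, then on `e` from `0` upwards and downwards (`Xv_zero`, `Xv_succ`): for `-m ≤ x < m` all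
numbers `x`, `x+1` have absolute value `≤ m`; `pp_int` with `M1 = M2 = L`, `f = 0` and `e - f = x` divides `L` for `x ≠ 0`,
`|x| ≤ m`. -/

open Finset

namespace Pool.K3

/-- the integers in `ℚ` -/
private def XIntR : Subring ℚ := (Int.castRingHom ℚ).range

private theorem XInt_mem {q : ℚ} : q ∈ XIntR ↔ ∃ z : ℤ, q = z := by
  constructor
  · rintro ⟨z, hz⟩
    exact ⟨z, by rw [← hz]; simp⟩
  · rintro ⟨z, rfl⟩
    exact ⟨z, by simp⟩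

private theorem XInt_int (z : ℤ) : (z : ℚ) ∈ XIntR := XInt_mem.2 ⟨z, rfl⟩

private theorem XInt_nat (n : ℕ) : (n : ℚ) ∈ XIntR := XInt_mem.2 ⟨n, by simp⟩

/-- `L / x` is an integer -/
private theorem XInt_div {L : ℕ} {x : ℤ} (h : x ∣ (L : ℤ)) : (L : ℚ) * (x : ℚ)⁻¹ ∈ XIntR := by
  by_cases hx : x = 0
  · subst hx
    simp
  · obtain ⟨c, hc⟩ := h
    have h1 : (L : ℚ) = (x : ℚ) * c := by exact_mod_cast hc
    have hx' : (x : ℚ) ≠ 0 := by exact_mod_cast hx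
    have h2 : (L : ℚ) * (x : ℚ)⁻¹ = (c : ℚ) := by
      rw [h1]
      field_simp
    rw [h2]
    exact XInt_int c

private theorem XInt_dvd {m L : ℕ} (hL : ∀ q, 1 ≤ q → q ≤ m → q ∣ L) {x : ℤ} (hx : x ≠ 0)
    (hxm : |x| ≤ m) : x ∣ (L : ℤ) := by
  have h1 : x.natAbs ∣ L := by
    refine hL _ (Int.natAbs_pos.2 hx) ?_
    have h2 : ((x.natAbs : ℕ) : ℤ) = |x| := by simp
    omega
  exact Int.natAbs_dvd.1 (Int.natCast_dvd_natCast.2 h1)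

private theorem XInt_inv {m L : ℕ} (hL : ∀ q, 1 ≤ q → q ≤ m → q ∣ L) {x : ℤ}
    (hxm : |x| ≤ m) : (L : ℚ) * (x : ℚ)⁻¹ ∈ XIntR := by
  by_cases hx : x = 0
  · subst hx
    simp
  · exact XInt_div (XInt_dvd hL hx hxm)

/-- sums of increments -/
private theorem XInt_zsum {m : ℕ} (c : ℚ) (g : ℤ → ℚ) (hg : ∀ x : ℤ, |x| ≤ m → c * g x ∈ XIntR)
    {e : ℤ} (he : |e| ≤ m) : c * zsum g e ∈ XIntR := by
  rw [abs_le] at he
  unfold zsum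
  split_ifs with h
  · rw [mul_sum]
    refine XIntR.sum_mem fun n hn => hg _ ?_
    rw [mem_range] at hn
    rw [abs_le]
    omega
  · rw [mul_neg, mul_sum]
    refine XIntR.neg_mem (XIntR.sum_mem fun n hn => hg _ ?_)
    rw [mem_range] at hn
    rw [abs_le]
    omega

private theorem XInt_hz {m L : ℕ} (hL : ∀ q, 1 ≤ q → q ≤ m → q ∣ L) (i : ℕ) {e : ℤ}
    (he : |e| ≤ m) : (L : ℚ) ^ i * hz i e ∈ XIntR := by
  rw [hz_eq_zsum]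
  refine XInt_zsum _ _ (fun x hx => ?_) he
  rw [← mul_pow]
  exact XIntR.pow_mem (XInt_inv hL hx) i

theorem hz_int {m L : ℕ} (hL : ∀ q, 1 ≤ q → q ≤ m → q ∣ L) (i : ℕ) {e : ℤ} (he : |e| ≤ m) :
    ∃ z : ℤ, (L : ℚ) ^ i * hz i e = z :=
  XInt_mem.1 (XInt_hz hL i he)

theorem hq_int {m L : ℕ} (hL : ∀ q, 1 ≤ q → q ≤ m → q ∣ L) (F : ℕ × ℕ) {e : ℤ} (he : |e| ≤ m) :
    ∃ z : ℤ, (L : ℚ) ^ wt F * hq F e = z := by
  refine XInt_mem.1 ?_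
  have h : (L : ℚ) ^ wt F * hq F e = ((L : ℚ) ^ 1 * hz 1 e) ^ F.1 * ((L : ℚ) ^ 2 * hz 2 e) ^ F.2 := by
    unfold wt hq
    rw [pow_add, pow_mul, mul_pow, mul_pow, pow_one]
    ring
  rw [h]
  exact XIntR.mul_mem (XIntR.pow_mem (XInt_hz hL 1 he) _) (XIntR.pow_mem (XInt_hz hL 2 he) _)

/-- one term of the first sum of `pp` -/
private theorem XInt_term {L M1 M2 d a x y s c : ℚ} {k j r w : ℕ} (hr : r ≤ k)
    (ha : M1 = L * a) (haI : a ∈ XIntR) (h1 : M1 * d⁻¹ ∈ XIntR) (h2 : M2 * d⁻¹ ∈ XIntR)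
    (hx : L ^ (r + w) * x ∈ XIntR) (hy : L ^ w * y ∈ XIntR) (hs : s ∈ XIntR) (hc : c ∈ XIntR) :
    M1 ^ k * M2 ^ j * L ^ w * (s * c * d⁻¹ ^ (j + k - r) * (x - (-d)⁻¹ ^ r * y)) ∈ XIntR := by
  obtain ⟨q, rfl⟩ : ∃ q, k = q + r := ⟨k - r, by omega⟩
  have e1 : j + (q + r) - r = j + q := by omega
  have key : M1 ^ (q + r) * M2 ^ j * L ^ w *
      (s * c * d⁻¹ ^ (j + (q + r) - r) * (x - (-d)⁻¹ ^ r * y)) =
      s * c * (M2 * d⁻¹) ^ j * (M1 * d⁻¹) ^ q *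
        (a ^ r * (L ^ (r + w) * x) - (-(M1 * d⁻¹)) ^ r * (L ^ w * y)) := by
    have e2 : (-d)⁻¹ = -d⁻¹ := inv_neg
    have e3 : (-(M1 * d⁻¹)) ^ r = M1 ^ r * (-d⁻¹) ^ r := by
      rw [← mul_pow]; congr 1; ring
    have e4 : M1 ^ r = L ^ r * a ^ r := by rw [ha, mul_pow]
    rw [e1, e2, e3, pow_add M1, pow_add d⁻¹, mul_pow M2, mul_pow M1, pow_add L]
    have e5 : M1 ^ q * M1 ^ r * M2 ^ j * L ^ w *
        (s * c * (d⁻¹ ^ j * d⁻¹ ^ q) * (x - (-d⁻¹) ^ r * y)) =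
        s * c * (M2 ^ j * d⁻¹ ^ j) * (M1 ^ q * d⁻¹ ^ q) *
        (M1 ^ r * (L ^ w * x) - M1 ^ r * (-d⁻¹) ^ r * (L ^ w * y)) := by ring
    rw [e5]
    congr 2
    rw [e4]
    ring
  rw [key]
  refine XIntR.mul_mem (XIntR.mul_mem (XIntR.mul_mem (XIntR.mul_mem hs hc)
    (XIntR.pow_mem h2 _)) (XIntR.pow_mem h1 _)) (XIntR.sub_mem ?_ ?_)
  · exact XIntR.mul_mem (XIntR.pow_mem haI _) hx
  · exact XIntR.mul_mem (XIntR.pow_mem (XIntR.neg_mem h1) _) hy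

private theorem XInt_pp {L M1 M2 w : ℕ} (h1 : L ∣ M1) (h2 : L ∣ M2) {k j : ℕ} (hk : 1 ≤ k)
    (hj : 1 ≤ j) {e f : ℤ} (h3 : e ≠ f → (e - f) ∣ (M1 : ℤ) ∧ (e - f) ∣ (M2 : ℤ))
    (X : ℕ → ℤ → ℚ) (g : ℤ → ℚ)
    (hX : ∀ r, 1 ≤ r → r ≤ k + j → (L : ℚ) ^ (r + w) * X r e ∈ XIntR ∧
      (L : ℚ) ^ (r + w) * X r f ∈ XIntR)
    (hg : (L : ℚ) ^ w * g e ∈ XIntR ∧ (L : ℚ) ^ w * g f ∈ XIntR) :
    (M1 : ℚ) ^ k * (M2 : ℚ) ^ j * (L : ℚ) ^ w * pp X g k e j f ∈ XIntR := by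
  obtain ⟨a, ha⟩ := h1
  obtain ⟨b, hb⟩ := h2
  have ha' : (M1 : ℚ) = (L : ℚ) * a := by exact_mod_cast ha
  have hb' : (M2 : ℚ) = (L : ℚ) * b := by exact_mod_cast hb
  unfold pp
  split_ifs with hef
  · have e1 : (M1 : ℚ) ^ k * (M2 : ℚ) ^ j * (L : ℚ) ^ w * X (k + j) e =
        (a : ℚ) ^ k * (b : ℚ) ^ j * ((L : ℚ) ^ (k + j + w) * X (k + j) e) := by
      rw [ha', hb', mul_pow, mul_pow, pow_add, pow_add]
      ring
    rw [e1]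
    exact XIntR.mul_mem (XIntR.mul_mem (XIntR.pow_mem (XInt_nat a) _)
      (XIntR.pow_mem (XInt_nat b) _)) (hX (k + j) (by omega) le_rfl).1
  · obtain ⟨d1, d2⟩ := h3 hef
    have i1 : (M1 : ℚ) * ((e : ℚ) - f)⁻¹ ∈ XIntR := by
      have := XInt_div d1
      push_cast at this
      exact this
    have i2 : (M2 : ℚ) * ((e : ℚ) - f)⁻¹ ∈ XIntR := by
      have := XInt_div d2
      push_cast at this
      exact this
    have en : (-((e : ℚ) - f)) = (f : ℚ) - e := by ring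
    have fn : (-((f : ℚ) - e)) = (e : ℚ) - f := by ring
    have i1' : (M1 : ℚ) * ((f : ℚ) - e)⁻¹ ∈ XIntR := by
      rw [← en, inv_neg, mul_neg]
      exact XIntR.neg_mem i1
    have i2' : (M2 : ℚ) * ((f : ℚ) - e)⁻¹ ∈ XIntR := by
      rw [← en, inv_neg, mul_neg]
      exact XIntR.neg_mem i2
    have hm1 : (-1 : ℚ) ∈ XIntR := XIntR.neg_mem XIntR.one_mem
    rw [mul_add, mul_sum, mul_sum]
    refine XIntR.add_mem (XIntR.sum_mem fun r hr => ?_) (XIntR.sum_mem fun r hr => ?_)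
    · rw [mem_Icc] at hr
      have h := XInt_term (j := j) (s := (-1) ^ (k - r))
        (c := ((j + k - r - 1).choose (k - r) : ℚ)) hr.2 ha' (XInt_nat a) i1 i2
        (hX r hr.1 (by omega)).1 hg.2 (XIntR.pow_mem hm1 _) (XInt_nat _)
      rw [en] at h
      exact h
    · rw [mem_Icc] at hr
      have h := XInt_term (j := k) (s := (-1) ^ (j - r))
        (c := ((k + j - r - 1).choose (j - r) : ℚ)) hr.2 hb' (XInt_nat b) i2' i1'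
        (hX r hr.1 (by omega)).2 hg.1 (XIntR.pow_mem hm1 _) (XInt_nat _)
      rw [fn] at h
      rw [mul_comm ((M1 : ℚ) ^ k) ((M2 : ℚ) ^ j)]
      exact h

theorem pp_int {L M1 M2 w : ℕ} (h1 : L ∣ M1) (h2 : L ∣ M2) {k j : ℕ} (hk : 1 ≤ k) (hj : 1 ≤ j)
    {e f : ℤ} (h3 : e ≠ f → (e - f) ∣ (M1 : ℤ) ∧ (e - f) ∣ (M2 : ℤ)) (X : ℕ → ℤ → ℚ) (g : ℤ → ℚ)
    (hX : ∀ r, 1 ≤ r → r ≤ k + j → (∃ z : ℤ, (L : ℚ) ^ (r + w) * X r e = z) ∧
      ∃ z : ℤ, (L : ℚ) ^ (r + w) * X r f = z)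
    (hg : (∃ z : ℤ, (L : ℚ) ^ w * g e = z) ∧ ∃ z : ℤ, (L : ℚ) ^ w * g f = z) :
    ∃ z : ℤ, (M1 : ℚ) ^ k * (M2 : ℚ) ^ j * (L : ℚ) ^ w * pp X g k e j f = z :=
  XInt_mem.1 (XInt_pp h1 h2 hk hj h3 X g
    (fun r hr hr' => ⟨XInt_mem.2 (hX r hr hr').1, XInt_mem.2 (hX r hr hr').2⟩)
    ⟨XInt_mem.2 hg.1, XInt_mem.2 hg.2⟩)

private theorem XInt_Xv {m L : ℕ} (hL : ∀ q, 1 ≤ q → q ≤ m → q ∣ L) (N : ℕ) :
    ∀ F : ℕ × ℕ, F.1 + F.2 ≤ N → ∀ k, 1 ≤ k → ∀ e : ℤ, |e| ≤ m →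
      (L : ℚ) ^ (k + wt F) * Xv F k e ∈ XIntR := by
  induction N with
  | zero =>
    intro F hF k hk e he
    rw [Xv_eq]
    refine XInt_zsum _ _ (fun x hx => ?_) he
    have hS : inc Xv F k x = 0 := by
      unfold inc
      refine sum_eq_zero fun G hG => ?_
      have := lt_of_mem_Sub hG
      omega
    rw [hS, mul_zero]
    exact XIntR.zero_mem
  | succ N ih =>
    intro F hF k hk e he
    rw [Xv_eq]
    refine XInt_zsum _ _ (fun x hx => ?_) he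
    unfold inc
    rw [mul_sum]
    refine XIntR.sum_mem fun G hG => ?_
    have hlt := lt_of_mem_Sub hG
    obtain ⟨hw, hk1⟩ := wt_add_kk hG
    have h0m : |(0 : ℤ)| ≤ m := by simp
    have h := XInt_pp (L := L) (M1 := L) (M2 := L) (w := wt G) dvd_rfl dvd_rfl hk hk1
      (e := x) (f := 0) (fun hx0 => by
        rw [sub_zero]
        exact ⟨XInt_dvd hL hx0 hx, XInt_dvd hL hx0 hx⟩) (Xv G) (hq G)
      (fun r hr _ => ⟨ih G (by omega) r hr x hx, ih G (by omega) r hr 0 h0m⟩)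
      ⟨XInt_mem.2 (hq_int hL G hx), XInt_mem.2 (hq_int hL G h0m)⟩
    have e1 : (L : ℚ) ^ (k + wt F) * ((cf F G : ℚ) * pp (Xv G) (hq G) k x (kk F G) 0) =
        (cf F G : ℚ) *
          ((L : ℚ) ^ k * (L : ℚ) ^ kk F G * (L : ℚ) ^ wt G * pp (Xv G) (hq G) k x (kk F G) 0) := by
      rw [← hw, pow_add, pow_add]
      ring
    rw [e1]
    exact XIntR.mul_mem (XInt_nat _) h

theorem Xv_int {m L : ℕ} (hL : ∀ q, 1 ≤ q → q ≤ m → q ∣ L) (F : ℕ × ℕ) {k : ℕ} (hk : 1 ≤ k)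
    {e : ℤ} (he : |e| ≤ m) : ∃ z : ℤ, (L : ℚ) ^ (k + wt F) * Xv F k e = z :=
  XInt_mem.1 (XInt_Xv hL (F.1 + F.2) F le_rfl k hk e he)

end Pool.K3
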