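import Pool.Agent.Lib.K3.YInt
import Pool.Agent.Lib.K3.XInt
import Pool.Agent.Lib.K3.TOp

/-! K3, module DInt (230 lines): the scaled matrix is integral.

PROOF. `L = lcmUpto m`, divisible by `1..m`. Node `e = ev m a`: `|e| ≤ m`; for two nodes `e ≠ f`, `|e - f|` is
`≤ max a (2m-1-a)` and `≤ max b (2m-1-b)` (`e - f = a - b`), so `e - f` divides the two lcm's `M_a = lcmUpto (max a (2m-1-a))`,
and `L ∣ M_a` because `max a (2m-1-a) ≥ m`. `d d`: clear. `d u`: `M_b^k (e-f)^-k L^(wt G) hq G e` (`hq_int`). `d q`: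
`C_i(e)` integer, `L ∣ lcmUpto (m+i)`. `u u`: `pp_int` (`w = wt (G+G')`), `Xv_int`. `q q`: `YP_int` with `n = i + j`,
`lcmUpto (i+j+1)` divides `lcmUpto (m+i)` and `lcmUpto (m+j)` (monotone: `i+j+1 ≤ m+i`), `wt` additive. `q u`:
`qu F C_i k e`: `L^r c_r` integer (`iv_De_iter`, `n = m`), `L^(k-r+wt F) Xv F (k-r) e` integer; `R = (De e)^[k] C_i`: `L^k R`
integer valued of degree `≤ m - 1`: `YP_int` for `C (L^k) * R` with `n = m - 1` (and `YP F (C c * P) = c * YP F P`, which is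
`YP_C_mul` of TOp; or apply linearity by hand), `L^k R(e)` integer, `hq_int`. The total power `k + wt F`,
`F = G + F'`: `L^(k + wt G + wt F')` divides `M_a^k L^(wt G) (lcmUpto (m+i))^(wt F')`. -/

open Finset Polynomial

namespace Pool.K3

private abbrev DIntR : Subring ℚ := (Int.castRingHom ℚ).range

private theorem DInt_mem {q : ℚ} : q ∈ DIntR ↔ ∃ z : ℤ, q = z := by
  constructor
  · rintro ⟨z, hz⟩
    exact ⟨z, by rw [← hz]; simp⟩
  · rintro ⟨z, rfl⟩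
    exact ⟨z, by simp⟩

private theorem DInt_nat (n : ℕ) : (n : ℚ) ∈ DIntR := DInt_mem.2 ⟨n, by simp⟩

private theorem DInt_dvd1 {m n : ℕ} (h : m ≤ n) : ∀ q, 1 ≤ q → q ≤ m → q ∣ Nat.lcmUpto n := by
  intro q h1 h2
  unfold Nat.lcmUpto
  exact Finset.dvd_lcm (f := id) (mem_Icc.2 ⟨h1, h2.trans h⟩)

private theorem DInt_dvd2 {m n : ℕ} (h : m ≤ n) : Nat.lcmUpto m ∣ Nat.lcmUpto n := by
  conv_lhs => unfold Nat.lcmUpto
  refine Finset.lcm_dvd fun q hq => ?_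
  rw [mem_Icc] at hq
  exact DInt_dvd1 h q hq.1 hq.2

private theorem DInt_wt (F G : ℕ × ℕ) : wt (F + G) = wt F + wt G := by
  unfold wt
  rw [Prod.fst_add, Prod.snd_add]
  ring

private theorem DInt_ev {m : ℕ} (a : Fin (2 * m)) : |ev m a| ≤ m := by
  have := a.2
  unfold ev
  rw [abs_le]
  constructor <;> omega

private theorem DInt_max {m : ℕ} (a : Fin (2 * m)) : m ≤ max (a : ℕ) (2 * m - 1 - a) := by
  have := a.2
  rw [le_max_iff]
  omega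

private theorem DInt_node {m : ℕ} (a b : Fin (2 * m)) (h : ev m a ≠ ev m b) :
    (ev m a - ev m b) ∣ ((Nat.lcmUpto (max (a : ℕ) (2 * m - 1 - a)) : ℕ) : ℤ) := by
  have ha := a.2
  have hb := b.2
  unfold ev at *
  have h1 : ((a : ℕ) : ℤ) - m - (((b : ℕ) : ℤ) - m) = (a : ℤ) - b := by ring
  rw [h1]
  have h2 : (((a : ℕ) : ℤ) - ((b : ℕ) : ℤ)).natAbs ∣
      Nat.lcmUpto (max (a : ℕ) (2 * m - 1 - a)) := by
    refine DInt_dvd1 le_rfl _ ?_ ?_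
    · omega
    · rw [le_max_iff]
      omega
  exact Int.natAbs_dvd.1 (Int.natCast_dvd_natCast.2 h2)

private theorem DInt_node' {m : ℕ} (a b : Fin (2 * m)) (h : ev m a ≠ ev m b) :
    (ev m a - ev m b) ∣ ((Nat.lcmUpto (max (b : ℕ) (2 * m - 1 - b)) : ℕ) : ℤ) := by
  have h1 := DInt_node b a h.symm
  rw [← neg_sub, neg_dvd]
  exact h1

private theorem DInt_inv {L : ℕ} {x : ℤ} (h : x ≠ 0 → x ∣ (L : ℤ)) :
    (L : ℚ) * ((x : ℚ))⁻¹ ∈ DIntR := by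
  by_cases hx : x = 0
  · subst hx
    simp
  · obtain ⟨c, hc⟩ := h hx
    have h1 : (L : ℚ) = (x : ℚ) * c := by exact_mod_cast hc
    have hx' : (x : ℚ) ≠ 0 := by exact_mod_cast hx
    refine DInt_mem.2 ⟨c, ?_⟩
    rw [h1]
    field_simp

private theorem DInt_du {m : ℕ} (a b : Fin (2 * m)) (k : ℕ) (G : ℕ × ℕ) :
    ((Nat.lcmUpto (max (b : ℕ) (2 * m - 1 - b)) : ℕ) : ℚ) ^ k * ((Nat.lcmUpto m : ℕ) : ℚ) ^ wt G *
      ((((ev m a : ℚ) - (ev m b : ℚ))⁻¹) ^ k * hq G (ev m a)) ∈ DIntR := by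
  have h1 : ((Nat.lcmUpto (max (b : ℕ) (2 * m - 1 - b)) : ℕ) : ℚ) *
      ((ev m a : ℚ) - (ev m b : ℚ))⁻¹ ∈ DIntR := by
    have := DInt_inv (L := Nat.lcmUpto (max (b : ℕ) (2 * m - 1 - b))) (x := ev m a - ev m b)
      (fun h => DInt_node' a b (sub_ne_zero.1 h))
    rwa [Int.cast_sub] at this
  have h2 : ((Nat.lcmUpto m : ℕ) : ℚ) ^ wt G * hq G (ev m a) ∈ DIntR :=
    DInt_mem.2 (hq_int (DInt_dvd1 le_rfl) G (DInt_ev a))
  have h3 := DIntR.mul_mem (DIntR.pow_mem h1 k) h2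
  convert h3 using 1
  ring

private theorem DInt_dq {m : ℕ} (a : Fin (2 * m)) (i : ℕ) (G : ℕ × ℕ) :
    ((Nat.lcmUpto (m + i) : ℕ) : ℚ) ^ wt G * ((cP i).eval (ev m a : ℚ) * hq G (ev m a)) ∈
      DIntR := by
  have h1 : (cP i).eval (ev m a : ℚ) ∈ DIntR := DInt_mem.2 (iv_cP i (ev m a))
  have h2 : ((Nat.lcmUpto (m + i) : ℕ) : ℚ) ^ wt G * hq G (ev m a) ∈ DIntR :=
    DInt_mem.2 (hq_int (DInt_dvd1 (by omega)) G (DInt_ev a))
  have h3 := DIntR.mul_mem h1 h2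
  convert h3 using 1
  ring

private theorem DInt_uu {m : ℕ} (a b : Fin (2 * m)) {k j : ℕ} (hk : 1 ≤ k) (hj : 1 ≤ j)
    (G G' : ℕ × ℕ) :
    (((Nat.lcmUpto (max (a : ℕ) (2 * m - 1 - a)) : ℕ) : ℚ) ^ k *
      ((Nat.lcmUpto m : ℕ) : ℚ) ^ wt G) *
    (((Nat.lcmUpto (max (b : ℕ) (2 * m - 1 - b)) : ℕ) : ℚ) ^ j *
      ((Nat.lcmUpto m : ℕ) : ℚ) ^ wt G') *
      pp (Xv (G + G')) (hq (G + G')) k (ev m a) j (ev m b) ∈ DIntR := by
  have h1 := pp_int (L := Nat.lcmUpto m) (M1 := Nat.lcmUpto (max (a : ℕ) (2 * m - 1 - a)))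
    (M2 := Nat.lcmUpto (max (b : ℕ) (2 * m - 1 - b))) (w := wt (G + G'))
    (DInt_dvd2 (DInt_max a)) (DInt_dvd2 (DInt_max b)) hk hj (e := ev m a) (f := ev m b)
    (fun h => ⟨DInt_node a b h, DInt_node' a b h⟩) (Xv (G + G')) (hq (G + G'))
    (fun r hr1 _ => ⟨Xv_int (DInt_dvd1 le_rfl) _ hr1 (DInt_ev a),
      Xv_int (DInt_dvd1 le_rfl) _ hr1 (DInt_ev b)⟩)
    ⟨hq_int (DInt_dvd1 le_rfl) _ (DInt_ev a), hq_int (DInt_dvd1 le_rfl) _ (DInt_ev b)⟩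
  have h2 := DInt_mem.2 h1
  rw [DInt_wt] at h2
  convert h2 using 1
  ring

private theorem DInt_qq {m : ℕ} {i j : ℕ} (hi : i < m) (hj : j < m) (G G' : ℕ × ℕ) :
    ((Nat.lcmUpto (m + i) : ℕ) : ℚ) ^ wt G * ((Nat.lcmUpto (m + j) : ℕ) : ℚ) ^ wt G' *
      YP (G + G') (cP i * cP j) ∈ DIntR := by
  have h1 := YP_int (G + G') ((iv_cP i).mul (iv_cP j)) (n := i + j)
    (natDegree_mul_le.trans (by rw [natDegree_cP, natDegree_cP]))
  have h2 := DInt_mem.2 h1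
  obtain ⟨c, hc⟩ := DInt_dvd2 (m := i + j + 1) (n := m + i) (by omega)
  obtain ⟨d, hd⟩ := DInt_dvd2 (m := i + j + 1) (n := m + j) (by omega)
  rw [DInt_wt] at h2
  have h3 := DIntR.mul_mem (DIntR.mul_mem (DIntR.pow_mem (DInt_nat c) (wt G))
    (DIntR.pow_mem (DInt_nat d) (wt G'))) h2
  convert h3 using 1
  rw [hc, hd]
  push_cast
  ring

private theorem DInt_deg (e : ℤ) (P : ℚ[X]) (r : ℕ) :
    ((De e)^[r] P).natDegree ≤ P.natDegree := by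
  induction r with
  | zero => exact le_rfl
  | succ r ih =>
    rw [Function.iterate_succ_apply', natDegree_De]
    omega

private theorem DInt_evr {m i : ℕ} (hi : i < m) (e : ℤ) (r : ℕ) :
    ((Nat.lcmUpto m : ℕ) : ℚ) ^ r * ((De e)^[r] (cP i)).eval (e : ℚ) ∈ DIntR := by
  have h1 := iv_De_iter (iv_cP i) (n := m) (by rw [natDegree_cP]; omega) e r
  have h2 := h1 e
  rw [eval_mul, eval_C] at h2
  exact DInt_mem.2 h2

private theorem DInt_qu {m i : ℕ} (hi : i < m) (F : ℕ × ℕ) {k : ℕ} {e : ℤ}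
    (he : |e| ≤ m) : ((Nat.lcmUpto m : ℕ) : ℚ) ^ (k + wt F) * qu F (cP i) k e ∈ DIntR := by
  unfold qu
  rw [mul_sub, mul_add, mul_sum]
  refine DIntR.sub_mem (DIntR.add_mem (DIntR.sum_mem fun r hr => ?_) ?_) ?_
  · rw [mem_range] at hr
    have h1 := DInt_evr hi e r
    have h2 : ((Nat.lcmUpto m : ℕ) : ℚ) ^ ((k - r) + wt F) * Xv F (k - r) e ∈ DIntR :=
      DInt_mem.2 (Xv_int (DInt_dvd1 le_rfl) F (by omega) he)
    have h3 := DIntR.mul_mem h1 h2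
    have e1 : k + wt F = r + ((k - r) + wt F) := by omega
    rw [e1, pow_add]
    convert h3 using 1
    ring
  · have h1 := iv_De_iter (iv_cP i) (n := m) (by rw [natDegree_cP]; omega) e k
    have h2 := YP_int F h1 (n := m - 1)
      ((natDegree_C_mul_le _ _).trans ((DInt_deg e (cP i) k).trans
        (by rw [natDegree_cP]; omega)))
    rw [YP_C_mul] at h2
    have e1 : m - 1 + 1 = m := by omega
    rw [e1] at h2
    have h3 := DInt_mem.2 h2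
    rw [pow_add]
    convert h3 using 1
    ring
  · have h1 := DInt_evr hi e k
    have h2 : ((Nat.lcmUpto m : ℕ) : ℚ) ^ wt F * hq F e ∈ DIntR :=
      DInt_mem.2 (hq_int (DInt_dvd1 le_rfl) F he)
    have h3 := DIntR.mul_mem h1 h2
    rw [pow_add]
    convert h3 using 1
    ring

private theorem DInt_uq {m : ℕ} (a : Fin (2 * m)) {i : ℕ} (hi : i < m) (k : ℕ)
    (G G' : ℕ × ℕ) :
    (((Nat.lcmUpto (max (a : ℕ) (2 * m - 1 - a)) : ℕ) : ℚ) ^ k *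
      ((Nat.lcmUpto m : ℕ) : ℚ) ^ wt G) * ((Nat.lcmUpto (m + i) : ℕ) : ℚ) ^ wt G' *
      qu (G + G') (cP i) k (ev m a) ∈ DIntR := by
  have h1 := DInt_qu hi (G + G') (k := k) (DInt_ev a)
  obtain ⟨c, hc⟩ := DInt_dvd2 (DInt_max a)
  obtain ⟨d, hd⟩ := DInt_dvd2 (m := m) (n := m + i) (by omega)
  rw [DInt_wt] at h1
  have h2 := DIntR.mul_mem (DIntR.mul_mem (DIntR.pow_mem (DInt_nat c) k)
    (DIntR.pow_mem (DInt_nat d) (wt G'))) h1
  convert h2 using 1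
  rw [hc, hd]
  push_cast
  ring

private theorem DInt_pk (κ : Fin 3) : 1 ≤ (pk κ).1 := by
  fin_cases κ <;> simp [pk]

theorem DD_int (m : ℕ) (f g : Ix m) : ∃ z : ℤ, (sc m f : ℚ) * (sc m g : ℚ) * DD m f g = z := by
  refine DInt_mem.1 ?_
  rcases f with a | ⟨κ, a⟩ | ⟨κ, i⟩ <;> rcases g with b | ⟨κ', b⟩ | ⟨κ', j⟩
  · simp only [sc, DD]
    split_ifs
    · simp
    · simp
  · simp only [sc, DD]
    push_cast
    rw [one_mul]
    exact DInt_du a b (pk κ').1 (pk κ').2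
  · simp only [sc, DD]
    push_cast
    rw [one_mul]
    exact DInt_dq a j (qk κ')
  · simp only [sc, DD]
    push_cast
    rw [mul_one]
    exact DInt_du b a (pk κ).1 (pk κ).2
  · simp only [sc, DD]
    push_cast
    exact DInt_uu a b (DInt_pk κ) (DInt_pk κ') (pk κ).2 (pk κ').2
  · simp only [sc, DD]
    push_cast
    exact DInt_uq a j.2 (pk κ).1 (pk κ).2 (qk κ')
  · simp only [sc, DD]
    push_cast
    rw [mul_one]
    exact DInt_dq b i (qk κ)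
  · simp only [sc, DD]
    push_cast
    rw [mul_comm (((Nat.lcmUpto (m + i) : ℕ) : ℚ) ^ wt (qk κ))]
    exact DInt_uq b i.2 (pk κ').1 (pk κ').2 (qk κ)
  · simp only [sc, DD]
    push_cast
    exact DInt_qq i.2 j.2 (qk κ) (qk κ')

end Pool.K3
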