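import Pool.Agent.Lib.K3.IVal

/-! K3, module CSize (200 lines): the size of `C_i` and of its divided differences.

PROOF. `C_i(x) = ∏_(j<i) (x + [i/2] - j) / i!`, zeros `j - [i/2]`, `0 ≤ j < i`, i.e. the integers of
`[-[i/2], i - 1 - [i/2]]`. Bound (`i < m`, `|x| ≤ m`): if `x` is not a zero, then `x > i-1-[i/2]` and
`C_i(x) = C(x + [i/2], i) ≤ C(m + [i/2], i)` (`Nat.choose_le_choose`), or `x < -[i/2]` and
`|C_i(x)| = C(-x - [i/2] + i - 1, i) ≤ C(m + [i/2], i)` because `i - 1 - [i/2] ≤ [i/2]`.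
Derivatives. Let `P = ∏_(j ∈ S) (X - a_j)` with distinct integers `a_j`, `|S| = i`; `De e P` at `e` is
`∑_(j ∈ S) ∏_(j' ≠ j) (e - a_j')` (derivative; `De_spec` and `Polynomial.derivative`, `eval_derivative..`: `(De e P).eval e =
P.derivative.eval e`), `(De e (De e P)).eval e = ∑_(pairs) ∏ of the others`. If `e` is not a zero, every product is
`≤ |P(e)|` (the omitted factors have absolute value `≥ 1`); if `e = a_j0`: the products without `j0` vanish.. the product
omitting `j0` is, for consecutive `a_j`, at most `(i-1)!`, those omitting `j0` and another one are `≤ (i-1)!`. So after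
division by `i!` and with `AA m i ≥ 1`: `|(De e C_i).eval e| ≤ i AA m i`, `|(De e (De e C_i)).eval e| ≤ i² AA m i`.
For `x ≠ e`: `De_spec`: `|(De e P)(x)| ≤ |P(x)| + |P(e)|`. So `≤ 2 (m+1) AA`, then `≤ 4 (m+1)² AA`.
(An alternative for the values at `e`: the telescoping formula
`De e C_i = ∑_(k=1)^i (1/k) ρ_k C_(k-1)`. Or: any polynomial factor `(m+1)^c` instead is fine, tell helper46.) -/

open Finset Polynomial

namespace Pool.K3

/-- the monic polynomial `∏_(j<n) (X + h - j)` -/
private noncomputable def csPP (h n : ℕ) : ℚ[X] := ∏ j ∈ range n, (X + C ((h : ℚ) - (j : ℚ)))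

private noncomputable def csZ (h : ℕ) (e : ℤ) (n : ℕ) : ℚ :=
  ∏ j ∈ range n, max 1 |(e : ℚ) + h - j|

private theorem csZ_nonneg (h : ℕ) (e : ℤ) (n : ℕ) : 0 ≤ csZ h e n :=
  prod_nonneg fun _ _ => le_trans zero_le_one (le_max_left _ _)

private theorem csZ_succ (h : ℕ) (e : ℤ) (n : ℕ) :
    csZ h e (n + 1) = csZ h e n * max 1 |(e : ℚ) + h - n| := by
  unfold csZ
  rw [prod_range_succ]

private theorem csZ_mono (h : ℕ) (e : ℤ) (n : ℕ) : csZ h e n ≤ csZ h e (n + 1) := by
  rw [csZ_succ]
  exact le_mul_of_one_le_right (csZ_nonneg h e n) (le_max_left _ _)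

private theorem csZ_mul (h : ℕ) (e : ℤ) (n : ℕ) :
    |(e : ℚ) + h - n| * csZ h e n ≤ csZ h e (n + 1) := by
  rw [csZ_succ, mul_comm]
  exact mul_le_mul_of_nonneg_left (le_max_right _ _) (csZ_nonneg h e n)

private theorem csDe_one (e : ℤ) : De e 1 = 0 := by
  unfold De
  rw [divByMonic_eq_zero_iff (monic_X_sub_C _), degree_X_sub_C, degree_one]
  norm_num

private theorem csDe_zero (e : ℤ) : De e 0 = 0 := by
  have h := De_C_mul e 0 0
  rw [C_0, zero_mul, zero_mul] at h
  exact h

private theorem csDe_succ (h : ℕ) (e : ℤ) (n : ℕ) :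
    De e (csPP h (n + 1)) = csPP h n + C ((e : ℚ) + h - n) * De e (csPP h n) := by
  have h1 : csPP h (n + 1) = (X - C (e : ℚ)) * csPP h n + C ((e : ℚ) + h - n) * csPP h n := by
    unfold csPP
    rw [prod_range_succ]
    have h2 : (X + C ((h : ℚ) - (n : ℚ)) : ℚ[X]) = (X - C (e : ℚ)) + C ((e : ℚ) + h - n) := by
      rw [sub_add, ← C_sub]
      have : (e : ℚ) - (e + h - n) = -((h : ℚ) - n) := by ring
      rw [this, C_neg, sub_neg_eq_add]
    rw [h2]
    ring
  rw [h1, De_add, De_C_mul]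
  congr 1
  unfold De
  exact mul_divByMonic_cancel_left _ (monic_X_sub_C _)

private theorem csEval_succ (h : ℕ) (e : ℤ) (n : ℕ) :
    (csPP h (n + 1)).eval (e : ℚ) = ((e : ℚ) + h - n) * (csPP h n).eval (e : ℚ) := by
  unfold csPP
  rw [prod_range_succ, eval_mul, eval_add, eval_X, eval_C]
  ring

private theorem cs_bounds (h : ℕ) (e : ℤ) (n : ℕ) :
    |(csPP h n).eval (e : ℚ)| ≤ csZ h e n ∧
    |(De e (csPP h n)).eval (e : ℚ)| ≤ n * csZ h e n ∧
    |(De e (De e (csPP h n))).eval (e : ℚ)| ≤ (n : ℚ) ^ 2 * csZ h e n := by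
  induction n with
  | zero =>
    have h0 : csPP h 0 = 1 := by
      unfold csPP
      simp
    have h1 : csZ h e 0 = 1 := by
      unfold csZ
      simp
    rw [h0, csDe_one, csDe_zero, h1]
    simp
  | succ n ih =>
    obtain ⟨i0, i1, i2⟩ := ih
    have hZ := csZ_nonneg h e n
    have hm := csZ_mono h e n
    have hq := csZ_mul h e n
    have ha := abs_nonneg ((e : ℚ) + h - n)
    have hn : (0 : ℚ) ≤ n := Nat.cast_nonneg n
    refine ⟨?_, ?_, ?_⟩
    · rw [csEval_succ, abs_mul]
      exact le_trans (mul_le_mul_of_nonneg_left i0 ha) hq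
    · rw [csDe_succ, eval_add, eval_mul, eval_C]
      calc |(csPP h n).eval (e : ℚ) + ((e : ℚ) + h - n) * (De e (csPP h n)).eval (e : ℚ)|
          ≤ |(csPP h n).eval (e : ℚ)| + |((e : ℚ) + h - n) * (De e (csPP h n)).eval (e : ℚ)| :=
            abs_add_le _ _
        _ ≤ csZ h e n + |(e : ℚ) + h - n| * (n * csZ h e n) := by
            rw [abs_mul]
            exact add_le_add i0 (mul_le_mul_of_nonneg_left i1 ha)
        _ = csZ h e n + n * (|(e : ℚ) + h - n| * csZ h e n) := by ring
        _ ≤ csZ h e (n + 1) + n * csZ h e (n + 1) :=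
            add_le_add hm (mul_le_mul_of_nonneg_left hq hn)
        _ = ((n + 1 : ℕ) : ℚ) * csZ h e (n + 1) := by push_cast; ring
    · rw [csDe_succ, De_add, De_C_mul, eval_add, eval_mul, eval_C]
      have hZ1 := csZ_nonneg h e (n + 1)
      calc |(De e (csPP h n)).eval (e : ℚ) +
            ((e : ℚ) + h - n) * (De e (De e (csPP h n))).eval (e : ℚ)|
          ≤ |(De e (csPP h n)).eval (e : ℚ)| +
            |((e : ℚ) + h - n) * (De e (De e (csPP h n))).eval (e : ℚ)| := abs_add_le _ _
        _ ≤ n * csZ h e n + |(e : ℚ) + h - n| * ((n : ℚ) ^ 2 * csZ h e n) := by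
            rw [abs_mul]
            exact add_le_add i1 (mul_le_mul_of_nonneg_left i2 ha)
        _ = n * csZ h e n + (n : ℚ) ^ 2 * (|(e : ℚ) + h - n| * csZ h e n) := by ring
        _ ≤ n * csZ h e (n + 1) + (n : ℚ) ^ 2 * csZ h e (n + 1) :=
            add_le_add (mul_le_mul_of_nonneg_left hm hn)
              (mul_le_mul_of_nonneg_left hq (pow_nonneg hn 2))
        _ ≤ (((n + 1 : ℕ) : ℚ)) ^ 2 * csZ h e (n + 1) := by
            push_cast
            nlinarith

private theorem cs_desc (y i : ℕ) (hy : i ≤ y) :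
    ∏ j ∈ range i, ((y : ℚ) - j) = (y.descFactorial i : ℚ) := by
  rw [Nat.descFactorial_eq_prod_range, Nat.cast_prod]
  refine prod_congr rfl fun j hj => ?_
  have : j ≤ y := le_trans (le_of_lt (mem_range.1 hj)) hy
  rw [Nat.cast_sub this]

private theorem csZ_le {m i : ℕ} (hi : i < m) {e : ℤ} (he : |e| ≤ m) :
    csZ (i / 2) e i ≤ (i.factorial : ℚ) * ((m + i / 2).choose i : ℚ) := by
  have hM : (i.factorial : ℚ) * ((m + i / 2).choose i : ℚ) =
      ∏ j ∈ range i, (((m + i / 2 : ℕ) : ℚ) - j) := by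
    rw [cs_desc (m + i / 2) i (by omega), Nat.descFactorial_eq_factorial_mul_choose]
    push_cast
    ring
  rw [abs_le] at he
  rcases lt_trichotomy (e + (i / 2 : ℕ)) 0 with hy | hy | hy
  · -- negative
    rw [hM]
    unfold csZ
    rw [← prod_range_reflect]
    apply prod_le_prod
    · intro j _
      exact le_trans zero_le_one (le_max_left _ _)
    · intro j hj
      rw [mem_range] at hj
      have h1 : ((i - 1 - j : ℕ) : ℚ) = (i : ℚ) - 1 - j := by
        rw [Nat.cast_sub (by omega), Nat.cast_sub (by omega)]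
        simp
      rw [h1]
      have h2 : (e : ℚ) + ((i / 2 : ℕ) : ℚ) < 0 := by
        have h := (Int.cast_lt (R := ℚ)).2 hy
        rwa [Int.cast_add, Int.cast_natCast, Int.cast_zero] at h
      have h3 : (j : ℚ) + 1 ≤ i := by exact_mod_cast hj
      have h4 : (i : ℚ) ≤ 2 * ((i / 2 : ℕ) : ℚ) + 1 := by
        have : i ≤ 2 * (i / 2) + 1 := by omega
        exact_mod_cast this
      have h5 : -(m : ℚ) ≤ (e : ℚ) := by exact_mod_cast he.1
      have h6 : (i : ℚ) + 1 ≤ m := by exact_mod_cast hi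
      have h7 : (0 : ℚ) ≤ ((i / 2 : ℕ) : ℚ) := Nat.cast_nonneg _
      rw [max_le_iff]
      refine ⟨?_, ?_⟩
      · push_cast
        push_cast at h7
        linarith
      · rw [abs_le]
        push_cast at h2 h4 h7 ⊢
        constructor <;> linarith
  · -- zero
    have h0 : csZ (i / 2) e i ≤ (i.factorial : ℚ) := by
      unfold csZ
      rw [← prod_range_add_one_eq_factorial, Nat.cast_prod]
      apply prod_le_prod
      · intro j _
        exact le_trans zero_le_one (le_max_left _ _)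
      · intro j _
        have h2 : (e : ℚ) + ((i / 2 : ℕ) : ℚ) = 0 := by
          have h := congrArg (Int.cast : ℤ → ℚ) hy
          rwa [Int.cast_add, Int.cast_natCast, Int.cast_zero] at h
        rw [h2]
        have h3 : (0 : ℚ) ≤ j := Nat.cast_nonneg j
        rw [zero_sub, abs_neg, abs_of_nonneg h3, max_le_iff]
        push_cast
        constructor <;> linarith
    have h1 : 1 ≤ (m + i / 2).choose i := Nat.choose_pos (by omega)
    have h1' : (1 : ℚ) ≤ ((m + i / 2).choose i : ℚ) := by exact_mod_cast h1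
    calc csZ (i / 2) e i ≤ (i.factorial : ℚ) := h0
      _ ≤ _ := le_mul_of_one_le_right (Nat.cast_nonneg _) h1'
  · obtain ⟨y, hy2⟩ : ∃ y : ℕ, e + (i / 2 : ℕ) = y := ⟨(e + (i / 2 : ℕ)).toNat, by omega⟩
    have hy3 : (e : ℚ) + ((i / 2 : ℕ) : ℚ) = y := by
      have h := congrArg (Int.cast : ℤ → ℚ) hy2
      rwa [Int.cast_add, Int.cast_natCast, Int.cast_natCast] at h
    rcases Nat.lt_or_ge y i with hyi | hyi
    · -- a zero of the polynomial
      have h0 : csZ (i / 2) e i ≤ (i.factorial : ℚ) := by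
        unfold csZ
        rw [← prod_range_add_one_eq_factorial, Nat.cast_prod,
          ← prod_range_mul_prod_Ico _ (le_of_lt hyi), ← prod_range_mul_prod_Ico _ (le_of_lt hyi)]
        apply mul_le_mul
        · rw [← prod_range_reflect]
          apply prod_le_prod
          · intro j _
            exact le_trans zero_le_one (le_max_left _ _)
          · intro j hj
            rw [mem_range] at hj
            have h1 : ((y - 1 - j : ℕ) : ℚ) = (y : ℚ) - 1 - j := by
              rw [Nat.cast_sub (by omega), Nat.cast_sub (by omega)]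
              simp
            have h3 : (0 : ℚ) ≤ j := Nat.cast_nonneg j
            rw [hy3, h1, max_le_iff]
            push_cast
            refine ⟨by linarith, ?_⟩
            rw [abs_le]
            constructor <;> linarith
        · apply prod_le_prod
          · intro j _
            exact le_trans zero_le_one (le_max_left _ _)
          · intro j hj
            rw [mem_Ico] at hj
            have h3 : (y : ℚ) ≤ j := by exact_mod_cast hj.1
            have h4 : (0 : ℚ) ≤ y := Nat.cast_nonneg y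
            rw [hy3, max_le_iff]
            push_cast
            refine ⟨by linarith, ?_⟩
            rw [abs_le]
            constructor <;> linarith
        · exact prod_nonneg fun _ _ => le_trans zero_le_one (le_max_left _ _)
        · exact prod_nonneg fun _ _ => Nat.cast_nonneg _
      have h1 : 1 ≤ (m + i / 2).choose i := Nat.choose_pos (by omega)
      have h1' : (1 : ℚ) ≤ ((m + i / 2).choose i : ℚ) := by exact_mod_cast h1
      calc csZ (i / 2) e i ≤ (i.factorial : ℚ) := h0
        _ ≤ _ := le_mul_of_one_le_right (Nat.cast_nonneg _) h1'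
    · rw [hM]
      unfold csZ
      apply prod_le_prod
      · intro j _
        exact le_trans zero_le_one (le_max_left _ _)
      · intro j hj
        rw [mem_range] at hj
        have h3 : (j : ℚ) + 1 ≤ i := by exact_mod_cast hj
        have h4 : (i : ℚ) ≤ y := by exact_mod_cast hyi
        have h5 : (y : ℚ) ≤ ((m + i / 2 : ℕ) : ℚ) := by
          have : y ≤ m + i / 2 := by omega
          exact_mod_cast this
        rw [hy3, max_le_iff]
        refine ⟨by linarith, ?_⟩
        rw [abs_le]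
        constructor <;> linarith

theorem AA_pos {m i : ℕ} (hi : i < m) : 1 ≤ AA m i := by
  unfold AA
  have h1 : 1 ≤ (m + i / 2).choose i := Nat.choose_pos (by omega)
  exact_mod_cast h1

private theorem cs_cP (i : ℕ) : cP i = C (1 / (i.factorial : ℚ)) * csPP (i / 2) i := rfl

private theorem cs_fac (i : ℕ) : (0 : ℚ) < 1 / (i.factorial : ℚ) := by positivity

private theorem cs_scale {m i : ℕ} (hi : i < m) {e : ℤ} (he : |e| ≤ m) {c v : ℚ} (hc : 0 ≤ c)
    (hv : |v| ≤ c * csZ (i / 2) e i) : |1 / (i.factorial : ℚ) * v| ≤ c * AA m i := by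
  have h0 : (0 : ℚ) < (i.factorial : ℚ) := by positivity
  have h1 := csZ_le hi he
  rw [abs_mul, abs_of_pos (cs_fac i), one_div, inv_mul_le_iff₀ h0]
  calc |v| ≤ c * csZ (i / 2) e i := hv
    _ ≤ c * ((i.factorial : ℚ) * ((m + i / 2).choose i : ℚ)) := mul_le_mul_of_nonneg_left h1 hc
    _ = (i.factorial : ℚ) * (c * AA m i) := by
        unfold AA
        ring

theorem cP_size {m i : ℕ} (hi : i < m) {x : ℤ} (hx : |x| ≤ m) : |(cP i).eval (x : ℚ)| ≤ AA m i := by
  rw [cs_cP, eval_mul, eval_C]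
  have h := cs_scale hi hx (c := 1) zero_le_one
    (by rw [one_mul]; exact (cs_bounds (i / 2) x i).1)
  rwa [one_mul] at h

private theorem cs_De_at {m i : ℕ} (hi : i < m) {e : ℤ} (he : |e| ≤ m) :
    |(De e (cP i)).eval (e : ℚ)| ≤ i * AA m i := by
  rw [cs_cP, De_C_mul, eval_mul, eval_C]
  exact cs_scale hi he (Nat.cast_nonneg i) (cs_bounds (i / 2) e i).2.1

private theorem cs_De2_at {m i : ℕ} (hi : i < m) {e : ℤ} (he : |e| ≤ m) :
    |(De e (De e (cP i))).eval (e : ℚ)| ≤ (i : ℚ) ^ 2 * AA m i := by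
  rw [cs_cP, De_C_mul, De_C_mul, eval_mul, eval_C]
  exact cs_scale hi he (by positivity) (cs_bounds (i / 2) e i).2.2

private theorem cs_De_ne (P : ℚ[X]) {e x : ℤ} (hxe : x ≠ e) :
    |(De e P).eval (x : ℚ)| ≤ |P.eval (x : ℚ)| + |P.eval (e : ℚ)| := by
  have h1 := congrArg (fun R : ℚ[X] => R.eval (x : ℚ)) (De_spec e P)
  simp only [eval_add, eval_mul, eval_sub, eval_X, eval_C] at h1
  have h2 : ((x : ℚ) - e) * (De e P).eval (x : ℚ) = P.eval (x : ℚ) - P.eval (e : ℚ) := by
    linarith
  have h3 : (1 : ℚ) ≤ |(x : ℚ) - e| := by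
    have : 1 ≤ |x - e| := Int.one_le_abs (sub_ne_zero.2 hxe)
    exact_mod_cast this
  calc |(De e P).eval (x : ℚ)| ≤ |(x : ℚ) - e| * |(De e P).eval (x : ℚ)| :=
        le_mul_of_one_le_left (abs_nonneg _) h3
    _ = |P.eval (x : ℚ) - P.eval (e : ℚ)| := by rw [← abs_mul, h2]
    _ ≤ |P.eval (x : ℚ)| + |P.eval (e : ℚ)| := abs_sub _ _

theorem De_cP_size {m i : ℕ} (hi : i < m) {e x : ℤ} (he : |e| ≤ m) (hx : |x| ≤ m) :
    |(De e (cP i)).eval (x : ℚ)| ≤ 2 * (m + 1) * AA m i := by
  have hA := AA_pos hi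
  have him : (i : ℚ) + 1 ≤ m := by exact_mod_cast hi
  have h0 : (0 : ℚ) ≤ i := Nat.cast_nonneg i
  by_cases hxe : x = e
  · subst hxe
    have h1 := cs_De_at hi hx
    nlinarith
  · have h1 := cs_De_ne (cP i) hxe
    have h2 := cP_size hi hx
    have h3 := cP_size hi he
    nlinarith

theorem De2_cP_size {m i : ℕ} (hi : i < m) {e x : ℤ} (he : |e| ≤ m) (hx : |x| ≤ m) :
    |(De e (De e (cP i))).eval (x : ℚ)| ≤ 4 * (m + 1) ^ 2 * AA m i := by
  have hA := AA_pos hi
  have him : (i : ℚ) + 1 ≤ m := by exact_mod_cast hi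
  have h0 : (0 : ℚ) ≤ i := Nat.cast_nonneg i
  by_cases hxe : x = e
  · subst hxe
    have h1 := cs_De2_at hi hx
    have h2 : (i : ℚ) ^ 2 ≤ 4 * (m + 1) ^ 2 := by nlinarith
    calc _ ≤ (i : ℚ) ^ 2 * AA m i := h1
      _ ≤ _ := mul_le_mul_of_nonneg_right h2 (by linarith)
  · have h1 := cs_De_ne (De e (cP i)) hxe
    have h2 := De_cP_size hi he hx
    have h3 := De_cP_size hi he he
    have h4 : 2 * ((m : ℚ) + 1) * AA m i + 2 * (m + 1) * AA m i ≤ 4 * (m + 1) ^ 2 * AA m i := by
      have : (4 : ℚ) * (m + 1) ≤ 4 * (m + 1) ^ 2 := by nlinarith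
      nlinarith
    linarith

end Pool.K3
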