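import Pool.Agent.Lib.K3.Defs

/-! K3, module XSize (130 lines): trivial bounds for `H_i(e)`, `X_F(k, e)` and pole × pole entries.

PROOF. `|hz i e| ≤ |e| ≤ m` (terms of absolute value `≤ 1`), so `|hq F e| ≤ m^(F.1+F.2)`. `pp_size`: in `pp` all inverses
`(e-f)⁻¹` have absolute value `≤ 1` (`e ≠ f` integers), the binomial coefficients `C(j+k-r-1, k-r)`, `k, j ≤ 4`,
are `≤ 2^8`; so if `|X r e|, |X r f|, |g e|, |g f| ≤ B` then `|pp X g k e j f| ≤ 2^12 B` (at most 8 terms, each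
`≤ 2^8 · 2 B`). `Xv_size`: strong induction on `F`: `|inc| ≤ ∑_G c_FG 2^12 B_G ≤ 2^4 · 2^12 · B_G`, at most `m`
increments: `|Xv F k e| ≤ m 2^16 (2^20 (m+1))^(F.1+F.2-1+..)`: the stated bound has much room. -/

open Finset

namespace Pool.K3

private theorem xsize_zsum (g : ℤ → ℚ) {e : ℤ} {C : ℚ} {m : ℕ} (he : |e| ≤ m) (hC : 0 ≤ C)
    (h : ∀ x : ℤ, |x| ≤ m → |g x| ≤ C) : |zsum g e| ≤ m * C := by
  have he' := abs_le.1 he
  unfold zsum
  split_ifs with h0
  · have hn : ((e.toNat : ℕ) : ℚ) ≤ m := by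
      have : e.toNat ≤ m := by omega
      exact_mod_cast this
    calc |∑ x ∈ range e.toNat, g x| ≤ ∑ x ∈ range e.toNat, |g x| := abs_sum_le_sum_abs _ _
      _ ≤ ∑ x ∈ range e.toNat, C := by
          refine sum_le_sum fun x hx => h _ ?_
          have hx' := mem_range.1 hx
          rw [abs_le]
          constructor <;> omega
      _ = (e.toNat : ℚ) * C := by rw [sum_const, card_range, nsmul_eq_mul]
      _ ≤ m * C := mul_le_mul_of_nonneg_right hn hC
  · rw [abs_neg]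
    have hn : (((-e).toNat : ℕ) : ℚ) ≤ m := by
      have : (-e).toNat ≤ m := by omega
      exact_mod_cast this
    calc |∑ x ∈ range (-e).toNat, g (-((x : ℤ) + 1))| ≤
          ∑ x ∈ range (-e).toNat, |g (-((x : ℤ) + 1))| := abs_sum_le_sum_abs _ _
      _ ≤ ∑ x ∈ range (-e).toNat, C := by
          refine sum_le_sum fun x hx => h _ ?_
          have hx' := mem_range.1 hx
          rw [abs_le]
          constructor <;> omega
      _ = ((-e).toNat : ℚ) * C := by rw [sum_const, card_range, nsmul_eq_mul]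
      _ ≤ m * C := mul_le_mul_of_nonneg_right hn hC

private theorem xsize_inv (z : ℤ) : |((z : ℚ))⁻¹| ≤ 1 := by
  rcases eq_or_ne z 0 with rfl | hz
  · simp
  · rw [abs_inv]
    apply inv_le_one_of_one_le₀
    have : (1 : ℤ) ≤ |z| := Int.one_le_abs hz
    exact_mod_cast this

private theorem xsize_hz {m : ℕ} (i : ℕ) {e : ℤ} (he : |e| ≤ m) : |hz i e| ≤ m := by
  rw [hz_eq_zsum]
  have h := xsize_zsum (fun x : ℤ => ((x : ℚ)⁻¹) ^ i) (C := 1) he zero_le_one (fun x _ => by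
    show |((x : ℚ)⁻¹) ^ i| ≤ 1
    rw [abs_pow]
    exact pow_le_one₀ (abs_nonneg _) (xsize_inv x))
  rwa [mul_one] at h

theorem hq_size {m : ℕ} (F : ℕ × ℕ) {e : ℤ} (he : |e| ≤ m) : |hq F e| ≤ (m : ℚ) ^ (F.1 + F.2) := by
  unfold hq
  rw [abs_mul, abs_pow, abs_pow, pow_add]
  exact mul_le_mul (pow_le_pow_left₀ (abs_nonneg _) (xsize_hz 1 he) _)
    (pow_le_pow_left₀ (abs_nonneg _) (xsize_hz 2 he) _) (by positivity) (by positivity)

private theorem xsize_half {k j : ℕ} (hkj : k + j ≤ 4) (hj : 1 ≤ j) (x y : ℚ) (a : ℕ → ℚ) (b B : ℚ)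
    (hx : |x| ≤ 1) (hy : |y| ≤ 1) (ha : ∀ r, 1 ≤ r → r ≤ k + j → |a r| ≤ B) (hb : |b| ≤ B)
    (hB : 0 ≤ B) :
    |∑ r ∈ Icc 1 k, (-1) ^ (k - r) * ((j + k - r - 1).choose (k - r) : ℚ) *
        x ^ (j + k - r) * (a r - y ^ r * b)| ≤ 32 * B := by
  have hterm : ∀ r ∈ Icc 1 k, |(-1) ^ (k - r) * ((j + k - r - 1).choose (k - r) : ℚ) *
        x ^ (j + k - r) * (a r - y ^ r * b)| ≤ 8 * B := by
    intro r hr
    rw [mem_Icc] at hr
    have h1 : |((-1 : ℚ)) ^ (k - r)| = 1 := by rw [abs_pow, abs_neg, abs_one, one_pow]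
    have h2 : (((j + k - r - 1).choose (k - r) : ℕ) : ℚ) ≤ 4 := by
      have h3 : (j + k - r - 1).choose (k - r) ≤ 2 ^ (j + k - r - 1) := Nat.choose_le_two_pow _ _
      have h4 : 2 ^ (j + k - r - 1) ≤ 2 ^ 2 := Nat.pow_le_pow_right (by norm_num) (by omega)
      have h5 : (j + k - r - 1).choose (k - r) ≤ 4 := h3.trans h4
      exact_mod_cast h5
    have h6 : |x ^ (j + k - r)| ≤ 1 := by
      rw [abs_pow]
      exact pow_le_one₀ (abs_nonneg _) hx
    have h7 : |a r - y ^ r * b| ≤ 2 * B := by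
      have h8 := ha r hr.1 (by omega)
      have h9 : |y ^ r * b| ≤ B := by
        rw [abs_mul, abs_pow]
        calc |y| ^ r * |b| ≤ 1 * B :=
              mul_le_mul (pow_le_one₀ (abs_nonneg _) hy) hb (abs_nonneg _) zero_le_one
          _ = B := one_mul _
      have h10 := abs_sub (a r) (y ^ r * b)
      linarith
    rw [abs_mul, abs_mul, abs_mul, h1, one_mul, Nat.abs_cast]
    calc (((j + k - r - 1).choose (k - r) : ℕ) : ℚ) * |x ^ (j + k - r)| * |a r - y ^ r * b|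
        ≤ 4 * 1 * (2 * B) := by
          apply mul_le_mul (mul_le_mul h2 h6 (abs_nonneg _) (by norm_num)) h7 (abs_nonneg _)
            (by norm_num)
      _ = 8 * B := by ring
  calc _ ≤ ∑ r ∈ Icc 1 k, |(-1) ^ (k - r) * ((j + k - r - 1).choose (k - r) : ℚ) *
        x ^ (j + k - r) * (a r - y ^ r * b)| := abs_sum_le_sum_abs _ _
    _ ≤ ∑ r ∈ Icc 1 k, 8 * B := sum_le_sum hterm
    _ = (k : ℚ) * (8 * B) := by
        rw [sum_const, Nat.card_Icc, nsmul_eq_mul, Nat.add_sub_cancel]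
    _ ≤ 4 * (8 * B) := by
        apply mul_le_mul_of_nonneg_right _ (by positivity)
        have : k ≤ 4 := by omega
        exact_mod_cast this
    _ = 32 * B := by ring

theorem pp_size {k j : ℕ} (hk : 1 ≤ k) (hj : 1 ≤ j) (hkj : k + j ≤ 4) (X : ℕ → ℤ → ℚ) (g : ℤ → ℚ)
    {e f : ℤ} {B : ℚ} (hX : ∀ r, 1 ≤ r → r ≤ k + j → |X r e| ≤ B ∧ |X r f| ≤ B)
    (hg : |g e| ≤ B ∧ |g f| ≤ B) : |pp X g k e j f| ≤ 2 ^ 12 * B := by
  have hB : 0 ≤ B := (abs_nonneg _).trans hg.1
  unfold pp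
  split_ifs with h
  · have h1 := (hX (k + j) (by omega) le_rfl).1
    have h2 : B ≤ 2 ^ 12 * B := by nlinarith
    exact h1.trans h2
  · have hef : |(((e : ℚ) - f)⁻¹)| ≤ 1 := by
      have := xsize_inv (e - f)
      push_cast at this
      exact this
    have hfe : |(((f : ℚ) - e)⁻¹)| ≤ 1 := by
      have := xsize_inv (f - e)
      push_cast at this
      exact this
    have h1 := xsize_half hkj hj (((e : ℚ) - f)⁻¹) (((f : ℚ) - e)⁻¹) (fun r => X r e) (g f) B hef hfe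
      (fun r h1 h2 => (hX r h1 h2).1) hg.2 hB
    have h2 := xsize_half (k := j) (j := k) (by omega) hk (((f : ℚ) - e)⁻¹) (((e : ℚ) - f)⁻¹)
      (fun r => X r f) (g e) B hfe hef (fun r h1 h2 => (hX r h1 (by omega)).2) hg.1 hB
    refine (abs_add_le _ _).trans ?_
    have h3 : (32 : ℚ) * B + 32 * B ≤ 2 ^ 12 * B := by nlinarith
    exact (add_le_add h1 h2).trans h3

private theorem xsize_cf (F : ℕ × ℕ) (hF : F.1 + 2 * F.2 ≤ 3) : ∑ G ∈ Sub F, cf F G ≤ 8 := by
  obtain ⟨a, b⟩ := F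
  simp only at hF
  have ha : a ≤ 3 := by omega
  have hb : b ≤ 1 := by omega
  interval_cases b <;> interval_cases a <;> first | decide | omega

private theorem xsize_main {m : ℕ} (hm : 1 ≤ m) (n : ℕ) : ∀ (F : ℕ × ℕ), F.1 + F.2 = n →
    ∀ {k : ℕ}, 1 ≤ k → k + wt F ≤ 4 → ∀ {e : ℤ}, |e| ≤ m →
    |Xv F k e| ≤ (2 ^ 20 * (m + 1 : ℚ)) ^ n := by
  induction n using Nat.strong_induction_on with
  | _ n ih =>
    intro F hFn k hk hF e he
    have hm1 : (1 : ℚ) ≤ (m : ℚ) := by exact_mod_cast hm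
    have hbase : (1 : ℚ) ≤ 2 ^ 20 * (m + 1 : ℚ) := by nlinarith
    rcases Nat.eq_zero_or_pos n with hn0 | hn0
    · have h1 : F = (0, 0) := by
        ext <;> simp only <;> omega
      subst h1
      have h2 : Xv (0, 0) k e = 0 := by
        rw [Xv_eq]
        have : inc Xv (0, 0) k = fun _ => 0 := by
          funext x
          unfold inc
          have : Sub (0, 0) = ∅ := by decide
          rw [this, sum_empty]
        rw [this]
        unfold zsum
        split_ifs <;> simp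
      rw [h2, abs_zero]
      positivity
    · obtain ⟨C, hCdef⟩ : ∃ C : ℚ, C = (2 ^ 20 * (m + 1 : ℚ)) ^ (n - 1) := ⟨_, rfl⟩
      have hC0 : 0 ≤ C := by rw [hCdef]; positivity
      have hinc : ∀ x : ℤ, |x| ≤ m → |inc Xv F k x| ≤ 8 * (2 ^ 12 * C) := by
        intro x hx
        unfold inc
        have hG : ∀ G ∈ Sub F, |(cf F G : ℚ) * pp (Xv G) (hq G) k x (kk F G) 0| ≤
            (cf F G : ℚ) * (2 ^ 12 * C) := by
          intro G hG
          have h1 := lt_of_mem_Sub hG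
          have h2 := wt_add_kk hG
          rw [abs_mul, Nat.abs_cast]
          apply mul_le_mul_of_nonneg_left _ (Nat.cast_nonneg _)
          have hle : (2 ^ 20 * (m + 1 : ℚ)) ^ (G.1 + G.2) ≤ C := by
            rw [hCdef]
            exact pow_le_pow_right₀ hbase (by omega)
          have h0m : |(0 : ℤ)| ≤ m := by simp
          apply pp_size hk h2.2 (by omega)
          · intro r hr1 hr2
            have hwr : r + wt G ≤ 4 := by omega
            exact ⟨(ih (G.1 + G.2) (by omega) G rfl hr1 hwr hx).trans hle,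
              (ih (G.1 + G.2) (by omega) G rfl hr1 hwr h0m).trans hle⟩
          · have hmle : (m : ℚ) ^ (G.1 + G.2) ≤ (2 ^ 20 * (m + 1 : ℚ)) ^ (G.1 + G.2) :=
              pow_le_pow_left₀ (by positivity) (by nlinarith) _
            exact ⟨((hq_size G hx).trans hmle).trans hle, ((hq_size G h0m).trans hmle).trans hle⟩
        calc _ ≤ ∑ G ∈ Sub F, |(cf F G : ℚ) * pp (Xv G) (hq G) k x (kk F G) 0| :=
              abs_sum_le_sum_abs _ _
          _ ≤ ∑ G ∈ Sub F, (cf F G : ℚ) * (2 ^ 12 * C) := sum_le_sum hG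
          _ = ((∑ G ∈ Sub F, cf F G : ℕ) : ℚ) * (2 ^ 12 * C) := by
              rw [← sum_mul]
              push_cast
              rfl
          _ ≤ 8 * (2 ^ 12 * C) := by
              apply mul_le_mul_of_nonneg_right _ (by positivity)
              have h3 : F.1 + 2 * F.2 ≤ 3 := by
                unfold wt at hF
                omega
              exact_mod_cast xsize_cf F h3
      rw [Xv_eq]
      have h4 := xsize_zsum (inc Xv F k) he (by positivity : (0 : ℚ) ≤ 8 * (2 ^ 12 * C)) hinc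
      refine h4.trans ?_
      have h5 : (2 ^ 20 * (m + 1 : ℚ)) ^ n = (2 ^ 20 * (m + 1 : ℚ)) * C := by
        rw [hCdef, ← pow_succ']
        congr 1
        omega
      rw [h5]
      nlinarith [mul_nonneg (by positivity : (0 : ℚ) ≤ (m : ℚ)) hC0]

theorem Xv_size {m : ℕ} (hm : 1 ≤ m) (F : ℕ × ℕ) {k : ℕ} (hk : 1 ≤ k) (hF : k + wt F ≤ 4) {e : ℤ}
    (he : |e| ≤ m) : |Xv F k e| ≤ (2 ^ 20 * (m + 1 : ℚ)) ^ (F.1 + F.2) := by
  exact xsize_main hm (F.1 + F.2) F rfl hk hF he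

end Pool.K3
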