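import Pool.Agent.Lib.K3.YSize
import Pool.Agent.Lib.K3.XSize
import Pool.Agent.Lib.K3.CSize

/-! K3, module DSize (200 lines): the size of the entries.

PROOF. All bounds are of the form (absolute constant) `(m+1)^8` times the sizes, with much room: `1000^4 = 10^12`,
`(4m+2)^4 ≤ 4^4 (m+1)^4`, `(2^20 (m+1))^4 = 2^80 (m+1)^4`. `d d`: `≤ 1`. `d u`: `|(e-f)⁻¹| ≤ 1` or `0⁻¹ = 0`, `hq_size`.
`d q`: `cP_size`, `hq_size`. `u u`: `pp_size`, `Xv_size` (`r + wt F ≤ 4` for `r ≤ k + j`), `hq_size`. `q q`: `YP_size` with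
`M = AA m i * AA m j` (`natDegree (cP i * cP j) = i + j ≤ 2m - 1`). `q u` (`k = 1, 2`): `De_cP_size`, `De2_cP_size`,
`Xv_size`, `YP_size` with `M = 4 (m+1)² AA m i`, `hq_size`. `F.1 + F.2 ≤ wt F ≤ 4`. `1 ≤ AA m i`. -/

open Finset Polynomial

namespace Pool.K3

private theorem dsize_ev {m : ℕ} (a : Fin (2 * m)) : |ev m a| ≤ m := by
  have := a.2
  unfold ev
  rw [abs_le]
  constructor <;> omega

private theorem dsize_inv (z : ℤ) : |((z : ℚ))⁻¹| ≤ 1 := by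
  rcases eq_or_ne z 0 with rfl | hz
  · simp
  · rw [abs_inv]
    apply inv_le_one_of_one_le₀
    have : (1 : ℤ) ≤ |z| := Int.one_le_abs hz
    exact_mod_cast this

private theorem dsize_inv_pow (x y : ℤ) (k : ℕ) : |((((x : ℚ) - (y : ℚ))⁻¹) ^ k)| ≤ 1 := by
  rw [abs_pow]
  have h := dsize_inv (x - y)
  push_cast at h
  exact pow_le_one₀ (abs_nonneg _) h

private theorem dsize_M {m : ℕ} : (1 : ℚ) ≤ (m : ℚ) + 1 := by
  have : (0 : ℚ) ≤ m := Nat.cast_nonneg m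
  linarith

private theorem dsize_AA {m i : ℕ} (hi : i < m) : (1 : ℚ) ≤ AA m i := by
  exact_mod_cast AA_pos hi

/-- comparison of powers -/
private theorem dsize_pow {m a b : ℕ} (hab : a ≤ b) : ((m : ℚ) + 1) ^ a ≤ ((m : ℚ) + 1) ^ b :=
  pow_le_pow_right₀ dsize_M hab

private theorem dsize_hq {m n : ℕ} (F : ℕ × ℕ) (hF : F.1 + F.2 ≤ n) {e : ℤ} (he : |e| ≤ m) :
    |hq F e| ≤ ((m : ℚ) + 1) ^ n := by
  have h0 : (0 : ℚ) ≤ m := Nat.cast_nonneg m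
  exact (hq_size F he).trans ((pow_le_pow_left₀ h0 (by linarith) _).trans (dsize_pow hF))

private theorem dsize_Xv {m n : ℕ} (hm : 1 ≤ m) (F : ℕ × ℕ) (hn : F.1 + F.2 ≤ n) {k : ℕ}
    (hk : 1 ≤ k) (hF : k + wt F ≤ 4) {e : ℤ} (he : |e| ≤ m) :
    |Xv F k e| ≤ 2 ^ (20 * n) * ((m : ℚ) + 1) ^ n := by
  have h := Xv_size hm F hk hF he
  have h1 : (1 : ℚ) ≤ 2 ^ 20 * ((m : ℚ) + 1) := by
    have := dsize_M (m := m)
    nlinarith
  refine h.trans ((pow_le_pow_right₀ h1 hn).trans ?_)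
  rw [mul_pow, ← pow_mul]

private theorem dsize_YP {m n : ℕ} (F : ℕ × ℕ) (hn : F.1 + F.2 ≤ n) (hF : wt F ≤ 4) {P : ℚ[X]}
    (hm : 1 ≤ m) (h : P.natDegree ≤ 2 * m - 1) {M : ℚ} (hM0 : 0 ≤ M)
    (hM : ∀ x : ℤ, |x| ≤ m → |P.eval (x : ℚ)| ≤ M) :
    |YP F P| ≤ 2 ^ (10 * n + 8) * ((m : ℚ) + 1) ^ 4 * M := by
  have h1 := YP_size F hF hm h hM
  have h0 : (0 : ℚ) ≤ m := Nat.cast_nonneg m
  have e1 : (1000 : ℚ) ^ (F.1 + F.2) ≤ 2 ^ (10 * n) := by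
    calc (1000 : ℚ) ^ (F.1 + F.2) ≤ 1024 ^ (F.1 + F.2) := pow_le_pow_left₀ (by norm_num) (by norm_num) _
      _ ≤ 1024 ^ n := pow_le_pow_right₀ (by norm_num) hn
      _ = 2 ^ (10 * n) := by
        rw [pow_mul]
        norm_num
  have e2 : (4 * (m : ℚ) + 2) ^ wt F ≤ 2 ^ 8 * ((m : ℚ) + 1) ^ 4 := by
    calc (4 * (m : ℚ) + 2) ^ wt F ≤ (4 * (m : ℚ) + 2) ^ 4 := pow_le_pow_right₀ (by linarith) hF
      _ ≤ (4 * ((m : ℚ) + 1)) ^ 4 := pow_le_pow_left₀ (by linarith) (by linarith) _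
      _ = 2 ^ 8 * ((m : ℚ) + 1) ^ 4 := by
        rw [mul_pow]
        norm_num
  refine h1.trans ?_
  rw [pow_add 2 (10 * n) 8]
  have e3 : (1000 : ℚ) ^ (F.1 + F.2) * (4 * (m : ℚ) + 2) ^ wt F ≤
      2 ^ (10 * n) * (2 ^ 8 * ((m : ℚ) + 1) ^ 4) :=
    mul_le_mul e1 e2 (by positivity) (by positivity)
  refine (mul_le_mul_of_nonneg_right e3 hM0).trans (le_of_eq ?_)
  generalize (2 : ℚ) ^ (10 * n) = Z
  ring

private theorem dsize_pk (κ : Fin 3) : 1 ≤ (pk κ).1 ∧ (pk κ).1 + wt (pk κ).2 ≤ 2 ∧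
    (pk κ).2.1 + (pk κ).2.2 ≤ 1 := by
  fin_cases κ <;> simp [pk, wt]

private theorem dsize_qk (κ : Fin 4) : wt (qk κ) ≤ 2 ∧ (qk κ).1 + (qk κ).2 ≤ 2 := by
  fin_cases κ <;> simp [qk, wt]

private theorem dsize_wt (F G : ℕ × ℕ) : wt (F + G) = wt F + wt G := by
  unfold wt
  simp only [Prod.fst_add, Prod.snd_add]
  ring

/-- `K ≥ 2^a (m+1)^b` -/
private theorem dsize_K {m a b : ℕ} (ha : a ≤ 120) (hb : b ≤ 8) :
    (2 : ℚ) ^ a * ((m : ℚ) + 1) ^ b ≤ 2 ^ 120 * ((m : ℚ) + 1) ^ 8 := by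
  have h1 : (2 : ℚ) ^ a ≤ 2 ^ 120 := pow_le_pow_right₀ (by norm_num) ha
  have h2 := dsize_pow (m := m) hb
  have h3 := dsize_M (m := m)
  gcongr

private theorem dsize_du {m : ℕ} (κ : Fin 3) (a b : Fin (2 * m)) :
    |(((ev m a : ℚ) - (ev m b : ℚ))⁻¹) ^ (pk κ).1 * hq (pk κ).2 (ev m a)| ≤
      2 ^ 120 * ((m : ℚ) + 1) ^ 8 := by
  rw [abs_mul]
  have h1 := dsize_inv_pow (ev m a) (ev m b) (pk κ).1
  have h2 := dsize_hq (m := m) (n := 8) (pk κ).2 (by have := dsize_pk κ; omega) (dsize_ev a)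
  have h3 := dsize_K (m := m) (a := 0) (b := 8) (by norm_num) le_rfl
  calc _ ≤ 1 * ((m : ℚ) + 1) ^ 8 := mul_le_mul h1 h2 (abs_nonneg _) zero_le_one
    _ ≤ _ := by simpa using h3

private theorem dsize_dq {m : ℕ} (κ : Fin 4) (a : Fin (2 * m)) (i : Fin m) :
    |(cP i).eval (ev m a : ℚ) * hq (qk κ) (ev m a)| ≤
      2 ^ 120 * ((m : ℚ) + 1) ^ 8 * AA m i := by
  rw [abs_mul]
  have h1 := cP_size i.2 (dsize_ev a)
  have h2 := dsize_hq (m := m) (n := 8) (qk κ) (by have := dsize_qk κ; omega) (dsize_ev a)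
  have h3 := dsize_K (m := m) (a := 0) (b := 8) (by norm_num) le_rfl
  have hA := dsize_AA i.2
  calc _ ≤ (AA m i : ℚ) * ((m : ℚ) + 1) ^ 8 := mul_le_mul h1 h2 (abs_nonneg _) (by linarith)
    _ ≤ (AA m i : ℚ) * (2 ^ 120 * ((m : ℚ) + 1) ^ 8) := by
      refine mul_le_mul_of_nonneg_left ?_ (by linarith)
      simpa using h3
    _ = _ := by ring

private theorem dsize_uu {m : ℕ} (hm : 1 ≤ m) (κ κ' : Fin 3) (a b : Fin (2 * m)) :
    |pp (Xv ((pk κ).2 + (pk κ').2)) (hq ((pk κ).2 + (pk κ').2)) (pk κ).1 (ev m a) (pk κ').1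
      (ev m b)| ≤ 2 ^ 120 * ((m : ℚ) + 1) ^ 8 := by
  obtain ⟨h1, h2, h3⟩ := dsize_pk κ
  obtain ⟨h1', h2', h3'⟩ := dsize_pk κ'
  have hw := dsize_wt (pk κ).2 (pk κ').2
  have hs : ((pk κ).2 + (pk κ').2).1 + ((pk κ).2 + (pk κ').2).2 ≤ 2 := by
    simp only [Prod.fst_add, Prod.snd_add]
    omega
  have hB : ∀ e : ℤ, |e| ≤ m → |hq ((pk κ).2 + (pk κ').2) e| ≤ 2 ^ (20 * 2) * ((m : ℚ) + 1) ^ 2 := by
    intro e he
    refine (dsize_hq _ hs he).trans ?_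
    have h5 : (0 : ℚ) ≤ ((m : ℚ) + 1) ^ 2 := by positivity
    have h6 : (1 : ℚ) ≤ 2 ^ (20 * 2) := by norm_num
    calc ((m : ℚ) + 1) ^ 2 = 1 * ((m : ℚ) + 1) ^ 2 := (one_mul _).symm
      _ ≤ _ := mul_le_mul_of_nonneg_right h6 h5
  have key := pp_size h1 h1' (by omega) (Xv ((pk κ).2 + (pk κ').2)) (hq ((pk κ).2 + (pk κ').2))
    (e := ev m a) (f := ev m b) (B := 2 ^ (20 * 2) * ((m : ℚ) + 1) ^ 2)
    (fun r hr hr' => ⟨dsize_Xv hm _ hs hr (by omega) (dsize_ev a),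
      dsize_Xv hm _ hs hr (by omega) (dsize_ev b)⟩) ⟨hB _ (dsize_ev a), hB _ (dsize_ev b)⟩
  refine key.trans ?_
  have h4 := dsize_K (m := m) (a := 52) (b := 2) (by norm_num) (by norm_num)
  calc (2 : ℚ) ^ 12 * (2 ^ (20 * 2) * ((m : ℚ) + 1) ^ 2) = 2 ^ 52 * ((m : ℚ) + 1) ^ 2 := by
        rw [← mul_assoc, ← pow_add]
    _ ≤ _ := h4

private theorem dsize_qq {m : ℕ} (hm : 1 ≤ m) (κ κ' : Fin 4) (i j : Fin m) :
    |YP (qk κ + qk κ') (cP i * cP j)| ≤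
      2 ^ 120 * ((m : ℚ) + 1) ^ 8 * ((AA m i : ℚ) * AA m j) := by
  obtain ⟨h1, h2⟩ := dsize_qk κ
  obtain ⟨h1', h2'⟩ := dsize_qk κ'
  have hw := dsize_wt (qk κ) (qk κ')
  have hs : (qk κ + qk κ').1 + (qk κ + qk κ').2 ≤ 4 := by
    simp only [Prod.fst_add, Prod.snd_add]
    omega
  have hA := dsize_AA i.2
  have hA' := dsize_AA j.2
  have hdeg : (cP i * cP j).natDegree ≤ 2 * m - 1 := by
    refine natDegree_mul_le.trans ?_
    rw [natDegree_cP, natDegree_cP]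
    have := i.2
    have := j.2
    omega
  have h3 := dsize_YP (m := m) (n := 4) (qk κ + qk κ') hs (by omega) hm hdeg
    (M := (AA m i : ℚ) * AA m j) (by positivity) (fun x hx => by
      rw [eval_mul, abs_mul]
      exact mul_le_mul (cP_size i.2 hx) (cP_size j.2 hx) (abs_nonneg _) (by linarith))
  refine h3.trans (mul_le_mul_of_nonneg_right ?_ (by positivity))
  exact dsize_K (by norm_num) (by norm_num)

private theorem dsize_De {m i : ℕ} (hi : i < m) (r : ℕ) (hr : r ≤ 2) {e x : ℤ} (he : |e| ≤ m)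
    (hx : |x| ≤ m) : |((De e)^[r] (cP i)).eval (x : ℚ)| ≤ 4 * ((m : ℚ) + 1) ^ 2 * AA m i := by
  have hM := dsize_M (m := m)
  have hA := dsize_AA hi
  have h4 : ((m : ℚ) + 1) ≤ ((m : ℚ) + 1) ^ 2 := by nlinarith
  interval_cases r
  · refine (cP_size hi hx).trans ?_
    nlinarith [mul_le_mul_of_nonneg_right (show (1 : ℚ) ≤ 4 * ((m : ℚ) + 1) ^ 2 by nlinarith)
      (by linarith : (0 : ℚ) ≤ AA m i)]
  · refine (De_cP_size hi he hx).trans (mul_le_mul_of_nonneg_right ?_ (by linarith))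
    nlinarith
  · exact De2_cP_size hi he hx

private theorem dsize_De_deg (e : ℤ) (P : ℚ[X]) (r : ℕ) : ((De e)^[r] P).natDegree ≤ P.natDegree := by
  induction r with
  | zero => simp
  | succ r ih =>
    rw [Function.iterate_succ_apply', natDegree_De]
    omega

private theorem dsize_qu {m : ℕ} (hm : 1 ≤ m) (κ : Fin 3) (κ' : Fin 4) (a : Fin (2 * m))
    (i : Fin m) : |qu ((pk κ).2 + (qk κ')) (cP i) (pk κ).1 (ev m a)| ≤
      2 ^ 120 * ((m : ℚ) + 1) ^ 8 * AA m i := by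
  obtain ⟨h1, h2, h3⟩ := dsize_pk κ
  obtain ⟨h1', h2'⟩ := dsize_qk κ'
  have hw := dsize_wt (pk κ).2 (qk κ')
  have hs : ((pk κ).2 + qk κ').1 + ((pk κ).2 + qk κ').2 ≤ 3 := by
    simp only [Prod.fst_add, Prod.snd_add]
    omega
  obtain ⟨F, hF⟩ : ∃ F, F = (pk κ).2 + qk κ' := ⟨_, rfl⟩
  obtain ⟨k, hk⟩ : ∃ k, k = (pk κ).1 := ⟨_, rfl⟩
  rw [← hF] at hw hs ⊢
  rw [← hk] at h1 h2 ⊢
  have hk2 : k ≤ 2 := by omega
  have he := dsize_ev a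
  have hA := dsize_AA i.2
  have hM := dsize_M (m := m)
  set Q : ℚ := (m : ℚ) + 1 with hQ
  have hS : |∑ r ∈ range k, ((De (ev m a))^[r] (cP i)).eval (ev m a : ℚ) * Xv F (k - r) (ev m a)| ≤
      2 * ((4 * Q ^ 2 * AA m i) * (2 ^ 60 * Q ^ 3)) := by
    refine (abs_sum_le_sum_abs _ _).trans ?_
    have hb : ∀ r ∈ range k, |((De (ev m a))^[r] (cP i)).eval (ev m a : ℚ) *
        Xv F (k - r) (ev m a)| ≤ (4 * Q ^ 2 * AA m i) * (2 ^ 60 * Q ^ 3) := by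
      intro r hr
      have hr' := mem_range.1 hr
      rw [abs_mul]
      exact mul_le_mul (dsize_De i.2 r (by omega) he he)
        (dsize_Xv (n := 3) hm F hs (by omega) (by omega) he) (abs_nonneg _) (by positivity)
    refine (sum_le_sum hb).trans ?_
    rw [sum_const, card_range, nsmul_eq_mul]
    have hk' : (k : ℚ) ≤ 2 := by exact_mod_cast hk2
    exact mul_le_mul_of_nonneg_right hk' (by positivity)
  have hY : |YP F ((De (ev m a))^[k] (cP i))| ≤ 2 ^ 38 * Q ^ 4 * (4 * Q ^ 2 * AA m i) := by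
    refine dsize_YP (n := 3) F hs (by omega) hm ?_ (by positivity)
      (fun x hx => dsize_De i.2 k hk2 he hx)
    refine (dsize_De_deg _ _ _).trans ?_
    rw [natDegree_cP]
    have := i.2
    omega
  have hH : |((De (ev m a))^[k] (cP i)).eval (ev m a : ℚ) * hq F (ev m a)| ≤
      (4 * Q ^ 2 * AA m i) * Q ^ 3 := by
    rw [abs_mul]
    exact mul_le_mul (dsize_De i.2 k hk2 he he) (dsize_hq F hs he) (abs_nonneg _) (by positivity)
  have htri : |qu F (cP i) k (ev m a)| ≤ 2 * ((4 * Q ^ 2 * AA m i) * (2 ^ 60 * Q ^ 3)) +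
      2 ^ 38 * Q ^ 4 * (4 * Q ^ 2 * AA m i) + (4 * Q ^ 2 * AA m i) * Q ^ 3 := by
    unfold qu
    refine (abs_sub _ _).trans (add_le_add ((abs_add_le _ _).trans (add_le_add hS hY)) hH)
  refine htri.trans ?_
  have e5 : Q ^ 5 ≤ Q ^ 8 := pow_le_pow_right₀ hM (by norm_num)
  have e6 : Q ^ 6 ≤ Q ^ 8 := pow_le_pow_right₀ hM (by norm_num)
  have e8 : (0 : ℚ) ≤ Q ^ 8 := by positivity
  have e9 : 2 * ((4 * Q ^ 2) * (2 ^ 60 * Q ^ 3)) + 2 ^ 38 * Q ^ 4 * (4 * Q ^ 2) +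
      (4 * Q ^ 2) * Q ^ 3 ≤ 2 ^ 120 * Q ^ 8 := by
    have : 2 * ((4 * Q ^ 2) * (2 ^ 60 * Q ^ 3)) + 2 ^ 38 * Q ^ 4 * (4 * Q ^ 2) +
      (4 * Q ^ 2) * Q ^ 3 = (2 ^ 63 + 4) * Q ^ 5 + 2 ^ 40 * Q ^ 6 := by ring
    rw [this]
    nlinarith
  calc _ = (2 * ((4 * Q ^ 2) * (2 ^ 60 * Q ^ 3)) + 2 ^ 38 * Q ^ 4 * (4 * Q ^ 2) +
      (4 * Q ^ 2) * Q ^ 3) * AA m i := by ring
    _ ≤ _ := mul_le_mul_of_nonneg_right e9 (by linarith)

theorem DD_size {m : ℕ} (hm : 1 ≤ m) (f g : Ix m) :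
    |DD m f g| ≤ 2 ^ 120 * (m + 1) ^ 8 * ((sz m f : ℚ) * (sz m g : ℚ)) := by
  have hK : (1 : ℚ) ≤ 2 ^ 120 * ((m : ℚ) + 1) ^ 8 := by
    have := dsize_K (m := m) (a := 0) (b := 0) (by norm_num) (by norm_num)
    simpa using this
  rcases f with a | ⟨κ, a⟩ | ⟨κ, i⟩ <;> rcases g with b | ⟨κ', b⟩ | ⟨κ', j⟩
  · simp only [DD, sz, Nat.cast_one, mul_one]
    refine le_trans ?_ hK
    split_ifs <;> simp
  · simp only [DD, sz, Nat.cast_one, mul_one]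
    exact dsize_du κ' a b
  · simp only [DD, sz, Nat.cast_one, one_mul]
    exact dsize_dq κ' a j
  · simp only [DD, sz, Nat.cast_one, mul_one]
    exact dsize_du κ b a
  · simp only [DD, sz, Nat.cast_one, mul_one]
    exact dsize_uu hm κ κ' a b
  · simp only [DD, sz, Nat.cast_one, one_mul]
    exact dsize_qu hm κ κ' a j
  · simp only [DD, sz, Nat.cast_one, mul_one]
    exact dsize_dq κ b i
  · simp only [DD, sz, Nat.cast_one, mul_one]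
    exact dsize_qu hm κ' κ b i
  · simp only [DD, sz]
    exact dsize_qq hm κ κ' i j

end Pool.K3
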