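import Pool.Agent.Lib.K3.Defs

/-! K3, module DetBound (80 lines): Leibniz bound for a principal minor.

PROOF. `Matrix.det_apply'`: `|det| ≤ ∑_σ ∏_i |A (σ i) i| ≤ ∑_σ ∏_i B u(a (σ i)) u(a i) = n! B^n (∏_i u (a i))²` (`|sign| = 1`,
`Equiv.prod_comp`, `Fintype.card_perm`), and `∏_i u (a i) ≤ ∏_f u f` (`u ≥ 1`, `a` injective: image,
`Finset.prod_le_prod_of_subset_of_one_le'`). -/

open Finset

namespace Pool.K3

private theorem detBound_prod {κ ι : Type} [Fintype κ] [Fintype ι] [DecidableEq ι]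
    (a : κ → ι) (ha : Function.Injective a) (u : ι → ℝ) (hu : ∀ f, 1 ≤ u f) :
    ∏ i, u (a i) ≤ ∏ f, u f := by
  classical
  rw [← Finset.prod_image (s := univ) (g := a) (f := u) (fun x _ y _ h => ha h)]
  have h1 : (∏ f, u f) = (∏ f ∈ univ.image a, u f) * ∏ f ∈ univ \ univ.image a, u f := by
    rw [mul_comm]
    exact (Finset.prod_sdiff (subset_univ _)).symm
  rw [h1]
  have h0 : ∀ s : Finset ι, 1 ≤ ∏ f ∈ s, u f := by
    intro s
    induction s using Finset.induction_on with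
    | empty => simp
    | insert b s hb ih =>
      rw [Finset.prod_insert hb]
      exact one_le_mul_of_one_le_of_one_le (hu b) ih
  have h2 : 1 ≤ ∏ f ∈ univ \ univ.image a, u f := h0 _
  have h3 : 0 ≤ ∏ f ∈ univ.image a, u f :=
    Finset.prod_nonneg fun f _ => zero_le_one.trans (hu f)
  exact le_mul_of_one_le_right h3 h2

theorem det_bound {κ ι : Type} [Fintype κ] [DecidableEq κ] [Fintype ι] [DecidableEq ι]
    (M : ι → ι → ℤ) (a : κ → ι) (ha : Function.Injective a) (u : ι → ℝ) (hu : ∀ f, 1 ≤ u f) {B : ℝ}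
    (hB : 0 ≤ B) (h : ∀ f g, |(M f g : ℝ)| ≤ B * (u f * u g)) :
    |((Matrix.of fun i j => M (a i) (a j)).det : ℝ)| ≤
      (Fintype.card κ).factorial * B ^ Fintype.card κ * (∏ f, u f) ^ 2 := by
  have hu0 : ∀ f, 0 ≤ u f := fun f => zero_le_one.trans (hu f)
  have hP0 : 0 ≤ ∏ i, u (a i) := Finset.prod_nonneg fun i _ => hu0 _
  have hP := detBound_prod a ha u hu
  have hQ : (∏ i, u (a i)) ^ 2 ≤ (∏ f, u f) ^ 2 := pow_le_pow_left₀ hP0 hP 2
  have hterm : ∀ σ : Equiv.Perm κ, |(((Equiv.Perm.sign σ : ℤ) : ℝ) *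
      ∏ i, (M (a (σ i)) (a i) : ℝ))| ≤ B ^ Fintype.card κ * (∏ i, u (a i)) ^ 2 := by
    intro σ
    have hs : |((Equiv.Perm.sign σ : ℤ) : ℝ)| = 1 := by
      rcases Int.units_eq_one_or (Equiv.Perm.sign σ) with h1 | h1 <;> rw [h1] <;> simp
    rw [abs_mul, hs, one_mul, Finset.abs_prod]
    calc ∏ i, |(M (a (σ i)) (a i) : ℝ)| ≤ ∏ i, B * (u (a (σ i)) * u (a i)) :=
          Finset.prod_le_prod (fun i _ => abs_nonneg _) fun i _ => h _ _
      _ = B ^ Fintype.card κ * ((∏ i, u (a (σ i))) * ∏ i, u (a i)) := by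
          rw [Finset.prod_mul_distrib, Finset.prod_const, Finset.card_univ,
            Finset.prod_mul_distrib]
      _ = B ^ Fintype.card κ * (∏ i, u (a i)) ^ 2 := by
          rw [Equiv.prod_comp σ fun i => u (a i)]
          ring
  have hdet : ((Matrix.of fun i j => M (a i) (a j)).det : ℝ) =
      ∑ σ : Equiv.Perm κ, ((Equiv.Perm.sign σ : ℤ) : ℝ) * ∏ i, (M (a (σ i)) (a i) : ℝ) := by
    rw [Matrix.det_apply']
    push_cast
    rfl
  rw [hdet]
  calc |∑ σ : Equiv.Perm κ, ((Equiv.Perm.sign σ : ℤ) : ℝ) * ∏ i, (M (a (σ i)) (a i) : ℝ)|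
      ≤ ∑ σ : Equiv.Perm κ, |(((Equiv.Perm.sign σ : ℤ) : ℝ) *
          ∏ i, (M (a (σ i)) (a i) : ℝ))| := Finset.abs_sum_le_sum_abs _ _
    _ ≤ ∑ _σ : Equiv.Perm κ, B ^ Fintype.card κ * (∏ i, u (a i)) ^ 2 :=
        Finset.sum_le_sum fun σ _ => hterm σ
    _ = (Fintype.card κ).factorial * (B ^ Fintype.card κ * (∏ i, u (a i)) ^ 2) := by
        rw [Finset.sum_const, Finset.card_univ, Fintype.card_perm, nsmul_eq_mul]
    _ ≤ (Fintype.card κ).factorial * (B ^ Fintype.card κ * (∏ f, u f) ^ 2) := by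
        refine mul_le_mul_of_nonneg_left ?_ (by positivity)
        exact mul_le_mul_of_nonneg_left hQ (pow_nonneg hB _)
    _ = (Fintype.card κ).factorial * B ^ Fintype.card κ * (∏ f, u f) ^ 2 := by ring

end Pool.K3
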