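import Pool.Agent.Lib.K3.Dual

/-! K3, module World (150 lines): at a vanishing prime all sums of weight `≤ 4` vanish.

PROOF. `S(φ) = ∑ t : ZMod p, φ t`, `u = t⁻¹`, `H1, H2 = HH p 1, HH p 2`. For every `F`,
`0 = S(hm F (t+1) - hm F t) = ∑_(G ∈ Sub F) c_FG S(u^kk hm G)` (shift invariance `Equiv.addRight 1`; `hm_succ`), or
directly with `HH_succ` and `ring`. The list of `(k, F)`, `k ≥ 1`, `k + wt F ≤ 4` (13 cases):
`(1..4,(0,0))`: `sum_inv_pow` (`p ≥ 7`). `(1,(1,0))`: from `H1²`: `2 S(u H1) + S(u²) = 0`.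
`(2,(1,0))`: `Van`. `(1,(0,1))`: from `H1 H2`: `S(u² H1) + S(u H2) + S(u³) = 0`.
`(1,(2,0))`: from `H1³`: `3 S(u H1²) + 3 S(u² H1) + S(u³) = 0`. `(3,(1,0))`: reflection (`HH_neg_one`):
`S(u³ H1) = - S(u³ (H1 + u))`, so `2 S(u³ H1) = - S(u⁴) = 0`. `(2,(0,1))`: from `H2²`: `2 S(u² H2) + S(u⁴) = 0`.
`(2,(2,0))`: `sum_dual`. `(1,(1,1))`: from `H1² H2`: `S(u² H1²) + 2 S(u H1 H2) + 2 S(u³ H1) + S(u² H2) + S(u⁴) = 0`
(expand `(H1+u)² (H2+u²) - H1² H2`). `(1,(3,0))`: from `H1⁴`: `4 S(u H1³) + 6 S(u² H1²) + 4 S(u³ H1) + S(u⁴) = 0`.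
`2, 3, 4` are units modulo `p`. -/

open Finset

namespace Pool.K3

theorem world {p : ℕ} [Fact p.Prime] (hp : 7 ≤ p) (h : Van p) : WW p := by
  have hs1 : ∀ t : ZMod p, HH p 1 (t + 1) = HH p 1 t + t⁻¹ := fun t => by
    rw [HH_succ (by norm_num) (by omega), pow_one]
  have hs2 : ∀ t : ZMod p, HH p 2 (t + 1) = HH p 2 t + (t⁻¹) ^ 2 := fun t =>
    HH_succ (by norm_num) (by omega) t
  have shift : ∀ φ ψ : ZMod p → ZMod p, (∀ t, ψ t = φ (t + 1) - φ t) → ∑ t : ZMod p, ψ t = 0 := by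
    intro φ ψ hψ
    rw [Finset.sum_congr rfl (fun t _ => hψ t), Finset.sum_sub_distrib, sub_eq_zero]
    exact Equiv.sum_comp (Equiv.addRight (1 : ZMod p)) φ
  have unit : ∀ n : ℕ, 0 < n → n < 7 → ((n : ℕ) : ZMod p) ≠ 0 := by
    intro n h1 h2 h3
    have := Nat.le_of_dvd h1 ((ZMod.natCast_eq_zero_iff n p).mp h3)
    omega
  have two : (2 : ZMod p) ≠ 0 := by exact_mod_cast unit 2 (by norm_num) (by norm_num)
  have three : (3 : ZMod p) ≠ 0 := by exact_mod_cast unit 3 (by norm_num) (by norm_num)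
  have four : (4 : ZMod p) ≠ 0 := by exact_mod_cast unit 4 (by norm_num) (by norm_num)
  have a1 : ∑ t : ZMod p, t⁻¹ = 0 := by
    have := sum_inv_pow (p := p) (i := 1) (by norm_num) (by omega)
    simpa using this
  have a2 : ∑ t : ZMod p, (t⁻¹) ^ 2 = 0 := sum_inv_pow (by norm_num) (by omega)
  have a3 : ∑ t : ZMod p, (t⁻¹) ^ 3 = 0 := sum_inv_pow (by norm_num) (by omega)
  have a4 : ∑ t : ZMod p, (t⁻¹) ^ 4 = 0 := sum_inv_pow (by norm_num) (by omega)
  have b2 : ∑ t : ZMod p, (t⁻¹) ^ 2 * HH p 1 t = 0 := h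
  have b1 : ∑ t : ZMod p, t⁻¹ * HH p 1 t = 0 := by
    have e := shift (fun t => HH p 1 t ^ 2) (fun t => 2 * (t⁻¹ * HH p 1 t) + (t⁻¹) ^ 2)
      (fun t => by simp only [hs1]; ring)
    rw [Finset.sum_add_distrib, ← Finset.mul_sum, a2, add_zero] at e
    exact (mul_eq_zero.mp e).resolve_left two
  have c1 : ∑ t : ZMod p, t⁻¹ * HH p 2 t = 0 := by
    have e := shift (fun t => HH p 1 t * HH p 2 t)
      (fun t => (t⁻¹) ^ 2 * HH p 1 t + t⁻¹ * HH p 2 t + (t⁻¹) ^ 3)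
      (fun t => by simp only [hs1, hs2]; ring)
    rw [Finset.sum_add_distrib, Finset.sum_add_distrib, b2, a3, add_zero, zero_add] at e
    exact e
  have d1 : ∑ t : ZMod p, t⁻¹ * HH p 1 t ^ 2 = 0 := by
    have e := shift (fun t => HH p 1 t ^ 3)
      (fun t => 3 * (t⁻¹ * HH p 1 t ^ 2) + 3 * ((t⁻¹) ^ 2 * HH p 1 t) + (t⁻¹) ^ 3)
      (fun t => by simp only [hs1]; ring)
    rw [Finset.sum_add_distrib, Finset.sum_add_distrib, ← Finset.mul_sum, ← Finset.mul_sum, b2, a3,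
      mul_zero, add_zero, add_zero] at e
    exact (mul_eq_zero.mp e).resolve_left three
  have b3 : ∑ t : ZMod p, (t⁻¹) ^ 3 * HH p 1 t = 0 := by
    have e : ∑ t : ZMod p, ((-t)⁻¹) ^ 3 * HH p 1 (-t) = ∑ t : ZMod p, (t⁻¹) ^ 3 * HH p 1 t :=
      Equiv.sum_comp (Equiv.neg (ZMod p)) (fun t => (t⁻¹) ^ 3 * HH p 1 t)
    have e2 : ∑ t : ZMod p, ((-t)⁻¹) ^ 3 * HH p 1 (-t) =
        - (∑ t : ZMod p, (t⁻¹) ^ 3 * HH p 1 t) - ∑ t : ZMod p, (t⁻¹) ^ 4 := by
      rw [← Finset.sum_neg_distrib, ← Finset.sum_sub_distrib]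
      apply Finset.sum_congr rfl
      intro t _
      rw [HH_neg_one (by omega), inv_neg]
      ring
    rw [e2, a4, sub_zero] at e
    have e3 : 2 * ∑ t : ZMod p, (t⁻¹) ^ 3 * HH p 1 t = 0 := by
      linear_combination -e
    exact (mul_eq_zero.mp e3).resolve_left two
  have c2 : ∑ t : ZMod p, (t⁻¹) ^ 2 * HH p 2 t = 0 := by
    have e := shift (fun t => HH p 2 t ^ 2) (fun t => 2 * ((t⁻¹) ^ 2 * HH p 2 t) + (t⁻¹) ^ 4)
      (fun t => by simp only [hs2]; ring)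
    rw [Finset.sum_add_distrib, ← Finset.mul_sum, a4, add_zero] at e
    exact (mul_eq_zero.mp e).resolve_left two
  have d2 : ∑ t : ZMod p, (t⁻¹) ^ 2 * HH p 1 t ^ 2 = 0 := sum_dual hp
  have f1 : ∑ t : ZMod p, t⁻¹ * (HH p 1 t * HH p 2 t) = 0 := by
    have e := shift (fun t => HH p 1 t ^ 2 * HH p 2 t)
      (fun t => (t⁻¹) ^ 2 * HH p 1 t ^ 2 + 2 * (t⁻¹ * (HH p 1 t * HH p 2 t)) +
        2 * ((t⁻¹) ^ 3 * HH p 1 t) + (t⁻¹) ^ 2 * HH p 2 t + (t⁻¹) ^ 4)
      (fun t => by simp only [hs1, hs2]; ring)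
    rw [Finset.sum_add_distrib, Finset.sum_add_distrib, Finset.sum_add_distrib,
      Finset.sum_add_distrib, ← Finset.mul_sum, ← Finset.mul_sum, d2, b3, c2, a4] at e
    have e' : 2 * ∑ t : ZMod p, t⁻¹ * (HH p 1 t * HH p 2 t) = 0 := by
      linear_combination e
    exact (mul_eq_zero.mp e').resolve_left two
  have g1 : ∑ t : ZMod p, t⁻¹ * HH p 1 t ^ 3 = 0 := by
    have e := shift (fun t => HH p 1 t ^ 4)
      (fun t => 4 * (t⁻¹ * HH p 1 t ^ 3) + 6 * ((t⁻¹) ^ 2 * HH p 1 t ^ 2) +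
        4 * ((t⁻¹) ^ 3 * HH p 1 t) + (t⁻¹) ^ 4)
      (fun t => by simp only [hs1]; ring)
    rw [Finset.sum_add_distrib, Finset.sum_add_distrib, Finset.sum_add_distrib,
      ← Finset.mul_sum, ← Finset.mul_sum, ← Finset.mul_sum, d2, b3, a4] at e
    have e' : 4 * ∑ t : ZMod p, t⁻¹ * HH p 1 t ^ 3 = 0 := by
      linear_combination e
    exact (mul_eq_zero.mp e').resolve_left four
  intro k F hk hF
  obtain ⟨a, b⟩ := F
  unfold wt at hF
  simp only at hF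
  unfold hm
  simp only
  have hb : b ≤ 1 := by omega
  have ha : a ≤ 3 := by omega
  have hk4 : k ≤ 4 := by omega
  interval_cases b
  · interval_cases a
    · interval_cases k
      · simpa using a1
      · simpa using a2
      · simpa using a3
      · simpa using a4
    · have hk3 : k ≤ 3 := by omega
      interval_cases k
      · simpa using b1
      · simpa using b2
      · simpa using b3
    · have hk2 : k ≤ 2 := by omega
      interval_cases k
      · simpa using d1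
      · simpa using d2
    · have hk1 : k ≤ 1 := by omega
      interval_cases k
      simpa using g1
  · have ha1 : a ≤ 1 := by omega
    interval_cases a
    · have hk2 : k ≤ 2 := by omega
      interval_cases k
      · simpa using c1
      · simpa using c2
    · have hk1 : k ≤ 1 := by omega
      interval_cases k
      simpa using f1

end Pool.K3
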