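import Pool.Agent.Lib.K3.DCong
import Pool.Agent.Lib.K3.DInt
import Pool.Agent.Lib.K3.DSize
import Pool.Agent.Lib.K3.Basis
import Pool.Agent.Lib.K3.DetBound
import Pool.Agent.Lib.K3.World
import Pool.Agent.Lib.K3.Bern
import Pool.Agent.Lib.Wief.LinD

/-! K3, module Below (200 lines): the inequality at a vanishing prime `q`.

PROOF. Integer matrix `M f g`: the integer of `DD_int` (`choose`). For `IsV r` with `2m < r`: `Van r` by `van_iff` (Bern), `WW r` by
`world`, and `(M f g : ZMod r) = ∑_t (sc f * fn f t) (sc g * fn g t)` (`DD_cong`, `Red.mul`, `Red.nat`, `Red.int_eq`).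
At `q`: `span` and `exists_basis`: `a : ZMod q → Ix m` injective. Minor `A = (M (a i) (a j))`, index type `ZMod q`. `V t i = sc (a i) *
fn (a i) t`: `A.map cast = Vᵀ * V` modulo `q`, `V` injective (`sc (a i)` is a unit modulo `q > 2m`: it divides a power of
`lcmUpto (2m)`; `exists_basis`), so `A.det ≠ 0` (`Wief.det_ne`, both index types `ZMod q`). For the vanishing primes `r`,
`2m < r < q`: `r^(q - r) ∣ A.det` (`Wief.det_dvd` with `κ = ZMod r`, `ZMod.card`). Coprime prime powers: `∏_r r^(q-r) ∣ A.det`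
(as `Wief.div_log` in Lib/Wief/BelowW.lean), so `∑_r (q - r) log r ≤ log |A.det|`. `det_bound` with `u f = sc f * sz f ≥ 1`,
`B = 2^120 (m+1)^8`: `|M f g| = sc f sc g |DD f g| ≤ B u f u g` (`DD_size`). Take logarithms: `log q! ≤ q log q`. -/

open Finset

namespace Pool.K3

/-- the vanishing primes: `p ∣ B_(p-3)` -/
def IsV (r : ℕ) : Prop := r.Prime ∧ 7 ≤ r ∧ (r : ℤ) ∣ (bernoulli (r - 3)).num

private theorem Below_sc_ne {r m : ℕ} [Fact r.Prime] (h : 2 * m < r) (f : Ix m) :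
    ((sc m f : ℕ) : ZMod r) ≠ 0 := by
  rcases f with a | ⟨κ, a⟩ | ⟨κ, i⟩
  · simp [sc]
  · simp only [sc]
    push_cast
    refine mul_ne_zero (pow_ne_zero _ (lcm_ne_zero ?_)) (pow_ne_zero _ (lcm_ne_zero ?_))
    · have := a.2
      rcases le_total (a : ℕ) (2 * m - 1 - a) with h1 | h1
      · rw [max_eq_right h1]; omega
      · rw [max_eq_left h1]; omega
    · omega
  · simp only [sc]
    push_cast
    refine pow_ne_zero _ (lcm_ne_zero ?_)
    have := i.2
    omega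

private theorem Below_sc_pos (m : ℕ) (f : Ix m) : 1 ≤ sc m f := by
  rcases f with a | ⟨κ, a⟩ | ⟨κ, i⟩
  · simp [sc]
  · simp only [sc]
    exact Nat.succ_le_of_lt (Nat.mul_pos (pow_pos (Nat.lcmUpto_pos _) _)
      (pow_pos (Nat.lcmUpto_pos _) _))
  · simp only [sc]
    exact Nat.succ_le_of_lt (pow_pos (Nat.lcmUpto_pos _) _)

private theorem Below_sz_pos (m : ℕ) (f : Ix m) : 1 ≤ sz m f := by
  rcases f with a | ⟨κ, a⟩ | ⟨κ, i⟩
  · simp [sz]
  · simp [sz]
  · simp only [sz]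
    exact AA_pos i.2

private theorem Below_mod {r m : ℕ} (hr : IsV r) (hmr : 2 * m < r) (M : Ix m → Ix m → ℤ)
    (hM : ∀ f g, (sc m f : ℚ) * (sc m g : ℚ) * DD m f g = (M f g : ℤ)) (f g : Ix m)
    [Fact r.Prime] :
    ((M f g : ℤ) : ZMod r) =
      ∑ t : ZMod r, ((sc m f : ZMod r) * fn r m f t) * ((sc m g : ZMod r) * fn r m g t) := by
  have hv : Van r := (van_iff (by have := hr.2.1; omega)).2 hr.2.2
  have hW : WW r := world hr.2.1 hv
  have h1 := ((Red.nat r (sc m f)).mul (Red.nat r (sc m g))).mul (DD_cong hr.2.1 hW hmr f g)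
  rw [hM] at h1
  rw [h1.int_eq, Finset.mul_sum]
  refine Finset.sum_congr rfl fun t _ => ?_
  ring

private theorem Below_map {r m : ℕ} {κ : Type} [Fintype κ] [DecidableEq κ] (hr : IsV r)
    (hmr : 2 * m < r) (M : Ix m → Ix m → ℤ)
    (hM : ∀ f g, (sc m f : ℚ) * (sc m g : ℚ) * DD m f g = (M f g : ℤ)) (a : κ → Ix m)
    [Fact r.Prime] :
    (Matrix.of fun i j => M (a i) (a j)).map (Int.cast : ℤ → ZMod r) =
      (Matrix.of fun (t : ZMod r) (i : κ) => (sc m (a i) : ZMod r) * fn r m (a i) t).transpose *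
        (Matrix.of fun (t : ZMod r) (i : κ) => (sc m (a i) : ZMod r) * fn r m (a i) t) := by
  ext i j
  rw [Matrix.map_apply, Matrix.mul_apply, Matrix.of_apply, Below_mod hr hmr M hM]
  rfl

private theorem Below_sum {q m : ℕ} [Fact q.Prime] (M : Ix m → Ix m → ℤ)
    (hM : ∀ f g, (sc m f : ℚ) * (sc m g : ℚ) * DD m f g = (M f g : ℤ)) (a : ZMod q → Ix m)
    (h0 : (Matrix.of fun i j => M (a i) (a j)).det ≠ 0) (S : Finset ℕ)
    (hS : ∀ r ∈ S, (2 * m < r ∧ r < q) ∧ IsV r) :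
    ∑ r ∈ S, ((q : ℝ) - r) * Real.log r ≤
      Real.log |((Matrix.of fun i j => M (a i) (a j)).det : ℝ)| := by
  have hd : ∏ r ∈ S, ((r : ℤ) ^ (q - r)) ∣ (Matrix.of fun i j => M (a i) (a j)).det := by
    refine Finset.prod_dvd_of_coprime ?_ ?_
    · intro x hx y hy hxy
      have hx' := (hS x (Finset.mem_coe.1 hx)).2
      have hy' := (hS y (Finset.mem_coe.1 hy)).2
      exact IsCoprime.pow (Nat.isCoprime_iff_coprime.2 ((Nat.coprime_primes hx'.1 hy'.1).2 hxy))
    · intro r hr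
      obtain ⟨⟨h1, h2⟩, h3⟩ := hS r hr
      haveI : Fact r.Prime := ⟨h3.1⟩
      have h := Wief.det_dvd h3.1 (Matrix.of fun i j => M (a i) (a j)) _
        (Below_map h3 h1 M hM a)
      rwa [ZMod.card, ZMod.card] at h
  have hpos : ∀ r ∈ S, (0 : ℝ) < (r : ℝ) := by
    intro r hr
    exact_mod_cast (hS r hr).2.1.pos
  have h1 : ∏ r ∈ S, ((r : ℤ) ^ (q - r)) ≤ |(Matrix.of fun i j => M (a i) (a j)).det| :=
    Int.le_of_dvd (abs_pos.2 h0) ((dvd_abs _ _).2 hd)
  have h2 : ∏ r ∈ S, ((r : ℝ) ^ (q - r)) ≤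
      |((Matrix.of fun i j => M (a i) (a j)).det : ℝ)| := by
    exact_mod_cast h1
  have h3 : Real.log (∏ r ∈ S, ((r : ℝ) ^ (q - r))) = ∑ r ∈ S, ((q : ℝ) - r) * Real.log r := by
    rw [Real.log_prod (fun r hr => (pow_pos (hpos r hr) _).ne')]
    refine sum_congr rfl fun r hr => ?_
    rw [Real.log_pow, Nat.cast_sub (hS r hr).1.2.le]
  rw [← h3]
  exact Real.log_le_log (prod_pos fun r hr => pow_pos (hpos r hr) _) h2

private theorem Below_ne {q m : ℕ} [Fact q.Prime] (hq : IsV q) (hmq : 2 * m < q)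
    (M : Ix m → Ix m → ℤ)
    (hM : ∀ f g, (sc m f : ℚ) * (sc m g : ℚ) * DD m f g = (M f g : ℤ)) (a : ZMod q → Ix m)
    (ha : ∀ x : ZMod q → ZMod q, (∀ t, ∑ i : ZMod q, x i * fn q m (a i) t = 0) → x = 0) :
    (Matrix.of fun i j => M (a i) (a j)).det ≠ 0 := by
  refine Wief.det_ne hq.1 (Matrix.of fun i j => M (a i) (a j)) _ (Below_map hq hmq M hM a) rfl ?_
  intro x hx
  have h1 := ha (fun i => (sc m (a i) : ZMod q) * x i) (fun t => by
    have h2 := congrFun hx t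
    rw [Matrix.mulVec, dotProduct] at h2
    simp only [Matrix.of_apply, Pi.zero_apply] at h2
    rw [← h2]
    refine Finset.sum_congr rfl fun i _ => ?_
    ring)
  funext i
  have h3 := congrFun h1 i
  simp only [Pi.zero_apply] at h3
  exact (mul_eq_zero.1 h3).resolve_left (Below_sc_ne hmq _)

private theorem Below_size {m : ℕ} (hm : 1 ≤ m) (M : Ix m → Ix m → ℤ)
    (hM : ∀ f g, (sc m f : ℚ) * (sc m g : ℚ) * DD m f g = (M f g : ℤ)) (f g : Ix m) :
    |(M f g : ℝ)| ≤ (2 ^ 120 * ((m : ℝ) + 1) ^ 8) *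
      (((sc m f : ℝ) * (sz m f : ℝ)) * ((sc m g : ℝ) * (sz m g : ℝ))) := by
  have h1 : |((M f g : ℤ) : ℚ)| ≤ (2 ^ 120 * ((m : ℚ) + 1) ^ 8) *
      (((sc m f : ℚ) * (sz m f : ℚ)) * ((sc m g : ℚ) * (sz m g : ℚ))) := by
    rw [← hM, abs_mul, abs_mul, Nat.abs_cast, Nat.abs_cast]
    calc (sc m f : ℚ) * (sc m g : ℚ) * |DD m f g| ≤ (sc m f : ℚ) * (sc m g : ℚ) *
          (2 ^ 120 * ((m : ℚ) + 1) ^ 8 * ((sz m f : ℚ) * (sz m g : ℚ))) :=
          mul_le_mul_of_nonneg_left (DD_size hm f g) (by positivity)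
      _ = _ := by ring
  exact_mod_cast h1

open Classical in
theorem below {q m : ℕ} [Fact q.Prime] (hq : IsV q) (hm : 1 ≤ m) (hmq : 2 * m < q)
    (hspan : ∀ g : ZMod q → ZMod q, (∀ f : Ix m, ∑ t : ZMod q, g t * fn q m f t = 0) → g = 0) :
    ∑ r ∈ (Ioo (2 * m) q).filter IsV, ((q : ℝ) - r) * Real.log r ≤
      q * Real.log q + q * Real.log (2 ^ 120 * ((m : ℝ) + 1) ^ 8) +
        2 * ∑ f : Ix m, Real.log (sc m f : ℝ) + 2 * ∑ f : Ix m, Real.log (sz m f : ℝ) := by
  choose M hM using DD_int m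
  obtain ⟨a, hinj, ha⟩ := exists_basis (fn q m) hspan
  have h0 := Below_ne hq hmq M hM a ha
  have h1 := Below_sum M hM a h0 ((Ioo (2 * m) q).filter IsV) (fun r hr => by
    rw [mem_filter, mem_Ioo] at hr
    exact hr)
  refine h1.trans ?_
  have hsc : ∀ f : Ix m, (1 : ℝ) ≤ (sc m f : ℝ) := fun f => by exact_mod_cast Below_sc_pos m f
  have hsz : ∀ f : Ix m, (1 : ℝ) ≤ (sz m f : ℝ) := fun f => by exact_mod_cast Below_sz_pos m f
  have h2 := det_bound M a hinj (fun f => (sc m f : ℝ) * (sz m f : ℝ))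
    (fun f => one_le_mul_of_one_le_of_one_le (hsc f) (hsz f))
    (B := 2 ^ 120 * ((m : ℝ) + 1) ^ 8) (by positivity) (fun f g => Below_size hm M hM f g)
  rw [ZMod.card] at h2
  have hdet : (0 : ℝ) < |((Matrix.of fun i j => M (a i) (a j)).det : ℝ)| := by
    rw [abs_pos]
    exact_mod_cast h0
  have h3 := Real.log_le_log hdet h2
  refine h3.trans ?_
  have hB : (0 : ℝ) < 2 ^ 120 * ((m : ℝ) + 1) ^ 8 := by positivity
  have hP : (0 : ℝ) < ∏ f : Ix m, ((sc m f : ℝ) * (sz m f : ℝ)) :=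
    prod_pos fun f _ => by
      have := hsc f
      have := hsz f
      positivity
  have hq0 : 0 < q := (Fact.out : q.Prime).pos
  have hf : (0 : ℝ) < (q.factorial : ℝ) := by exact_mod_cast Nat.factorial_pos q
  rw [Real.log_mul (by positivity) (by positivity), Real.log_mul (by positivity) (by positivity),
    Real.log_pow, Real.log_pow, Real.log_prod (fun f _ => by
      have := hsc f
      have := hsz f
      positivity)]
  have h4 : Real.log (q.factorial : ℝ) ≤ q * Real.log q := by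
    rw [← Real.log_pow]
    refine Real.log_le_log hf ?_
    exact_mod_cast Nat.factorial_le_pow q
  have h5 : ∑ f : Ix m, Real.log ((sc m f : ℝ) * (sz m f : ℝ)) =
      ∑ f : Ix m, Real.log (sc m f : ℝ) + ∑ f : Ix m, Real.log (sz m f : ℝ) := by
    rw [← sum_add_distrib]
    refine sum_congr rfl fun f _ => ?_
    have := hsc f
    have := hsz f
    exact Real.log_mul (by positivity) (by positivity)
  rw [h5]
  push_cast
  linarith

end Pool.K3
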