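import Pool.Agent.Lib.K3.Defs
import Pool.Agent.Lib.PNT.Theta

/-! K3, module Gain (130 lines): the sum over all primes in `(2m, q)`, `q ≥ 12 m - 54`.

PROOF. As `Wief.gain` (Pool/Agent/Lib/Wief/Gain.lean, copy): `∑_(2m < r < q) (q - r) log r = ∑_(2m ≤ k < q) (θ(k) - θ(2m))`,
`θ(k) = (1 + o(1)) k` (`PNT.theta_tendsto`): `≥ ∑_k ((1-ε) k - (1+ε) 2m) ≥ (1-ε) (q² - 4m²)/2 - (1+ε) 2m (q - 2m) - O(m)`. With
`12 m - 54 ≤ q ≤ 12 m`: `(144 - 4)/2 - 2 * 10 = 50`. The sum is monotone in `q`. -/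

open Finset

namespace Pool.K3

private theorem Gain_diff {a k : ℕ} (h : a ≤ k) :
    ∑ q ∈ (Ioc a k).filter Nat.Prime, Real.log q = Chebyshev.theta k - Chebyshev.theta a := by
  have h0 : ∀ n : ℕ, Chebyshev.theta (n : ℝ) =
      ∑ q ∈ (Ioc 0 n).filter Nat.Prime, Real.log q := fun n => by
    unfold Chebyshev.theta
    rw [Nat.floor_natCast]
  have h1 : (Ioc 0 k).filter Nat.Prime =
      (Ioc 0 a).filter Nat.Prime ∪ (Ioc a k).filter Nat.Prime := by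
    rw [← filter_union, Ioc_union_Ioc_eq_Ioc (Nat.zero_le _) h]
  rw [h0, h0, h1, sum_union]
  · ring
  · refine disjoint_left.2 fun q hq hq' => ?_
    simp only [mem_filter, mem_Ioc] at hq hq'
    omega

private theorem Gain_exch (a b : ℕ) :
    ∑ q ∈ (Ioo a b).filter Nat.Prime, ((b : ℝ) - q) * Real.log q =
      ∑ k ∈ Ico a b, ∑ q ∈ (Ioc a k).filter Nat.Prime, Real.log q := by
  have h1 : ∀ q ∈ (Ioo a b).filter Nat.Prime, ((b : ℝ) - q) * Real.log q =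
      ∑ k ∈ Ico q b, Real.log q := by
    intro q hq
    simp only [mem_filter, mem_Ioo] at hq
    rw [sum_const, Nat.card_Ico, nsmul_eq_mul, Nat.cast_sub hq.1.2.le]
  rw [sum_congr rfl h1]
  refine sum_comm' fun q k => ?_
  simp only [mem_filter, mem_Ioo, mem_Ico, mem_Ioc]
  constructor
  · rintro ⟨⟨⟨h1, h2⟩, h3⟩, h4, h5⟩
    exact ⟨⟨⟨h1, h4⟩, h3⟩, by omega, h5⟩
  · rintro ⟨⟨⟨h1, h4⟩, h3⟩, h6, h5⟩
    exact ⟨⟨⟨h1, by omega⟩, h3⟩, h4, h5⟩

private theorem Gain_sumk {a b : ℕ} (hab : a ≤ b) :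
    ∑ k ∈ Ico a b, (k : ℝ) = (b : ℝ) * (b - 1) / 2 - (a : ℝ) * (a - 1) / 2 := by
  have h : ∀ n : ℕ, ∑ k ∈ range n, (k : ℝ) = (n : ℝ) * (n - 1) / 2 := by
    intro n
    induction n with
    | zero => simp
    | succ n ih =>
      rw [sum_range_succ, ih]
      push_cast
      ring
  rw [sum_Ico_eq_sub _ hab, h, h]

theorem gain : ∃ m0 : ℕ, ∀ m, m0 ≤ m → ∀ q : ℕ, 12 * m ≤ q + 54 → q ≤ 12 * m →
    49.9 * (m : ℝ) ^ 2 ≤ ∑ r ∈ (Ioo (2 * m) q).filter Nat.Prime, ((q : ℝ) - r) * Real.log r := by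
  have hT := PNT.theta_tendsto
  rw [Metric.tendsto_atTop] at hT
  obtain ⟨N, hN⟩ := hT (1 / 5000) (by norm_num)
  obtain ⟨N', hN'⟩ := exists_nat_ge N
  refine ⟨max N' 10000, fun m hm q hq1 hq2 => ?_⟩
  have hmN : N' ≤ m := (le_max_left _ _).trans hm
  have hm1 : 10000 ≤ m := (le_max_right _ _).trans hm
  have hmR : (10000 : ℝ) ≤ m := by exact_mod_cast hm1
  have hth : ∀ k : ℕ, m ≤ k → (1 - 1 / 5000) * (k : ℝ) ≤ Chebyshev.theta k ∧
      Chebyshev.theta k ≤ (1 + 1 / 5000) * (k : ℝ) := by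
    intro k hk
    have hk0 : (0 : ℝ) < k := by
      have : (m : ℝ) ≤ k := by exact_mod_cast hk
      linarith
    have h1 := hN (k : ℝ) (hN'.trans (by exact_mod_cast hmN.trans hk))
    rw [Real.dist_eq, abs_lt] at h1
    obtain ⟨h2, h3⟩ := h1
    have h4 : Chebyshev.theta k = Chebyshev.theta k / k * k := by
      rw [div_mul_cancel₀ _ hk0.ne']
    constructor
    · rw [h4]
      exact mul_le_mul_of_nonneg_right (by linarith) hk0.le
    · rw [h4]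
      exact mul_le_mul_of_nonneg_right (by linarith) hk0.le
  rw [Gain_exch]
  have h5 := hth (2 * m) (by omega)
  have hle : 2 * m ≤ q := by omega
  have h6 : ∀ k ∈ Ico (2 * m) q,
      (1 - 1 / 5000) * (k : ℝ) - (1 + 1 / 5000) * (2 * m) ≤
        ∑ q ∈ (Ioc (2 * m) k).filter Nat.Prime, Real.log q := by
    intro k hk
    rw [mem_Ico] at hk
    rw [Gain_diff hk.1]
    have h7 := (hth k (by omega)).1
    have h8 := h5.2
    push_cast at h8 ⊢
    linarith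
  refine le_trans ?_ (sum_le_sum h6)
  rw [sum_sub_distrib, ← mul_sum, Gain_sumk hle, sum_const, Nat.card_Ico, nsmul_eq_mul,
    Nat.cast_sub hle]
  obtain ⟨t, ht⟩ : ∃ t : ℕ, q + t = 12 * m := ⟨12 * m - q, by omega⟩
  have htR : (q : ℝ) = 12 * m - t := by
    have h9 : (q : ℝ) + t = 12 * m := by exact_mod_cast ht
    linarith
  have ht0 : (0 : ℝ) ≤ t := Nat.cast_nonneg _
  have ht54 : (t : ℝ) ≤ 54 := by
    have : t ≤ 54 := by omega
    exact_mod_cast this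
  have e1 : (m : ℝ) * t ≤ m * 54 := mul_le_mul_of_nonneg_left ht54 (by linarith)
  have e2 : 0 ≤ (m : ℝ) * t := mul_nonneg (by linarith) ht0
  have e3 : 10000 * (m : ℝ) ≤ m * m := mul_le_mul_of_nonneg_right hmR (by linarith)
  have e4 : 0 ≤ (t : ℝ) * t := mul_nonneg ht0 ht0
  rw [htR]
  push_cast
  nlinarith [e1, e2, e3, e4]

end Pool.K3
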