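import Pool.Agent.Lib.K3.Defs

/-! K3, module LogA: the sum of the logarithms of the sizes `C(m + [i/2], i)`.

PROOF. `∑_f log sz f = 4 ∑_(i<m) log C(m + [i/2], i)`. With `n = m + [i/2]`: `C(n, i) ≤ 2^n` and
`C(n, i) 3^(n-i) ≤ 4^n`, so `log C(n, i) ≤ (m + i/2) log 2` and
`log C(n, i) ≤ (m + i/2) (2 log 2 - log 3) + i log 3`. The second bound for `i < [m/2]`, the first one for the others:
`∑ ≤ (1.8125 log 2 - 0.4375 log 3) m² + O(m)`, and `7 log 3 ≥ 11 log 2`: at most `1.125 log 2 m² + O(m) ≤ 0.78 m² + O(m)`. -/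

open Finset

namespace Pool.K3

private theorem LogA_log3 : 11 * Real.log 2 ≤ 7 * Real.log 3 := by
  have h : Real.log ((2 : ℝ) ^ 11) ≤ Real.log ((3 : ℝ) ^ 7) :=
    Real.log_le_log (by norm_num) (by norm_num)
  rw [Real.log_pow, Real.log_pow] at h
  push_cast at h
  linarith

private theorem LogA_log34 : Real.log 3 ≤ 2 * Real.log 2 := by
  have h : Real.log (3 : ℝ) ≤ Real.log ((2 : ℝ) ^ 2) :=
    Real.log_le_log (by norm_num) (by norm_num)
  rw [Real.log_pow] at h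
  push_cast at h
  linarith

private theorem LogA_pos {m i : ℕ} (hi : i < m) : 0 < (m + i / 2).choose i :=
  Nat.choose_pos (by omega)

private theorem LogA_one {m i : ℕ} (hi : i < m) :
    Real.log (((m + i / 2).choose i : ℕ) : ℝ) ≤ (m + (i : ℝ) / 2) * Real.log 2 := by
  have h1 : (((m + i / 2).choose i : ℕ) : ℝ) ≤ (2 : ℝ) ^ (m + i / 2) := by
    exact_mod_cast Nat.choose_le_two_pow (m + i / 2) i
  have h0 : (0 : ℝ) < (((m + i / 2).choose i : ℕ) : ℝ) := by exact_mod_cast LogA_pos hi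
  have h2 := Real.log_le_log h0 h1
  rw [Real.log_pow] at h2
  refine h2.trans ?_
  have h3 : ((m + i / 2 : ℕ) : ℝ) ≤ m + (i : ℝ) / 2 := by
    push_cast
    have := Nat.cast_div_le (α := ℝ) (m := i) (n := 2)
    push_cast at this
    linarith
  exact mul_le_mul_of_nonneg_right h3 (Real.log_nonneg (by norm_num))

private theorem LogA_two {m i : ℕ} (hi : i < m) :
    Real.log (((m + i / 2).choose i : ℕ) : ℝ) ≤
      (m + (i : ℝ) / 2) * (2 * Real.log 2 - Real.log 3) + i * Real.log 3 := by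
  set n := m + i / 2 with hn
  have hin : i ≤ n := by omega
  have h1 : n.choose i * 3 ^ (n - i) ≤ 4 ^ n := by
    have h := add_pow (1 : ℕ) 3 n
    have h2 : 1 ^ i * 3 ^ (n - i) * n.choose i ≤
        ∑ k ∈ range (n + 1), 1 ^ k * 3 ^ (n - k) * n.choose k :=
      single_le_sum (f := fun k => 1 ^ k * 3 ^ (n - k) * n.choose k) (fun _ _ => Nat.zero_le _)
        (mem_range.mpr (by omega))
    have h' : (1 + 3) ^ n = ∑ k ∈ range (n + 1), 1 ^ k * 3 ^ (n - k) * n.choose k := by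
      simpa using h
    rw [← h'] at h2
    calc n.choose i * 3 ^ (n - i) = 1 ^ i * 3 ^ (n - i) * n.choose i := by
          rw [one_pow, one_mul, mul_comm]
      _ ≤ (1 + 3) ^ n := h2
      _ = 4 ^ n := by norm_num
  have h0 : (0 : ℝ) < ((n.choose i : ℕ) : ℝ) := by exact_mod_cast LogA_pos hi
  have h2 : ((n.choose i : ℕ) : ℝ) * (3 : ℝ) ^ (n - i) ≤ (4 : ℝ) ^ n := by exact_mod_cast h1
  have h3 := Real.log_le_log (mul_pos h0 (by positivity)) h2
  rw [Real.log_mul h0.ne' (by positivity), Real.log_pow, Real.log_pow] at h3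
  have h4 : Real.log 4 = 2 * Real.log 2 := by
    rw [show (4 : ℝ) = 2 ^ 2 by norm_num, Real.log_pow]
    push_cast
    ring
  rw [h4, Nat.cast_sub hin] at h3
  have h5 : (n : ℝ) ≤ m + (i : ℝ) / 2 := by
    rw [hn]
    push_cast
    have := Nat.cast_div_le (α := ℝ) (m := i) (n := 2)
    push_cast at this
    linarith
  have h6 := mul_le_mul_of_nonneg_right h5 (sub_nonneg.mpr LogA_log34)
  nlinarith

private theorem LogA_sum (m : ℕ) :
    ∑ i ∈ range m, Real.log (((m + i / 2).choose i : ℕ) : ℝ) ≤ 0.78 * (m : ℝ) ^ 2 + m := by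
  have hk : m / 2 ≤ m := Nat.div_le_self m 2
  have hs : ∀ k : ℕ, ∑ i ∈ range k, (i : ℝ) = k * (k - 1) / 2 := by
    intro k
    induction k with
    | zero => simp
    | succ k ih => rw [sum_range_succ, ih]; push_cast; ring
  have hc : ∀ (A B : ℝ) (k : ℕ), ∑ i ∈ range k, (A + B * (i : ℝ)) = A * k + B * (k * (k - 1) / 2) := by
    intro A B k
    rw [sum_add_distrib, ← mul_sum, hs]
    simp
    ring
  set L2 := Real.log 2 with hL2
  set L3 := Real.log 3 with hL3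
  have e1 : ∑ i ∈ range m, Real.log (((m + i / 2).choose i : ℕ) : ℝ) =
      ∑ i ∈ range (m / 2), Real.log (((m + i / 2).choose i : ℕ) : ℝ) +
      ∑ i ∈ Ico (m / 2) m, Real.log (((m + i / 2).choose i : ℕ) : ℝ) := by
    rw [range_eq_Ico, range_eq_Ico, sum_Ico_consecutive _ (Nat.zero_le _) hk]
  have e2 : ∑ i ∈ range m, ((m : ℝ) * L2 + L2 / 2 * (i : ℝ)) =
      ∑ i ∈ range (m / 2), ((m : ℝ) * L2 + L2 / 2 * (i : ℝ)) +
      ∑ i ∈ Ico (m / 2) m, ((m : ℝ) * L2 + L2 / 2 * (i : ℝ)) := by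
    rw [range_eq_Ico, range_eq_Ico, sum_Ico_consecutive _ (Nat.zero_le _) hk]
  have b1 : ∑ i ∈ range (m / 2), Real.log (((m + i / 2).choose i : ℕ) : ℝ) ≤
      ∑ i ∈ range (m / 2), ((m : ℝ) * (2 * L2 - L3) + ((2 * L2 - L3) / 2 + L3) * (i : ℝ)) := by
    refine sum_le_sum fun i hi => ?_
    have h := LogA_two (m := m) (i := i) (by have := mem_range.mp hi; omega)
    refine h.trans (le_of_eq ?_)
    ring
  have b2 : ∑ i ∈ Ico (m / 2) m, Real.log (((m + i / 2).choose i : ℕ) : ℝ) ≤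
      ∑ i ∈ Ico (m / 2) m, ((m : ℝ) * L2 + L2 / 2 * (i : ℝ)) := by
    refine sum_le_sum fun i hi => ?_
    have h := LogA_one (m := m) (i := i) (mem_Ico.mp hi).2
    refine h.trans (le_of_eq ?_)
    ring
  rw [hc] at e2 b1
  rw [hc] at e2
  have k1 : ((m / 2 : ℕ) : ℝ) ≤ (m : ℝ) / 2 := by
    have := Nat.cast_div_le (α := ℝ) (m := m) (n := 2)
    push_cast at this
    linarith
  have k2 : ((m : ℝ) - 1) / 2 ≤ ((m / 2 : ℕ) : ℝ) := by
    have h : m ≤ 2 * (m / 2) + 1 := by omega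
    have h' : (m : ℝ) ≤ 2 * ((m / 2 : ℕ) : ℝ) + 1 := by exact_mod_cast h
    linarith
  have k0 : (0 : ℝ) ≤ ((m / 2 : ℕ) : ℝ) := Nat.cast_nonneg _
  have hm : (0 : ℝ) ≤ (m : ℝ) := Nat.cast_nonneg _
  set k := ((m / 2 : ℕ) : ℝ) with hkk
  have hA : 11 * L2 ≤ 7 * L3 := LogA_log3
  have hB : L3 ≤ 2 * L2 := LogA_log34
  have hC : L2 < 0.6931471808 := Real.log_two_lt_d9
  have hD : 0.6931471803 < L2 := Real.log_two_gt_d9
  -- total bound
  have t : ∑ i ∈ range m, Real.log (((m + i / 2).choose i : ℕ) : ℝ) ≤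
      (m : ℝ) * (2 * L2 - L3) * k + ((2 * L2 - L3) / 2 + L3) * (k * (k - 1) / 2) +
      ((m : ℝ) * L2 * m + L2 / 2 * (m * (m - 1) / 2) -
        ((m : ℝ) * L2 * k + L2 / 2 * (k * (k - 1) / 2))) := by
    rw [e1]
    linarith
  refine t.trans ?_
  -- (L3 - L2) m (m - 1) / 2 ≤ (L3 - L2) m k
  have u1 : (L3 - L2) * (m * ((m - 1) / 2)) ≤ (L3 - L2) * (m * k) := by
    apply mul_le_mul_of_nonneg_left _ (by linarith)
    exact mul_le_mul_of_nonneg_left k2 hm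
  have u3 : k * (k - 1) / 2 ≤ (m : ℝ) ^ 2 / 8 := by nlinarith
  have u4 : (L2 + L3) / 2 * (k * (k - 1) / 2) ≤ (L2 + L3) / 2 * ((m : ℝ) ^ 2 / 8) :=
    mul_le_mul_of_nonneg_left u3 (by linarith)
  have u5 : (11 * L2 - 7 * L3) * (m : ℝ) ^ 2 ≤ 0 :=
    mul_nonpos_of_nonpos_of_nonneg (by linarith) (sq_nonneg _)
  have u6 : L2 * (m : ℝ) ^ 2 ≤ 0.6931471808 * (m : ℝ) ^ 2 :=
    mul_le_mul_of_nonneg_right hC.le (sq_nonneg _)
  have u7 : L3 * (m : ℝ) ≤ 2 * m := mul_le_mul_of_nonneg_right (by linarith) hm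
  have u8 : 0 ≤ L2 * (m : ℝ) := mul_nonneg (by linarith) hm
  nlinarith [u1, u4, u5, u6, u7, u8]

theorem sum_log_sz : ∃ m0 : ℕ, ∀ m, m0 ≤ m →
    2 * ∑ f : Ix m, Real.log (sz m f : ℝ) ≤ 6.4 * (m : ℝ) ^ 2 := by
  refine ⟨50, fun m hm => ?_⟩
  have h1 : ∑ f : Ix m, Real.log (sz m f : ℝ) =
      4 * ∑ i ∈ range m, Real.log (((m + i / 2).choose i : ℕ) : ℝ) := by
    rw [Fintype.sum_sum_type, Fintype.sum_sum_type, Fintype.sum_prod_type, Fintype.sum_prod_type]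
    simp only [sz, AA, Nat.cast_one, Real.log_one, sum_const_zero, zero_add, sum_const, card_univ,
      Fintype.card_fin, nsmul_eq_mul, Nat.cast_ofNat]
    rw [← Fin.sum_univ_eq_sum_range (fun i => Real.log (((m + i / 2).choose i : ℕ) : ℝ)) m]
  rw [h1]
  have h2 := LogA_sum m
  have h3 : (50 : ℝ) ≤ m := by exact_mod_cast hm
  nlinarith

end Pool.K3
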