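import Pool.Agent.Lib.K3.Defs
import Pool.Agent.Lib.PNT.Theta

/-! K3, module LogS (220 lines): the sum of the logarithms of the scaling factors and sizes.

PROOF. `LL m = ∑_(i<m) log lcmUpto (m+i)`. `sum_log_sc`: `Fintype.sum_sum_type`, `Fintype.sum_prod_type`, `Fin.sum_univ_three`,
`Fin.sum_univ_four`: deltas `0`; poles `(1 + 2 + 1) ∑_a log lcmUpto (max a (2m-1-a)) + 2m log lcmUpto m` and
`∑_(a<2m) log lcmUpto (max a (2m-1-a)) = 2 LL m` (`a ≥ m`: `max = a`; `a < m`: `max = 2m-1-a`, reflect); polynomials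
`(0 + 1 + 2 + 2) LL m`: together `13 LL m + 2m log lcmUpto m`. `Nat.lcmUpto_pos`. `psi`: `Chebyshev.psi_eq_log_lcmUpto`,
`PNT.psi_tendsto`: `log lcmUpto n ≤ (1 + ε) n` for `n ≥ n0`; `∑_(i<m) (m + i) ≤ 1.5 m²`. With `ε = 0.0005`:
`2 (13 * 1.5 + 2) (1 + ε) m² ≤ 43.05 m²`. -/

open Finset

namespace Pool.K3

private theorem LogS_fold (F : ℕ → ℝ) (m : ℕ) :
    ∑ a ∈ range (2 * m), F (max a (2 * m - 1 - a)) = 2 * ∑ i ∈ range m, F (m + i) := by
  have h2 : 2 * m = m + m := by ring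
  rw [h2, sum_range_add]
  have h3 : ∑ x ∈ range m, F (max x (m + m - 1 - x)) = ∑ i ∈ range m, F (m + i) := by
    rw [← sum_range_reflect (fun i => F (m + i)) m]
    refine sum_congr rfl fun x hx => ?_
    have hx' := mem_range.1 hx
    have : max x (m + m - 1 - x) = m + (m - 1 - x) := by
      rw [max_eq_right (by omega)]; omega
    rw [this]
  have h4 : ∑ x ∈ range m, F (max (m + x) (m + m - 1 - (m + x))) = ∑ i ∈ range m, F (m + i) := by
    refine sum_congr rfl fun x hx => ?_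
    have hx' := mem_range.1 hx
    have : max (m + x) (m + m - 1 - (m + x)) = m + x := max_eq_left (by omega)
    rw [this]
  rw [h3, h4]; ring

private theorem LogS_sum (m : ℕ) :
    ∑ f : Ix m, Real.log (sc m f : ℝ) =
      13 * ∑ i ∈ range m, Real.log (Nat.lcmUpto (m + i) : ℝ) +
        2 * m * Real.log (Nat.lcmUpto m : ℝ) := by
  have hpos : ∀ n : ℕ, (Nat.lcmUpto n : ℝ) ≠ 0 := fun n =>
    Nat.cast_ne_zero.2 (Nat.lcmUpto_pos n).ne'
  have hd : ∀ a : Fin (2 * m), Real.log (sc m (.inl a) : ℝ) = 0 := by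
    intro a; simp [sc]
  have hp0 : ∀ a : Fin (2 * m), Real.log (sc m (.inr (.inl (0, a))) : ℝ) =
      Real.log (Nat.lcmUpto (max (a : ℕ) (2 * m - 1 - a)) : ℝ) := by
    intro a; simp [sc, pk, wt]
  have hp1 : ∀ a : Fin (2 * m), Real.log (sc m (.inr (.inl (1, a))) : ℝ) =
      2 * Real.log (Nat.lcmUpto (max (a : ℕ) (2 * m - 1 - a)) : ℝ) := by
    intro a; simp [sc, pk, wt, Real.log_pow]
  have hp2 : ∀ a : Fin (2 * m), Real.log (sc m (.inr (.inl (2, a))) : ℝ) =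
      Real.log (Nat.lcmUpto (max (a : ℕ) (2 * m - 1 - a)) : ℝ) +
        Real.log (Nat.lcmUpto m : ℝ) := by
    intro a
    have : (sc m (.inr (.inl (2, a))) : ℝ) =
        (Nat.lcmUpto (max (a : ℕ) (2 * m - 1 - a)) : ℝ) * (Nat.lcmUpto m : ℝ) := by
      simp [sc, pk, wt]
    rw [this, Real.log_mul (hpos _) (hpos _)]
  have hq0 : ∀ i : Fin m, Real.log (sc m (.inr (.inr (0, i))) : ℝ) = 0 := by
    intro i; simp [sc, qk, wt]
  have hq1 : ∀ i : Fin m, Real.log (sc m (.inr (.inr (1, i))) : ℝ) =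
      Real.log (Nat.lcmUpto (m + i) : ℝ) := by
    intro i; simp [sc, qk, wt]
  have hq2 : ∀ i : Fin m, Real.log (sc m (.inr (.inr (2, i))) : ℝ) =
      2 * Real.log (Nat.lcmUpto (m + i) : ℝ) := by
    intro i; simp [sc, qk, wt, Real.log_pow]
  have hq3 : ∀ i : Fin m, Real.log (sc m (.inr (.inr (3, i))) : ℝ) =
      2 * Real.log (Nat.lcmUpto (m + i) : ℝ) := by
    intro i; simp [sc, qk, wt, Real.log_pow]
  rw [Fintype.sum_sum_type, Fintype.sum_sum_type, Fintype.sum_prod_type, Fintype.sum_prod_type,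
    Fin.sum_univ_three, Fin.sum_univ_four]
  simp only [hd, hp0, hp1, hp2, hq0, hq1, hq2, hq3, sum_const_zero, sum_add_distrib, ← mul_sum]
  rw [Fin.sum_univ_eq_sum_range
      (fun a => Real.log (Nat.lcmUpto (max a (2 * m - 1 - a)) : ℝ)) (2 * m),
    Fin.sum_univ_eq_sum_range (fun i => Real.log (Nat.lcmUpto (m + i) : ℝ)) m,
    LogS_fold (fun n => Real.log (Nat.lcmUpto n : ℝ)) m]
  simp only [sum_const, card_univ, Fintype.card_fin, nsmul_eq_mul]
  push_cast
  ring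

theorem sum_log_sc : ∃ m0 : ℕ, ∀ m, m0 ≤ m →
    2 * ∑ f : Ix m, Real.log (sc m f : ℝ) ≤ 43.05 * (m : ℝ) ^ 2 := by
  have h := PNT.psi_tendsto
  have h1 : ∀ᶠ x : ℝ in Filter.atTop, Chebyshev.psi x / x < 1001 / 1000 :=
    h.eventually (gt_mem_nhds (by norm_num))
  obtain ⟨x0, hx0⟩ := Filter.eventually_atTop.1 h1
  obtain ⟨n0, hn0⟩ := exists_nat_ge x0
  have hb : ∀ n : ℕ, max n0 1 ≤ n → Real.log (Nat.lcmUpto n : ℝ) ≤ 1001 / 1000 * (n : ℝ) := by
    intro n hn
    have hn1 : (1 : ℝ) ≤ (n : ℝ) := by exact_mod_cast le_trans (le_max_right _ _) hn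
    have hn2 : x0 ≤ (n : ℝ) := hn0.trans (by exact_mod_cast le_trans (le_max_left _ _) hn)
    have := hx0 (n : ℝ) hn2
    rw [div_lt_iff₀ (by linarith), Chebyshev.psi_eq_log_lcmUpto] at this
    exact this.le
  refine ⟨max n0 1, fun m hm => ?_⟩
  rw [LogS_sum]
  have hs : ∑ i ∈ range m, Real.log (Nat.lcmUpto (m + i) : ℝ) ≤
      1001 / 1000 * (3 / 2 * (m : ℝ) ^ 2) := by
    calc ∑ i ∈ range m, Real.log (Nat.lcmUpto (m + i) : ℝ)
        ≤ ∑ i ∈ range m, 1001 / 1000 * ((m : ℝ) + i) := by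
          refine sum_le_sum fun i _ => ?_
          have := hb (m + i) (by omega)
          push_cast at this
          exact this
      _ = 1001 / 1000 * ∑ i ∈ range m, ((m : ℝ) + i) := by rw [mul_sum]
      _ ≤ 1001 / 1000 * (3 / 2 * (m : ℝ) ^ 2) := by
          refine mul_le_mul_of_nonneg_left ?_ (by norm_num)
          have hg : ∀ k : ℕ, ∑ i ∈ range k, (i : ℝ) = (k : ℝ) * ((k : ℝ) - 1) / 2 := by
            intro k
            induction k with
            | zero => simp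
            | succ k ih => rw [sum_range_succ, ih]; push_cast; ring
          rw [sum_add_distrib, sum_const, card_range, nsmul_eq_mul, hg]
          have : (0 : ℝ) ≤ (m : ℝ) := Nat.cast_nonneg m
          nlinarith
  have hm1 := hb m hm
  have h0 : (0 : ℝ) ≤ (m : ℝ) := Nat.cast_nonneg m
  have h3 : 2 * (m : ℝ) * Real.log (Nat.lcmUpto m : ℝ) ≤ 2 * (m : ℝ) * (1001 / 1000 * (m : ℝ)) :=
    mul_le_mul_of_nonneg_left hm1 (by linarith)
  nlinarith [hs, h3]

end Pool.K3
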