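import Pool.Agent.Lib.K3.Below
import Pool.Agent.Lib.K3.LogS
import Pool.Agent.Lib.K3.LogA
import Pool.Agent.Lib.K3.Gain

/-! K3, module Count (250 lines): the density theorem from the spanning lemma.

The spanning lemma (helper41, table k3s) enters as a hypothesis `Span` here and is discharged in the assembly.

PROOF. `below_V`: let `q` be a large vanishing prime, `m = (q + 53) / 12` (so `q + 42 ≤ 12 m ≤ q + 53`, `8 ≤ m`, `2m + 3 < q`).
`below` with `sum_log_sc`, `sum_log_sz`: `∑_(r ∈ V) (q-r) log r ≤ 43.05 m² + 6.4 m² + O(m log m) ≤ 49.5 m²` (`q ≤ 12 m`,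
`q log q + q log (2^120 (m+1)^8) ≤ 0.05 m²` for large `m`). `gain`: the sum over all primes is `≥ 49.9 m²`. So the primes
`2m < r < q` that are not in `V` contribute `≥ 0.4 m²`; each contributes `≤ q log q`; `m ≥ q/12`: their number is
`≥ 0.4 q² / (144 q log q) ≥ q / (400 log q)`.
`count`: as `Wief.count` (Lib/Wief/Count.lean, copy): for large `X` let `q` be the largest vanishing prime `≤ X`. If `q ≥ X/2`
use `below_V` (monotonicity of `x / log x`). Otherwise all primes in `(X/2, X]` are non-vanishing, at least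
`(θ(X) - θ(X/2)) / log X ≥ X / (3 log X)` of them (`PNT.theta_tendsto`). -/

open Finset

namespace Pool.K3

/-- the spanning lemma -/
def Span : Prop := ∀ (p m : ℕ) [Fact p.Prime], 8 ≤ m → 2 * m + 3 < p → p + 42 ≤ 12 * m →
  ∀ g : ZMod p → ZMod p, (∀ f : Ix m, ∑ t : ZMod p, g t * fn p m f t = 0) → g = 0

private theorem Count_small : ∃ m1 : ℕ, ∀ m : ℕ, m1 ≤ m → ∀ q : ℕ, q ≤ 12 * m → 1 ≤ q →
    (q : ℝ) * Real.log q + q * Real.log (2 ^ 120 * ((m : ℝ) + 1) ^ 8) ≤ 0.05 * (m : ℝ) ^ 2 := by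
  refine ⟨1000000000, fun m hm q hq hq1 => ?_⟩
  have hmr : (1000000000 : ℝ) ≤ m := by exact_mod_cast hm
  have hm0 : (0 : ℝ) < m := by linarith
  have hqr : (q : ℝ) ≤ 12 * m := by exact_mod_cast hq
  have hq0 : (0 : ℝ) < q := by exact_mod_cast hq1
  have hlm : Real.log m ≤ 2 * Real.sqrt m := by
    have h1 : Real.log m = 2 * Real.log (Real.sqrt m) := by
      rw [Real.log_sqrt hm0.le]
      ring
    have h2 := Real.log_le_sub_one_of_pos (Real.sqrt_pos.2 hm0)
    linarith
  have hlm0 : 0 ≤ Real.log (m : ℝ) := Real.log_nonneg (by linarith)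
  have hl2 : Real.log 2 ≤ 1 := by
    have := Real.log_two_lt_d9
    linarith
  have hl2' : 0 ≤ Real.log 2 := Real.log_nonneg (by norm_num)
  have hl12 : Real.log 12 ≤ 4 := by
    have h1 : Real.log 12 ≤ Real.log (2 ^ 4) := Real.log_le_log (by norm_num) (by norm_num)
    rw [Real.log_pow] at h1
    push_cast at h1
    linarith
  have h1 : Real.log q ≤ 4 + Real.log m := by
    have : Real.log q ≤ Real.log (12 * m) := Real.log_le_log hq0 hqr
    rw [Real.log_mul (by norm_num) hm0.ne'] at this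
    linarith
  have h2 : Real.log (2 ^ 120 * ((m : ℝ) + 1) ^ 8) ≤ 128 + 8 * Real.log m := by
    rw [Real.log_mul (by positivity) (by positivity), Real.log_pow, Real.log_pow]
    have h3 : Real.log ((m : ℝ) + 1) ≤ 1 + Real.log m := by
      have : Real.log ((m : ℝ) + 1) ≤ Real.log (2 * m) :=
        Real.log_le_log (by linarith) (by linarith)
      rw [Real.log_mul (by norm_num) hm0.ne'] at this
      linarith
    push_cast
    linarith
  set s := Real.sqrt m with hs
  have hss : s * s = m := Real.mul_self_sqrt hm0.le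
  have hs1 : 30000 ≤ s := by
    rw [hs]
    apply Real.le_sqrt_of_sq_le
    linarith
  have h5 : Real.log q + Real.log (2 ^ 120 * ((m : ℝ) + 1) ^ 8) ≤ 132 + 18 * s := by
    linarith
  have h6 : (q : ℝ) * Real.log q + q * Real.log (2 ^ 120 * ((m : ℝ) + 1) ^ 8) ≤
      12 * m * (132 + 18 * s) := by
    rw [← mul_add]
    calc (q : ℝ) * (Real.log q + Real.log (2 ^ 120 * ((m : ℝ) + 1) ^ 8)) ≤
        q * (132 + 18 * s) := mul_le_mul_of_nonneg_left h5 hq0.le
      _ ≤ 12 * m * (132 + 18 * s) := mul_le_mul_of_nonneg_right hqr (by linarith)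
  refine h6.trans ?_
  have h7 : 12 * (132 + 18 * s) ≤ 0.05 * (m : ℝ) := by
    rw [← hss]
    nlinarith
  calc 12 * (m : ℝ) * (132 + 18 * s) = m * (12 * (132 + 18 * s)) := by ring
    _ ≤ m * (0.05 * m) := mul_le_mul_of_nonneg_left h7 hm0.le
    _ = 0.05 * (m : ℝ) ^ 2 := by ring

open Classical in
theorem below_V (hS : Span) : ∃ P0 : ℕ, ∀ q, P0 ≤ q → IsV q →
    (q : ℝ) / (400 * Real.log q) ≤
      (((range q).filter (fun r => r.Prime ∧ ¬ IsV r)).card : ℝ) := by
  obtain ⟨m1, hm1⟩ := Count_small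
  obtain ⟨m2, hm2⟩ := sum_log_sc
  obtain ⟨m3, hm3⟩ := sum_log_sz
  obtain ⟨m4, hm4⟩ := gain
  refine ⟨12 * (m1 + m2 + m3 + m4) + 1000, fun q hq hV => ?_⟩
  obtain ⟨m, hm⟩ : ∃ m, m = (q + 53) / 12 := ⟨_, rfl⟩
  have b1 : 12 * m ≤ q + 53 := by omega
  have b2 : q + 42 ≤ 12 * m := by omega
  have b3 : 8 ≤ m := by omega
  have b4 : 2 * m + 3 < q := by omega
  have : Fact q.Prime := ⟨hV.1⟩
  have c1 := below hV (m := m) (by omega) (by omega) (hS q m b3 b4 b2)
  have c2 := hm1 m (by omega) q (by omega) (by omega)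
  have c3 := hm2 m (by omega)
  have c4 := hm3 m (by omega)
  have c5 := hm4 m (by omega) q (by omega) (by omega)
  have c6 : ∑ r ∈ (Ioo (2 * m) q).filter Nat.Prime, ((q : ℝ) - r) * Real.log r =
      ∑ r ∈ (Ioo (2 * m) q).filter IsV, ((q : ℝ) - r) * Real.log r +
      ∑ r ∈ (Ioo (2 * m) q).filter (fun r => r.Prime ∧ ¬ IsV r),
        ((q : ℝ) - r) * Real.log r := by
    rw [← sum_filter_add_sum_filter_not ((Ioo (2 * m) q).filter Nat.Prime) IsV]
    congr 1
    · refine sum_congr ?_ fun _ _ => rfl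
      ext r
      simp only [mem_filter]
      constructor
      · rintro ⟨⟨h1, _⟩, h2⟩
        exact ⟨h1, h2⟩
      · rintro ⟨h1, h2⟩
        exact ⟨⟨h1, h2.1⟩, h2⟩
    · refine sum_congr ?_ fun _ _ => rfl
      ext r
      simp only [mem_filter]
      tauto
  have hq1 : (1000 : ℝ) ≤ q := by exact_mod_cast (by omega : 1000 ≤ q)
  have hlogq : 0 < Real.log q := Real.log_pos (by linarith)
  set N := (range q).filter (fun r => r.Prime ∧ ¬ IsV r) with hN
  have c7 : ∑ r ∈ (Ioo (2 * m) q).filter (fun r => r.Prime ∧ ¬ IsV r),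
      ((q : ℝ) - r) * Real.log r ≤ (N.card : ℝ) * (q * Real.log q) := by
    have d2 : ∀ r ∈ (Ioo (2 * m) q).filter (fun r => r.Prime ∧ ¬ IsV r),
        ((q : ℝ) - r) * Real.log r ≤ q * Real.log q := by
      intro r hr
      obtain ⟨hr1, hr2⟩ := mem_filter.1 hr
      have hr3 := mem_Ioo.1 hr1
      have hr4 : (r : ℝ) ≤ q := by exact_mod_cast hr3.2.le
      have e2 : Real.log r ≤ Real.log q :=
        Real.log_le_log (by exact_mod_cast hr2.1.pos) hr4
      have e3 : 0 ≤ Real.log (r : ℝ) := Real.log_natCast_nonneg r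
      have e4 : (0 : ℝ) ≤ r := Nat.cast_nonneg r
      exact mul_le_mul (by linarith) e2 e3 (by linarith)
    refine (sum_le_sum d2).trans ?_
    rw [sum_const, nsmul_eq_mul]
    refine mul_le_mul_of_nonneg_right ?_ (by positivity)
    have : ((Ioo (2 * m) q).filter (fun r => r.Prime ∧ ¬ IsV r)).card ≤ N.card := by
      refine card_le_card fun r hr => ?_
      obtain ⟨hr1, hr2⟩ := mem_filter.1 hr
      rw [hN, mem_filter, mem_range]
      exact ⟨(mem_Ioo.1 hr1).2, hr2⟩
    exact_mod_cast this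
  have c8 : 0.4 * (m : ℝ) ^ 2 ≤ (N.card : ℝ) * (q * Real.log q) := by
    have d1 : 49.9 * (m : ℝ) ^ 2 ≤ ∑ r ∈ (Ioo (2 * m) q).filter IsV, ((q : ℝ) - r) * Real.log r +
      ∑ r ∈ (Ioo (2 * m) q).filter (fun r => r.Prime ∧ ¬ IsV r),
        ((q : ℝ) - r) * Real.log r := by
      rw [← c6]
      exact c5
    have d2 : ∑ r ∈ (Ioo (2 * m) q).filter IsV, ((q : ℝ) - r) * Real.log r ≤
        0.05 * (m : ℝ) ^ 2 + 43.05 * (m : ℝ) ^ 2 + 6.4 * (m : ℝ) ^ 2 := by
      refine c1.trans ?_
      exact add_le_add (add_le_add c2 c3) c4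
    have d3 := d1.trans (add_le_add d2 c7)
    linarith
  have hqm : (q : ℝ) ≤ 12 * m := by exact_mod_cast (by omega : q ≤ 12 * m)
  have hq0 : (0 : ℝ) < q := by linarith
  have c9 : 0.4 * ((q : ℝ) * q) ≤ 144 * ((N.card : ℝ) * (q * Real.log q)) := by
    nlinarith
  have c10 : 0.4 * (q : ℝ) ≤ 144 * ((N.card : ℝ) * Real.log q) := by
    have : (q : ℝ) * (0.4 * q) ≤ q * (144 * ((N.card : ℝ) * Real.log q)) := by
      calc (q : ℝ) * (0.4 * q) = 0.4 * ((q : ℝ) * q) := by ring
        _ ≤ 144 * ((N.card : ℝ) * (q * Real.log q)) := c9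
        _ = q * (144 * ((N.card : ℝ) * Real.log q)) := by ring
    exact le_of_mul_le_mul_left this hq0
  rw [div_le_iff₀ (by positivity)]
  nlinarith

private theorem Count_theta : ∃ x1 : ℕ, ∀ n : ℕ, x1 ≤ n →
    0.9 * (n : ℝ) ≤ Chebyshev.theta (n : ℝ) ∧ Chebyshev.theta (n : ℝ) ≤ 1.1 * (n : ℝ) := by
  have h := PNT.theta_tendsto.comp (tendsto_natCast_atTop_atTop (R := ℝ))
  have h1 := (h.eventually (Ioo_mem_nhds (show (0.9 : ℝ) < 1 by norm_num)
    (show (1 : ℝ) < 1.1 by norm_num)))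
  obtain ⟨x1, hx1⟩ := Filter.eventually_atTop.mp h1
  refine ⟨x1 + 1, fun n hn => ?_⟩
  have h2 := hx1 n (by omega)
  have hn0 : (0 : ℝ) < n := by
    have : 0 < n := by omega
    exact_mod_cast this
  simp only [Function.comp] at h2
  have h3 := h2.1
  have h4 := h2.2
  rw [lt_div_iff₀ hn0] at h3
  rw [div_lt_iff₀ hn0] at h4
  exact ⟨h3.le, h4.le⟩

private theorem Count_nd {r : ℕ} (hr : r.Prime) (h : ¬ IsV r) :
    ¬ (r : ℤ) ∣ (bernoulli (r - 3)).num := by
  intro hd
  by_cases h7 : 7 ≤ r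
  · exact h ⟨hr, h7, hd⟩
  · have h2 := hr.two_le
    have hr' : r = 2 ∨ r = 3 ∨ r = 5 := by
      have h4 : r ≠ 4 := by
        rintro rfl
        revert hr
        decide
      have h6 : r ≠ 6 := by
        rintro rfl
        revert hr
        decide
      omega
    rcases hr' with rfl | rfl | rfl
    · norm_num [bernoulli_zero] at hd
    · norm_num [bernoulli_zero] at hd
    · have h5 : bernoulli (5 - 3) = 1 / 6 := by
        show bernoulli 2 = 1 / 6
        rw [bernoulli_two]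
        norm_num
      rw [h5] at hd
      norm_num at hd

open Classical in
theorem count (hS : Span) : ∃ X0 : ℕ, ∀ X : ℕ, X0 ≤ X →
    (X : ℝ) / (1000 * Real.log X) ≤
      (((range (X + 1)).filter
        (fun r : ℕ => r.Prime ∧ ¬ (r : ℤ) ∣ (bernoulli (r - 3)).num)).card : ℝ) := by
  obtain ⟨P0, hP⟩ := below_V hS
  obtain ⟨x1, hx⟩ := Count_theta
  refine ⟨2 * P0 + 2 * x1 + 20, fun X hX => ?_⟩
  set Y := X / 2 with hY
  have hY1 : 2 * Y ≤ X := by omega
  have hY2 : X < 2 * (Y + 1) := by omega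
  have hXr : (10 : ℝ) ≤ X := by
    have : 10 ≤ X := by omega
    exact_mod_cast this
  have hlogX : 0 < Real.log X := Real.log_pos (by linarith)
  by_cases hW : ∃ p, Y < p ∧ p ≤ X ∧ IsV p
  · obtain ⟨p, hp1, hp2, hp3⟩ := hW
    have h1 := hP p (by omega) hp3
    have hpr : (X : ℝ) ≤ 2 * p := by
      have : X ≤ 2 * p := by omega
      exact_mod_cast this
    have hp2r : (p : ℝ) ≤ X := by exact_mod_cast hp2
    have hp1r : (1 : ℝ) < p := by linarith
    have hlogp : 0 < Real.log p := Real.log_pos hp1r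
    have hlog : Real.log p ≤ Real.log X := Real.log_le_log (by linarith) hp2r
    have h2 : (X : ℝ) / (1000 * Real.log X) ≤ (p : ℝ) / (400 * Real.log p) := by
      rw [div_le_div_iff₀ (by positivity) (by positivity)]
      calc (X : ℝ) * (400 * Real.log p) ≤ (2 * p) * (400 * Real.log X) := by
            apply mul_le_mul hpr (by linarith) (by positivity) (by positivity)
        _ ≤ p * (1000 * Real.log X) := by nlinarith
    refine h2.trans (h1.trans ?_)
    refine Nat.cast_le.mpr (card_le_card ?_)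
    intro q hq
    simp only [mem_filter, mem_range] at hq ⊢
    exact ⟨by omega, hq.2.1, Count_nd hq.2.1 hq.2.2⟩
  · have hsub : ((Ioc Y X).filter Nat.Prime) ⊆
        ((range (X + 1)).filter
          (fun r : ℕ => r.Prime ∧ ¬ (r : ℤ) ∣ (bernoulli (r - 3)).num)) := by
      intro q hq
      rw [mem_filter, mem_Ioc] at hq
      rw [mem_filter, mem_range]
      exact ⟨by omega, hq.2, Count_nd hq.2 fun h => hW ⟨q, hq.1.1, hq.1.2, h⟩⟩
    have h1 := (hx X (by omega)).1
    have h2 := (hx Y (by omega)).2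
    have hYr : (2 : ℝ) * Y ≤ X := by exact_mod_cast hY1
    have h3 : Chebyshev.theta (X : ℝ) - Chebyshev.theta (Y : ℝ) =
        ∑ q ∈ (Ioc Y X).filter Nat.Prime, Real.log q := by
      unfold Chebyshev.theta
      rw [Nat.floor_natCast, Nat.floor_natCast]
      have hu : (Ioc 0 X).filter Nat.Prime = (Ioc 0 Y).filter Nat.Prime ∪
          (Ioc Y X).filter Nat.Prime := by
        rw [← filter_union, Ioc_union_Ioc_eq_Ioc (Nat.zero_le _) (by omega)]
      have hd : Disjoint ((Ioc 0 Y).filter Nat.Prime) ((Ioc Y X).filter Nat.Prime) := by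
        rw [disjoint_left]
        intro q hq hq'
        rw [mem_filter, mem_Ioc] at hq hq'
        omega
      rw [hu, sum_union hd]
      ring
    have h4 : ∑ q ∈ (Ioc Y X).filter Nat.Prime, Real.log q ≤
        (((Ioc Y X).filter Nat.Prime).card : ℝ) * Real.log X := by
      rw [← nsmul_eq_mul]
      apply sum_le_card_nsmul
      intro q hq
      rw [mem_filter, mem_Ioc] at hq
      apply Real.log_le_log
      · exact_mod_cast hq.2.pos
      · exact_mod_cast hq.1.2
    have h5 : (((Ioc Y X).filter Nat.Prime).card : ℝ) ≤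
        (((range (X + 1)).filter
          (fun r : ℕ => r.Prime ∧ ¬ (r : ℤ) ∣ (bernoulli (r - 3)).num)).card : ℝ) := by
      exact_mod_cast card_le_card hsub
    rw [div_le_iff₀ (by positivity)]
    have h6 := mul_le_mul_of_nonneg_right h5 hlogX.le
    nlinarith

end Pool.K3
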