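import Pool.Agent.Lib.K3.Red

/-! K3, module Cyc (150 lines): the harmonic sums on the cycle.

PROOF. `HH_zero`: `(0 : ZMod p).val = 0`. `HH_succ`: if `t.val + 1 < p` then `(t + 1).val = t.val + 1`
(`ZMod.val_add_of_lt`, `ZMod.val_one`) and `sum_range_succ` (`(t.val : ZMod p) = t`, `ZMod.natCast_zmod_val`).
If `t.val + 1 = p` then `t + 1 = 0`, `HH p i 0 = 0` and `HH p i t + (t⁻¹)^i = ∑ n ∈ range p, (n⁻¹)^i`
`= ∑ x : ZMod p, (x⁻¹)^i = ∑ x : (ZMod p), x^i` (`x ↦ x⁻¹` is an involution) `= 0` for `1 ≤ i`, `i < p - 1`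
(`FiniteField.sum_pow_lt_card_sub_one`). The bridge `∑ n ∈ range p, f (n : ZMod p) = ∑ x : ZMod p, f x`:
`Finset.sum_bij'`/`Fin.sum_univ_eq_sum_range` with `ZMod p = Fin p` or `Finset.sum_nbij'` with `ZMod.val`.
`hm_succ`: `(H1 + u)^a (H2 + u²)^b` with two binomial theorems (`add_pow`), the product of the two sums is
`∑ (i,j) ∈ range (a+1) ×ˢ range (b+1), C(a,i) C(b,j) u^(a-i) (u²)^(b-j) H1^i H2^j`; the term `(i,j) = (a,b)` is
`hm p F t` (`Finset.add_sum_erase`), the others are the terms of `Sub F` (`cf`, `kk`).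
`red_hz`: induction on `e` upwards and downwards (`Int.induction_on` or two natural inductions), with
`hz_succ`, `HH_succ` at `(e : ZMod p)` and `Red.inv` (`0 < |e| < p`: `(e : ZMod p) ≠ 0`; `e = 0`: `0⁻¹ = 0` on both
sides). -/

open Finset

namespace Pool.K3

theorem sum_zmod_range {p : ℕ} [Fact p.Prime] (f : ZMod p → ZMod p) :
    ∑ n ∈ range p, f (n : ZMod p) = ∑ t : ZMod p, f t := by
  refine Finset.sum_nbij' (fun n : ℕ => (n : ZMod p)) (fun t : ZMod p => t.val) ?_ ?_ ?_ ?_ ?_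
  · intro n _
    exact Finset.mem_univ _
  · intro t _
    exact Finset.mem_range.2 (ZMod.val_lt t)
  · intro n hn
    exact ZMod.val_natCast_of_lt (Finset.mem_range.1 hn)
  · intro t _
    exact ZMod.natCast_zmod_val t
  · intro n _
    rfl

/-- `∑ t^(-k) = 0` -/
theorem sum_inv_pow {p : ℕ} [Fact p.Prime] {i : ℕ} (h1 : 1 ≤ i) (h2 : i + 1 < p) :
    ∑ t : ZMod p, (t⁻¹) ^ i = 0 := by
  have h3 : ∑ t : ZMod p, (t⁻¹) ^ i = ∑ t : ZMod p, t ^ i :=
    Fintype.sum_equiv (Function.Involutive.toPerm (fun t : ZMod p => t⁻¹) inv_involutive)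
      (fun t : ZMod p => (t⁻¹) ^ i) (fun t : ZMod p => t ^ i) (fun t => rfl)
  rw [h3]
  apply FiniteField.sum_pow_lt_card_sub_one
  rw [ZMod.card]
  omega

theorem HH_zero {p : ℕ} [Fact p.Prime] (i : ℕ) : HH p i 0 = 0 := by
  unfold HH
  rw [ZMod.val_zero, Finset.sum_range_zero]

theorem HH_succ {p : ℕ} [Fact p.Prime] {i : ℕ} (h1 : 1 ≤ i) (h2 : i + 1 < p) (t : ZMod p) :
    HH p i (t + 1) = HH p i t + (t⁻¹) ^ i := by
  have hone : (1 : ZMod p).val = 1 := by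
    have : Fact (1 < p) := ⟨by omega⟩
    exact ZMod.val_one p
  have hlt := ZMod.val_lt t
  by_cases h : t.val + 1 < p
  · have hv : (t + 1).val = t.val + 1 := by
      rw [ZMod.val_add_of_lt (by rw [hone]; exact h), hone]
    unfold HH
    rw [hv, Finset.sum_range_succ, ZMod.natCast_zmod_val]
  · have hp : t.val + 1 = p := by omega
    have ht : t + 1 = 0 := by
      have h3 : ((t.val + 1 : ℕ) : ZMod p) = t + 1 := by
        rw [Nat.cast_add, ZMod.natCast_zmod_val, Nat.cast_one]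
      rw [← h3, hp, ZMod.natCast_self]
    rw [ht, HH_zero]
    have h4 : HH p i t + (t⁻¹) ^ i = ∑ n ∈ range p, ((n : ZMod p)⁻¹) ^ i := by
      have h5 : range p = range (t.val + 1) := by rw [hp]
      unfold HH
      rw [h5, Finset.sum_range_succ, ZMod.natCast_zmod_val]
    rw [h4, sum_zmod_range (fun x : ZMod p => (x⁻¹) ^ i), sum_inv_pow h1 h2]

/-- the shift of a monomial -/
theorem hm_succ {p : ℕ} [Fact p.Prime] (hp : 5 ≤ p) (F : ℕ × ℕ) (t : ZMod p) :
    hm p F (t + 1) = hm p F t + ∑ G ∈ Sub F, (cf F G : ZMod p) * (t⁻¹) ^ kk F G * hm p G t := by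
  have hF : F ∈ (range (F.1 + 1)) ×ˢ (range (F.2 + 1)) := by
    rw [Finset.mem_product, Finset.mem_range, Finset.mem_range]
    omega
  have hterm : (cf F F : ZMod p) * (t⁻¹) ^ kk F F * hm p F t = hm p F t := by
    unfold cf kk
    rw [Nat.choose_self, Nat.choose_self, Nat.sub_self, Nat.sub_self]
    simp
  have hsum := Finset.add_sum_erase ((range (F.1 + 1)) ×ˢ (range (F.2 + 1)))
    (fun G => (cf F G : ZMod p) * (t⁻¹) ^ kk F G * hm p G t) hF
  simp only [hterm] at hsum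
  unfold Sub
  rw [hsum]
  have h1 : HH p 1 (t + 1) = HH p 1 t + t⁻¹ := by
    rw [HH_succ (le_refl 1) (by omega), pow_one]
  have h2 : HH p 2 (t + 1) = HH p 2 t + (t⁻¹) ^ 2 := HH_succ (by norm_num) (by omega) t
  have h3 : hm p F (t + 1) = (HH p 1 t + t⁻¹) ^ F.1 * (HH p 2 t + (t⁻¹) ^ 2) ^ F.2 := by
    unfold hm
    rw [h1, h2]
  rw [h3, add_pow, add_pow, Finset.sum_mul_sum, ← Finset.sum_product']
  refine Finset.sum_congr rfl fun G _ => ?_
  unfold cf kk hm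
  rw [Nat.cast_mul, pow_add, pow_mul]
  ring

theorem hm_zero {p : ℕ} [Fact p.Prime] (F : ℕ × ℕ) : hm p F 0 = if F = (0, 0) then 1 else 0 := by
  unfold hm
  rw [HH_zero, HH_zero]
  obtain ⟨a, b⟩ := F
  by_cases ha : a = 0
  · by_cases hb : b = 0
    · simp [ha, hb]
    · have h : ¬ ((a, b) : ℕ × ℕ) = (0, 0) := by
        intro h
        exact hb (Prod.mk.inj h).2
      rw [if_neg h]
      simp [hb]
  · have h : ¬ ((a, b) : ℕ × ℕ) = (0, 0) := by
      intro h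
      exact ha (Prod.mk.inj h).1
    rw [if_neg h]
    simp [ha]

theorem hm_add {p : ℕ} [Fact p.Prime] (F G : ℕ × ℕ) (t : ZMod p) :
    hm p (F + G) t = hm p F t * hm p G t := by
  unfold hm
  rw [Prod.fst_add, Prod.snd_add, pow_add, pow_add]
  ring

theorem hq_add (F G : ℕ × ℕ) (e : ℤ) : hq (F + G) e = hq F e * hq G e := by
  unfold hq
  rw [Prod.fst_add, Prod.snd_add, pow_add, pow_add]
  ring

private theorem Cyc_inv {p : ℕ} [Fact p.Prime] (x : ℤ) (hx : |x| < p) :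
    Red p ((x : ℚ)⁻¹) ((x : ZMod p)⁻¹) := by
  by_cases h : x = 0
  · subst h
    rw [Int.cast_zero, Int.cast_zero, inv_zero, inv_zero]
    exact Red.zero p
  · refine (Red.int p x).inv fun h0 => h ?_
    refine eq_of_cast (p := p) ?_ ?_
    · rw [h0, Int.cast_zero]
    · rw [sub_zero]
      exact hx

private theorem Cyc_up {p : ℕ} [Fact p.Prime] {i : ℕ} (h1 : 1 ≤ i) (h2 : i + 1 < p) (n : ℕ)
    (hn : n < p) : Red p (hz i (n : ℤ)) (HH p i ((n : ℤ) : ZMod p)) := by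
  induction n with
  | zero =>
    rw [Nat.cast_zero, hz_zero, Int.cast_zero, HH_zero]
    exact Red.zero p
  | succ n ih =>
    have e1 : ((n + 1 : ℕ) : ℤ) = (n : ℤ) + 1 := by push_cast; rfl
    rw [e1, hz_succ, Int.cast_add, Int.cast_one, HH_succ h1 h2]
    refine (ih (by omega)).add ((Cyc_inv (n : ℤ) ?_).pow i)
    rw [abs_of_nonneg (by positivity)]
    omega

private theorem Cyc_down {p : ℕ} [Fact p.Prime] {i : ℕ} (h1 : 1 ≤ i) (h2 : i + 1 < p) (n : ℕ)
    (hn : n < p) : Red p (hz i (-(n : ℤ))) (HH p i ((-(n : ℤ) : ℤ) : ZMod p)) := by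
  induction n with
  | zero =>
    rw [Nat.cast_zero, neg_zero, hz_zero, Int.cast_zero, HH_zero]
    exact Red.zero p
  | succ n ih =>
    have e0 : (-(n : ℤ)) = -((n + 1 : ℕ) : ℤ) + 1 := by push_cast; ring
    have hz' : hz i (-((n + 1 : ℕ) : ℤ)) =
        hz i (-(n : ℤ)) - (((-((n + 1 : ℕ) : ℤ) : ℤ) : ℚ)⁻¹) ^ i := by
      rw [e0, hz_succ]
      ring
    have hH : HH p i ((-((n + 1 : ℕ) : ℤ) : ℤ) : ZMod p) =
        HH p i ((-(n : ℤ) : ℤ) : ZMod p) - (((-((n + 1 : ℕ) : ℤ) : ℤ) : ZMod p)⁻¹) ^ i := by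
      rw [e0, Int.cast_add, Int.cast_one, HH_succ h1 h2]
      ring
    rw [hz', hH]
    refine (ih (by omega)).sub ((Cyc_inv (-((n + 1 : ℕ) : ℤ)) ?_).pow i)
    rw [abs_neg, abs_of_nonneg (by positivity)]
    exact_mod_cast hn

theorem red_hz {p : ℕ} [Fact p.Prime] {i : ℕ} (h1 : 1 ≤ i) (h2 : i + 1 < p) (e : ℤ)
    (he : |e| < p) : Red p (hz i e) (HH p i (e : ZMod p)) := by
  have he' := abs_lt.1 he
  rcases le_total 0 e with h | h
  · have h3 := Cyc_up (p := p) h1 h2 e.toNat (by omega)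
    rwa [Int.toNat_of_nonneg h] at h3
  · have h3 := Cyc_down (p := p) h1 h2 (-e).toNat (by omega)
    rwa [Int.toNat_of_nonneg (by omega), neg_neg] at h3

theorem red_hq {p : ℕ} [Fact p.Prime] (hp : 5 ≤ p) (F : ℕ × ℕ) (e : ℤ) (he : |e| < p) :
    Red p (hq F e) (hm p F (e : ZMod p)) := by
  unfold hq hm
  exact ((red_hz (le_refl 1) (by omega) e he).pow F.1).mul
    ((red_hz (by norm_num) (by omega) e he).pow F.2)

end Pool.K3
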