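import Pool.Agent.Lib.K3.QCong

/-! K3, module DCong (150 lines): the rational Gram matrix is the Gram matrix modulo `p`.

PROOF. Case distinction on `f`, `g` (the mixed cases are defined symmetrically). `d d`: nodes of `E` are distinct modulo `p > 2m` (`eq_of_cast`,
`|ev a - ev b| < 2m`). `d u`, `d q`: the sum has one term `t = ev a` (`Finset.sum_ite_eq`): `red_hq` (`|ev a| ≤ m < p`),
`red_cP`, `Red.inv_sub`; if `a = b` both sides vanish (`(0)⁻¹ = 0`, exponent `≥ 1`). `u u`: `pp_cong` with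
`X = Xv F`, `Xv_cong` (`r + wt F ≤ k + j + wt F ≤ 4`; `F` the sum of the two monomials, `hm_add`); the products
`(u_e^k G) (u_f^j G')`. `q u`: `qu_cong`, `q q`: `qq_cong`, `hm_add`. The weights: `(pk κ).1 + wt (pk κ).2 ≤ 2`,
`wt (qk κ) ≤ 2` (`Fin` cases, `decide`), `wt (F + G) = wt F + wt G`. -/

open Finset Polynomial

namespace Pool.K3

private theorem DCong_ev {m : ℕ} (a : Fin (2 * m)) : |ev m a| ≤ (m : ℤ) := by
  have h := a.2
  unfold ev
  rw [abs_le]
  constructor <;> omega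

private theorem DCong_evp {p m : ℕ} (hmp : 2 * m < p) (a : Fin (2 * m)) : |ev m a| < (p : ℤ) := by
  have h := DCong_ev a
  have h2 := a.2
  omega

private theorem DCong_inj {p : ℕ} [Fact p.Prime] {m : ℕ} (hmp : 2 * m < p) {a b : Fin (2 * m)}
    (h : (ev m a : ZMod p) = (ev m b : ZMod p)) : a = b := by
  have h1 := a.2
  have h2 := b.2
  have h3 : ev m a = ev m b := by
    refine eq_of_cast h ?_
    unfold ev
    rw [abs_lt]
    constructor <;> omega
  unfold ev at h3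
  apply Fin.ext
  omega

private theorem DCong_inv {p : ℕ} [Fact p.Prime] {m : ℕ} (hmp : 2 * m < p) (a b : Fin (2 * m)) :
    Red p (((ev m a : ℚ) - (ev m b : ℚ))⁻¹) (((ev m a : ZMod p) - (ev m b : ZMod p))⁻¹) := by
  by_cases h : a = b
  · subst h
    rw [sub_self, sub_self, inv_zero, inv_zero]
    exact Red.zero p
  · exact Red.inv_sub fun h1 => h (DCong_inj hmp h1)

private theorem DCong_pk (κ : Fin 3) : 1 ≤ (pk κ).1 ∧ (pk κ).1 + wt (pk κ).2 ≤ 2 := by
  fin_cases κ <;> simp [pk, wt]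

private theorem DCong_qk (κ : Fin 4) : wt (qk κ) ≤ 2 := by
  fin_cases κ <;> simp [qk, wt]

private theorem DCong_wt (F G : ℕ × ℕ) : wt (F + G) = wt F + wt G := by
  unfold wt
  rw [Prod.fst_add, Prod.snd_add]
  ring

private theorem DCong_ite {p : ℕ} [Fact p.Prime] (e : ZMod p) (g : ZMod p → ZMod p) :
    ∑ t : ZMod p, (if t = e then 1 else 0) * g t = g e := by
  rw [Finset.sum_eq_single e]
  · rw [if_pos rfl, one_mul]
  · intro t _ ht
    rw [if_neg ht, zero_mul]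
  · intro h
    exact absurd (Finset.mem_univ e) h

private theorem DCong_dd {p : ℕ} [Fact p.Prime] {m : ℕ} (hmp : 2 * m < p) (a b : Fin (2 * m)) :
    Red p (DD m (.inl a) (.inl b)) (∑ t : ZMod p, fn p m (.inl a) t * fn p m (.inl b) t) := by
  have h : ∑ t : ZMod p, fn p m (.inl a) t * fn p m (.inl b) t =
      if (ev m a : ZMod p) = (ev m b : ZMod p) then 1 else 0 :=
    DCong_ite (ev m a : ZMod p) (fn p m (.inl b))
  rw [h]
  show Red p (if a = b then 1 else 0) _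
  by_cases hab : a = b
  · rw [if_pos hab, if_pos (by rw [hab])]
    exact Red.one p
  · rw [if_neg hab, if_neg fun h1 => hab (DCong_inj hmp h1)]
    exact Red.zero p

private theorem DCong_du {p : ℕ} [Fact p.Prime] (hp : 7 ≤ p) {m : ℕ} (hmp : 2 * m < p)
    (a : Fin (2 * m)) (κ : Fin 3) (b : Fin (2 * m)) :
    Red p (DD m (.inl a) (.inr (.inl (κ, b))))
      (∑ t : ZMod p, fn p m (.inl a) t * fn p m (.inr (.inl (κ, b))) t) := by
  have h : ∑ t : ZMod p, fn p m (.inl a) t * fn p m (.inr (.inl (κ, b))) t =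
      fn p m (.inr (.inl (κ, b))) (ev m a : ZMod p) :=
    DCong_ite (ev m a : ZMod p) (fn p m (.inr (.inl (κ, b))))
  rw [h]
  exact ((DCong_inv hmp a b).pow _).mul (red_hq (by omega) _ _ (DCong_evp hmp a))

private theorem DCong_dq {p : ℕ} [Fact p.Prime] (hp : 7 ≤ p) {m : ℕ} (hmp : 2 * m < p)
    (a : Fin (2 * m)) (κ : Fin 4) (i : Fin m) :
    Red p (DD m (.inl a) (.inr (.inr (κ, i))))
      (∑ t : ZMod p, fn p m (.inl a) t * fn p m (.inr (.inr (κ, i))) t) := by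
  have h : ∑ t : ZMod p, fn p m (.inl a) t * fn p m (.inr (.inr (κ, i))) t =
      fn p m (.inr (.inr (κ, i))) (ev m a : ZMod p) :=
    DCong_ite (ev m a : ZMod p) (fn p m (.inr (.inr (κ, i))))
  rw [h]
  have hi := i.2
  exact (red_cP (by omega) _).mul (red_hq (by omega) _ _ (DCong_evp hmp a))

private theorem DCong_uu {p : ℕ} [Fact p.Prime] (hp : 7 ≤ p) (hW : WW p) {m : ℕ}
    (hmp : 2 * m < p) (κ : Fin 3) (a : Fin (2 * m)) (κ' : Fin 3) (b : Fin (2 * m)) :
    Red p (DD m (.inr (.inl (κ, a))) (.inr (.inl (κ', b))))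
      (∑ t : ZMod p, fn p m (.inr (.inl (κ, a))) t * fn p m (.inr (.inl (κ', b))) t) := by
  have h1 := DCong_pk κ
  have h2 := DCong_pk κ'
  have h3 := DCong_wt (pk κ).2 (pk κ').2
  have h : ∑ t : ZMod p, fn p m (.inr (.inl (κ, a))) t * fn p m (.inr (.inl (κ', b))) t =
      ∑ t : ZMod p, ((t - (ev m a : ZMod p))⁻¹) ^ (pk κ).1 *
        ((t - (ev m b : ZMod p))⁻¹) ^ (pk κ').1 * hm p ((pk κ).2 + (pk κ').2) t := by
    refine Finset.sum_congr rfl fun t _ => ?_
    show (((t - (ev m a : ZMod p))⁻¹) ^ (pk κ).1 * hm p (pk κ).2 t) *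
      (((t - (ev m b : ZMod p))⁻¹) ^ (pk κ').1 * hm p (pk κ').2 t) = _
    rw [hm_add]
    ring
  rw [h]
  refine pp_cong hp ((pk κ).2 + (pk κ').2) h1.1 h2.1 (by omega) ?_ (DCong_evp hmp a)
    (DCong_evp hmp b) (Xv ((pk κ).2 + (pk κ').2)) ?_
  · by_cases hab : a = b
    · left
      rw [hab]
    · right
      exact fun h4 => hab (DCong_inj hmp h4)
  · intro r hr1 hr2
    exact ⟨Xv_cong hp hW _ hr1 (by omega) (DCong_evp hmp a),
      Xv_cong hp hW _ hr1 (by omega) (DCong_evp hmp b)⟩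

private theorem DCong_uq {p : ℕ} [Fact p.Prime] (hp : 7 ≤ p) (hW : WW p) {m : ℕ}
    (hmp : 2 * m < p) (κ : Fin 3) (a : Fin (2 * m)) (κ' : Fin 4) (i : Fin m) :
    Red p (qu ((pk κ).2 + (qk κ')) (cP i) (pk κ).1 (ev m a))
      (∑ t : ZMod p, fn p m (.inr (.inl (κ, a))) t * fn p m (.inr (.inr (κ', i))) t) := by
  have h1 := DCong_pk κ
  have h2 := DCong_qk κ'
  have h3 := DCong_wt (pk κ).2 (qk κ')
  have h : ∑ t : ZMod p, fn p m (.inr (.inl (κ, a))) t * fn p m (.inr (.inr (κ', i))) t =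
      ∑ t : ZMod p, ((t - (ev m a : ZMod p))⁻¹) ^ (pk κ).1 * cz p i t *
        hm p ((pk κ).2 + (qk κ')) t := by
    refine Finset.sum_congr rfl fun t _ => ?_
    show (((t - (ev m a : ZMod p))⁻¹) ^ (pk κ).1 * hm p (pk κ).2 t) *
      (cz p i t * hm p (qk κ') t) = _
    rw [hm_add]
    ring
  rw [h]
  exact qu_cong hp hW i.2 hmp _ h1.1 (by omega) (DCong_ev a)

private theorem DCong_qq {p : ℕ} [Fact p.Prime] (hp : 7 ≤ p) (hW : WW p) {m : ℕ}
    (hmp : 2 * m < p) (κ : Fin 4) (i : Fin m) (κ' : Fin 4) (j : Fin m) :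
    Red p (YP (qk κ + qk κ') (cP i * cP j))
      (∑ t : ZMod p, fn p m (.inr (.inr (κ, i))) t * fn p m (.inr (.inr (κ', j))) t) := by
  have h1 := DCong_qk κ
  have h2 := DCong_qk κ'
  have h3 := DCong_wt (qk κ) (qk κ')
  have h : ∑ t : ZMod p, fn p m (.inr (.inr (κ, i))) t * fn p m (.inr (.inr (κ', j))) t =
      ∑ t : ZMod p, cz p i t * cz p j t * hm p (qk κ + qk κ') t := by
    refine Finset.sum_congr rfl fun t _ => ?_
    show (cz p i t * hm p (qk κ) t) * (cz p j t * hm p (qk κ') t) = _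
    rw [hm_add]
    ring
  rw [h]
  exact qq_cong hp hW i.2 j.2 hmp _ (by omega)

private theorem DCong_comm {p m : ℕ} [NeZero p] (f g : Ix m) :
    ∑ t : ZMod p, fn p m f t * fn p m g t = ∑ t : ZMod p, fn p m g t * fn p m f t :=
  Finset.sum_congr rfl fun t _ => mul_comm _ _

theorem DD_cong {p : ℕ} [Fact p.Prime] (hp : 7 ≤ p) (hW : WW p) {m : ℕ} (hmp : 2 * m < p)
    (f g : Ix m) : Red p (DD m f g) (∑ t : ZMod p, fn p m f t * fn p m g t) := by
  rcases f with a | ⟨κ, a⟩ | ⟨κ, i⟩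
  · rcases g with b | ⟨κ', b⟩ | ⟨κ', j⟩
    · exact DCong_dd hmp a b
    · exact DCong_du hp hmp a κ' b
    · exact DCong_dq hp hmp a κ' j
  · rcases g with b | ⟨κ', b⟩ | ⟨κ', j⟩
    · rw [DCong_comm]
      exact DCong_du hp hmp b κ a
    · exact DCong_uu hp hW hmp κ a κ' b
    · exact DCong_uq hp hW hmp κ a κ' j
  · rcases g with b | ⟨κ', b⟩ | ⟨κ', j⟩
    · rw [DCong_comm]
      exact DCong_dq hp hmp b κ i
    · rw [DCong_comm]
      exact DCong_uq hp hW hmp κ' b κ i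
    · exact DCong_qq hp hW hmp κ i κ' j

end Pool.K3
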