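import Mathlib

/-! # A positive proportion of the primes `p` does not divide `B_(p-3)` (`k = 3` of Zagier's question
on finite multiple zeta values): definitions.

Paper: `MP_c511df_nt_k3_paper46.md` (helper46, design of helper65). `L(n) = lcm(1..n)` is
`Nat.lcmUpto n`. `F = (a, b)` stands for the monomial `H_1^a H_2^b` of weight `a + 2 b`. -/

open Finset Polynomial

namespace Pool.K3

/-! ## Reduction modulo `p` of rational numbers -/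

/-- the rational number `q` is `p`-integral and reduces to `z` modulo `p` -/
def Red (p : ℕ) (q : ℚ) (z : ZMod p) : Prop :=
  ∃ a b : ℤ, (b : ZMod p) ≠ 0 ∧ q * b = a ∧ z * b = a

/-! ## Harmonic sums -/

/-- `H_i(t) = ∑_(0 ≤ n < t) n^(-i)` on the cycle `ZMod p` (with `0⁻¹ = 0`) -/
def HH (p i : ℕ) (t : ZMod p) : ZMod p := ∑ n ∈ range t.val, ((n : ZMod p)⁻¹) ^ i

/-- the monomial `F = H_1^a H_2^b` on `ZMod p` -/
def hm (p : ℕ) (F : ℕ × ℕ) (t : ZMod p) : ZMod p := HH p 1 t ^ F.1 * HH p 2 t ^ F.2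

/-- `H_i(e)` for an integer `e`, a rational number -/
def hz (i : ℕ) (e : ℤ) : ℚ :=
  if 0 ≤ e then ∑ n ∈ range e.toNat, ((n : ℚ)⁻¹) ^ i
  else - ∑ n ∈ range (-e).toNat, ((-((n : ℚ) + 1))⁻¹) ^ i

/-- the monomial `F` at an integer -/
def hq (F : ℕ × ℕ) (e : ℤ) : ℚ := hz 1 e ^ F.1 * hz 2 e ^ F.2

/-- the weight of `F` -/
def wt (F : ℕ × ℕ) : ℕ := F.1 + 2 * F.2

/-- the proper divisors of the monomial `F` -/
def Sub (F : ℕ × ℕ) : Finset (ℕ × ℕ) := ((range (F.1 + 1)) ×ˢ (range (F.2 + 1))).erase F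

/-- the coefficient `c_FG` in `F(t+1) = F(t) + ∑_G c_FG t^(-k_FG) G(t)` -/
def cf (F G : ℕ × ℕ) : ℕ := F.1.choose G.1 * F.2.choose G.2

/-- the exponent `k_FG = wt F - wt G` -/
def kk (F G : ℕ × ℕ) : ℕ := (F.1 - G.1) + 2 * (F.2 - G.2)

/-- the vanishing primes: `∑ H_1(t) / t² = 0` modulo `p` -/
def Van (p : ℕ) [NeZero p] : Prop := ∑ t : ZMod p, (t⁻¹) ^ 2 * HH p 1 t = 0

/-- all sums of weight at most `4` vanish modulo `p` -/
def WW (p : ℕ) [NeZero p] : Prop :=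
  ∀ (k : ℕ) (F : ℕ × ℕ), 1 ≤ k → k + wt F ≤ 4 → ∑ t : ZMod p, (t⁻¹) ^ k * hm p F t = 0

theorem lt_of_mem_Sub {F G : ℕ × ℕ} (h : G ∈ Sub F) : G.1 + G.2 < F.1 + F.2 := by
  unfold Sub at h
  rw [mem_erase, mem_product, mem_range, mem_range] at h
  obtain ⟨h1, h2, h3⟩ := h
  by_contra h4
  apply h1
  ext <;> omega

theorem le_of_mem_Sub {F G : ℕ × ℕ} (h : G ∈ Sub F) : G.1 ≤ F.1 ∧ G.2 ≤ F.2 := by
  unfold Sub at h
  rw [mem_erase, mem_product, mem_range, mem_range] at h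
  omega

theorem wt_add_kk {F G : ℕ × ℕ} (h : G ∈ Sub F) : wt G + kk F G = wt F ∧ 1 ≤ kk F G := by
  have h1 := lt_of_mem_Sub h
  have h2 := le_of_mem_Sub h
  unfold wt kk
  omega

/-! ## The functional `Y_F` -/

/-- the coefficients of `D_0^r β_l` in the basis `β_j(t) = C(t-1, j)`, where `D_0 P = (P - P(0))/t` -/
def dc : ℕ → ℕ → ℕ → ℚ
  | 0, l, j => if l = j then 1 else 0
  | r + 1, l, j => ∑ q ∈ range l, ((-1) ^ (l - 1 - q) / ((q : ℚ) + 1)) * dc r q j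

/-- the value `Y_F(β_l)` -/
noncomputable def yv (F : ℕ × ℕ) : ℕ → ℚ := fun l =>
  -(1 / ((l : ℚ) + 1)) * ∑ G ∈ (Sub F).attach, (cf F G.1 : ℚ) *
    ∑ j ∈ range (l + 1), dc (kk F G.1 - 1) l j * (yv G.1 j - if G.1 = (0, 0) then (-1) ^ j else 0)
termination_by F.1 + F.2
decreasing_by exact lt_of_mem_Sub G.2

theorem yv_eq (F : ℕ × ℕ) (l : ℕ) : yv F l =
    -(1 / ((l : ℚ) + 1)) * ∑ G ∈ Sub F, (cf F G : ℚ) *
      ∑ j ∈ range (l + 1), dc (kk F G - 1) l j * (yv G j - if G = (0, 0) then (-1) ^ j else 0) := by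
  rw [yv]
  congr 1
  exact Finset.sum_attach (Sub F) (fun G => (cf F G : ℚ) *
      ∑ j ∈ range (l + 1), dc (kk F G - 1) l j * (yv G j - if G = (0, 0) then (-1) ^ j else 0))

theorem yv_one (l : ℕ) : yv (0, 0) l = 0 := by
  rw [yv_eq]
  have : Sub (0, 0) = ∅ := by decide
  rw [this]
  simp

/-- the Newton coefficient `Δ^l P (1)` of `P` in the basis `β_l(t) = C(t-1, l)` -/
noncomputable def nc (P : ℚ[X]) (l : ℕ) : ℚ :=
  ∑ j ∈ range (l + 1), (-1) ^ (l - j) * (l.choose j : ℚ) * P.eval (1 + (j : ℚ))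

/-- the linear functional `Y_F` on polynomials -/
noncomputable def YP (F : ℕ × ℕ) (P : ℚ[X]) : ℚ :=
  ∑ l ∈ range (P.natDegree + 1), nc P l * yv F l

/-- `D_e P = (P - P(e)) / (X - e)` -/
noncomputable def De (e : ℤ) (P : ℚ[X]) : ℚ[X] := P /ₘ (X - C (e : ℚ))

/-! ## The sums `X_F(k, e)` of `u_e^k F` and `u_e^k u_f^j F` -/

/-- the sum of `u_e^k u_f^j F`, in terms of the sums `X r e` of `u_e^r F` and the values `g` of `F` -/
def pp (X : ℕ → ℤ → ℚ) (g : ℤ → ℚ) (k : ℕ) (e : ℤ) (j : ℕ) (f : ℤ) : ℚ :=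
  if e = f then X (k + j) e else
    ∑ r ∈ Icc 1 k, (-1) ^ (k - r) * ((j + k - r - 1).choose (k - r) : ℚ) *
        (((e : ℚ) - f)⁻¹) ^ (j + k - r) * (X r e - (((f : ℚ) - e)⁻¹) ^ r * g f) +
    ∑ r ∈ Icc 1 j, (-1) ^ (j - r) * ((k + j - r - 1).choose (j - r) : ℚ) *
        (((f : ℚ) - e)⁻¹) ^ (k + j - r) * (X r f - (((e : ℚ) - f)⁻¹) ^ r * g e)

/-- the increment `X_F(k, x+1) - X_F(k, x)`, in terms of the lower monomials -/
def inc (X : ℕ × ℕ → ℕ → ℤ → ℚ) (F : ℕ × ℕ) (k : ℕ) (x : ℤ) : ℚ :=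
  ∑ G ∈ Sub F, (cf F G : ℚ) * pp (X G) (hq G) k x (kk F G) 0

/-- sum of increments from `0` to `e` -/
def zsum (g : ℤ → ℚ) (e : ℤ) : ℚ :=
  if 0 ≤ e then ∑ x ∈ range e.toNat, g x else - ∑ x ∈ range (-e).toNat, g (-((x : ℤ) + 1))

/-- `X_F(k, e)`, the sum of `u_e^k F` -/
noncomputable def Xv (F : ℕ × ℕ) : ℕ → ℤ → ℚ := fun k e =>
  zsum (fun x => ∑ G ∈ (Sub F).attach,
    (cf F G.1 : ℚ) * pp (Xv G.1) (hq G.1) k x (kk F G.1) 0) e
termination_by F.1 + F.2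
decreasing_by exact lt_of_mem_Sub G.2

theorem Xv_eq (F : ℕ × ℕ) (k : ℕ) (e : ℤ) : Xv F k e = zsum (inc Xv F k) e := by
  rw [Xv]
  congr 1
  funext x
  unfold inc
  exact Finset.sum_attach (Sub F) (fun G => (cf F G : ℚ) * pp (Xv G) (hq G) k x (kk F G) 0)

theorem zsum_zero (g : ℤ → ℚ) : zsum g 0 = 0 := by simp [zsum]

theorem zsum_succ (g : ℤ → ℚ) (e : ℤ) : zsum g (e + 1) = zsum g e + g e := by
  unfold zsum
  rcases lt_trichotomy e (-1) with h | h | h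
  · rw [if_neg (by omega), if_neg (by omega)]
    have h1 : (-e).toNat = (-(e + 1)).toNat + 1 := by omega
    rw [h1, sum_range_succ]
    have h2 : -(((-(e + 1)).toNat : ℤ) + 1) = e := by omega
    rw [h2]
    ring
  · subst h
    simp
  · rw [if_pos (by omega), if_pos (by omega)]
    have h1 : (e + 1).toNat = e.toNat + 1 := by omega
    rw [h1, sum_range_succ]
    have h2 : ((e.toNat : ℕ) : ℤ) = e := by omega
    rw [h2]

theorem Xv_zero (F : ℕ × ℕ) (k : ℕ) : Xv F k 0 = 0 := by rw [Xv_eq, zsum_zero]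

theorem Xv_succ (F : ℕ × ℕ) (k : ℕ) (e : ℤ) : Xv F k (e + 1) = Xv F k e + inc Xv F k e := by
  rw [Xv_eq, Xv_eq, zsum_succ]

theorem hz_eq_zsum (i : ℕ) (e : ℤ) : hz i e = zsum (fun x => ((x : ℚ)⁻¹) ^ i) e := by
  unfold hz zsum
  split_ifs
  · exact sum_congr rfl fun n _ => by push_cast; rfl
  · congr 1
    exact sum_congr rfl fun n _ => by push_cast; rfl

theorem hz_zero (i : ℕ) : hz i 0 = 0 := by rw [hz_eq_zsum, zsum_zero]

theorem hz_succ (i : ℕ) (e : ℤ) : hz i (e + 1) = hz i e + ((e : ℚ)⁻¹) ^ i := by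
  rw [hz_eq_zsum, hz_eq_zsum, zsum_succ]

/-! ## The design -/

/-- `β_l(t) = C(t-1, l)` on `ZMod p` (for `l < p`) -/
def bt (p l : ℕ) (t : ZMod p) : ZMod p := (∏ i ∈ range l, (t - 1 - (i : ZMod p))) * (l.factorial : ZMod p)⁻¹

/-- `β_l` as a polynomial -/
noncomputable def bP (l : ℕ) : ℚ[X] :=
  C (1 / (l.factorial : ℚ)) * ∏ i ∈ range l, (X - C (1 + (i : ℚ)))

/-- `C_i(t) = C(t + [i/2], i)` on `ZMod p` (for `i < p`) -/
def cz (p i : ℕ) (t : ZMod p) : ZMod p :=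
  (∏ j ∈ range i, (t + ((i / 2 : ℕ) : ZMod p) - (j : ZMod p))) * (i.factorial : ZMod p)⁻¹

/-- `C_i` as a polynomial -/
noncomputable def cP (i : ℕ) : ℚ[X] :=
  C (1 / (i.factorial : ℚ)) * ∏ j ∈ range i, (X + C (((i / 2 : ℕ) : ℚ) - (j : ℚ)))

/-- the index set of the `12 m` functions: `2 m` deltas, `3 * 2 m` poles, `4 * m` polynomials -/
abbrev Ix (m : ℕ) : Type := Fin (2 * m) ⊕ (Fin 3 × Fin (2 * m)) ⊕ (Fin 4 × Fin m)

/-- the nodes `-m ≤ e < m` -/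
def ev (m : ℕ) (a : Fin (2 * m)) : ℤ := (a : ℤ) - m

/-- the kinds of poles: `u_e`, `u_e²`, `u_e H_1` -/
def pk : Fin 3 → ℕ × (ℕ × ℕ) := ![(1, (0, 0)), (2, (0, 0)), (1, (1, 0))]

/-- the kinds of polynomials: `1, H_1, H_2, H_1²` -/
def qk : Fin 4 → ℕ × ℕ := ![(0, 0), (1, 0), (0, 1), (2, 0)]

/-- the `12 m` functions on `ZMod p` -/
def fn (p m : ℕ) : Ix m → ZMod p → ZMod p
  | .inl a => fun t => if t = (ev m a : ZMod p) then 1 else 0
  | .inr (.inl (κ, a)) => fun t => ((t - (ev m a : ZMod p))⁻¹) ^ (pk κ).1 * hm p (pk κ).2 t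
  | .inr (.inr (κ, i)) => fun t => cz p i t * hm p (qk κ) t

/-- the entry polynomial × pole -/
noncomputable def qu (F : ℕ × ℕ) (P : ℚ[X]) (k : ℕ) (e : ℤ) : ℚ :=
  ∑ r ∈ range k, ((De e)^[r] P).eval (e : ℚ) * Xv F (k - r) e + YP F ((De e)^[k] P)
    - ((De e)^[k] P).eval (e : ℚ) * hq F e

/-- the rational Gram matrix, independent of `p` -/
noncomputable def DD (m : ℕ) : Ix m → Ix m → ℚ
  | .inl a, .inl b => if a = b then 1 else 0
  | .inl a, .inr (.inl (κ, b)) => (((ev m a : ℚ) - (ev m b : ℚ))⁻¹) ^ (pk κ).1 * hq (pk κ).2 (ev m a)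
  | .inl a, .inr (.inr (κ, i)) => (cP i).eval (ev m a : ℚ) * hq (qk κ) (ev m a)
  | .inr (.inl (κ, b)), .inl a =>
      (((ev m a : ℚ) - (ev m b : ℚ))⁻¹) ^ (pk κ).1 * hq (pk κ).2 (ev m a)
  | .inr (.inl (κ, a)), .inr (.inl (κ', b)) =>
      pp (Xv ((pk κ).2 + (pk κ').2)) (hq ((pk κ).2 + (pk κ').2)) (pk κ).1 (ev m a) (pk κ').1 (ev m b)
  | .inr (.inl (κ, a)), .inr (.inr (κ', i)) => qu ((pk κ).2 + (qk κ')) (cP i) (pk κ).1 (ev m a)
  | .inr (.inr (κ, i)), .inl a => (cP i).eval (ev m a : ℚ) * hq (qk κ) (ev m a)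
  | .inr (.inr (κ', i)), .inr (.inl (κ, a)) => qu ((pk κ).2 + (qk κ')) (cP i) (pk κ).1 (ev m a)
  | .inr (.inr (κ, i)), .inr (.inr (κ', j)) => YP (qk κ + qk κ') (cP i * cP j)

/-- the scaling factors -/
def sc (m : ℕ) : Ix m → ℕ
  | .inl _ => 1
  | .inr (.inl (κ, a)) => (Nat.lcmUpto (max (a : ℕ) (2 * m - 1 - a))) ^ (pk κ).1 *
      (Nat.lcmUpto m) ^ wt (pk κ).2
  | .inr (.inr (κ, i)) => (Nat.lcmUpto (m + i)) ^ wt (qk κ)

/-- the size of `C_i` on `[-m, m]` -/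
def AA (m i : ℕ) : ℕ := (m + i / 2).choose i

/-- the sizes of the functions -/
def sz (m : ℕ) : Ix m → ℕ
  | .inl _ => 1
  | .inr (.inl _) => 1
  | .inr (.inr (_, i)) => AA m i

/-- an integer valued polynomial -/
def IV (P : ℚ[X]) : Prop := ∀ x : ℤ, ∃ z : ℤ, P.eval (x : ℚ) = z

end Pool.K3
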