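import Pool.Agent.Lib.MZFin.PPow

/-!
MP_c511df_nt, k = 3: all finite multiple zeta values of the weights `2` and `4` vanish, those of
weight `3` are multiples of `fz p [2, 1]` (stuffle products and the binomial transform at `p - 1`).
-/

open Finset

namespace Pool.Agent.K3

open Pool.MZFin

section stuffle

variable {R : Type*} [CommRing R] (w : ℕ → R)

theorem st11 (a b M : ℕ) :
    hs w [a] M * hs w [b] M = hs w [a, b] M + hs w [b, a] M + hs w [a + b] M := by
  induction M with
  | zero => simp [hs]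
  | succ M ih =>
    rw [hs_succ, hs_succ w b, hs_succ w a [b], hs_succ w b [a], hs_succ w (a + b)]
    simp only [hs_nil, mul_one]
    linear_combination ih

theorem st12 (a b c M : ℕ) : hs w [a] M * hs w [b, c] M = hs w [a, b, c] M + hs w [b, a, c] M +
    hs w [b, c, a] M + hs w [a + b, c] M + hs w [b, a + c] M := by
  induction M with
  | zero => simp [hs]
  | succ M ih =>
    rw [hs_succ, hs_succ w b [c], hs_succ w a [b, c], hs_succ w b [a, c], hs_succ w b [c, a],
      hs_succ w (a + b) [c], hs_succ w b [a + c]]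
    simp only [hs_nil, mul_one]
    linear_combination ih + w (M + 1) ^ b * st11 w a c M

theorem st13 (M : ℕ) : hs w [1] M * hs w [1, 1, 1] M = 4 * hs w [1, 1, 1, 1] M +
    hs w [2, 1, 1] M + hs w [1, 2, 1] M + hs w [1, 1, 2] M := by
  induction M with
  | zero => simp [hs]
  | succ M ih =>
    rw [hs_succ, hs_succ w 1 [1, 1], hs_succ w 1 [1, 1, 1], hs_succ w 2 [1, 1],
      hs_succ w 1 [2, 1], hs_succ w 1 [1, 2]]
    simp only [hs_nil, mul_one]
    linear_combination ih + w (M + 1) ^ 1 * st12 w 1 1 1 M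

end stuffle

section transform

variable {p : ℕ} (hp : p.Prime)

/-- the binomial transform, `f n` is the value at `n + 1` -/
private def bt {K : Type*} [CommRing K] (f : ℕ → K) (N : ℕ) : K :=
  ∑ n ∈ range N, (-1) ^ n * (N.choose (n + 1) : K) * f n

include hp in
private theorem ne_zero' {n : ℕ} (h0 : 0 < n) (h : n < p) : (n : ZMod p) ≠ 0 := by
  intro h1
  rw [ZMod.natCast_eq_zero_iff] at h1
  exact absurd (Nat.le_of_dvd h0 h1) (by omega)

include hp in
private theorem cdiv {n N : ℕ} (hn : n < N + 1) (hN : N + 1 < p) :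
    (N.choose n : ZMod p) * wp p (n + 1) = ((N + 1).choose (n + 1) : ZMod p) * wp p (N + 1) := by
  have hF : Fact p.Prime := ⟨hp⟩
  have h2 := ne_zero' hp (n := n + 1) (by omega) (by omega)
  have h3 := ne_zero' hp (n := N + 1) (by omega) (by omega)
  have h4 : ((N + 1 : ℕ) : ZMod p) * (N.choose n : ZMod p) =
      ((N + 1).choose (n + 1) : ZMod p) * ((n + 1 : ℕ) : ZMod p) := by
    exact_mod_cast congrArg (Nat.cast : ℕ → ZMod p) (Nat.add_one_mul_choose_eq N n)
  unfold wp
  rw [← div_eq_mul_inv, ← div_eq_mul_inv, div_eq_div_iff h2 h3, ← h4, mul_comm]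

include hp in
private theorem bt_div_succ (f : ℕ → ZMod p) {N : ℕ} (hN : N + 1 < p) :
    bt (fun n => f n * wp p (n + 1)) (N + 1) =
      bt (fun n => f n * wp p (n + 1)) N + wp p (N + 1) * bt f (N + 1) := by
  have hF : Fact p.Prime := ⟨hp⟩
  have h1 : bt (fun n => f n * wp p (n + 1)) N =
      ∑ n ∈ range (N + 1), (-1) ^ n * (N.choose (n + 1) : ZMod p) * (f n * wp p (n + 1)) := by
    rw [sum_range_succ, Nat.choose_succ_self]
    simp [bt]
  rw [h1]
  unfold bt
  rw [mul_sum, ← sum_add_distrib]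
  refine sum_congr rfl fun n hn => ?_
  have h4 := cdiv hp (mem_range.1 hn) hN
  have h5 : ((N + 1).choose (n + 1) : ZMod p) = (N.choose n : ZMod p) + N.choose (n + 1) := by
    rw [Nat.choose_succ_succ]
    push_cast
    ring
  rw [h5] at h4 ⊢
  linear_combination (-1) ^ n * f n * h4

include hp in
/-- `T(f/n)(N) = ∑_(m ≤ N) T(f)(m) / m` -/
private theorem bt_div (f : ℕ → ZMod p) {N : ℕ} (hN : N < p) :
    bt (fun n => f n * wp p (n + 1)) N = ∑ m ∈ range N, wp p (m + 1) * bt f (m + 1) := by
  induction N with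
  | zero => simp [bt]
  | succ N ih => rw [bt_div_succ hp f hN, ih (by omega), sum_range_succ]

include hp in
/-- `T(S)(N) = T(n s(n))(N) / N`, `S(n) = ∑_(m ≤ n) s(m)` -/
private theorem bt_sum (s : ℕ → ZMod p) {N : ℕ} (hN : N + 1 < p) :
    bt (fun n => ∑ m ∈ range (n + 1), s m * wp p (m + 1)) (N + 1) =
      wp p (N + 1) * bt s (N + 1) := by
  have hF : Fact p.Prime := ⟨hp⟩
  set S : ℕ → ZMod p := fun n => ∑ m ∈ range n, s m * wp p (m + 1) with hS
  have hSs : ∀ n, S (n + 1) = S n + s n * wp p (n + 1) := fun n => sum_range_succ _ _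
  have hS0 : S 0 = 0 := by simp [hS]
  -- T(S)(N+1) = sum (-1)^n (C(N,n) + C(N,n+1)) S(n+1)
  have h1 : bt (fun n => S (n + 1)) (N + 1) =
      ∑ n ∈ range (N + 1), (-1) ^ n * (N.choose n : ZMod p) * S (n + 1) +
      ∑ n ∈ range (N + 1), (-1) ^ n * (N.choose (n + 1) : ZMod p) * S (n + 1) := by
    unfold bt
    rw [← sum_add_distrib]
    refine sum_congr rfl fun n _ => ?_
    rw [Nat.choose_succ_succ]
    push_cast
    ring
  have h2 : ∑ n ∈ range (N + 1), (-1) ^ n * (N.choose n : ZMod p) * S n =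
      -∑ n ∈ range (N + 1), (-1) ^ n * (N.choose (n + 1) : ZMod p) * S (n + 1) := by
    rw [sum_range_succ' , hS0, mul_zero, add_zero, sum_range_succ (fun n => (-1) ^ n *
      (N.choose (n + 1) : ZMod p) * S (n + 1)), Nat.choose_succ_self, Nat.cast_zero, mul_zero,
      zero_mul, add_zero, ← sum_neg_distrib]
    exact sum_congr rfl fun n _ => by rw [pow_succ]; ring
  have h3 : ∑ n ∈ range (N + 1), (-1) ^ n * (N.choose n : ZMod p) * S (n + 1) =
      ∑ n ∈ range (N + 1), (-1) ^ n * (N.choose n : ZMod p) * S n +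
      ∑ n ∈ range (N + 1), (-1) ^ n * (N.choose n : ZMod p) * (s n * wp p (n + 1)) := by
    rw [← sum_add_distrib]
    exact sum_congr rfl fun n _ => by rw [hSs]; ring
  have h4 : ∑ n ∈ range (N + 1), (-1) ^ n * (N.choose n : ZMod p) * (s n * wp p (n + 1)) =
      wp p (N + 1) * bt s (N + 1) := by
    unfold bt
    rw [mul_sum]
    refine sum_congr rfl fun n hn => ?_
    have h4 := cdiv hp (mem_range.1 hn) hN
    linear_combination (-1) ^ n * s n * h4
  rw [h1, h3, h2, h4]
  ring

include hp in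
/-- `T(f)(p-1) = -∑_(n < p) f(n)` -/
private theorem bt_top (f : ℕ → ZMod p) : bt f (p - 1) = -∑ n ∈ range (p - 1), f n := by
  have hF : Fact p.Prime := ⟨hp⟩
  have h2 := hp.two_le
  unfold bt
  rw [← sum_neg_distrib]
  refine sum_congr rfl fun n hn => ?_
  have hn' := mem_range.1 hn
  have h1 : ∀ k, k < p → ((p - 1).choose k : ZMod p) = (-1) ^ k := by
    intro k
    induction k with
    | zero => simp
    | succ k ih =>
      intro hk
      have h3 := ih (by omega)
      have h4 : (((p - 1 + 1).choose (k + 1) : ℕ) : ZMod p) = 0 := by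
        rw [Nat.sub_add_cancel hp.one_lt.le, ZMod.natCast_eq_zero_iff]
        exact hp.dvd_choose_self (by omega) hk
      rw [Nat.choose_succ_succ] at h4
      push_cast at h4
      rw [h3] at h4
      rw [pow_succ]
      linear_combination h4
  rw [h1 (n + 1) (by omega), pow_succ]
  have h6 : ((-1 : ZMod p)) ^ n * (-1) ^ n = 1 := by
    rw [← mul_pow]
    simp
  linear_combination (-f n) * h6

/-- the harmonic sums -/
private theorem hs_one (a : ℕ) (n : ℕ) : hs (wp p) [a] n = ∑ m ∈ range n, wp p (m + 1) ^ a := by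
  rw [hs_cons]
  exact sum_congr rfl fun m _ => by rw [hs_nil, mul_one]

include hp in
private theorem bt_one {N : ℕ} (hN : N + 1 < p) : bt (fun _ => (1 : ZMod p)) (N + 1) = 1 := by
  induction N with
  | zero => simp [bt]
  | succ N ih =>
    have h1 := ih (by omega)
    have h2 : bt (fun _ => (1 : ZMod p)) (N + 1 + 1) = bt (fun _ => (1 : ZMod p)) (N + 1) +
        ∑ n ∈ range (N + 1 + 1), (-1) ^ n * ((N + 1).choose n : ZMod p) := by
      have h3 : bt (fun _ => (1 : ZMod p)) (N + 1) = ∑ n ∈ range (N + 1 + 1),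
          (-1) ^ n * ((N + 1).choose (n + 1) : ZMod p) * 1 := by
        rw [sum_range_succ, Nat.choose_succ_self]
        simp [bt]
      rw [h3, bt, ← sum_add_distrib]
      refine sum_congr rfl fun n _ => ?_
      rw [Nat.choose_succ_succ]
      push_cast
      ring
    have h4 : ∑ n ∈ range (N + 1 + 1), (-1) ^ n * ((N + 1).choose n : ZMod p) = 0 := by
      have h5 := Int.alternating_sum_range_choose_of_ne (n := N + 1) (by omega)
      have h6 := congrArg (Int.cast : ℤ → ZMod p) h5
      push_cast at h6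
      exact h6
    rw [h2, h1, h4, add_zero]

include hp in
private theorem bt_w {N : ℕ} (hN : N < p) : bt (fun n => wp p (n + 1)) N = hs (wp p) [1] N := by
  have h1 := bt_div hp (fun _ => (1 : ZMod p)) hN
  simp only [one_mul] at h1
  rw [h1, hs_one]
  refine sum_congr rfl fun m hm => ?_
  rw [bt_one hp (by have := mem_range.1 hm; omega), mul_one, pow_one]

include hp in
private theorem bt_w2 {N : ℕ} (hN : N < p) : bt (fun n => wp p (n + 1) ^ 2) N =
    ∑ m ∈ range N, wp p (m + 1) * hs (wp p) [1] (m + 1) := by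
  have h1 := bt_div hp (fun n => wp p (n + 1)) hN
  have h2 : (fun n => wp p (n + 1) ^ 2) = fun n => wp p (n + 1) * wp p (n + 1) := by
    funext n
    ring
  rw [h2, h1]
  refine sum_congr rfl fun m hm => ?_
  rw [bt_w hp (by have := mem_range.1 hm; omega)]

include hp in
private theorem bt_S2 {N : ℕ} (hN : N + 1 < p) : bt (fun n => hs (wp p) [2] (n + 1)) (N + 1) =
    wp p (N + 1) * hs (wp p) [1] (N + 1) := by
  rw [← bt_w hp hN, ← bt_sum hp (fun n => wp p (n + 1)) hN]
  congr 1
  funext n
  rw [hs_one]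
  exact sum_congr rfl fun m _ => by ring

include hp in
private theorem bt_S3 {N : ℕ} (hN : N + 1 < p) : bt (fun n => hs (wp p) [3] (n + 1)) (N + 1) =
    wp p (N + 1) * ∑ m ∈ range (N + 1), wp p (m + 1) * hs (wp p) [1] (m + 1) := by
  rw [← bt_w2 hp hN, ← bt_sum hp (fun n => wp p (n + 1) ^ 2) hN]
  congr 1
  funext n
  rw [hs_one]
  exact sum_congr rfl fun m _ => by ring

/-- sums of products with one inclusive inner variable -/
private theorem incl (a : ℕ) (l : List ℕ) (N : ℕ) :
    ∑ m ∈ range N, wp p (m + 1) ^ a * hs (wp p) l (m + 1) =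
      ∑ m ∈ range N, wp p (m + 1) ^ a * (hs (wp p) l (m + 1) - hs (wp p) l m) +
        hs (wp p) (a :: l) N := by
  rw [hs_cons, ← sum_add_distrib]
  exact sum_congr rfl fun m _ => by ring

private theorem incl1 (a b N : ℕ) : ∑ m ∈ range N, wp p (m + 1) ^ a * hs (wp p) [b] (m + 1) =
    hs (wp p) [a, b] N + hs (wp p) [a + b] N := by
  rw [incl, hs_one, add_comm]
  congr 1
  refine sum_congr rfl fun m _ => ?_
  rw [hs_succ, hs_nil]
  ring

include hp in
private theorem dualA : -(fz p [1, 3] + fz p [4]) =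
    fz p [2, 1, 1] + fz p [3, 1] + (fz p [2, 2] + fz p [4]) := by
  have h2 := hp.two_le
  have h1 := bt_div hp (fun n => hs (wp p) [3] (n + 1)) (N := p - 1) (by omega)
  rw [bt_top hp] at h1
  have h3 : ∑ n ∈ range (p - 1), hs (wp p) [3] (n + 1) * wp p (n + 1) =
      fz p [1, 3] + fz p [4] := by
    have h4 := incl1 (p := p) 1 3 (p - 1)
    simp only [pow_one] at h4
    unfold fz
    rw [← h4]
    exact sum_congr rfl fun n _ => mul_comm _ _
  rw [h3] at h1
  rw [h1]
  have h5 : ∑ m ∈ range (p - 1), wp p (m + 1) * bt (fun n => hs (wp p) [3] (n + 1)) (m + 1) =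
      ∑ m ∈ range (p - 1), wp p (m + 1) ^ 2 *
        (hs (wp p) [1, 1] (m + 1) + hs (wp p) [2] (m + 1)) := by
    refine sum_congr rfl fun m hm => ?_
    rw [bt_S3 hp (by have := mem_range.1 hm; omega)]
    have h6 := incl1 (p := p) 1 1 (m + 1)
    simp only [pow_one] at h6
    rw [h6]
    ring
  rw [h5]
  simp only [mul_add, sum_add_distrib]
  rw [incl1 (p := p) 2 2, incl 2 [1, 1]]
  have h7 : ∑ m ∈ range (p - 1), wp p (m + 1) ^ 2 *
      (hs (wp p) [1, 1] (m + 1) - hs (wp p) [1, 1] m) = fz p [3, 1] := by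
    unfold fz
    rw [hs_cons]
    refine sum_congr rfl fun m _ => ?_
    rw [hs_succ]
    ring
  rw [h7]
  unfold fz
  ring

include hp in
private theorem dualB : -(fz p [2, 2] + fz p [4]) =
    fz p [1, 2, 1] + fz p [3, 1] + (fz p [1, 3] + fz p [4]) := by
  have h2 := hp.two_le
  have h1 := bt_div hp (fun n => hs (wp p) [2] (n + 1) * wp p (n + 1)) (N := p - 1) (by omega)
  rw [bt_top hp] at h1
  have h3 : ∑ n ∈ range (p - 1), hs (wp p) [2] (n + 1) * wp p (n + 1) * wp p (n + 1) =
      fz p [2, 2] + fz p [4] := by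
    have h4 := incl1 (p := p) 2 2 (p - 1)
    unfold fz
    rw [← h4]
    exact sum_congr rfl fun n _ => by ring
  rw [h3] at h1
  rw [h1]
  have h5 : ∑ m ∈ range (p - 1), wp p (m + 1) *
      bt (fun n => hs (wp p) [2] (n + 1) * wp p (n + 1)) (m + 1) =
      ∑ m ∈ range (p - 1), wp p (m + 1) *
        (hs (wp p) [2, 1] (m + 1) + hs (wp p) [3] (m + 1)) := by
    refine sum_congr rfl fun m hm => ?_
    have hm' := mem_range.1 hm
    rw [bt_div hp _ (by omega)]
    congr 1
    rw [← incl1 (p := p) 2 1]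
    refine sum_congr rfl fun j hj => ?_
    rw [bt_S2 hp (by have := mem_range.1 hj; omega)]
    ring
  rw [h5]
  simp only [mul_add, sum_add_distrib]
  have h8 := incl1 (p := p) 1 3 (p - 1)
  have h9 := incl (p := p) 1 [2, 1] (p - 1)
  simp only [pow_one] at h8 h9
  rw [h8, h9]
  have h7 : ∑ m ∈ range (p - 1), wp p (m + 1) *
      (hs (wp p) [2, 1] (m + 1) - hs (wp p) [2, 1] m) = fz p [3, 1] := by
    unfold fz
    rw [hs_cons]
    refine sum_congr rfl fun m _ => ?_
    rw [hs_succ]
    ring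
  rw [h7]
  unfold fz
  ring

end transform

/-! ### the values -/

variable {p : ℕ}

private theorem two_ne (hp : p.Prime) (h : 5 < p) : (2 : ZMod p) ≠ 0 := by
  have := ne_zero' hp (n := 2) (by norm_num) (by omega)
  exact_mod_cast this

private theorem three_ne (hp : p.Prime) (h : 5 < p) : (3 : ZMod p) ≠ 0 := by
  have := ne_zero' hp (n := 3) (by norm_num) (by omega)
  exact_mod_cast this

private theorem mul_cancel' (hp : p.Prime) {a x : ZMod p} (ha : a ≠ 0) (h : a * x = 0) : x = 0 := by
  have hF : Fact p.Prime := ⟨hp⟩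
  exact (mul_eq_zero.1 h).resolve_left ha

private theorem mul_ne_zero' (hp : p.Prime) {a b : ZMod p} (ha : a ≠ 0) (hb : b ≠ 0) :
    a * b ≠ 0 := fun h => hb (mul_cancel' hp ha h)

theorem fz_11 (hp : p.Prime) (h : 5 < p) : fz p [1, 1] = 0 := by
  have h1 := st11 (wp p) 1 1 (p - 1)
  have h2 := fz_single p hp 1 (by norm_num) (by omega)
  have h3 := fz_single p hp 2 (by norm_num) (by omega)
  unfold fz at *
  rw [h2, h3] at h1
  refine mul_cancel' hp (two_ne hp h) ?_
  linear_combination -h1

theorem fz_12 (hp : p.Prime) (h : 5 < p) : fz p [1, 2] = -fz p [2, 1] := by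
  have h1 := st11 (wp p) 1 2 (p - 1)
  have h2 := fz_single p hp 1 (by norm_num) (by omega)
  have h3 := fz_single p hp 3 (by norm_num) (by omega)
  unfold fz at *
  rw [h2, h3] at h1
  linear_combination -h1

theorem fz_111 (hp : p.Prime) (h : 5 < p) : fz p [1, 1, 1] = 0 := by
  have h1 := st12 (wp p) 1 1 1 (p - 1)
  have h2 := fz_single p hp 1 (by norm_num) (by omega)
  have h3 := fz_12 hp h
  unfold fz at *
  rw [h2, h3] at h1
  refine mul_cancel' hp (three_ne hp h) ?_
  linear_combination -h1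

theorem fz_22 (hp : p.Prime) (h : 5 < p) : fz p [2, 2] = 0 := by
  have h1 := st11 (wp p) 2 2 (p - 1)
  have h2 := fz_single p hp 2 (by norm_num) (by omega)
  have h3 := fz_single p hp 4 (by norm_num) (by omega)
  unfold fz at *
  rw [h2, h3] at h1
  refine mul_cancel' hp (two_ne hp h) ?_
  linear_combination -h1

private theorem fz_13' (hp : p.Prime) (h : 5 < p) : fz p [1, 3] + fz p [3, 1] = 0 := by
  have h1 := st11 (wp p) 1 3 (p - 1)
  have h2 := fz_single p hp 1 (by norm_num) (by omega)
  have h3 := fz_single p hp 4 (by norm_num) (by omega)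
  unfold fz at *
  rw [h2, h3] at h1
  linear_combination -h1

theorem fz_211 (hp : p.Prime) (h : 5 < p) : fz p [2, 1, 1] = 0 := by
  have h1 := dualA hp
  rw [fz_22 hp h, fz_single p hp 4 (by norm_num) (by omega)] at h1
  have h2 := fz_13' hp h
  linear_combination -h1 - h2

theorem fz_121 (hp : p.Prime) (h : 5 < p) : fz p [1, 2, 1] = 0 := by
  have h1 := dualB hp
  rw [fz_22 hp h, fz_single p hp 4 (by norm_num) (by omega)] at h1
  have h2 := fz_13' hp h
  linear_combination -h1 - h2

theorem fz_31 (hp : p.Prime) (h : 5 < p) : fz p [3, 1] = 0 := by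
  have h1 := st12 (wp p) 1 2 1 (p - 1)
  have h2 := fz_single p hp 1 (by norm_num) (by omega)
  have h3 := fz_22 hp h
  have h4 := fz_211 hp h
  have h5 := fz_121 hp h
  unfold fz at *
  rw [h2, h3, h4, h5] at h1
  linear_combination -h1

theorem fz_13 (hp : p.Prime) (h : 5 < p) : fz p [1, 3] = 0 := by
  have h1 := fz_13' hp h
  rw [fz_31 hp h, add_zero] at h1
  exact h1

theorem fz_112 (hp : p.Prime) (h : 5 < p) : fz p [1, 1, 2] = 0 := by
  have h1 := st12 (wp p) 1 1 2 (p - 1)
  have h2 := fz_single p hp 1 (by norm_num) (by omega)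
  have h3 := fz_22 hp h
  have h4 := fz_13 hp h
  have h5 := fz_121 hp h
  unfold fz at *
  rw [h2, h3, h4, h5] at h1
  refine mul_cancel' hp (two_ne hp h) ?_
  linear_combination -h1

theorem fz_1111 (hp : p.Prime) (h : 5 < p) : fz p [1, 1, 1, 1] = 0 := by
  have h1 := st13 (wp p) (p - 1)
  have h2 := fz_single p hp 1 (by norm_num) (by omega)
  have h3 := fz_112 hp h
  have h4 := fz_211 hp h
  have h5 := fz_121 hp h
  unfold fz at *
  rw [h2, h3, h4, h5] at h1
  refine mul_cancel' hp (mul_ne_zero' hp (two_ne hp h) (two_ne hp h)) ?_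
  linear_combination -h1

/-! ### all words -/

theorem words_two {l : List ℕ} (h1 : ∀ a ∈ l, 1 ≤ a) (h2 : l.sum = 2) : l = [2] ∨ l = [1, 1] := by
  rcases l with _ | ⟨a, _ | ⟨b, _ | ⟨c, l⟩⟩⟩
  · simp at h2
  · simp at h2
    simp [h2]
  · have ha := h1 a (by simp)
    have hb := h1 b (by simp)
    simp at h2
    have : a = 1 ∧ b = 1 := by omega
    simp [this.1, this.2]
  · have ha := h1 a (by simp)
    have hb := h1 b (by simp)
    have hc := h1 c (by simp)
    simp at h2
    omega

theorem words_three {l : List ℕ} (h1 : ∀ a ∈ l, 1 ≤ a) (h2 : l.sum = 3) :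
    l = [3] ∨ l = [2, 1] ∨ l = [1, 2] ∨ l = [1, 1, 1] := by
  rcases l with _ | ⟨a, l⟩
  · simp at h2
  · have ha := h1 a (by simp)
    rw [List.sum_cons] at h2
    have ha3 : a = 1 ∨ a = 2 ∨ a = 3 := by omega
    rcases ha3 with rfl | rfl | rfl
    · rcases words_two (fun b hb => h1 b (List.mem_cons_of_mem _ hb)) (by omega : l.sum = 2) with
        rfl | rfl <;> simp
    · rcases l with _ | ⟨b, _ | ⟨c, l⟩⟩
      · simp at h2
      · rw [List.sum_singleton] at h2
        have hb : b = 1 := by omega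
        simp [hb]
      · have hb := h1 b (by simp)
        have hc := h1 c (by simp)
        simp at h2
        omega
    · rcases l with _ | ⟨b, l⟩
      · simp
      · have hb := h1 b (by simp)
        simp at h2
        omega

theorem words_four {l : List ℕ} (h1 : ∀ a ∈ l, 1 ≤ a) (h2 : l.sum = 4) :
    l = [4] ∨ l = [3, 1] ∨ l = [2, 2] ∨ l = [2, 1, 1] ∨ l = [1, 3] ∨ l = [1, 2, 1] ∨
      l = [1, 1, 2] ∨ l = [1, 1, 1, 1] := by
  rcases l with _ | ⟨a, l⟩
  · simp at h2
  · have ha := h1 a (by simp)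
    rw [List.sum_cons] at h2
    have hl : ∀ b ∈ l, 1 ≤ b := fun b hb => h1 b (List.mem_cons_of_mem _ hb)
    have ha3 : a = 1 ∨ a = 2 ∨ a = 3 ∨ a = 4 := by omega
    rcases ha3 with rfl | rfl | rfl | rfl
    · rcases words_three hl (by omega : l.sum = 3) with rfl | rfl | rfl | rfl <;> simp
    · rcases words_two hl (by omega : l.sum = 2) with rfl | rfl <;> simp
    · rcases l with _ | ⟨b, _ | ⟨c, l⟩⟩
      · simp at h2
      · rw [List.sum_singleton] at h2
        have hb : b = 1 := by omega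
        simp [hb]
      · have hb := h1 b (by simp)
        have hc := h1 c (by simp)
        simp at h2
        omega
    · rcases l with _ | ⟨b, l⟩
      · simp
      · have hb := h1 b (by simp)
        simp at h2
        omega

/-- all finite multiple zeta values of weight `2` vanish -/
theorem fz_wt2 (hp : p.Prime) (h : 5 < p) {l : List ℕ} (h1 : ∀ a ∈ l, 1 ≤ a) (h2 : l.sum = 2) :
    fz p l = 0 := by
  rcases words_two h1 h2 with rfl | rfl
  · exact fz_single p hp 2 (by norm_num) (by omega)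
  · exact fz_11 hp h

/-- all finite multiple zeta values of weight `3` are multiples of `fz p [2, 1]` -/
theorem fz_wt3 {l : List ℕ} (h1 : ∀ a ∈ l, 1 ≤ a) (h2 : l.sum = 3) :
    ∃ c : ℤ, ∀ p : ℕ, p.Prime → 5 < p → fz p l = c * fz p [2, 1] := by
  rcases words_three h1 h2 with rfl | rfl | rfl | rfl
  · exact ⟨0, fun p hp h => by
      rw [fz_single p hp 3 (by norm_num) (by omega), Int.cast_zero, zero_mul]⟩
  · exact ⟨1, fun p hp h => by rw [Int.cast_one, one_mul]⟩
  · exact ⟨-1, fun p hp h => by rw [fz_12 hp h]; push_cast; ring⟩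
  · exact ⟨0, fun p hp h => by rw [fz_111 hp h, Int.cast_zero, zero_mul]⟩

/-- all finite multiple zeta values of weight `4` vanish -/
theorem fz_wt4 (hp : p.Prime) (h : 5 < p) {l : List ℕ} (h1 : ∀ a ∈ l, 1 ≤ a) (h2 : l.sum = 4) :
    fz p l = 0 := by
  rcases words_four h1 h2 with rfl | rfl | rfl | rfl | rfl | rfl | rfl | rfl
  · exact fz_single p hp 4 (by norm_num) (by omega)
  · exact fz_31 hp h
  · exact fz_22 hp h
  · exact fz_211 hp h
  · exact fz_13 hp h
  · exact fz_121 hp h
  · exact fz_112 hp h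
  · exact fz_1111 hp h

end Pool.Agent.K3
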