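import Pool.Agent.Lib.K3.Cyc
import Pool.Agent.Lib.K3.ZFin

/-! K3, module Dual (180 lines): `∑ H_1(t)² / t² = 0` modulo `p`, `p ≥ 7`.

PROOF. For `a : ℕ → ZMod p` put `A(n) = ∑_(k=1)^n (-1)^(k-1) C(n,k) a(k)`, `n < p` (the dual). From
`C(n,k) - C(n-1,k) = C(n-1,k-1) = (k/n) C(n,k)`: the dual of `a(k)/k` is `n ↦ ∑_(j=1)^n A(j)/j` (1).
The dual of `a(k) = ∑_(j=1)^k 1/j` is `A(n) = 1/n` (`Δ`: `∑_k (-1)^(k-1) C(n,k) H_k = 1/n`) (2); so with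
`a(k) = k^(-3) ∑_(j≤k) 1/j`: `A(n) = ∑_(n ≥ i1 ≥ i2 ≥ i3 ≥ 1) 1/(i1 i2 i3²)` (three times (1)).
At `n = p - 1`: `(-1)^k C(p-1,k) = 1` in `ZMod p`, so `- ∑_(k=1)^(p-1) k^(-3) ∑_(j≤k) 1/j = S*(1,1,2)`, where
`S*(1,1,2) = ∑_(p > i1 ≥ i2 ≥ i3) 1/(i1 i2 i3²)`. The left side is `-(S(3,1) + S(4))`, with
`S(k1,..) = ∑_(p>n1>n2>..)`. `S(4) = 0`; `S(3,1) = ∑ t^(-3) H_1(t) = 0`: reflection `t ↦ -t`
(`HH p 1 (-t) = HH p 1 t + t⁻¹`). So `S*(1,1,2) = 0`, and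
`S*(1,1,2) = S(1,1,2) + S(2,2) + S(1,3) + S(4)`, `S(2,2) = (S(2)² - S(4))/2 = 0`,
`S(1,3) = S(1) S(3) - S(3,1) - S(4) = 0`. So `S(1,1,2) = 0`. Reversal `n ↦ p - n` (weight even):
`S(2,1,1) = S(1,1,2) = 0`. Finally `∑ H_1(t)²/t² = 2 S(2,1,1) + S(2,2) = 0`
(`H_1(t)² = 2 ∑_(n<t) H_1(n)/n + H_2(t)`, by induction on `t`).
Any other proof is welcome (e.g. with the library `Pool/Agent/Lib/MZFin`: `fz p l`, `hs (wp p) l`). -/

open Finset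

namespace Pool.K3

private theorem Dual_ind {p : ℕ} [Fact p.Prime] {g : ZMod p → ZMod p} (h0 : g 0 = 0)
    (h1 : ∀ t, g (t + 1) = g t) (t : ZMod p) : g t = 0 := by
  have h2 : ∀ n : ℕ, g (n : ZMod p) = 0 := by
    intro n
    induction n with
    | zero => rw [Nat.cast_zero, h0]
    | succ n ih => rw [Nat.cast_add, Nat.cast_one, h1, ih]
  have h3 := h2 t.val
  rwa [ZMod.natCast_zmod_val] at h3

/-- reflection -/
theorem HH_neg_one {p : ℕ} [Fact p.Prime] (hp : 5 ≤ p) (t : ZMod p) :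
    HH p 1 (-t) = HH p 1 t + t⁻¹ := by
  have h := Dual_ind (g := fun t : ZMod p => HH p 1 (-t) - HH p 1 t - t⁻¹) ?_ ?_ t
  · have h' : HH p 1 (-t) - HH p 1 t - t⁻¹ = 0 := h
    linear_combination h'
  · show HH p 1 (-0) - HH p 1 0 - (0 : ZMod p)⁻¹ = 0
    rw [neg_zero, inv_zero, sub_self, sub_zero]
  · intro t
    show HH p 1 (-(t + 1)) - HH p 1 (t + 1) - (t + 1)⁻¹ = HH p 1 (-t) - HH p 1 t - t⁻¹
    have h1 := HH_succ (p := p) (i := 1) (le_refl 1) (by omega) (-(t + 1))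
    have h2 := HH_succ (p := p) (i := 1) (le_refl 1) (by omega) t
    rw [show -(t + 1) + 1 = -t by ring, pow_one, inv_neg] at h1
    rw [pow_one] at h2
    rw [h1, h2]
    ring

theorem HH_neg_two {p : ℕ} [Fact p.Prime] (hp : 5 ≤ p) (t : ZMod p) :
    HH p 2 (-t) = - HH p 2 t - (t⁻¹) ^ 2 := by
  have h := Dual_ind (g := fun t : ZMod p => HH p 2 (-t) + HH p 2 t + (t⁻¹) ^ 2) ?_ ?_ t
  · have h' : HH p 2 (-t) + HH p 2 t + (t⁻¹) ^ 2 = 0 := h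
    linear_combination h'
  · show HH p 2 (-0) + HH p 2 0 + ((0 : ZMod p)⁻¹) ^ 2 = 0
    rw [neg_zero, inv_zero, HH_zero]
    ring
  · intro t
    show HH p 2 (-(t + 1)) + HH p 2 (t + 1) + ((t + 1)⁻¹) ^ 2 = HH p 2 (-t) + HH p 2 t + (t⁻¹) ^ 2
    have h1 := HH_succ (p := p) (i := 2) (by norm_num) (by omega) (-(t + 1))
    have h2 := HH_succ (p := p) (i := 2) (by norm_num) (by omega) t
    rw [show -(t + 1) + 1 = -t by ring, inv_neg, neg_sq] at h1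
    rw [h1, h2]
    ring

private theorem Dual_HH {p : ℕ} [Fact p.Prime] (m : ℕ) (hm : m + 1 < p) :
    HH p 1 ((m + 1 : ℕ) : ZMod p) = Pool.MZFin.hs (Pool.MZFin.wp p) [1] m := by
  unfold HH
  rw [ZMod.val_natCast_of_lt hm, Finset.sum_range_succ', Nat.cast_zero, inv_zero,
    Pool.MZFin.hs_cons]
  rw [zero_pow (by norm_num), add_zero]
  refine Finset.sum_congr rfl fun n _ => ?_
  rw [Pool.MZFin.hs_nil, mul_one]
  rfl

theorem sum_dual {p : ℕ} [Fact p.Prime] (hp : 7 ≤ p) :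
    ∑ t : ZMod p, (t⁻¹) ^ 2 * HH p 1 t ^ 2 = 0 := by
  have hpr : p.Prime := Fact.out
  rw [← sum_zmod_range (fun t : ZMod p => (t⁻¹) ^ 2 * HH p 1 t ^ 2)]
  obtain ⟨q, rfl⟩ : ∃ q, p = q + 1 := ⟨p - 1, by omega⟩
  rw [Finset.sum_range_succ', Nat.cast_zero, inv_zero, zero_pow (by norm_num), zero_mul, add_zero]
  have h1 : ∀ m ∈ range q, (((m + 1 : ℕ) : ZMod (q + 1))⁻¹) ^ 2 *
      HH (q + 1) 1 ((m + 1 : ℕ) : ZMod (q + 1)) ^ 2 =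
      2 * (Pool.MZFin.wp (q + 1) (m + 1) ^ 2 *
        Pool.MZFin.hs (Pool.MZFin.wp (q + 1)) [1, 1] m) +
      Pool.MZFin.wp (q + 1) (m + 1) ^ 2 * Pool.MZFin.hs (Pool.MZFin.wp (q + 1)) [2] m := by
    intro m hm
    have hm' := Finset.mem_range.1 hm
    rw [Dual_HH m (by omega)]
    have h2 := Pool.Agent.K3.st11 (Pool.MZFin.wp (q + 1)) 1 1 m
    have h3 : (((m + 1 : ℕ) : ZMod (q + 1))⁻¹) = Pool.MZFin.wp (q + 1) (m + 1) := rfl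
    rw [h3]
    linear_combination (Pool.MZFin.wp (q + 1) (m + 1) ^ 2) * h2
  rw [Finset.sum_congr rfl h1, Finset.sum_add_distrib, ← Finset.mul_sum]
  have h4 : Pool.MZFin.fz (q + 1) [2, 1, 1] = 0 := Pool.Agent.K3.fz_211 hpr (by omega)
  have h5 : Pool.MZFin.fz (q + 1) [2, 2] = 0 := Pool.Agent.K3.fz_22 hpr (by omega)
  unfold Pool.MZFin.fz at h4 h5
  rw [Pool.MZFin.hs_cons, Nat.add_sub_cancel] at h4 h5
  rw [h4, h5, mul_zero, add_zero]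

end Pool.K3
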