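import Pool.Agent.Lib.K3.ZBody
import Pool.Agent.Lib.MZFin.DStuf

/-!
MP_c511df_nt: powers of the class of `fz p [2, 1]`: the spaces of finite multiple zeta values of the
weights `3 j` are not zero.
-/

open Finset

namespace Pool.Agent.K3

open Pool.MZFin Pool.MZDim

private theorem pow_words (j : ℕ) : ∃ L : List (List ℕ), (∀ g ∈ L, (∀ a ∈ g, 1 ≤ a) ∧ g.sum = 3 * j) ∧
    ∀ p : ℕ, fz p [2, 1] ^ j = (L.map fun g => fz p g).sum := by
  induction j with
  | zero => exact ⟨[[]], by simp, fun p => by simp [fz_nil]⟩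
  | succ j ih =>
    obtain ⟨L, hL, hp⟩ := ih
    have key : ∀ L : List (List ℕ), (∀ g ∈ L, (∀ a ∈ g, 1 ≤ a) ∧ g.sum = 3 * j) →
        ∃ L' : List (List ℕ), (∀ g ∈ L', (∀ a ∈ g, 1 ≤ a) ∧ g.sum = 3 * (j + 1)) ∧
          ∀ p : ℕ, (L.map fun g => fz p g).sum * fz p [2, 1] = (L'.map fun g => fz p g).sum := by
      intro L
      induction L with
      | nil => exact fun _ => ⟨[], by simp, fun p => by simp⟩
      | cons g L ih2 =>
        intro hgL
        obtain ⟨L1, h1, h2⟩ := ih2 fun g' hg' => hgL g' (List.mem_cons_of_mem _ hg')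
        have hg := hgL g (by simp)
        obtain ⟨L2, h3, h4⟩ := stuffle_hs g [2, 1] hg.1 (by simp)
        refine ⟨L2 ++ L1, fun g' hg' => ?_, fun p => ?_⟩
        · rcases List.mem_append.1 hg' with h5 | h5
          · have h6 := h3 g' h5
            refine ⟨h6.1, ?_⟩
            rw [h6.2, hg.2]
            simp
            ring
          · exact h1 g' h5
        · rw [List.map_cons, List.sum_cons, add_mul, h2 p, List.map_append, List.sum_append]
          congr 1
          exact h4 (ZMod p) (wp p) (p - 1)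
    obtain ⟨L', h1, h2⟩ := key L hL
    exact ⟨L', h1, fun p => by rw [pow_succ, hp p, h2 p]⟩

/-- the spaces of weight `3 j` are not zero -/
theorem dim_three_mul (h : {p : ℕ | p.Prime ∧ fz p [2, 1] ≠ 0}.Infinite) {j d : ℕ}
    (hd : IsA (3 * j) d) : 1 ≤ d := by
  rcases Nat.eq_zero_or_pos d with rfl | h0
  · exfalso
    obtain ⟨L, hL, hp⟩ := pow_words j
    -- every word of weight `3 j` has value zero for large `p`
    have h1 : ∀ g ∈ L, ∃ N : ℕ, ∀ p : ℕ, p.Prime → N < p → fz p g = 0 := by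
      intro g hg
      obtain ⟨hg1, hg2⟩ := hL g hg
      obtain ⟨c, ⟨N, hN⟩, i, hi⟩ := hd.2 (fun _ => g.length) (fun _ => g.get) fun _ =>
        ⟨fun a => hg1 _ (List.get_mem g a), by rw [← List.sum_ofFn, List.ofFn_get, hg2]⟩
      have hi0 : i = 0 := Fin.ext (by have := i.2; simp only [Fin.val_zero]; omega)
      rw [hi0] at hi
      refine ⟨N + (c 0).num.natAbs + (c 0).den, fun p hpp hNp => ?_⟩
      have hF : Fact p.Prime := ⟨hpp⟩
      have h2 := hN p hpp (by omega)
      rw [Fin.sum_univ_one, fsum_eq p hpp, List.ofFn_get] at h2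
      have h3 : ((c 0).num : ZMod p) ≠ 0 := by
        intro h4
        rw [ZMod.intCast_zmod_eq_zero_iff_dvd] at h4
        have h5 := Int.natAbs_dvd_natAbs.2 h4
        rw [Int.natAbs_natCast] at h5
        have h6 := Nat.le_of_dvd (Int.natAbs_pos.2 (Rat.num_ne_zero.2 hi)) h5
        omega
      have h4 : ((c 0).den : ZMod p) ≠ 0 := by
        intro h4
        rw [ZMod.natCast_eq_zero_iff] at h4
        have h6 := Nat.le_of_dvd (c 0).den_pos h4
        omega
      exact (mul_eq_zero.1 h2).resolve_left (mul_ne_zero h3 (inv_ne_zero h4))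
    have h2 : ∀ L : List (List ℕ), (∀ g ∈ L, ∃ N : ℕ, ∀ p : ℕ, p.Prime → N < p → fz p g = 0) →
        ∃ N : ℕ, ∀ p : ℕ, p.Prime → N < p → (L.map fun g => fz p g).sum = 0 := by
      intro L
      induction L with
      | nil => exact fun _ => ⟨0, fun p _ _ => by simp⟩
      | cons g L ih =>
        intro hgL
        obtain ⟨N1, hN1⟩ := hgL g (by simp)
        obtain ⟨N2, hN2⟩ := ih fun g' hg' => hgL g' (List.mem_cons_of_mem _ hg')
        refine ⟨N1 + N2, fun p hpp hNp => ?_⟩
        rw [List.map_cons, List.sum_cons, hN1 p hpp (by omega), hN2 p hpp (by omega), add_zero]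
    obtain ⟨N, hN⟩ := h2 L h1
    obtain ⟨p, ⟨hpp, hb⟩, hpN⟩ := h.exists_gt N
    have hF : Fact p.Prime := ⟨hpp⟩
    have h3 := hN p hpp hpN
    rw [← hp p] at h3
    exact pow_ne_zero j hb h3
  · exact h0

end Pool.Agent.K3
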