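import Pool.Agent.Lib.K3.Defs

/-! K3, module IVal (200 lines): integer valued polynomials.

PROOF. `newton`: `P = ∑_(l ≤ natDegree P) C (nc P l) * bP l`: both sides are polynomials of degree `≤ natDegree P` that agree
at `1, 2, .., natDegree P + 1` (`(bP l).eval (1 + j) = C(j, l)`, and the inversion
`∑_l C(j,l) ∑_(i≤l) (-1)^(l-i) C(l,i) f(i) = f(j)`), or use Mathlib's forward differences
(`fwdDiff`, `shift_eq_sum_fwdDiff_iter`). `nc_int`: clear from the definition. `iv_bP`, `iv_cP`: the value at an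
integer `x` is `Ring.choose (x-1) l`, `Ring.choose (x + i/2) i` (`Ring.choose` for `ℤ`: `descPochhammer_eq_factorial_smul_choose`
or: the product of `i` consecutive integers is divisible by `i!`, `Int` version). `natDegree_cP`: a product of `i` monic
linear factors times a nonzero constant. `natDegree_De`: `natDegree_divByMonic`. `De_spec`: `mul_divByMonic_eq_iff` /
`X_sub_C_mul_divByMonic_eq_sub_modByMonic`, `modByMonic_X_sub_C_eq_C_eval`.
`iv_De`: `P` integer valued of degree `≤ n`. Shift: `Q(t) = P(t + e)`, `Q = ∑_(l ≤ n) a_l C(t, l)`, `a_l` integers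
(Newton at `0`), so `P(t) = ∑_l a_l C(t-e, l)` and `(P(t) - P(e))/(t-e) = ∑_(1≤l≤n) a_l (1/l) C(t-e-1, l-1)` for `t ≠ e`;
the polynomial `De e P` equals `∑_(1≤l≤n) C(a_l / l) C(X-e-1, l-1)` (agree at infinitely many integers), and
`lcmUpto n / l` is an integer. So at every integer `x` the value of `lcmUpto n * De e P` is an integer. -/

open Finset Polynomial

namespace Pool.K3

private theorem ival_dvd (l : ℕ) (a : ℤ) : ((l.factorial : ℕ) : ℤ) ∣ ∏ i ∈ range l, (a - (i : ℤ)) := by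
  have h := Nat.factorial_coe_dvd_prod l (-a)
  have h2 : ∏ i ∈ range l, (a - (i : ℤ)) = (-1) ^ l * ∏ i ∈ range l, (-a + (i : ℤ)) := by
    rw [← card_range l, ← prod_const, card_range, ← prod_mul_distrib]
    refine prod_congr rfl fun i _ => ?_
    ring
  rw [h2]
  exact Dvd.dvd.mul_left h _

private theorem ival_bP_eval (l : ℕ) (x : ℚ) :
    (bP l).eval x = 1 / (l.factorial : ℚ) * ∏ i ∈ range l, (x - (1 + (i : ℚ))) := by
  unfold bP
  rw [eval_mul, eval_C, eval_prod]
  simp only [eval_sub, eval_X, eval_C]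

private theorem ival_cP_eval (l : ℕ) (x : ℚ) :
    (cP l).eval x = 1 / (l.factorial : ℚ) * ∏ j ∈ range l, (x + (((l / 2 : ℕ) : ℚ) - (j : ℚ))) := by
  unfold cP
  rw [eval_mul, eval_C, eval_prod]
  simp only [eval_add, eval_X, eval_C]

private theorem ival_bP_nat (l j : ℕ) : (bP l).eval (1 + (j : ℚ)) = (j.choose l : ℚ) := by
  rw [ival_bP_eval]
  have h0 : ((l.factorial : ℕ) : ℚ) ≠ 0 := by exact_mod_cast l.factorial_ne_zero
  have h1 : ∏ i ∈ range l, (1 + (j : ℚ) - (1 + (i : ℚ))) = ((j.descFactorial l : ℕ) : ℚ) := by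
    rcases le_or_gt l j with h | h
    · rw [Nat.descFactorial_eq_prod_range, Nat.cast_prod]
      refine prod_congr rfl fun i hi => ?_
      have hi' : i ≤ j := le_trans (le_of_lt (mem_range.1 hi)) h
      rw [Nat.cast_sub hi']
      ring
    · rw [Nat.descFactorial_of_lt h, Nat.cast_zero]
      refine prod_eq_zero (mem_range.2 h) ?_
      ring
  rw [h1, Nat.descFactorial_eq_factorial_mul_choose, Nat.cast_mul]
  field_simp

private theorem ival_shift (P : ℚ[X]) (j : ℕ) :
    P.eval (1 + (j : ℚ)) = ∑ k ∈ range (j + 1), (j.choose k : ℚ) * nc P k := by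
  have h := shift_eq_sum_fwdDiff_iter (1 : ℚ) (fun x : ℚ => P.eval x) j 1
  have h1 : (1 : ℚ) + j • (1 : ℚ) = 1 + (j : ℚ) := by simp
  rw [h1] at h
  rw [h]
  refine sum_congr rfl fun k _ => ?_
  rw [nsmul_eq_mul]
  congr 1
  rw [fwdDiff_iter_eq_sum_shift]
  unfold nc
  refine sum_congr rfl fun i _ => ?_
  rw [zsmul_eq_mul]
  push_cast
  have h2 : (1 : ℚ) + i • (1 : ℚ) = 1 + (i : ℚ) := by simp
  rw [h2]

private theorem ival_bP_deg (l : ℕ) : (bP l).natDegree = l := by
  unfold bP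
  rw [natDegree_C_mul (by positivity), natDegree_prod_of_monic _ _ (fun i _ => monic_X_sub_C _)]
  rw [sum_congr rfl (fun (i : ℕ) _ => natDegree_X_sub_C (1 + (i : ℚ)))]
  simp

theorem newton' (P : ℚ[X]) {n : ℕ} (h : P.natDegree ≤ n) :
    P = ∑ l ∈ range (n + 1), C (nc P l) * bP l := by
  have hinj : Function.Injective (fun i : Fin (n + 1) => (1 : ℚ) + ((i : ℕ) : ℚ)) := by
    intro a b hab
    simp only [add_right_inj, Nat.cast_inj] at hab
    exact Fin.ext hab
  refine eq_of_natDegree_lt_card_of_eval_eq P _ hinj ?_ ?_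
  · intro i
    rw [eval_finsetSum, ival_shift P i]
    have h1 : ∀ l ∈ range (n + 1), eval (1 + ((i : ℕ) : ℚ)) (C (nc P l) * bP l) =
        (((i : ℕ).choose l : ℕ) : ℚ) * nc P l := by
      intro l _
      rw [eval_mul, eval_C, ival_bP_nat, mul_comm]
    rw [sum_congr rfl h1]
    refine sum_subset ?_ ?_
    · intro x hx
      rw [mem_range] at hx ⊢
      have := i.2
      omega
    · intro x _ hx
      rw [mem_range, not_lt] at hx
      rw [Nat.choose_eq_zero_of_lt (by omega)]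
      simp
  · rw [Fintype.card_fin]
    refine max_lt (by omega) ?_
    refine lt_of_le_of_lt (natDegree_sum_le_of_forall_le _ _ (n := n) ?_) (by omega)
    intro l hl
    rw [mem_range] at hl
    refine le_trans (natDegree_C_mul_le _ _) ?_
    rw [ival_bP_deg]
    omega

theorem newton (P : ℚ[X]) : P = ∑ l ∈ range (P.natDegree + 1), C (nc P l) * bP l :=
  newton' P le_rfl

theorem nc_zero_of_lt (P : ℚ[X]) {l : ℕ} (h : P.natDegree < l) : nc P l = 0 := by
  obtain ⟨n, rfl⟩ : ∃ n, l = n + 1 := ⟨l - 1, by omega⟩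
  have h1 := newton' P (n := n) (by omega)
  have h2 := newton' P (n := n + 1) (by omega)
  rw [sum_range_succ, ← h1] at h2
  have h3 : C (nc P (n + 1)) * bP (n + 1) = 0 := by
    have h4 : P + C (nc P (n + 1)) * bP (n + 1) = P + 0 := by rw [← h2, add_zero]
    exact add_left_cancel h4
  rcases mul_eq_zero.1 h3 with h4 | h4
  · exact C_eq_zero.1 h4
  · exfalso
    have h5 := ival_bP_deg (n + 1)
    rw [h4, natDegree_zero] at h5
    omega

theorem nc_int {P : ℚ[X]} (h : IV P) (l : ℕ) : ∃ z : ℤ, nc P l = z := by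
  choose f hf using h
  refine ⟨∑ j ∈ range (l + 1), (-1) ^ (l - j) * (l.choose j : ℤ) * f (1 + (j : ℤ)), ?_⟩
  unfold nc
  push_cast
  refine sum_congr rfl fun j _ => ?_
  congr 1
  rw [← hf (1 + (j : ℤ))]
  push_cast
  rfl

private theorem ival_int_of_dvd {l : ℕ} {z : ℤ} (h : ((l.factorial : ℕ) : ℤ) ∣ z) :
    ∃ w : ℤ, 1 / (l.factorial : ℚ) * (z : ℚ) = w := by
  obtain ⟨w, hw⟩ := h
  refine ⟨w, ?_⟩
  have h0 : ((l.factorial : ℕ) : ℚ) ≠ 0 := by exact_mod_cast l.factorial_ne_zero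
  rw [hw]
  push_cast
  field_simp

theorem iv_bP (l : ℕ) : IV (bP l) := by
  intro x
  obtain ⟨w, hw⟩ := ival_int_of_dvd (ival_dvd l (x - 1))
  refine ⟨w, ?_⟩
  rw [← hw, ival_bP_eval]
  congr 1
  push_cast
  refine prod_congr rfl fun i _ => ?_
  ring

theorem iv_cP (i : ℕ) : IV (cP i) := by
  intro x
  obtain ⟨w, hw⟩ := ival_int_of_dvd (ival_dvd i (x + ((i / 2 : ℕ) : ℤ)))
  refine ⟨w, ?_⟩
  rw [← hw, ival_cP_eval]
  congr 1
  rw [Int.cast_prod]
  refine prod_congr rfl fun j _ => ?_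
  rw [Int.cast_sub, Int.cast_add, Int.cast_natCast, Int.cast_natCast]
  ring

theorem IV.mul {P Q : ℚ[X]} (hP : IV P) (hQ : IV Q) : IV (P * Q) := by
  intro x
  obtain ⟨a, ha⟩ := hP x
  obtain ⟨b, hb⟩ := hQ x
  refine ⟨a * b, ?_⟩
  rw [eval_mul, ha, hb, Int.cast_mul]

theorem natDegree_cP (i : ℕ) : (cP i).natDegree = i := by
  unfold cP
  rw [natDegree_C_mul (by positivity), natDegree_prod_of_monic _ _ (fun i _ => monic_X_add_C _)]
  rw [sum_congr rfl (fun (j : ℕ) _ => natDegree_X_add_C (((i / 2 : ℕ) : ℚ) - (j : ℚ)))]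
  simp

theorem natDegree_bP (l : ℕ) : (bP l).natDegree = l := ival_bP_deg l

theorem natDegree_De (e : ℤ) (P : ℚ[X]) : (De e P).natDegree = P.natDegree - 1 := by
  unfold De
  rw [natDegree_divByMonic _ (monic_X_sub_C _), natDegree_X_sub_C]

theorem De_spec (e : ℤ) (P : ℚ[X]) : P = (X - C (e : ℚ)) * De e P + C (P.eval (e : ℚ)) := by
  unfold De
  rw [X_sub_C_mul_divByMonic_eq_sub_modByMonic, modByMonic_X_sub_C_eq_C_eval]
  ring

private theorem ival_De_unique (e : ℤ) (P S : ℚ[X])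
    (h : P = (X - C (e : ℚ)) * S + C (P.eval (e : ℚ))) : De e P = S := by
  have h1 := De_spec e P
  have h2 : (X - C (e : ℚ)) * De e P = (X - C (e : ℚ)) * S := by
    have h3 : (X - C (e : ℚ)) * De e P + C (P.eval (e : ℚ)) =
        (X - C (e : ℚ)) * S + C (P.eval (e : ℚ)) := by rw [← h1, ← h]
    exact add_right_cancel h3
  exact mul_left_cancel₀ (X_sub_C_ne_zero _) h2

theorem De_C_mul (e : ℤ) (c : ℚ) (P : ℚ[X]) : De e (C c * P) = C c * De e P := by
  apply ival_De_unique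
  have h1 := De_spec e P
  rw [eval_mul, eval_C, C_mul]
  calc C c * P = C c * ((X - C (e : ℚ)) * De e P + C (P.eval (e : ℚ))) := by rw [← h1]
    _ = _ := by ring

theorem De_add (e : ℤ) (P Q : ℚ[X]) : De e (P + Q) = De e P + De e Q := by
  apply ival_De_unique
  have h1 := De_spec e P
  have h2 := De_spec e Q
  rw [eval_add, C_add]
  calc P + Q = ((X - C (e : ℚ)) * De e P + C (P.eval (e : ℚ))) +
        ((X - C (e : ℚ)) * De e Q + C (Q.eval (e : ℚ))) := by rw [← h1, ← h2]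
    _ = _ := by ring

private theorem ival_comp_bP (e : ℤ) (l : ℕ) :
    (bP (l + 1)).comp (X - C ((e : ℚ) - 1)) =
      (X - C (e : ℚ)) * (C (1 / ((l : ℚ) + 1)) * (bP l).comp (X - C (e : ℚ))) := by
  have h0 : ∀ (m : ℕ) (a : ℚ), (bP m).comp (X - C a) =
      C (1 / (m.factorial : ℚ)) * ∏ i ∈ range m, (X - C (a + 1 + (i : ℚ))) := by
    intro m a
    unfold bP
    rw [mul_comp, C_comp, Polynomial.prod_comp]
    congr 1
    refine prod_congr rfl fun i _ => ?_
    rw [sub_comp, X_comp, C_comp, sub_sub, ← C_add]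
    congr 2
    ring
  rw [h0, h0, prod_range_succ']
  have h1 : ∀ i ∈ range l, (X - C ((e : ℚ) - 1 + 1 + ((i + 1 : ℕ) : ℚ)) : ℚ[X]) =
      X - C ((e : ℚ) + 1 + (i : ℚ)) := by
    intro i _
    congr 2
    push_cast
    ring
  rw [prod_congr rfl h1]
  have h2 : ((e : ℚ) - 1 + 1 + ((0 : ℕ) : ℚ)) = (e : ℚ) := by
    push_cast
    ring
  rw [h2]
  have h3 : (C (1 / (((l + 1).factorial : ℕ) : ℚ)) : ℚ[X]) =
      C (1 / ((l : ℚ) + 1)) * C (1 / ((l.factorial : ℕ) : ℚ)) := by
    rw [← C_mul]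
    congr 1
    rw [Nat.factorial_succ, Nat.cast_mul]
    push_cast
    rw [one_div_mul_one_div]
  rw [h3]
  ring

private theorem ival_iv_comp {P : ℚ[X]} (h : IV P) (a : ℤ) : IV (P.comp (X - C (a : ℚ))) := by
  intro x
  obtain ⟨z, hz⟩ := h (x - a)
  refine ⟨z, ?_⟩
  rw [eval_comp, eval_sub, eval_X, eval_C, ← hz]
  push_cast
  rfl

theorem iv_De {P : ℚ[X]} (h : IV P) {n : ℕ} (hn : P.natDegree ≤ n) (e : ℤ) :
    IV (C (Nat.lcmUpto n : ℚ) * De e P) := by
  set Q : ℚ[X] := P.comp (X - C ((1 - e : ℤ) : ℚ)) with hQ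
  have hQiv : IV Q := ival_iv_comp h (1 - e)
  have hQd : Q.natDegree ≤ n := by
    refine le_trans natDegree_comp_le ?_
    rw [natDegree_X_sub_C, mul_one]
    exact hn
  have hPQ : P = Q.comp (X - C ((e : ℚ) - 1)) := by
    rw [hQ, comp_assoc]
    have : (X - C ((1 - e : ℤ) : ℚ) : ℚ[X]).comp (X - C ((e : ℚ) - 1)) = X := by
      rw [sub_comp, X_comp, C_comp, sub_sub, ← C_add]
      have : ((e : ℚ) - 1 + ((1 - e : ℤ) : ℚ)) = 0 := by
        push_cast
        ring
      rw [this, C_0, sub_zero]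
    rw [this, comp_X]
  set S : ℚ[X] := ∑ l ∈ range n, C (nc Q (l + 1)) *
    (C (1 / ((l : ℚ) + 1)) * (bP l).comp (X - C (e : ℚ))) with hS
  have hPS : P = (X - C (e : ℚ)) * S + C (nc Q 0) := by
    have h1 := newton' Q hQd
    have h2 : P = ∑ l ∈ range (n + 1), C (nc Q l) * (bP l).comp (X - C ((e : ℚ) - 1)) := by
      conv_lhs => rw [hPQ, h1]
      rw [Polynomial.sum_comp]
      refine sum_congr rfl fun l _ => ?_
      rw [mul_comp, C_comp]
    conv_lhs => rw [h2]
    rw [sum_range_succ']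
    congr 1
    · rw [hS, mul_sum]
      refine sum_congr rfl fun l _ => ?_
      rw [ival_comp_bP]
      ring
    · have : bP 0 = 1 := by
        unfold bP
        simp
      rw [this, one_comp, mul_one]
  have hev : P.eval (e : ℚ) = nc Q 0 := by
    have h1 := congrArg (fun R : ℚ[X] => R.eval (e : ℚ)) hPS
    simp only [eval_add, eval_mul, eval_sub, eval_X, eval_C, sub_self, zero_mul, zero_add] at h1
    exact h1
  have hDe : De e P = S := by
    apply ival_De_unique
    rw [hev]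
    exact hPS
  rw [hDe]
  intro x
  have key : ∀ l ∈ range n, ∃ z : ℤ, (Nat.lcmUpto n : ℚ) * (nc Q (l + 1) *
      (1 / ((l : ℚ) + 1) * ((bP l).comp (X - C (e : ℚ))).eval (x : ℚ))) = z := by
    intro l hl
    rw [mem_range] at hl
    obtain ⟨a, ha⟩ := nc_int hQiv (l + 1)
    obtain ⟨b, hb⟩ := ival_iv_comp (iv_bP l) e x
    have hd : (l + 1) ∣ Nat.lcmUpto n := by
      unfold Nat.lcmUpto
      exact dvd_lcm (f := id) (mem_Icc.2 ⟨by omega, by omega⟩)
    obtain ⟨c, hc⟩ := hd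
    refine ⟨c * a * b, ?_⟩
    rw [ha, hb, hc]
    have h0 : ((l : ℚ) + 1) ≠ 0 := by positivity
    push_cast
    field_simp
  choose! f hf using key
  refine ⟨∑ l ∈ range n, f l, ?_⟩
  rw [eval_mul, eval_C, hS, eval_finsetSum, mul_sum, Int.cast_sum]
  refine sum_congr rfl fun l hl => ?_
  rw [← hf l hl, eval_mul, eval_mul, eval_C, eval_C]

/-- iterated: the form used for the poles -/
theorem iv_De_iter {P : ℚ[X]} (h : IV P) {n : ℕ} (hn : P.natDegree ≤ n) (e : ℤ) (r : ℕ) :
    IV (C ((Nat.lcmUpto n : ℚ) ^ r) * (De e)^[r] P) := by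
  have hdeg : ∀ r : ℕ, ((De e)^[r] P).natDegree ≤ n := by
    intro r
    induction r with
    | zero => exact hn
    | succ r ih =>
      rw [Function.iterate_succ_apply', natDegree_De]
      omega
  induction r with
  | zero =>
    rw [pow_zero, C_1, one_mul]
    exact h
  | succ r ih =>
    rw [Function.iterate_succ_apply']
    have h1 := iv_De ih (n := n) (le_trans (natDegree_C_mul_le _ _) (hdeg r)) e
    rw [De_C_mul, ← mul_assoc, ← C_mul] at h1
    rw [pow_succ']
    exact h1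

end Pool.K3
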