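import Pool.Agent.Lib.K3.Defs

/-! K3, module Interp (120 lines): the key lemma of the size estimate.

PROOF. Lagrange interpolation at `0` with the `2m` nodes `±1, .., ±m` for a polynomial of degree `< 2m`:
`P(0) = ∑_x w_x P(x)`, `w_x = ∏_(y ≠ x) (0 - y)/(x - y)`. Equivalently (easier): the `2m`-th finite difference of a
polynomial of degree `< 2m` vanishes, at the point `-m`: `∑_(j=0)^(2m) (-1)^j C(2m, j) P(j - m) = 0`
(`Polynomial` version: `fwdDiff_iter_eq_zero_of_degree_lt` or `Finset.sum .. Polynomial.sum`, Mathlib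
`Mathlib/Algebra/Group/ForwardDiff.lean`; or induction). The term `j = m` is `(-1)^m C(2m,m) P(0)`, so
`C(2m,m) |P(0)| ≤ ∑_(j ≠ m) C(2m,j) M = (4^m - C(2m,m)) M ≤ 4^m M`, and `4^m ≤ (2m+1) C(2m,m)`
(`Nat.four_pow_le_two_mul_add_one_mul_central_binom`). -/

open Finset Polynomial

namespace Pool.K3

/-- the alternating sum with all binomial coefficients vanishes -/
theorem alt_sum_zero (P : ℚ[X]) {n : ℕ} (h : P.natDegree < n) (a : ℚ) :
    ∑ j ∈ range (n + 1), (-1) ^ j * (n.choose j : ℚ) * P.eval (a + (j : ℚ)) = 0 := by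
  have h1 := congrFun (Polynomial.fwdDiff_iter_eq_zero_of_degree_lt h) a
  rw [fwdDiff_iter_eq_sum_shift, Pi.zero_apply] at h1
  have h2 : ∑ j ∈ range (n + 1), (-1) ^ j * (n.choose j : ℚ) * P.eval (a + (j : ℚ))
      = (-1) ^ n * ∑ k ∈ range (n + 1),
        ((-1 : ℤ) ^ (n - k) * (n.choose k : ℤ)) • P.eval (a + k • (1 : ℚ)) := by
    rw [mul_sum]
    refine sum_congr rfl fun j hj => ?_
    rw [mem_range] at hj
    have e1 : ((-1 : ℚ)) ^ n * (-1) ^ (n - j) = (-1) ^ j := by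
      rw [← pow_add]
      have : n + (n - j) = 2 * (n - j) + j := by omega
      rw [this, pow_add, pow_mul]
      norm_num
    rw [zsmul_eq_mul, nsmul_eq_mul, mul_one]
    push_cast
    rw [← e1]
    ring
  rw [h2, h1, mul_zero]

theorem eval_zero_le (P : ℚ[X]) {m : ℕ} (hm : 1 ≤ m) (h : P.natDegree ≤ 2 * m - 1) {M : ℚ}
    (hM : ∀ x : ℤ, x ≠ 0 → |x| ≤ m → |P.eval (x : ℚ)| ≤ M) :
    |P.eval 0| ≤ (2 * m + 1) * M := by
  have hM0 : 0 ≤ M := le_trans (abs_nonneg _) (hM 1 one_ne_zero (by rw [abs_one]; exact_mod_cast hm))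
  have hs := alt_sum_zero P (n := 2 * m) (by omega) (-(m : ℚ))
  have hmem : m ∈ range (2 * m + 1) := by rw [mem_range]; omega
  rw [← add_sum_erase _ _ hmem] at hs
  have e0 : -(m : ℚ) + (m : ℚ) = 0 := by ring
  rw [e0] at hs
  have hb : ∀ j ∈ (range (2 * m + 1)).erase m,
      |(-1) ^ j * ((2 * m).choose j : ℚ) * P.eval (-(m : ℚ) + (j : ℚ))|
        ≤ ((2 * m).choose j : ℚ) * M := by
    intro j hj
    rw [mem_erase, mem_range] at hj
    obtain ⟨hj1, hj2⟩ := hj
    rw [abs_mul, abs_mul, abs_pow, abs_neg, abs_one, one_pow, one_mul,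
      abs_of_nonneg (Nat.cast_nonneg _)]
    refine mul_le_mul_of_nonneg_left ?_ (Nat.cast_nonneg _)
    have h1 := hM ((j : ℤ) - (m : ℤ)) (by omega) (by rw [abs_le]; constructor <;> omega)
    have h2 : (((j : ℤ) - (m : ℤ) : ℤ) : ℚ) = -(m : ℚ) + (j : ℚ) := by push_cast; ring
    rwa [h2] at h1
  have hsum : |∑ j ∈ (range (2 * m + 1)).erase m,
      (-1) ^ j * ((2 * m).choose j : ℚ) * P.eval (-(m : ℚ) + (j : ℚ))|
        ≤ 4 ^ m * M := by
    refine le_trans (abs_sum_le_sum_abs _ _) (le_trans (sum_le_sum hb) ?_)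
    rw [← sum_mul]
    refine mul_le_mul_of_nonneg_right ?_ hM0
    have h3 : ∑ j ∈ range (2 * m + 1), ((2 * m).choose j : ℚ) = 4 ^ m := by
      have := Nat.sum_range_choose (2 * m)
      rw [pow_mul] at this
      norm_num at this
      exact_mod_cast this
    rw [← h3]
    exact sum_le_sum_of_subset_of_nonneg (erase_subset _ _) fun _ _ _ => Nat.cast_nonneg _
  have hcb : (4 : ℚ) ^ m ≤ (2 * m + 1) * ((2 * m).choose m : ℚ) := by
    have h4 := Nat.four_pow_le_two_mul_add_one_mul_central_binom m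
    exact_mod_cast h4
  have hpos : (0 : ℚ) < ((2 * m).choose m : ℚ) := by
    exact_mod_cast Nat.choose_pos (by omega)
  have habs : ((2 * m).choose m : ℚ) * |P.eval 0| ≤ 4 ^ m * M := by
    have h5 : (-1 : ℚ) ^ m * ((2 * m).choose m : ℚ) * P.eval 0
        = -∑ j ∈ (range (2 * m + 1)).erase m,
      (-1) ^ j * ((2 * m).choose j : ℚ) * P.eval (-(m : ℚ) + (j : ℚ)) := by
      linarith
    have h6 := congrArg abs h5
    rw [abs_neg, abs_mul, abs_mul, abs_pow, abs_neg, abs_one, one_pow, one_mul,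
      abs_of_nonneg (Nat.cast_nonneg _)] at h6
    rw [h6]
    exact hsum
  have h7 : ((2 * m).choose m : ℚ) * |P.eval 0| ≤ ((2 * m).choose m : ℚ) * ((2 * m + 1) * M) := by
    refine le_trans habs (le_trans (mul_le_mul_of_nonneg_right hcb hM0) (le_of_eq ?_))
    ring
  exact le_of_mul_le_mul_left h7 hpos

end Pool.K3
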