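import Pool.Agent.Lib.K3.Cyc

/-! K3, module YCong (250 lines): `Y_F(β_l)` modulo a vanishing prime.

PROOF. `S(φ) = ∑ t : ZMod p, φ t`, `u = t⁻¹`. `dz : ℕ → ℕ → ℕ → ZMod p` the same recursion as `dc` in `ZMod p`
(`dz 0 l j = [l = j]`, `dz (r+1) l j = ∑_(q<l) ((-1)^(l-1-q) (q+1)⁻¹) dz r q j`); `Red p (dc r l j) (dz r l j)` for
`l < p` (`Red.inv`, `q + 1 ≤ l < p`).
`bt_zero`: `bt p l 0 = (-1)^l`. `bt_div` (1): for `t ≠ 0`, `l < p`: `u * bt l t = (-1)^l u + ∑_(q<l) ((-1)^(l-1-q) (q+1)⁻¹) bt q t`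
(multiply by `t`: `t bt q t = (q+1) (bt (q+1) t + bt q t)` because `(t-1-q) bt q = (q+1) bt (q+1)`; the sum telescopes:
`∑_(q<l) (-1)^(l-1-q) (bt (q+1) + bt q) = bt l - (-1)^l`; induction on `l`).
(2) iterate: for `t ≠ 0`: `u^r bt l t = ∑_(s<r) c_s u^(r-s) + ∑_j dz r l j bt j t`, some constants `c_s` (induction on `r`).
(3) `S(bt l) = 0` for `l + 2 ≤ p`: `bt l t = b(t) - b(t-1)` with `b(t) = (l+1)⁻¹ t bt l t` (`= C(t, l+1)`), i.e.
`(l+1) bt l t = t bt l t - (t-1) bt l (t-1)`; note `(t-1) bt l (t-1) = (t-1-l) bt l t`. Shift invariance.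
Induction on `F` (strong, on `F.1 + F.2`): `S(bt l F) = S((b(t) - b(t-1)) F(t)) = S(b(t) F(t)) - S(b(t) F(t+1))`
`= - ∑_G c_FG S(u^k b(t) G(t))`, `k = kk F G ≥ 1` (`hm_succ`), and `u^k b(t) = (l+1)⁻¹ u^(k-1) bt l t` for `t ≠ 0`, `0` at
`t = 0`. So `S(u^k b G) = (l+1)⁻¹ [ ∑_s c_s S(u^(k-1-s) G) + ∑_j dz (k-1) l j (S(bt j G) - bt j 0 G(0)) ]`: by (2) for
`t ≠ 0`, and at `t = 0` all terms with `u` vanish, so the polynomial part at `0` is subtracted. `S(u^s G) = 0` for `s ≥ 1`,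
`s + wt G ≤ 4` (`WW p`; here `s ≤ k - 1`, so `s + wt G ≤ wt F - 1`). `G(0) = hm_zero`. For `G = (0,0)`: `S(bt j G) = 0`
consistent with `yv_one`. Compare with `yv_eq`; `Red.inv` for `l + 1 < p`. -/

open Finset

namespace Pool.K3

private theorem YCong_fac_ne {p : ℕ} [Fact p.Prime] {l : ℕ} (hl : l < p) :
    (l.factorial : ZMod p) ≠ 0 := by
  intro h
  have h1 : p ∣ l.factorial := (ZMod.natCast_eq_zero_iff _ _).1 h
  have h2 := (Nat.Prime.dvd_factorial Fact.out).1 h1
  omega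

private theorem YCong_succ_ne {p : ℕ} [Fact p.Prime] {q : ℕ} (hq : q + 1 < p) :
    (q : ZMod p) + 1 ≠ 0 := by
  intro h
  have h0 : ((q + 1 : ℕ) : ZMod p) = 0 := by
    push_cast
    exact h
  have h1 : p ∣ q + 1 := (ZMod.natCast_eq_zero_iff _ _).1 h0
  have h2 := Nat.le_of_dvd (Nat.succ_pos _) h1
  omega

theorem bt_zero {p : ℕ} [Fact p.Prime] {l : ℕ} (hl : l < p) : bt p l 0 = (-1) ^ l := by
  unfold bt
  have h1 : ∏ i ∈ range l, ((0 : ZMod p) - 1 - (i : ZMod p)) = (-1) ^ l * (l.factorial : ZMod p) := by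
    clear hl
    induction l with
    | zero => simp
    | succ l ih =>
      rw [prod_range_succ, ih, Nat.factorial_succ]
      push_cast
      ring
  rw [h1, mul_assoc, mul_inv_cancel₀ (YCong_fac_ne hl), mul_one]

/-- `(l + 1) β_(l+1) = (t - 1 - l) β_l` -/
private theorem YCong_bt_succ {p : ℕ} [Fact p.Prime] {l : ℕ} (hl : l + 1 < p) (t : ZMod p) :
    ((l : ZMod p) + 1) * bt p (l + 1) t = (t - 1 - (l : ZMod p)) * bt p l t := by
  unfold bt
  have h1 := YCong_succ_ne hl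
  have h2 : (l.factorial : ZMod p) ≠ 0 := YCong_fac_ne (by omega)
  rw [prod_range_succ, Nat.factorial_succ]
  push_cast
  rw [mul_inv]
  field_simp

private theorem YCong_mul_bt {p : ℕ} [Fact p.Prime] {l : ℕ} (hl : l + 1 < p) (t : ZMod p) :
    t * bt p l t = ((l : ZMod p) + 1) * (bt p (l + 1) t + bt p l t) := by
  rw [mul_add, YCong_bt_succ hl]
  ring

/-- the telescoping sum -/
private theorem YCong_tel {p : ℕ} [Fact p.Prime] {l : ℕ} (hl : l < p) (t : ZMod p) :
    ∑ q ∈ range l, ((-1) ^ (l - 1 - q) * ((q : ZMod p) + 1)⁻¹) * (t * bt p q t) =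
      bt p l t - (-1) ^ l := by
  induction l with
  | zero =>
    simp [bt]
  | succ l ih =>
    have ih' := ih (by omega)
    rw [sum_range_succ]
    have h1 : ∑ q ∈ range l, ((-1) ^ (l + 1 - 1 - q) * ((q : ZMod p) + 1)⁻¹) * (t * bt p q t) =
        - ∑ q ∈ range l, ((-1) ^ (l - 1 - q) * ((q : ZMod p) + 1)⁻¹) * (t * bt p q t) := by
      rw [← sum_neg_distrib]
      refine sum_congr rfl fun q hq => ?_
      rw [mem_range] at hq
      have h2 : l + 1 - 1 - q = (l - 1 - q) + 1 := by omega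
      rw [h2, pow_succ]
      ring
    have h3 : l + 1 - 1 - l = 0 := by omega
    rw [h1, ih', h3, pow_zero, one_mul, YCong_mul_bt (by omega), ← mul_assoc,
      inv_mul_cancel₀ (YCong_succ_ne (by omega)), one_mul, pow_succ]
    ring

private theorem YCong_div {p : ℕ} [Fact p.Prime] {l : ℕ} (hl : l < p) {t : ZMod p} (ht : t ≠ 0) :
    t⁻¹ * bt p l t = (-1) ^ l * t⁻¹ +
      ∑ q ∈ range l, ((-1) ^ (l - 1 - q) * ((q : ZMod p) + 1)⁻¹) * bt p q t := by
  have h := YCong_tel hl t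
  have h1 : bt p l t = (-1) ^ l +
      ∑ q ∈ range l, ((-1) ^ (l - 1 - q) * ((q : ZMod p) + 1)⁻¹) * (t * bt p q t) := by
    rw [h]
    ring
  rw [h1, mul_add, mul_sum]
  congr 1
  · ring
  · refine sum_congr rfl fun q _ => ?_
    calc t⁻¹ * ((-1) ^ (l - 1 - q) * ((q : ZMod p) + 1)⁻¹ * (t * bt p q t)) =
        (t⁻¹ * t) * ((-1) ^ (l - 1 - q) * ((q : ZMod p) + 1)⁻¹ * bt p q t) := by ring
      _ = _ := by rw [inv_mul_cancel₀ ht, one_mul]

/-- the same recursion as `dc`, modulo `p` -/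
private def YCong_dz (p : ℕ) : ℕ → ℕ → ℕ → ZMod p
  | 0, l, j => if l = j then 1 else 0
  | r + 1, l, j => ∑ q ∈ range l, ((-1) ^ (l - 1 - q) * ((q : ZMod p) + 1)⁻¹) * YCong_dz p r q j

private theorem YCong_dz_big {p : ℕ} (r l j : ℕ) (h : l < j) : YCong_dz p r l j = 0 := by
  induction r generalizing l with
  | zero =>
    show (if l = j then (1 : ZMod p) else 0) = 0
    rw [if_neg (by omega)]
  | succ r ih =>
    show ∑ q ∈ range l, ((-1) ^ (l - 1 - q) * ((q : ZMod p) + 1)⁻¹) * YCong_dz p r q j = 0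
    refine sum_eq_zero fun q hq => ?_
    rw [mem_range] at hq
    rw [ih q (by omega), mul_zero]

private theorem YCong_red_dz {p : ℕ} [Fact p.Prime] (r l j : ℕ) (hl : l < p) :
    Red p (dc r l j) (YCong_dz p r l j) := by
  induction r generalizing l with
  | zero =>
    show Red p (if l = j then 1 else 0) (if l = j then (1 : ZMod p) else 0)
    by_cases h : l = j
    · rw [if_pos h, if_pos h]
      exact Red.one p
    · rw [if_neg h, if_neg h]
      exact Red.zero p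
  | succ r ih =>
    show Red p (∑ q ∈ range l, ((-1) ^ (l - 1 - q) / ((q : ℚ) + 1)) * dc r q j)
      (∑ q ∈ range l, ((-1) ^ (l - 1 - q) * ((q : ZMod p) + 1)⁻¹) * YCong_dz p r q j)
    refine Red.sum _ _ _ fun q hq => ?_
    rw [mem_range] at hq
    refine Red.mul ?_ (ih q (by omega))
    rw [div_eq_mul_inv]
    refine Red.mul ?_ ?_
    · exact ((Red.one p).neg).pow _
    · exact ((Red.nat p q).add (Red.one p)).inv (YCong_succ_ne (by omega))

private theorem YCong_iter {p : ℕ} [Fact p.Prime] (r : ℕ) : ∀ l : ℕ, l < p →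
    ∃ c : ℕ → ZMod p, ∀ t : ZMod p, t ≠ 0 → (t⁻¹) ^ r * bt p l t =
      ∑ s ∈ range r, c s * (t⁻¹) ^ (s + 1) + ∑ j ∈ range (l + 1), YCong_dz p r l j * bt p j t := by
  induction r with
  | zero =>
    intro l _
    refine ⟨fun _ => 0, fun t _ => ?_⟩
    rw [pow_zero, one_mul, sum_range_zero, zero_add]
    have h1 : ∑ j ∈ range (l + 1), YCong_dz p 0 l j * bt p j t =
        ∑ j ∈ range (l + 1), if l = j then bt p j t else 0 := by
      refine sum_congr rfl fun j _ => ?_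
      show (if l = j then (1 : ZMod p) else 0) * bt p j t = _
      split_ifs <;> simp
    rw [h1, sum_ite_eq, if_pos (mem_range.2 (by omega))]
  | succ r ih =>
    intro l hl
    choose c hc using ih
    obtain ⟨C, hC⟩ : ∃ C : ℕ → ℕ → ZMod p, ∀ q (hq : q < p), C q = c q hq := by
      refine ⟨fun q => if hq : q < p then c q hq else fun _ => 0, fun q hq => ?_⟩
      exact dif_pos hq
    refine ⟨fun s => if s = r then (-1) ^ l else
      ∑ q ∈ range l, ((-1) ^ (l - 1 - q) * ((q : ZMod p) + 1)⁻¹) * C q s, fun t ht => ?_⟩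
    rw [pow_succ, mul_assoc, YCong_div hl ht, mul_add, sum_range_succ]
    beta_reduce
    rw [if_pos rfl]
    have h1 : ∑ s ∈ range r, (if s = r then (-1) ^ l else
        ∑ q ∈ range l, ((-1) ^ (l - 1 - q) * ((q : ZMod p) + 1)⁻¹) * C q s) * (t⁻¹) ^ (s + 1) =
        ∑ q ∈ range l, ((-1) ^ (l - 1 - q) * ((q : ZMod p) + 1)⁻¹) *
          ∑ s ∈ range r, C q s * (t⁻¹) ^ (s + 1) := by
      have h2 : ∀ s ∈ range r, (if s = r then (-1) ^ l else
          ∑ q ∈ range l, ((-1) ^ (l - 1 - q) * ((q : ZMod p) + 1)⁻¹) * C q s) * (t⁻¹) ^ (s + 1) =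
          ∑ q ∈ range l, ((-1) ^ (l - 1 - q) * ((q : ZMod p) + 1)⁻¹) *
            (C q s * (t⁻¹) ^ (s + 1)) := by
        intro s hs
        rw [mem_range] at hs
        rw [if_neg (by omega), sum_mul]
        exact sum_congr rfl fun q _ => by ring
      rw [sum_congr rfl h2, sum_comm]
      exact sum_congr rfl fun q _ => by rw [mul_sum]
    have h3 : ∑ j ∈ range (l + 1), YCong_dz p (r + 1) l j * bt p j t =
        ∑ q ∈ range l, ((-1) ^ (l - 1 - q) * ((q : ZMod p) + 1)⁻¹) *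
          ∑ j ∈ range (q + 1), YCong_dz p r q j * bt p j t := by
      have h4 : ∀ j ∈ range (l + 1), YCong_dz p (r + 1) l j * bt p j t =
          ∑ q ∈ range l, ((-1) ^ (l - 1 - q) * ((q : ZMod p) + 1)⁻¹) *
            (YCong_dz p r q j * bt p j t) := by
        intro j _
        show (∑ q ∈ range l, ((-1) ^ (l - 1 - q) * ((q : ZMod p) + 1)⁻¹) * YCong_dz p r q j) *
          bt p j t = _
        rw [sum_mul]
        exact sum_congr rfl fun q _ => by ring
      rw [sum_congr rfl h4, sum_comm]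
      refine sum_congr rfl fun q hq => ?_
      rw [mem_range] at hq
      rw [← mul_sum]
      congr 1
      symm
      refine sum_subset (fun j hj => ?_) (fun j _ hj => ?_)
      · rw [mem_range] at hj ⊢
        omega
      · rw [mem_range] at hj
        rw [YCong_dz_big r q j (by omega), zero_mul]
    rw [h1, h3, mul_sum]
    have h5 : ∀ q ∈ range l, (t⁻¹) ^ r * (((-1) ^ (l - 1 - q) * ((q : ZMod p) + 1)⁻¹) * bt p q t) =
        ((-1) ^ (l - 1 - q) * ((q : ZMod p) + 1)⁻¹) * ∑ s ∈ range r, C q s * (t⁻¹) ^ (s + 1) +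
        ((-1) ^ (l - 1 - q) * ((q : ZMod p) + 1)⁻¹) *
          ∑ j ∈ range (q + 1), YCong_dz p r q j * bt p j t := by
      intro q hq
      rw [mem_range] at hq
      have hqp : q < p := by omega
      rw [← mul_add, hC q hqp, ← hc q hqp t ht]
      ring
    rw [sum_congr rfl h5, sum_add_distrib, pow_succ]
    ring

/-- `β_l(t) = b(t) - b(t - 1)` with `b(t) = (l + 1)⁻¹ t β_l(t)` -/
private theorem YCong_diff {p : ℕ} [Fact p.Prime] {l : ℕ} (hl : l + 2 ≤ p) (t : ZMod p) :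
    bt p l t = ((l : ZMod p) + 1)⁻¹ * (t * bt p l t) -
      ((l : ZMod p) + 1)⁻¹ * ((t - 1) * bt p l (t - 1)) := by
  have h1 : (t - 1) * bt p l (t - 1) = (t - 1 - (l : ZMod p)) * bt p l t := by
    unfold bt
    rw [← mul_assoc, ← mul_assoc]
    congr 1
    have h2 : ∏ i ∈ range (l + 1), (t - 1 - (i : ZMod p)) =
        (t - 1) * ∏ i ∈ range l, (t - 1 - 1 - (i : ZMod p)) := by
      rw [prod_range_succ', mul_comm]
      congr 1
      · push_cast
        ring
      · refine prod_congr rfl fun i _ => ?_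
        push_cast
        ring
    rw [← h2, prod_range_succ]
    ring
  have h3 := YCong_succ_ne (p := p) (q := l) (by omega)
  rw [h1]
  field_simp
  ring

private theorem YCong_shift {p : ℕ} [Fact p.Prime] (f : ZMod p → ZMod p) :
    ∑ t : ZMod p, f (t + 1) = ∑ t : ZMod p, f t :=
  Fintype.sum_equiv (Equiv.addRight (1 : ZMod p)) _ _ (fun t => rfl)

theorem sum_bt {p : ℕ} [Fact p.Prime] {l : ℕ} (hl : l + 2 ≤ p) : ∑ t : ZMod p, bt p l t = 0 := by
  rw [sum_congr rfl (fun t _ => YCong_diff hl t), sum_sub_distrib, sub_eq_zero]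
  rw [← YCong_shift (fun t => ((l : ZMod p) + 1)⁻¹ * ((t - 1) * bt p l (t - 1)))]
  refine sum_congr rfl fun t _ => ?_
  rw [add_sub_cancel_right]

/-- summation by parts -/
private theorem YCong_parts {p : ℕ} [Fact p.Prime] (hp : 7 ≤ p) (F : ℕ × ℕ) {l : ℕ}
    (hl : l + 2 ≤ p) : ∑ t : ZMod p, bt p l t * hm p F t =
      -(((l : ZMod p) + 1)⁻¹) * ∑ G ∈ Sub F, (cf F G : ZMod p) *
        ∑ t : ZMod p, t * bt p l t * (t⁻¹) ^ kk F G * hm p G t := by
  have h1 : ∑ t : ZMod p, bt p l t * hm p F t =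
      ∑ t : ZMod p, ((l : ZMod p) + 1)⁻¹ * (t * bt p l t) * hm p F t -
      ∑ t : ZMod p, ((l : ZMod p) + 1)⁻¹ * (t * bt p l t) * hm p F (t + 1) := by
    have h2 : ∑ t : ZMod p, ((l : ZMod p) + 1)⁻¹ * (t * bt p l t) * hm p F (t + 1) =
        ∑ t : ZMod p, ((l : ZMod p) + 1)⁻¹ * ((t - 1) * bt p l (t - 1)) * hm p F t := by
      rw [← YCong_shift (fun t => ((l : ZMod p) + 1)⁻¹ * ((t - 1) * bt p l (t - 1)) * hm p F t)]
      refine sum_congr rfl fun t _ => ?_
      rw [add_sub_cancel_right]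
    rw [h2, ← sum_sub_distrib]
    refine sum_congr rfl fun t _ => ?_
    rw [← sub_mul, ← YCong_diff hl t]
  rw [h1, ← sum_sub_distrib]
  have h3 : ∀ t : ZMod p, ((l : ZMod p) + 1)⁻¹ * (t * bt p l t) * hm p F t -
      ((l : ZMod p) + 1)⁻¹ * (t * bt p l t) * hm p F (t + 1) =
      ∑ G ∈ Sub F, -(((l : ZMod p) + 1)⁻¹) * ((cf F G : ZMod p) *
        (t * bt p l t * (t⁻¹) ^ kk F G * hm p G t)) := by
    intro t
    rw [hm_succ (by omega) F t, mul_add, sub_add_cancel_left, mul_sum, ← sum_neg_distrib]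
    refine sum_congr rfl fun G _ => ?_
    ring
  rw [sum_congr rfl (fun t _ => h3 t), sum_comm, mul_sum]
  refine sum_congr rfl fun G _ => ?_
  rw [← mul_sum, ← mul_sum]

private theorem YCong_inner {p : ℕ} [Fact p.Prime] (hW : WW p) (G : ℕ × ℕ) {k l : ℕ}
    (hk : 1 ≤ k) (hG : k + wt G ≤ 4) (hl : l + 2 ≤ p) :
    ∑ t : ZMod p, t * bt p l t * (t⁻¹) ^ k * hm p G t =
      ∑ j ∈ range (l + 1), YCong_dz p (k - 1) l j *
        (∑ t : ZMod p, bt p j t * hm p G t - if G = (0, 0) then (-1) ^ j else 0) := by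
  classical
  obtain ⟨r, rfl⟩ : ∃ r, k = r + 1 := ⟨k - 1, by omega⟩
  rw [Nat.add_sub_cancel]
  obtain ⟨c, hc⟩ := YCong_iter (p := p) r l (by omega)
  have h1 : ∀ t : ZMod p, t * bt p l t * (t⁻¹) ^ (r + 1) * hm p G t =
      ∑ s ∈ range r, c s * ((t⁻¹) ^ (s + 1) * hm p G t) +
      ∑ j ∈ range (l + 1), YCong_dz p r l j * (bt p j t * hm p G t -
        if t = 0 then bt p j 0 * hm p G 0 else 0) := by
    intro t
    by_cases ht : t = 0
    · subst ht
      rw [zero_mul, zero_mul, zero_mul]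
      have e1 : ∑ s ∈ range r, c s * (((0 : ZMod p)⁻¹) ^ (s + 1) * hm p G 0) = 0 := by
        refine sum_eq_zero fun s _ => ?_
        rw [inv_zero, zero_pow (Nat.succ_ne_zero s), zero_mul, mul_zero]
      have e2 : ∑ j ∈ range (l + 1), YCong_dz p r l j * (bt p j 0 * hm p G 0 -
          if (0 : ZMod p) = 0 then bt p j 0 * hm p G 0 else 0) = 0 := by
        refine sum_eq_zero fun j _ => ?_
        rw [if_pos rfl, sub_self, mul_zero]
      rw [e1, e2, add_zero]
    · have e3 : t * bt p l t * (t⁻¹) ^ (r + 1) = (t⁻¹) ^ r * bt p l t := by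
        rw [pow_succ]
        calc t * bt p l t * ((t⁻¹) ^ r * t⁻¹) = (t * t⁻¹) * ((t⁻¹) ^ r * bt p l t) := by ring
          _ = _ := by rw [mul_inv_cancel₀ ht, one_mul]
      rw [e3, hc t ht, add_mul, sum_mul, sum_mul]
      congr 1
      · exact sum_congr rfl fun s _ => by ring
      · refine sum_congr rfl fun j _ => ?_
        rw [if_neg ht]
        ring
  rw [sum_congr rfl (fun t _ => h1 t), sum_add_distrib, sum_comm]
  have h2 : ∑ s ∈ range r, ∑ t : ZMod p, c s * ((t⁻¹) ^ (s + 1) * hm p G t) = 0 := by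
    refine sum_eq_zero fun s hs => ?_
    rw [mem_range] at hs
    rw [← mul_sum, hW (s + 1) G (by omega) (by omega), mul_zero]
  rw [h2, zero_add, sum_comm]
  refine sum_congr rfl fun j hj => ?_
  rw [mem_range] at hj
  rw [← mul_sum, sum_sub_distrib, sum_ite_eq' univ (0 : ZMod p), if_pos (mem_univ _),
    bt_zero (by omega), hm_zero]
  congr 2
  split_ifs <;> simp

theorem yv_cong {p : ℕ} [Fact p.Prime] (hp : 7 ≤ p) (hW : WW p) (F : ℕ × ℕ) (hF : wt F ≤ 4)
    {l : ℕ} (hl : l + 2 ≤ p) : Red p (yv F l) (∑ t : ZMod p, bt p l t * hm p F t) := by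
  have key : ∀ n : ℕ, ∀ F : ℕ × ℕ, F.1 + F.2 = n → wt F ≤ 4 → ∀ l : ℕ, l + 2 ≤ p →
      Red p (yv F l) (∑ t : ZMod p, bt p l t * hm p F t) := by
    intro n
    induction n using Nat.strong_induction_on with
    | _ n ih =>
      intro F hn hF l hl
      rw [yv_eq, YCong_parts hp F hl]
      refine Red.mul ?_ (Red.sum _ _ _ fun G hG => Red.mul (Red.nat p _) ?_)
      · refine Red.neg ?_
        rw [one_div]
        exact ((Red.nat p l).add (Red.one p)).inv (YCong_succ_ne (by omega))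
      · have hlt := lt_of_mem_Sub hG
        have hwt := wt_add_kk hG
        rw [YCong_inner hW G hwt.2 (by omega) hl]
        refine Red.sum _ _ _ fun j hj => ?_
        rw [mem_range] at hj
        refine Red.mul (YCong_red_dz _ _ _ (by omega)) (Red.sub ?_ ?_)
        · exact ih (G.1 + G.2) (by omega) G rfl (by omega) j (by omega)
        · by_cases h0 : G = (0, 0)
          · rw [if_pos h0, if_pos h0]
            exact ((Red.one p).neg).pow _
          · rw [if_neg h0, if_neg h0]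
            exact Red.zero p
  exact key _ F rfl hF l hl

end Pool.K3
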