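import Pool.Agent.Lib.K3.IVal
import Pool.Agent.Lib.K3.YCong

/-! K3, module PolyRed (170 lines): polynomials and `Y_F(P)` modulo `p`.

PROOF. `red_bP`, `red_cP`: the value at an integer is the product of the integers `x - 1 - i` (`x + i/2 - j`) times `1/l!`,
`l!` is a unit for `l < p` (`Red.prod`, `Red.inv`, `Red.nat`; `eval_prod`). `YP_red`: `N nc P l = nc (N P) l` is an integer
`z_l` (`nc_int`, linearity of `nc`), so `Red p (nc P l) (z_l N⁻¹)` (`Red.of_mul`). `φ t = ∑_l z_l N⁻¹ bt p l t`,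
`l ≤ natDegree P ≤ p - 2`. `Red p (P.eval x) (φ x)` by `newton` and `red_bP`. `Red p (YP F P) (∑_t φ t hm F t)`:
`YP F P = ∑_l nc P l yv F l`, `yv_cong`, exchange the sums. -/

open Finset Polynomial

namespace Pool.K3

private theorem PolyRed_fac_ne {p : ℕ} [Fact p.Prime] {l : ℕ} (hl : l < p) :
    (l.factorial : ZMod p) ≠ 0 := by
  intro h
  have h1 : p ∣ l.factorial := (ZMod.natCast_eq_zero_iff _ _).1 h
  have h2 := (Nat.Prime.dvd_factorial Fact.out).1 h1
  omega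

private theorem PolyRed_bP_eval (l : ℕ) (x : ℚ) :
    (bP l).eval x = 1 / (l.factorial : ℚ) * ∏ i ∈ range l, (x - (1 + (i : ℚ))) := by
  unfold bP
  rw [eval_mul, eval_C, eval_prod]
  simp only [eval_sub, eval_X, eval_C]

private theorem PolyRed_cP_eval (l : ℕ) (x : ℚ) :
    (cP l).eval x = 1 / (l.factorial : ℚ) * ∏ j ∈ range l, (x + (((l / 2 : ℕ) : ℚ) - (j : ℚ))) := by
  unfold cP
  rw [eval_mul, eval_C, eval_prod]
  simp only [eval_add, eval_X, eval_C]

private theorem PolyRed_nc_mul (c : ℚ) (P : ℚ[X]) (l : ℕ) : nc (C c * P) l = c * nc P l := by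
  unfold nc
  rw [mul_sum]
  refine sum_congr rfl fun j _ => ?_
  rw [eval_mul, eval_C]
  ring

theorem red_bP {p : ℕ} [Fact p.Prime] {l : ℕ} (hl : l < p) (x : ℤ) :
    Red p ((bP l).eval (x : ℚ)) (bt p l (x : ZMod p)) := by
  rw [PolyRed_bP_eval, mul_comm]
  unfold bt
  refine Red.mul (Red.prod _ _ _ fun i _ => ?_) ?_
  · refine Red.congr (((Red.int p x).sub (Red.one p)).sub (Red.nat p i)) ?_ rfl
    ring
  · rw [one_div]
    exact (Red.nat p _).inv (PolyRed_fac_ne hl)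

theorem red_cP {p : ℕ} [Fact p.Prime] {i : ℕ} (hi : i < p) (x : ℤ) :
    Red p ((cP i).eval (x : ℚ)) (cz p i (x : ZMod p)) := by
  rw [PolyRed_cP_eval, mul_comm]
  unfold cz
  refine Red.mul (Red.prod _ _ _ fun j _ => ?_) ?_
  · refine Red.congr (((Red.int p x).add (Red.nat p (i / 2))).sub (Red.nat p j)) ?_ rfl
    ring
  · rw [one_div]
    exact (Red.nat p _).inv (PolyRed_fac_ne hi)

theorem YP_red {p : ℕ} [Fact p.Prime] (hp : 7 ≤ p) (hW : WW p) {P : ℚ[X]} {N : ℕ}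
    (hN : (N : ZMod p) ≠ 0) (hP : IV (C (N : ℚ) * P)) (hd : P.natDegree + 2 ≤ p) :
    ∃ φ : ZMod p → ZMod p, (∀ x : ℤ, Red p (P.eval (x : ℚ)) (φ (x : ZMod p))) ∧
      ∀ F : ℕ × ℕ, wt F ≤ 4 → Red p (YP F P) (∑ t : ZMod p, φ t * hm p F t) := by
  have h1 : ∀ l : ℕ, ∃ z : ℤ, nc (C (N : ℚ) * P) l = z := fun l => nc_int hP l
  choose z hz using h1
  have hN' : (((N : ℤ) : ℤ) : ZMod p) ≠ 0 := by
    rw [Int.cast_natCast]
    exact hN
  have h2 : ∀ l : ℕ, Red p (nc P l) ((z l : ZMod p) * (((N : ℤ) : ℤ) : ZMod p)⁻¹) := by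
    intro l
    refine Red.of_mul hN' ?_
    rw [← hz l, PolyRed_nc_mul, Int.cast_natCast]
  refine ⟨fun t => ∑ l ∈ range (P.natDegree + 1),
    ((z l : ZMod p) * (((N : ℤ) : ℤ) : ZMod p)⁻¹) * bt p l t, ?_, ?_⟩
  · intro x
    have h3 : P.eval (x : ℚ) = ∑ l ∈ range (P.natDegree + 1), nc P l * (bP l).eval (x : ℚ) := by
      conv_lhs => rw [newton P]
      rw [eval_finsetSum]
      refine sum_congr rfl fun l _ => ?_
      rw [eval_mul, eval_C]
    rw [h3]
    refine Red.sum _ _ _ fun l hl => ?_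
    rw [mem_range] at hl
    exact (h2 l).mul (red_bP (by omega) x)
  · intro F hF
    have h4 : ∑ t : ZMod p, (∑ l ∈ range (P.natDegree + 1),
        ((z l : ZMod p) * (((N : ℤ) : ℤ) : ZMod p)⁻¹) * bt p l t) * hm p F t =
        ∑ l ∈ range (P.natDegree + 1), ((z l : ZMod p) * (((N : ℤ) : ℤ) : ZMod p)⁻¹) *
          ∑ t : ZMod p, bt p l t * hm p F t := by
      have h5 : ∀ t ∈ (univ : Finset (ZMod p)), (∑ l ∈ range (P.natDegree + 1),
          ((z l : ZMod p) * (((N : ℤ) : ℤ) : ZMod p)⁻¹) * bt p l t) * hm p F t =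
          ∑ l ∈ range (P.natDegree + 1), ((z l : ZMod p) * (((N : ℤ) : ℤ) : ZMod p)⁻¹) *
            (bt p l t * hm p F t) := by
        intro t _
        rw [sum_mul]
        exact sum_congr rfl fun l _ => by ring
      rw [sum_congr rfl h5, sum_comm]
      exact sum_congr rfl fun l _ => by rw [mul_sum]
    beta_reduce
    rw [h4]
    unfold YP
    refine Red.sum _ _ _ fun l hl => ?_
    rw [mem_range] at hl
    exact (h2 l).mul (yv_cong hp hW F hF (by omega))

end Pool.K3
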