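import Pool.Agent.Lib.K3.Cyc

/-! K3, module XCong (250 lines): `X_F(k, e)` and the sums of `u_e^k u_f^j F` modulo a vanishing prime.

PROOF. `u_e(t) = (t - e)⁻¹`. `pf` (partial fractions in a field): for `e ≠ f` and `t ≠ e`, `t ≠ f`, `k, j ≥ 1`:
`u_e^k u_f^j = ∑_(r=1)^k (-1)^(k-r) C(j+k-r-1, k-r) (e-f)^-(j+k-r) u_e^r + (the same with (k,e), (j,f) exchanged)`. Only
`k, j ≥ 1`, `k + j ≤ 4` are needed: `(1,1), (1,2), (2,1), (1,3), (3,1), (2,2)`: put `x = t - e`, `y = t - f`,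
`d = e - f = y - x`, expand the sums (`Finset.sum_Icc..`/`decide`), `field_simp`, `ring`.
`pp_cong`: if `Red p (X r e) (S(u_e^r F))`, `Red p (X r f) (S(u_f^r F))` for all `r ≤ k + j`, `r ≥ 1`, then
`Red p (pp X g k e j f) (S(u_e^k u_f^j F))`: if `e = f` trivial; else (`(e : ZMod p) ≠ f` by hypothesis) sum the partial
fractions over `t ∉ {e, f}`: `S(u_e^k u_f^j F) = ∑_(t ≠ e,f) ..` (both sides vanish at `t = e`, `t = f` because `k, j ≥ 1`),
`∑_(t ≠ e,f) u_e^r F = S(u_e^r F) - (f-e)^-r F(f)` (the term `t = e` is `0`).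
`Xv_cong`: strong induction on `F`, then on `e` upwards and downwards from `0` (`Xv_zero`: `S(u_0^k F) = 0` by `WW p`;
`Xv_succ`): `S(u_(e+1)^k F) = ∑_t (t-e-1)^-k F(t) = ∑_t (t-e)^-k F(t+1)` `= S(u_e^k F) + ∑_G c_FG S(u_e^k u_0^kk G)` and
`k + kk F G + wt G = k + wt F ≤ 4`; `e ≠ 0` and `|e| < p` give `(e : ZMod p) ≠ 0`. All steps with `|e| < p`. -/

open Finset

namespace Pool.K3

theorem pf_identity {K : Type*} [Field K] {k j : ℕ} (hk : 1 ≤ k) (hj : 1 ≤ j) (hkj : k + j ≤ 4)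
    {t e f : K} (h1 : t ≠ e) (h2 : t ≠ f) (h3 : e ≠ f) :
    ((t - e)⁻¹) ^ k * ((t - f)⁻¹) ^ j =
      ∑ r ∈ Icc 1 k, (-1) ^ (k - r) * ((j + k - r - 1).choose (k - r) : K) *
        ((e - f)⁻¹) ^ (j + k - r) * ((t - e)⁻¹) ^ r +
      ∑ r ∈ Icc 1 j, (-1) ^ (j - r) * ((k + j - r - 1).choose (j - r) : K) *
        ((f - e)⁻¹) ^ (k + j - r) * ((t - f)⁻¹) ^ r := by
  obtain ⟨x, rfl⟩ : ∃ x, t = e + x := ⟨t - e, by ring⟩
  obtain ⟨d, rfl⟩ : ∃ d, f = e - d := ⟨e - f, by ring⟩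
  have hx : x ≠ 0 := by
    rintro rfl
    exact h1 (add_zero e)
  have hd : d ≠ 0 := by
    rintro rfl
    exact h3 (sub_zero e).symm
  have hy : x + d ≠ 0 := by
    intro h
    apply h2
    have : x = -d := by linear_combination h
    rw [this]
    ring
  have e1 : e + x - e = x := by ring
  have e2 : e + x - (e - d) = x + d := by ring
  have e3 : e - (e - d) = d := by ring
  have e4 : e - d - e = -d := by ring
  rw [e1, e2, e3, e4]
  have i1 : Icc 1 1 = ({1} : Finset ℕ) := by decide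
  have i2 : Icc 1 2 = ({1, 2} : Finset ℕ) := by decide
  have i3 : Icc 1 3 = ({1, 2, 3} : Finset ℕ) := by decide
  have c31 : Nat.choose 3 1 = 3 := by decide
  have c32 : Nat.choose 3 2 = 3 := by decide
  have hk3 : k ≤ 3 := by omega
  have hj3 : j ≤ 3 := by omega
  interval_cases k <;> interval_cases j <;>
    first
      | omega
      | (simp [i1, i2, i3, Nat.choose]
         field_simp
         ring)

private theorem xCong_sum {p : ℕ} [Fact p.Prime] {k j : ℕ} (hk : 1 ≤ k) (hj : 1 ≤ j)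
    (hkj : k + j ≤ 4) {e f : ZMod p} (hef : e ≠ f) (g : ZMod p → ZMod p) :
    ∑ t : ZMod p, ((t - e)⁻¹) ^ k * ((t - f)⁻¹) ^ j * g t =
      ∑ r ∈ Icc 1 k, (-1) ^ (k - r) * ((j + k - r - 1).choose (k - r) : ZMod p) *
        ((e - f)⁻¹) ^ (j + k - r) * (∑ t : ZMod p, ((t - e)⁻¹) ^ r * g t -
          ((f - e)⁻¹) ^ r * g f) +
      ∑ r ∈ Icc 1 j, (-1) ^ (j - r) * ((k + j - r - 1).choose (j - r) : ZMod p) *
        ((f - e)⁻¹) ^ (k + j - r) * (∑ t : ZMod p, ((t - f)⁻¹) ^ r * g t -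
          ((e - f)⁻¹) ^ r * g e) := by
  set c : ℕ → ZMod p := fun r => (-1) ^ (k - r) * ((j + k - r - 1).choose (k - r) : ZMod p) *
        ((e - f)⁻¹) ^ (j + k - r) with hc
  set c' : ℕ → ZMod p := fun r => (-1) ^ (j - r) * ((k + j - r - 1).choose (j - r) : ZMod p) *
        ((f - e)⁻¹) ^ (k + j - r) with hc'
  have z : ∀ r ∈ Icc 1 k, (0 : ZMod p) ^ r = 0 := fun r hr => by
    rw [mem_Icc] at hr
    exact zero_pow (by omega)
  have z' : ∀ r ∈ Icc 1 j, (0 : ZMod p) ^ r = 0 := fun r hr => by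
    rw [mem_Icc] at hr
    exact zero_pow (by omega)
  have key : ∀ t : ZMod p, ((t - e)⁻¹) ^ k * ((t - f)⁻¹) ^ j * g t =
      (∑ r ∈ Icc 1 k, c r * (((t - e)⁻¹) ^ r * g t)) +
        (∑ r ∈ Icc 1 j, c' r * (((t - f)⁻¹) ^ r * g t)) -
      (if t = f then ∑ r ∈ Icc 1 k, c r * (((f - e)⁻¹) ^ r * g f) else 0) -
      (if t = e then ∑ r ∈ Icc 1 j, c' r * (((e - f)⁻¹) ^ r * g e) else 0) := by
    intro t
    by_cases h1 : t = e
    · subst h1
      rw [if_neg hef, if_pos rfl]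
      have h0 : ∑ r ∈ Icc 1 k, c r * (((t - t)⁻¹) ^ r * g t) = 0 :=
        sum_eq_zero fun r hr => by rw [sub_self, inv_zero, z r hr]; ring
      rw [h0, sub_self, inv_zero, zero_pow (by omega)]
      ring
    · by_cases h2 : t = f
      · subst h2
        rw [if_pos rfl, if_neg h1]
        have h0 : ∑ r ∈ Icc 1 j, c' r * (((t - t)⁻¹) ^ r * g t) = 0 :=
          sum_eq_zero fun r hr => by rw [sub_self, inv_zero, z' r hr]; ring
        rw [h0, sub_self, inv_zero, zero_pow (by omega)]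
        ring
      · rw [if_neg h2, if_neg h1, pf_identity hk hj hkj h1 h2 hef, add_mul, sum_mul, sum_mul,
          sub_zero, sub_zero]
        congr 1
        · exact sum_congr rfl fun r _ => by rw [hc]; ring
        · exact sum_congr rfl fun r _ => by rw [hc']; ring
  rw [sum_congr rfl fun t _ => key t, sum_sub_distrib, sum_sub_distrib, sum_add_distrib,
    sum_ite_eq', sum_ite_eq', if_pos (mem_univ _), if_pos (mem_univ _), sum_comm,
    sum_comm (s := univ) (t := Icc 1 j)]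
  have s1 : ∀ (s : Finset ℕ) (a : ℕ → ZMod p) (b : ℕ → ZMod p) (d : ℕ → ZMod p),
      ∑ r ∈ s, a r * (b r - d r) = ∑ r ∈ s, a r * b r - ∑ r ∈ s, a r * d r := by
    intro s a b d
    rw [← sum_sub_distrib]
    exact sum_congr rfl fun r _ => by ring
  rw [s1, s1]
  have s2 : ∀ (s : Finset ℕ) (a : ℕ → ZMod p) (b : ℕ → ZMod p → ZMod p),
      ∑ r ∈ s, ∑ t : ZMod p, a r * b r t = ∑ r ∈ s, a r * ∑ t : ZMod p, b r t := by
    intro s a b
    exact sum_congr rfl fun r _ => by rw [mul_sum]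
  rw [s2, s2]
  ring

theorem pp_cong {p : ℕ} [Fact p.Prime] (hp : 7 ≤ p) (F : ℕ × ℕ) {k j : ℕ} (hk : 1 ≤ k) (hj : 1 ≤ j)
    (hkj : k + j ≤ 4) {e f : ℤ} (hef : e = f ∨ (e : ZMod p) ≠ f) (he : |e| < p) (hf : |f| < p)
    (X : ℕ → ℤ → ℚ)
    (hX : ∀ r, 1 ≤ r → r ≤ k + j → Red p (X r e) (∑ t : ZMod p, ((t - e)⁻¹) ^ r * hm p F t) ∧
      Red p (X r f) (∑ t : ZMod p, ((t - f)⁻¹) ^ r * hm p F t)) :
    Red p (pp X (hq F) k e j f)
      (∑ t : ZMod p, ((t - e)⁻¹) ^ k * ((t - f)⁻¹) ^ j * hm p F t) := by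
  unfold pp
  split_ifs with h
  · subst h
    refine ((hX (k + j) (by omega) le_rfl).1).congr rfl ?_
    exact sum_congr rfl fun t _ => by rw [pow_add]
  · have hne : (e : ZMod p) ≠ f := by
      rcases hef with h' | h'
      · exact absurd h' h
      · exact h'
    rw [xCong_sum hk hj hkj hne]
    refine Red.add (Red.sum _ _ _ fun r hr => ?_) (Red.sum _ _ _ fun r hr => ?_)
    · rw [mem_Icc] at hr
      refine Red.mul (Red.mul (Red.mul (Red.pow ?_ _) (Red.nat p _)) (Red.pow (Red.inv_sub hne) _))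
        (Red.sub (hX r hr.1 (by omega)).1 (Red.mul (Red.pow (Red.inv_sub hne.symm) _)
          (red_hq (by omega) F f hf)))
      simpa using Red.int p (-1)
    · rw [mem_Icc] at hr
      refine Red.mul (Red.mul (Red.mul (Red.pow ?_ _) (Red.nat p _))
        (Red.pow (Red.inv_sub hne.symm) _))
        (Red.sub (hX r hr.1 (by omega)).2 (Red.mul (Red.pow (Red.inv_sub hne) _)
          (red_hq (by omega) F e he)))
      simpa using Red.int p (-1)

private theorem xCong_inc {p : ℕ} [Fact p.Prime] (hp : 7 ≤ p) (F : ℕ × ℕ)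
    (ih : ∀ G ∈ Sub F, ∀ k : ℕ, 1 ≤ k → k + wt G ≤ 4 → ∀ e : ℤ, |e| < p →
      Red p (Xv G k e) (∑ t : ZMod p, ((t - e)⁻¹) ^ k * hm p G t))
    {k : ℕ} (hk : 1 ≤ k) (hF : k + wt F ≤ 4) {e : ℤ} (he : |e| < p) :
    Red p (inc Xv F k e) (∑ t : ZMod p, ((t - ((e + 1 : ℤ) : ZMod p))⁻¹) ^ k * hm p F t -
      ∑ t : ZMod p, ((t - e)⁻¹) ^ k * hm p F t) := by
  have hp0 : (0 : ℤ) < p := by
    have : 0 < p := by omega
    exact_mod_cast this
  have h0 : |(0 : ℤ)| < p := by simpa using hp0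
  have hef : e = 0 ∨ (e : ZMod p) ≠ ((0 : ℤ) : ZMod p) := by
    by_cases h : e = 0
    · exact Or.inl h
    · right
      intro h'
      exact h (eq_of_cast h' (by simpa using he))
  have h1 : ∀ G ∈ Sub F, Red p ((cf F G : ℚ) * pp (Xv G) (hq G) k e (kk F G) 0)
      ((cf F G : ZMod p) * ∑ t : ZMod p, ((t - e)⁻¹) ^ k *
        ((t - ((0 : ℤ) : ZMod p))⁻¹) ^ kk F G * hm p G t) := by
    intro G hG
    have h2 := wt_add_kk hG
    refine (Red.nat p _).mul (pp_cong hp G hk h2.2 (by omega) hef he h0 (Xv G) fun r hr hr' => ?_)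
    exact ⟨ih G hG r hr (by omega) e he, ih G hG r hr (by omega) 0 h0⟩
  have h2 := Red.sum (Sub F) _ _ h1
  refine h2.congr rfl ?_
  have h3 : ∑ t : ZMod p, ((t - ((e + 1 : ℤ) : ZMod p))⁻¹) ^ k * hm p F t =
      ∑ t : ZMod p, ((t - e)⁻¹) ^ k * hm p F (t + 1) := by
    rw [← Equiv.sum_comp (Equiv.addRight (1 : ZMod p))]
    refine sum_congr rfl fun t _ => ?_
    have : (Equiv.addRight (1 : ZMod p)) t - ((e + 1 : ℤ) : ZMod p) = t - e := by
      rw [Equiv.coe_addRight]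
      push_cast
      ring
    rw [this, Equiv.coe_addRight]
  rw [h3, ← sum_sub_distrib]
  have h4 : ∀ t : ZMod p, ((t - e)⁻¹) ^ k * hm p F (t + 1) - ((t - e)⁻¹) ^ k * hm p F t =
      ∑ G ∈ Sub F, (cf F G : ZMod p) * (((t - e)⁻¹) ^ k *
        ((t - ((0 : ℤ) : ZMod p))⁻¹) ^ kk F G * hm p G t) := by
    intro t
    rw [hm_succ (by omega) F t, mul_add, add_sub_cancel_left, mul_sum]
    refine sum_congr rfl fun G _ => ?_
    rw [Int.cast_zero, sub_zero]
    ring
  rw [sum_congr rfl fun t _ => h4 t, sum_comm]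
  exact sum_congr rfl fun G _ => by rw [mul_sum]

private theorem xCong_all {p : ℕ} [Fact p.Prime] (hp : 7 ≤ p) (hW : WW p) :
    ∀ (n : ℕ) (F : ℕ × ℕ), F.1 + F.2 = n → ∀ k : ℕ, 1 ≤ k → k + wt F ≤ 4 → ∀ e : ℤ, |e| < p →
      Red p (Xv F k e) (∑ t : ZMod p, ((t - e)⁻¹) ^ k * hm p F t) := by
  intro n
  induction n using Nat.strong_induction_on with
  | _ n ih =>
    intro F hFn k hk hF
    have ih' : ∀ G ∈ Sub F, ∀ k : ℕ, 1 ≤ k → k + wt G ≤ 4 → ∀ e : ℤ, |e| < p →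
        Red p (Xv G k e) (∑ t : ZMod p, ((t - e)⁻¹) ^ k * hm p G t) := by
      intro G hG
      have := lt_of_mem_Sub hG
      exact ih (G.1 + G.2) (by omega) G rfl
    have hz : Red p (Xv F k 0) (∑ t : ZMod p, ((t - ((0 : ℤ) : ZMod p))⁻¹) ^ k * hm p F t) := by
      rw [Xv_zero]
      refine (Red.zero p).congr rfl ?_
      rw [← hW k F hk hF]
      exact sum_congr rfl fun t _ => by rw [Int.cast_zero, sub_zero]
    have hup : ∀ m : ℕ, (m : ℤ) < p → Red p (Xv F k (m : ℤ))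
        (∑ t : ZMod p, ((t - ((m : ℤ) : ZMod p))⁻¹) ^ k * hm p F t) := by
      intro m
      induction m with
      | zero => exact fun _ => hz
      | succ m ihm =>
        intro hm
        have h1 : |(m : ℤ)| < p := by
          rw [abs_of_nonneg (by positivity)]
          push_cast at hm
          omega
        have h2 := ihm (by push_cast at hm; omega)
        have h3 := xCong_inc hp F ih' hk hF h1
        have h4 := h2.add h3
        push_cast at h4 ⊢
        refine h4.congr ?_ ?_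
        · rw [Xv_succ]
        · ring
    have hdn : ∀ m : ℕ, (m : ℤ) < p → Red p (Xv F k (-(m : ℤ)))
        (∑ t : ZMod p, ((t - ((-(m : ℤ) : ℤ) : ZMod p))⁻¹) ^ k * hm p F t) := by
      intro m
      induction m with
      | zero =>
        intro _
        simpa using hz
      | succ m ihm =>
        intro hm
        have h1 : |(-((m : ℤ) + 1))| < p := by
          rw [abs_neg, abs_of_nonneg (by positivity)]
          push_cast at hm
          omega
        have h2 := ihm (by push_cast at hm; omega)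
        have h3 := xCong_inc hp F ih' hk hF h1
        have h5 : -((m : ℤ) + 1) + 1 = -(m : ℤ) := by ring
        rw [h5] at h3
        have h4 := h2.sub h3
        have h6 : Xv F k (-(m : ℤ)) = Xv F k (-((m : ℤ) + 1)) + inc Xv F k (-((m : ℤ) + 1)) := by
          rw [← Xv_succ, h5]
        have h7 : -(((m + 1 : ℕ) : ℤ)) = -((m : ℤ) + 1) := by push_cast; ring
        rw [h7]
        refine h4.congr ?_ ?_
        · rw [h6]
          ring
        · ring
    intro e he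
    rcases le_total 0 e with h | h
    · obtain ⟨m, rfl⟩ := Int.eq_ofNat_of_zero_le h
      rw [abs_of_nonneg h] at he
      exact hup m he
    · obtain ⟨m, hm⟩ := Int.eq_ofNat_of_zero_le (neg_nonneg.2 h)
      obtain rfl : e = -(m : ℤ) := by omega
      rw [abs_neg, abs_of_nonneg (by positivity)] at he
      exact hdn m he

theorem Xv_cong {p : ℕ} [Fact p.Prime] (hp : 7 ≤ p) (hW : WW p) (F : ℕ × ℕ) {k : ℕ} (hk : 1 ≤ k)
    (hF : k + wt F ≤ 4) {e : ℤ} (he : |e| < p) :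
    Red p (Xv F k e) (∑ t : ZMod p, ((t - e)⁻¹) ^ k * hm p F t) :=
  xCong_all hp hW _ F rfl k hk hF e he

end Pool.K3
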