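import Pool.Agent.Lib.K3.PolyRed
import Pool.Agent.Lib.K3.XCong

/-! K3, module QCong (200 lines): the entries polynomial × polynomial and polynomial × pole modulo `p`.

PROOF. `qq_cong`: `P = C_i C_j` is integer valued (`N = 1`), of degree `i + j ≤ 2m - 2 ≤ p - 2`; take `φ` of `YP_red`; for every
integer `x`: `φ x = cz i x * cz j x` (`Red.unique`, `red_cP`, `Red.mul`, `eval_mul`), and every `t` is such an `x`
(`ZMod.intCast_surjective`). `qu_cong`: `R = (De e)^[k] (C_i)`, `L = lcmUpto m`, `N = L^k` is a unit modulo `p > m`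
(all prime factors of `lcmUpto m` are `≤ m`), `IV (C (L^k) * R)` (`iv_De_iter`, `i ≤ m`), degree `≤ m - 1`. Let `φ` be the
function of `R`, `c_r = ((De e)^[r] C_i).eval e` (`r < k`), `Red p c_r γ_r` (apply `YP_red` to `(De e)^[r] C_i` or `Red.of_mul`
with `iv_De_iter`). For all `t` (`u = (t - e)⁻¹`): `u^k cz i t = ∑_(r<k) γ_r u^(k-r) + φ t - [t = e] φ e` (*): at `t = e` both sides
vanish (`k ≥ 1`). For `t ≠ e` take an integer `x` with image `t`: `C_i(x) = ∑_(r<k) c_r (x-e)^r + (x-e)^k R(x)` (iterate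
`De_spec`), so dividing by `(x-e)^k` and reducing (`Red.inv_sub`, `Red.unique`). Multiply (*) by `hm F t` and sum:
`Xv_cong` for the first sum (`1 ≤ k - r`, `k - r + wt F ≤ 4`), `φ` for the second, `φ e hm F e` reduces `R(e) hq F e`
(`red_hq`). -/

open Finset Polynomial

namespace Pool.K3

theorem lcm_ne_zero {p : ℕ} [Fact p.Prime] {n : ℕ} (h : n < p) : (Nat.lcmUpto n : ZMod p) ≠ 0 := by
  intro h0
  have h1 : p ∣ Nat.lcmUpto n := (ZMod.natCast_eq_zero_iff _ _).1 h0
  have h2 : p ∣ n.factorial := h1.trans (Nat.lcmUpto_dvd_factorial n)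
  have h3 := (Nat.Prime.dvd_factorial Fact.out).1 h2
  omega

theorem qq_cong {p : ℕ} [Fact p.Prime] (hp : 7 ≤ p) (hW : WW p) {m i j : ℕ} (hi : i < m) (hj : j < m)
    (hmp : 2 * m < p) (F : ℕ × ℕ) (hF : wt F ≤ 4) :
    Red p (YP F (cP i * cP j)) (∑ t : ZMod p, cz p i t * cz p j t * hm p F t) := by
  have hiv : IV (C ((1 : ℕ) : ℚ) * (cP i * cP j)) := by
    have := (iv_cP i).mul (iv_cP j)
    rw [Nat.cast_one, map_one, one_mul]
    exact this
  have hdeg : (cP i * cP j).natDegree + 2 ≤ p := by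
    have := natDegree_mul_le (p := cP i) (q := cP j)
    rw [natDegree_cP, natDegree_cP] at this
    omega
  obtain ⟨φ, h1, h2⟩ := YP_red hp hW (N := 1) (by rw [Nat.cast_one]; exact one_ne_zero) hiv hdeg
  refine (h2 F hF).congr rfl ?_
  refine sum_congr rfl fun t _ => ?_
  obtain ⟨x, rfl⟩ := ZMod.intCast_surjective t
  have h3 := h1 x
  rw [eval_mul] at h3
  have h4 := (red_cP (p := p) (i := i) (by omega) x).mul (red_cP (p := p) (i := j) (by omega) x)
  rw [h3.unique h4]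

private theorem QCong_deg (e : ℤ) (i r : ℕ) : ((De e)^[r] (cP i)).natDegree = i - r := by
  induction r with
  | zero => rw [Function.iterate_zero, id, natDegree_cP, Nat.sub_zero]
  | succ r ih => rw [Function.iterate_succ_apply', natDegree_De, ih, Nat.sub_sub]

private theorem QCong_exp {p : ℕ} [Fact p.Prime] (e : ZMod p) (φ : ℕ → ZMod p → ZMod p)
    (h : ∀ r t, φ r t = (t - e) * φ (r + 1) t + φ r e) {t : ZMod p} (ht : t ≠ e) (k : ℕ) :
    ((t - e)⁻¹) ^ k * φ 0 t = ∑ r ∈ range k, φ r e * ((t - e)⁻¹) ^ (k - r) + φ k t := by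
  have hu : (t - e)⁻¹ * (t - e) = 1 := inv_mul_cancel₀ (sub_ne_zero.2 ht)
  have h1 : ∀ r, (t - e)⁻¹ * φ r t = φ (r + 1) t + φ r e * (t - e)⁻¹ := by
    intro r
    rw [h r t, mul_add, ← mul_assoc, hu, one_mul, mul_comm (t - e)⁻¹ (φ r e)]
  induction k with
  | zero => simp
  | succ k ih =>
    have h2 : ((t - e)⁻¹) ^ (k + 1) * φ 0 t = (t - e)⁻¹ * (((t - e)⁻¹) ^ k * φ 0 t) := by ring
    rw [h2, ih, mul_add, h1 k, sum_range_succ, mul_sum]
    have h3 : ∑ r ∈ range k, (t - e)⁻¹ * (φ r e * ((t - e)⁻¹) ^ (k - r)) =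
        ∑ r ∈ range k, φ r e * ((t - e)⁻¹) ^ (k + 1 - r) := by
      refine sum_congr rfl fun r hr => ?_
      rw [mem_range] at hr
      have h4 : k + 1 - r = (k - r) + 1 := by omega
      rw [h4, pow_succ]
      ring
    rw [h3]
    have h5 : k + 1 - k = 1 := by omega
    rw [h5, pow_one]
    ring

private theorem QCong_all {p : ℕ} [Fact p.Prime] (e : ZMod p) (φ : ℕ → ZMod p → ZMod p)
    (h : ∀ r t, φ r t = (t - e) * φ (r + 1) t + φ r e) (t : ZMod p) {k : ℕ} (hk : 1 ≤ k) :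
    ((t - e)⁻¹) ^ k * φ 0 t = ∑ r ∈ range k, φ r e * ((t - e)⁻¹) ^ (k - r) + φ k t
      - if t = e then φ k e else 0 := by
  by_cases ht : t = e
  · subst ht
    rw [if_pos rfl, sub_self, inv_zero, zero_pow (by omega), zero_mul]
    have h0 : ∑ r ∈ range k, φ r t * (0 : ZMod p) ^ (k - r) = 0 := by
      refine sum_eq_zero fun r hr => ?_
      rw [mem_range] at hr
      rw [zero_pow (by omega), mul_zero]
    rw [h0]
    ring
  · rw [if_neg ht, sub_zero, QCong_exp e φ h ht k]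

theorem qu_cong {p : ℕ} [Fact p.Prime] (hp : 7 ≤ p) (hW : WW p) {m i : ℕ} (hi : i < m)
    (hmp : 2 * m < p) (F : ℕ × ℕ) {k : ℕ} (hk : 1 ≤ k) (hF : k + wt F ≤ 4) {e : ℤ} (he : |e| ≤ m) :
    Red p (qu F (cP i) k e)
      (∑ t : ZMod p, ((t - (e : ZMod p))⁻¹) ^ k * cz p i t * hm p F t) := by
  have hep : |e| < p := by
    have : (m : ℤ) < p := by exact_mod_cast (by omega : m < p)
    omega
  have key : ∀ r : ℕ, ∃ φ : ZMod p → ZMod p,
      (∀ x : ℤ, Red p (((De e)^[r] (cP i)).eval (x : ℚ)) (φ (x : ZMod p))) ∧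
      ∀ F : ℕ × ℕ, wt F ≤ 4 → Red p (YP F ((De e)^[r] (cP i))) (∑ t : ZMod p, φ t * hm p F t) := by
    intro r
    refine YP_red hp hW (N := Nat.lcmUpto m ^ r) ?_ ?_ ?_
    · rw [Nat.cast_pow]
      exact pow_ne_zero _ (lcm_ne_zero (by omega))
    · rw [Nat.cast_pow]
      exact iv_De_iter (iv_cP i) (by rw [natDegree_cP]; omega) e r
    · rw [QCong_deg]
      omega
  choose φ h1 h2 using key
  have hrec : ∀ r t, φ r t = (t - (e : ZMod p)) * φ (r + 1) t + φ r (e : ZMod p) := by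
    intro r t
    obtain ⟨x, rfl⟩ := ZMod.intCast_surjective t
    have a1 := h1 r x
    have a2 : ((De e)^[r] (cP i)).eval (x : ℚ) =
        ((x : ℚ) - (e : ℚ)) * ((De e)^[r + 1] (cP i)).eval (x : ℚ) +
          ((De e)^[r] (cP i)).eval (e : ℚ) := by
      have h3 := De_spec e ((De e)^[r] (cP i))
      have h4 := congrArg (fun Q : ℚ[X] => Q.eval (x : ℚ)) h3
      simp only [eval_add, eval_mul, eval_sub, eval_X, eval_C] at h4
      rw [Function.iterate_succ_apply']
      exact h4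
    rw [a2] at a1
    exact a1.unique ((((Red.int p x).sub (Red.int p e)).mul (h1 (r + 1) x)).add (h1 r e))
  have h0 : ∀ t, cz p i t = φ 0 t := by
    intro t
    obtain ⟨x, rfl⟩ := ZMod.intCast_surjective t
    exact (red_cP (p := p) (i := i) (by omega) x).unique (h1 0 x)
  have hsum : ∑ t : ZMod p, ((t - (e : ZMod p))⁻¹) ^ k * cz p i t * hm p F t =
      ∑ r ∈ range k, φ r (e : ZMod p) * ∑ t : ZMod p, ((t - (e : ZMod p))⁻¹) ^ (k - r) * hm p F t +
        ∑ t : ZMod p, φ k t * hm p F t - φ k (e : ZMod p) * hm p F (e : ZMod p) := by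
    have b1 : ∀ t : ZMod p, ((t - (e : ZMod p))⁻¹) ^ k * cz p i t * hm p F t =
        ∑ r ∈ range k, φ r (e : ZMod p) * (((t - (e : ZMod p))⁻¹) ^ (k - r) * hm p F t) +
          φ k t * hm p F t - if t = (e : ZMod p) then φ k e * hm p F e else 0 := by
      intro t
      rw [h0 t, QCong_all (e : ZMod p) φ hrec t hk, sub_mul, add_mul, sum_mul, ite_mul, zero_mul]
      congr 1
      · congr 1
        exact sum_congr rfl fun r _ => by rw [mul_assoc]
      · split_ifs with h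
        · rw [h]
        · rfl
    rw [sum_congr rfl fun t _ => b1 t, sum_sub_distrib, sum_add_distrib, sum_ite_eq', if_pos (mem_univ _),
      sum_comm]
    congr 2
    exact sum_congr rfl fun r _ => by rw [mul_sum]
  rw [hsum]
  unfold qu
  refine Red.sub (Red.add (Red.sum _ _ _ fun r hr => ?_) (h2 k F (by omega))) ?_
  · rw [mem_range] at hr
    exact (h1 r e).mul (Xv_cong hp hW F (by omega) (by omega) hep)
  · exact (h1 k e).mul (red_hq (by omega) F e hep)

end Pool.K3
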