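import Pool.Agent.Lib.K3.Defs

/-! K3, module Red: the relation `Red p q z` (reduction of rational numbers modulo `p`). -/

open Finset Polynomial

namespace Pool.K3

variable {p : ℕ}

theorem Red.int (p : ℕ) [Fact p.Prime] (a : ℤ) : Red p (a : ℚ) (a : ZMod p) :=
  ⟨a, 1, by simp, by simp, by simp⟩

theorem Red.nat (p : ℕ) [Fact p.Prime] (a : ℕ) : Red p (a : ℚ) (a : ZMod p) := by
  have := Red.int p (a : ℤ)
  simpa using this

theorem Red.zero (p : ℕ) [Fact p.Prime] : Red p 0 0 := by simpa using Red.int p 0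

theorem Red.one (p : ℕ) [Fact p.Prime] : Red p 1 1 := by simpa using Red.int p 1

theorem Red.add [Fact p.Prime] {q r : ℚ} {x y : ZMod p} (h : Red p q x) (h' : Red p r y) :
    Red p (q + r) (x + y) := by
  obtain ⟨a, b, hb, h1, h2⟩ := h
  obtain ⟨c, d, hd, h3, h4⟩ := h'
  refine ⟨a * d + c * b, b * d, ?_, ?_, ?_⟩
  · push_cast
    exact mul_ne_zero hb hd
  · push_cast
    rw [← h1, ← h3]
    ring
  · push_cast
    rw [← h2, ← h4]
    ring

theorem Red.mul [Fact p.Prime] {q r : ℚ} {x y : ZMod p} (h : Red p q x) (h' : Red p r y) :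
    Red p (q * r) (x * y) := by
  obtain ⟨a, b, hb, h1, h2⟩ := h
  obtain ⟨c, d, hd, h3, h4⟩ := h'
  refine ⟨a * c, b * d, ?_, ?_, ?_⟩
  · push_cast
    exact mul_ne_zero hb hd
  · push_cast
    rw [← h1, ← h3]
    ring
  · push_cast
    rw [← h2, ← h4]
    ring

theorem Red.neg [Fact p.Prime] {q : ℚ} {x : ZMod p} (h : Red p q x) : Red p (-q) (-x) := by
  have := (Red.int p (-1)).mul h
  simpa using this

theorem Red.sub [Fact p.Prime] {q r : ℚ} {x y : ZMod p} (h : Red p q x) (h' : Red p r y) :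
    Red p (q - r) (x - y) := by
  have := h.add h'.neg
  simpa [sub_eq_add_neg] using this

theorem Red.pow [Fact p.Prime] {q : ℚ} {x : ZMod p} (h : Red p q x) (n : ℕ) :
    Red p (q ^ n) (x ^ n) := by
  induction n with
  | zero => simpa using Red.one p
  | succ n ih => simpa [pow_succ] using ih.mul h

/-- the inverse of a number that is nonzero modulo `p` -/
theorem Red.inv [Fact p.Prime] {q : ℚ} {x : ZMod p} (h : Red p q x) (hx : x ≠ 0) :
    Red p q⁻¹ x⁻¹ := by
  obtain ⟨a, b, hb, h1, h2⟩ := h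
  have hb0 : (b : ℚ) ≠ 0 := by
    intro h0
    apply hb
    have : b = 0 := by exact_mod_cast h0
    simp [this]
  have ha : (a : ZMod p) ≠ 0 := by
    rw [← h2]
    exact mul_ne_zero hx hb
  have hq : q ≠ 0 := by
    rintro rfl
    apply ha
    have : (a : ℚ) = 0 := by rw [← h1]; ring
    have : a = 0 := by exact_mod_cast this
    simp [this]
  refine ⟨b, a, ha, ?_, ?_⟩
  · rw [← h1]
    field_simp
  · rw [← h2]
    field_simp

theorem Red.sum [Fact p.Prime] {ι : Type*} (s : Finset ι) (f : ι → ℚ) (g : ι → ZMod p)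
    (h : ∀ i ∈ s, Red p (f i) (g i)) : Red p (∑ i ∈ s, f i) (∑ i ∈ s, g i) := by
  classical
  induction s using Finset.induction_on with
  | empty => simpa using Red.zero p
  | insert a s ha ih =>
    rw [sum_insert ha, sum_insert ha]
    exact (h a (mem_insert_self _ _)).add (ih fun i hi => h i (mem_insert_of_mem hi))

theorem Red.prod [Fact p.Prime] {ι : Type*} (s : Finset ι) (f : ι → ℚ) (g : ι → ZMod p)
    (h : ∀ i ∈ s, Red p (f i) (g i)) : Red p (∏ i ∈ s, f i) (∏ i ∈ s, g i) := by
  classical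
  induction s using Finset.induction_on with
  | empty => simpa using Red.one p
  | insert a s ha ih =>
    rw [prod_insert ha, prod_insert ha]
    exact (h a (mem_insert_self _ _)).mul (ih fun i hi => h i (mem_insert_of_mem hi))

theorem Red.unique [Fact p.Prime] {q : ℚ} {x y : ZMod p} (h : Red p q x) (h' : Red p q y) :
    x = y := by
  obtain ⟨a, b, hb, h1, h2⟩ := h
  obtain ⟨c, d, hd, h3, h4⟩ := h'
  have h5 : (a : ℚ) * d = c * b := by
    rw [← h1, ← h3]
    ring
  have h6 : (a * d : ℤ) = c * b := by exact_mod_cast h5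
  have h7 : (a : ZMod p) * d = c * b := by exact_mod_cast congrArg (Int.cast : ℤ → ZMod p) h6
  rw [← h2, ← h4] at h7
  have h8 : x * (b * d) = y * (b * d) := by
    calc x * (b * d) = x * b * d := by ring
      _ = y * d * b := h7
      _ = y * (b * d) := by ring
  exact mul_right_cancel₀ (mul_ne_zero hb hd) h8

theorem Red.congr [Fact p.Prime] {q r : ℚ} {x y : ZMod p} (h : Red p q x) (hq : q = r)
    (hx : x = y) : Red p r y := by
  rw [← hq, ← hx]
  exact h

/-- if `d` is a unit modulo `p` and `d q` is the integer `z` then `q` reduces to `z / d` -/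
theorem Red.of_mul [Fact p.Prime] {q : ℚ} {d z : ℤ} (hd : (d : ZMod p) ≠ 0) (h : (d : ℚ) * q = z) :
    Red p q ((z : ZMod p) * (d : ZMod p)⁻¹) := by
  refine ⟨z, d, hd, ?_, ?_⟩
  · rw [← h]
    ring
  · field_simp

theorem Red.int_eq [Fact p.Prime] {a : ℤ} {x : ZMod p} (h : Red p (a : ℚ) x) :
    (a : ZMod p) = x := (Red.int p a).unique h

/-- the inverse of the reduction of a nonzero difference of small integers -/
theorem Red.inv_sub [Fact p.Prime] {a b : ℤ} (h : ((a : ZMod p)) ≠ b) :
    Red p (((a : ℚ) - b)⁻¹) (((a : ZMod p) - b)⁻¹) :=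
  ((Red.int p a).sub (Red.int p b)).inv (sub_ne_zero.2 h)

/-- two integers with the same image in `ZMod p` whose distance is `< p` are equal -/
theorem eq_of_cast [Fact p.Prime] {a b : ℤ} (h : (a : ZMod p) = b) (hab : |a - b| < p) : a = b := by
  have h1 : ((a - b : ℤ) : ZMod p) = 0 := by
    push_cast
    rw [h]
    ring
  rw [ZMod.intCast_zmod_eq_zero_iff_dvd] at h1
  have := Int.eq_zero_of_abs_lt_dvd h1 hab
  omega

end Pool.K3
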