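import Pool.Agent.Lib.K3.IVal

/-! K3, module YInt (130 lines): denominators of `Y_F`.

PROOF. `dc_int` (induction on `r`): `L^r dc r l j` is an integer for every `L` divisible by `1, .., l`
(`q + 1 ≤ l` in the recursion). `yv_int`: strong induction on `F` (on `F.1 + F.2`) for all `l ≤ n` at once, `L = lcmUpto (n+1)`:
`L^(wt F) yv F l = - ∑_G c_FG (L/(l+1)) ∑_j (L^(k-1) dc (k-1) l j) (L^(wt G) (yv G j - [..] (-1)^j))`, `k = kk F G`,
`1 + (k - 1) + wt G = wt F` (`wt_add_kk`), `l + 1 ∣ L` (`Nat.dvd_lcmUpto..`; look for the Mathlib name, `lcmUpto n` is the lcm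
of `1..n`), `j ≤ l ≤ n`. `YP_int`: `YP F P = ∑_l nc P l * yv F l`, `nc P l` integers, `l ≤ natDegree P ≤ n`. -/

open Finset Polynomial

namespace Pool.K3

private def YIntI (x : ℚ) : Prop := ∃ z : ℤ, x = z

private theorem YIntI.mul {x y : ℚ} (hx : YIntI x) (hy : YIntI y) : YIntI (x * y) := by
  obtain ⟨a, rfl⟩ := hx
  obtain ⟨b, rfl⟩ := hy
  exact ⟨a * b, by push_cast; ring⟩

private theorem YIntI.sub {x y : ℚ} (hx : YIntI x) (hy : YIntI y) : YIntI (x - y) := by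
  obtain ⟨a, rfl⟩ := hx
  obtain ⟨b, rfl⟩ := hy
  exact ⟨a - b, by push_cast; ring⟩

private theorem YIntI.neg {x : ℚ} (hx : YIntI x) : YIntI (-x) := by
  obtain ⟨a, rfl⟩ := hx
  exact ⟨-a, by push_cast; ring⟩

private theorem YIntI.nat (n : ℕ) : YIntI (n : ℚ) := ⟨n, by push_cast; ring⟩

private theorem YIntI.pow {x : ℚ} (hx : YIntI x) (n : ℕ) : YIntI (x ^ n) := by
  obtain ⟨a, rfl⟩ := hx
  exact ⟨a ^ n, by push_cast; ring⟩

private theorem YIntI.sum {ι : Type*} (s : Finset ι) (f : ι → ℚ) (h : ∀ i ∈ s, YIntI (f i)) :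
    YIntI (∑ i ∈ s, f i) := by
  classical
  induction s using Finset.induction_on with
  | empty => exact ⟨0, by simp⟩
  | insert a s ha ih =>
    rw [sum_insert ha]
    obtain ⟨x, hx⟩ := h a (mem_insert_self a s)
    obtain ⟨y, hy⟩ := ih (fun i hi => h i (mem_insert_of_mem hi))
    exact ⟨x + y, by rw [hx, hy]; push_cast; ring⟩

private theorem YIntI.div {L q : ℕ} (hq : 1 ≤ q) (h : q ∣ L) : YIntI ((L : ℚ) / q) := by
  obtain ⟨c, rfl⟩ := h
  have : (q : ℚ) ≠ 0 := by positivity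
  exact ⟨c, by push_cast; field_simp⟩

theorem dc_int {L : ℕ} (r : ℕ) {l j : ℕ} (h : ∀ q, 1 ≤ q → q ≤ l → q ∣ L) :
    ∃ z : ℤ, (L : ℚ) ^ r * dc r l j = z := by
  induction r generalizing l with
  | zero =>
    by_cases hlj : l = j
    · exact ⟨1, by simp [dc, hlj]⟩
    · exact ⟨0, by simp [dc, hlj]⟩
  | succ r ih =>
    have e : (L : ℚ) ^ (r + 1) * dc (r + 1) l j = ∑ q ∈ range l,
        ((-1 : ℚ) ^ (l - 1 - q) * ((L : ℚ) / ((q + 1 : ℕ) : ℚ))) * ((L : ℚ) ^ r * dc r q j) := by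
      rw [dc, mul_sum]
      apply sum_congr rfl
      intro q _
      push_cast
      ring
    change YIntI _
    rw [e]
    apply YIntI.sum
    intro q hq
    rw [mem_range] at hq
    refine YIntI.mul (YIntI.mul (YIntI.pow ⟨-1, by simp⟩ _) ?_) ?_
    · exact YIntI.div (by omega) (h (q + 1) (by omega) (by omega))
    · exact ih (fun i h1 h2 => h i h1 (by omega))

private theorem YInt_dvd {n q : ℕ} (h1 : 1 ≤ q) (h2 : q ≤ n) : q ∣ Nat.lcmUpto n := by
  unfold Nat.lcmUpto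
  have := Finset.dvd_lcm (f := id) (mem_Icc.2 ⟨h1, h2⟩)
  exact this

private theorem YInt_aux {n : ℕ} (N : ℕ) : ∀ F : ℕ × ℕ, F.1 + F.2 ≤ N → ∀ l ≤ n,
    YIntI ((Nat.lcmUpto (n + 1) : ℚ) ^ wt F * yv F l) := by
  induction N with
  | zero =>
    intro F hF l _
    have hF0 : F = (0, 0) := by
      ext <;> simp <;> omega
    rw [hF0, yv_one, mul_zero]
    exact ⟨0, by simp⟩
  | succ N ih =>
    intro F hF l hl
    set L := Nat.lcmUpto (n + 1) with hL
    have e : (L : ℚ) ^ wt F * yv F l = ∑ G ∈ Sub F, (cf F G : ℚ) *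
        ∑ j ∈ range (l + 1), (-((L : ℚ) / ((l + 1 : ℕ) : ℚ))) *
          ((L : ℚ) ^ (kk F G - 1) * dc (kk F G - 1) l j) *
          ((L : ℚ) ^ wt G * yv G j - (L : ℚ) ^ wt G * (if G = (0, 0) then (-1) ^ j else 0)) := by
      rw [yv_eq, ← mul_assoc, mul_sum]
      apply sum_congr rfl
      intro G hG
      obtain ⟨h1, h2⟩ := wt_add_kk hG
      have h3 : wt F = 1 + (kk F G - 1) + wt G := by omega
      rw [h3, pow_add, pow_add, pow_one, mul_sum, mul_sum, mul_sum]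
      apply sum_congr rfl
      intro j _
      push_cast
      ring
    rw [e]
    apply YIntI.sum
    intro G hG
    refine (YIntI.nat _).mul (YIntI.sum _ _ fun j hj => ?_)
    rw [mem_range] at hj
    have hlt := lt_of_mem_Sub hG
    refine YIntI.mul (YIntI.mul (YIntI.neg ?_) ?_) (YIntI.sub ?_ ?_)
    · exact YIntI.div (by omega) (YInt_dvd (by omega) (by omega))
    · exact dc_int _ (fun q h1 h2 => YInt_dvd h1 (by omega))
    · exact ih G (by omega) j (by omega)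
    · refine YIntI.mul ((YIntI.nat _).pow _) ?_
      split_ifs
      · exact YIntI.pow ⟨-1, by simp⟩ _
      · exact ⟨0, by simp⟩

theorem yv_int (F : ℕ × ℕ) {n l : ℕ} (hl : l ≤ n) :
    ∃ z : ℤ, (Nat.lcmUpto (n + 1) : ℚ) ^ wt F * yv F l = z :=
  YInt_aux (n := n) (F.1 + F.2) F le_rfl l hl

theorem YP_int (F : ℕ × ℕ) {P : ℚ[X]} (hP : IV P) {n : ℕ} (hn : P.natDegree ≤ n) :
    ∃ z : ℤ, (Nat.lcmUpto (n + 1) : ℚ) ^ wt F * YP F P = z := by
  have e : (Nat.lcmUpto (n + 1) : ℚ) ^ wt F * YP F P = ∑ l ∈ range (P.natDegree + 1),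
      nc P l * ((Nat.lcmUpto (n + 1) : ℚ) ^ wt F * yv F l) := by
    rw [YP, mul_sum]
    apply sum_congr rfl
    intro l _
    ring
  change YIntI _
  rw [e]
  apply YIntI.sum
  intro l hl
  rw [mem_range] at hl
  exact YIntI.mul (nc_int hP l) (yv_int F (by omega))

end Pool.K3
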