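import Pool.Agent.Lib.K3.TOp
import Pool.Agent.Lib.K3.Interp

/-! K3, module YSize (150 lines): the size of `Y_F(P)`.

PROOF. `‖P‖ ≤ M` means `|P(x)| ≤ M` for all integers `|x| ≤ m`; all degrees are `≤ 2m-1`.
`TT_bound`: for `x ≥ 1`: `x T P(x) = ∑_(n=1)^x P(n)` (`TT_spec`, induction), for `x ≤ -1`: `x T P(x) = - ∑_(x<n≤0) P(n)`
(downward induction), so `|T P(x)| ≤ M` for `1 ≤ |x| ≤ m`; `x = 0`: `eval_zero_le`.
`De_bound`: `x ≠ 0`: `|P(x) - P(0)|/|x| ≤ 2M` (`De_spec`), `x = 0`: `eval_zero_le` with `2M`.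
Iterate: `‖(De 0)^[r] (TT P)‖ ≤ (4m+2)^(r+1) M`. Then strong induction on `F` with `YP_rec`:
`|YP F P| ≤ ∑_G c_FG (1000^(G.1+G.2) + 1) (4m+2)^(kk + wt G) M ≤ 1000^(F.1+F.2) (4m+2)^(wt F) M`, because
`∑_(G ∈ Sub F) c_FG (1000^(G.1+G.2) + 1) ≤ 2 ∑_G c_FG 1000^(G.1+G.2) = 2 ((1001)^(F.1+F.2) - 1000^(F.1+F.2)) ≤ 1000^(F.1+F.2)` for
`F.1 + F.2 ≤ 4` (`F ≠ (0,0)`; or check the 9 cases of `wt F ≤ 4` by `decide`/`norm_num`, `interval_cases`). -/

open Finset Polynomial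

namespace Pool.K3

private theorem YSize_M {P : ℚ[X]} {m : ℕ} {M : ℚ}
    (hM : ∀ x : ℤ, |x| ≤ m → |P.eval (x : ℚ)| ≤ M) : 0 ≤ M :=
  (abs_nonneg _).trans (hM 0 (by rw [abs_zero]; exact Int.natCast_nonneg m))

private theorem YSize_pos {P : ℚ[X]} {m : ℕ} {M : ℚ}
    (hM : ∀ x : ℤ, |x| ≤ m → |P.eval (x : ℚ)| ≤ M) (n : ℕ) (hn : n ≤ m) :
    |(n : ℚ) * (TT P).eval (n : ℚ)| ≤ n * M := by
  induction n with
  | zero => simp
  | succ n ih =>
    have h1 := TT_spec P ((n : ℚ) + 1)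
    have h2 : (n : ℚ) + 1 - 1 = n := by ring
    rw [h2] at h1
    have h3 := hM ((n : ℤ) + 1) (by rw [abs_of_nonneg (by omega)]; omega)
    push_cast at h3 ⊢
    have h4 : ((n : ℚ) + 1) * (TT P).eval ((n : ℚ) + 1) =
        P.eval ((n : ℚ) + 1) + (n : ℚ) * (TT P).eval (n : ℚ) := by linarith
    rw [h4]
    refine (abs_add_le _ _).trans ?_
    have h5 := ih (by omega)
    linarith

private theorem YSize_neg {P : ℚ[X]} {m : ℕ} {M : ℚ}
    (hM : ∀ x : ℤ, |x| ≤ m → |P.eval (x : ℚ)| ≤ M) (n : ℕ) (hn : n ≤ m) :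
    |(-(n : ℚ)) * (TT P).eval (-(n : ℚ))| ≤ n * M := by
  induction n with
  | zero => simp
  | succ n ih =>
    have h1 := TT_spec P (-(n : ℚ))
    have h3 := hM (-(n : ℤ)) (by rw [abs_neg, abs_of_nonneg (by omega)]; omega)
    push_cast at h3 ⊢
    have h2 : -(n : ℚ) - 1 = -((n : ℚ) + 1) := by ring
    rw [h2] at h1
    have h4 : (-((n : ℚ) + 1)) * (TT P).eval (-((n : ℚ) + 1)) =
        (-(n : ℚ)) * (TT P).eval (-(n : ℚ)) - P.eval (-(n : ℚ)) := by linarith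
    rw [h4]
    refine (abs_sub _ _).trans ?_
    have h5 := ih (by omega)
    linarith

private theorem YSize_ne {P : ℚ[X]} {m : ℕ} {M : ℚ}
    (hM : ∀ x : ℤ, |x| ≤ m → |P.eval (x : ℚ)| ≤ M) (x : ℤ) (hx0 : x ≠ 0) (hx : |x| ≤ m) :
    |(TT P).eval (x : ℚ)| ≤ M := by
  rcases lt_or_gt_of_ne hx0 with h | h
  · obtain ⟨n, rfl⟩ : ∃ n : ℕ, x = -(n : ℤ) := ⟨x.natAbs, by omega⟩
    rw [abs_neg, abs_of_nonneg (by omega)] at hx
    have h1 := YSize_neg hM n (by omega)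
    have h2 : (0 : ℚ) < n := by
      have : 0 < n := by omega
      exact_mod_cast this
    rw [abs_mul, abs_neg, abs_of_pos h2] at h1
    push_cast
    exact le_of_mul_le_mul_left h1 h2
  · obtain ⟨n, rfl⟩ : ∃ n : ℕ, x = (n : ℤ) := ⟨x.natAbs, by omega⟩
    rw [abs_of_nonneg (by omega)] at hx
    have h1 := YSize_pos hM n (by omega)
    have h2 : (0 : ℚ) < n := by
      have : 0 < n := by omega
      exact_mod_cast this
    rw [abs_mul, abs_of_pos h2] at h1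
    push_cast
    exact le_of_mul_le_mul_left h1 h2

theorem TT_bound {P : ℚ[X]} {m : ℕ} (hm : 1 ≤ m) (h : P.natDegree ≤ 2 * m - 1) {M : ℚ}
    (hM : ∀ x : ℤ, |x| ≤ m → |P.eval (x : ℚ)| ≤ M) :
    ∀ x : ℤ, |x| ≤ m → |(TT P).eval (x : ℚ)| ≤ (2 * m + 1) * M := by
  intro x hx
  have hM0 := YSize_M hM
  by_cases hx0 : x = 0
  · subst hx0
    have h1 := eval_zero_le (TT P) hm ((natDegree_TT P).trans h)
      (fun y hy0 hy => YSize_ne hM y hy0 hy)
    rw [Int.cast_zero]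
    exact h1
  · refine (YSize_ne hM x hx0 hx).trans ?_
    have h2 : (0 : ℚ) ≤ m := Nat.cast_nonneg m
    nlinarith

theorem De_bound {P : ℚ[X]} {m : ℕ} (hm : 1 ≤ m) (h : P.natDegree ≤ 2 * m - 1) {M : ℚ}
    (hM : ∀ x : ℤ, |x| ≤ m → |P.eval (x : ℚ)| ≤ M) :
    ∀ x : ℤ, |x| ≤ m → |(De 0 P).eval (x : ℚ)| ≤ (4 * m + 2) * M := by
  have hM0 := YSize_M hM
  have hm0 : (0 : ℚ) ≤ m := Nat.cast_nonneg m
  have h0 := hM 0 (by rw [abs_zero]; exact Int.natCast_nonneg m)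
  rw [Int.cast_zero] at h0
  have hne : ∀ x : ℤ, x ≠ 0 → |x| ≤ m → |(De 0 P).eval (x : ℚ)| ≤ 2 * M := by
    intro x hx0 hx
    have h1 : P.eval (x : ℚ) = (x : ℚ) * (De 0 P).eval (x : ℚ) + P.eval 0 := by
      have h2 := congrArg (Polynomial.eval (x : ℚ)) (De_spec 0 P)
      rw [eval_add, eval_mul, eval_sub, eval_X, eval_C, eval_C, Int.cast_zero, sub_zero] at h2
      exact h2
    have h3 : |(x : ℚ)| * |(De 0 P).eval (x : ℚ)| ≤ 2 * M := by
      rw [← abs_mul]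
      have h4 : (x : ℚ) * (De 0 P).eval (x : ℚ) = P.eval (x : ℚ) - P.eval 0 := by linarith
      rw [h4]
      refine (abs_sub _ _).trans ?_
      have h5 := hM x hx
      linarith
    have h6 : (1 : ℚ) ≤ |(x : ℚ)| := by
      rw [← Int.cast_abs]
      exact_mod_cast Int.one_le_abs hx0
    have h7 : 0 ≤ |(De 0 P).eval (x : ℚ)| := abs_nonneg _
    nlinarith
  intro x hx
  by_cases hx0 : x = 0
  · subst hx0
    have h1 := eval_zero_le (De 0 P) hm (by rw [natDegree_De]; omega) hne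
    rw [Int.cast_zero]
    refine h1.trans (le_of_eq (by ring))
  · refine (hne x hx0 hx).trans ?_
    nlinarith

private theorem YSize_iter {P : ℚ[X]} {m : ℕ} (hm : 1 ≤ m) (h : P.natDegree ≤ 2 * m - 1) {M : ℚ}
    (hM : ∀ x : ℤ, |x| ≤ m → |P.eval (x : ℚ)| ≤ M) (r : ℕ) :
    ((De 0)^[r] P).natDegree ≤ 2 * m - 1 ∧
    ∀ x : ℤ, |x| ≤ m → |((De 0)^[r] P).eval (x : ℚ)| ≤ (4 * m + 2) ^ r * M := by
  induction r with
  | zero =>
    refine ⟨h, fun x hx => ?_⟩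
    rw [pow_zero, one_mul]
    exact hM x hx
  | succ r ih =>
    rw [Function.iterate_succ_apply']
    refine ⟨by rw [natDegree_De]; omega, fun x hx => ?_⟩
    have h1 := De_bound hm ih.1 ih.2 x hx
    rw [pow_succ']
    rw [mul_assoc]
    exact h1

private theorem YSize_num (F : ℕ × ℕ) (hF : wt F ≤ 4) :
    ∑ G ∈ Sub F, cf F G * (1000 ^ (G.1 + G.2) + if G = (0, 0) then 1 else 0) ≤
      1000 ^ (F.1 + F.2) := by
  obtain ⟨a, b⟩ := F
  unfold wt at hF
  dsimp only at hF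
  have ha : a ≤ 4 := by omega
  have hb : b ≤ 2 := by omega
  interval_cases a <;> interval_cases b <;> first | omega | decide +kernel

theorem YP_size (F : ℕ × ℕ) (hF : wt F ≤ 4) {P : ℚ[X]} {m : ℕ} (hm : 1 ≤ m)
    (h : P.natDegree ≤ 2 * m - 1) {M : ℚ} (hM : ∀ x : ℤ, |x| ≤ m → |P.eval (x : ℚ)| ≤ M) :
    |YP F P| ≤ 1000 ^ (F.1 + F.2) * (4 * m + 2) ^ wt F * M := by
  obtain ⟨N, hN⟩ : ∃ N, N = F.1 + F.2 := ⟨_, rfl⟩
  induction N using Nat.strong_induction_on generalizing F P M with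
  | _ N ih =>
    have hM0 := YSize_M hM
    have hm0 : (0 : ℚ) ≤ m := Nat.cast_nonneg m
    have hR : (0 : ℚ) ≤ 4 * m + 2 := by linarith
    have hterm : ∀ G ∈ Sub F, |(cf F G : ℚ) * (YP G ((De 0)^[kk F G - 1] (TT P)) -
        if G = (0, 0) then ((De 0)^[kk F G - 1] (TT P)).eval 0 else 0)| ≤
        ((cf F G * (1000 ^ (G.1 + G.2) + if G = (0, 0) then 1 else 0) : ℕ) : ℚ) *
          ((4 * m + 2) ^ wt F * M) := by
      intro G hG
      have h1 := wt_add_kk hG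
      have h2 := lt_of_mem_Sub hG
      obtain ⟨hd, hQ⟩ := YSize_iter hm ((natDegree_TT P).trans h) (TT_bound hm h hM)
        (kk F G - 1)
      set Q : ℚ[X] := (De 0)^[kk F G - 1] (TT P) with hQdef
      have h3 : (4 * (m : ℚ) + 2) ^ (kk F G - 1) * ((2 * m + 1) * M) ≤
          (4 * m + 2) ^ kk F G * M := by
        obtain ⟨r, hr⟩ : ∃ r, kk F G = r + 1 := ⟨kk F G - 1, by omega⟩
        rw [hr, Nat.add_sub_cancel, pow_succ, mul_assoc]
        apply mul_le_mul_of_nonneg_left _ (pow_nonneg hR r)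
        nlinarith
      have hQ' : ∀ x : ℤ, |x| ≤ m → |Q.eval (x : ℚ)| ≤ (4 * m + 2) ^ kk F G * M :=
        fun x hx => (hQ x hx).trans h3
      have h4 := ih (G.1 + G.2) (by omega) G (by omega) hd hQ' rfl
      have h5 : (1000 : ℚ) ^ (G.1 + G.2) * (4 * m + 2) ^ wt G * ((4 * m + 2) ^ kk F G * M) =
          1000 ^ (G.1 + G.2) * ((4 * m + 2) ^ wt F * M) := by
        rw [← h1.1, pow_add]
        ring
      rw [h5] at h4
      have h6 : |if G = (0, 0) then Q.eval 0 else 0| ≤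
          (if G = (0, 0) then 1 else 0 : ℚ) * ((4 * m + 2) ^ wt F * M) := by
        split_ifs with hG0
        · have h7 := hQ' 0 (by rw [abs_zero]; exact Int.natCast_nonneg m)
          rw [Int.cast_zero] at h7
          have h8 : kk F G = wt F := by
            have h9 := h1.1
            rw [hG0] at h9
            have h10 : wt (0, 0) = 0 := rfl
            rw [h10, zero_add] at h9
            rw [hG0]
            exact h9
          rw [h8] at h7
          rw [one_mul]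
          exact h7
        · rw [abs_zero, zero_mul]
      rw [abs_mul, Nat.abs_cast]
      push_cast
      rw [mul_assoc]
      apply mul_le_mul_of_nonneg_left _ (Nat.cast_nonneg _)
      refine (abs_sub _ _).trans ?_
      rw [add_mul]
      exact add_le_add h4 h6
    rw [YP_rec, abs_neg]
    refine (Finset.abs_sum_le_sum_abs _ _).trans ((Finset.sum_le_sum hterm).trans ?_)
    rw [← Finset.sum_mul, ← Nat.cast_sum, mul_assoc]
    apply mul_le_mul_of_nonneg_right _ (mul_nonneg (pow_nonneg hR _) hM0)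
    exact_mod_cast YSize_num F hF

end Pool.K3
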