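import Pool.Agent.Lib.MZExp.XTE
import Pool.Agent.Lib.MZDim.CDefs

/-!
MP_c511df_nt, k = 3, real side: `D_0 = 1`, `D_1 = 0`, `D_2 = D_3 = D_4 = 1`, from
`ζ(2,1) = ζ(3)`, `ζ(2,1,1) = ζ(4)` (duality by connected sums), the two products for `ζ(2)^2`
and the values of `ζ(2)`, `ζ(4)`.
-/

open Finset Filter Topology
open scoped ENNReal

namespace Pool.Agent.K3

open HofPers Pool.MZExp Pool.MZDim

/-- `n! m! / (n+m)!` -/
private noncomputable def cr (n m : ℕ) : ℝ := (((n + m).choose n : ℕ) : ℝ)⁻¹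

private theorem cr_zero (m : ℕ) : cr 0 m = 1 := by simp [cr]

private theorem cr_comm (n m : ℕ) : cr n m = cr m n := by
  unfold cr
  rw [Nat.add_comm n m, ← Nat.choose_symm_add]

private theorem cr_pos (n m : ℕ) : 0 < cr n m := by
  unfold cr
  have : 0 < (n + m).choose n := Nat.choose_pos (Nat.le_add_right n m)
  positivity

/-- `c(n,m) - c(n+1,m) = m c(n+1,m) / (n+1)` -/
private theorem cr_step (n m : ℕ) :
    cr n m - cr (n + 1) m = (m : ℝ) * (((n : ℝ) + 1)⁻¹ * cr (n + 1) m) := by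
  have h1 : ((n + 1 : ℕ) : ℝ) * ((n + 1 + m).choose (n + 1) : ℝ) =
      ((n + m + 1 : ℕ) : ℝ) * ((n + m).choose n : ℝ) := by
    have := Nat.add_one_mul_choose_eq (n + m) n
    rw [show n + 1 + m = n + m + 1 by ring, mul_comm]
    exact_mod_cast this.symm
  have h2 : (0 : ℝ) < ((n + m).choose n : ℝ) := by
    exact_mod_cast Nat.choose_pos (Nat.le_add_right n m)
  have h3 : (0 : ℝ) < ((n + 1 + m).choose (n + 1) : ℝ) := by
    exact_mod_cast Nat.choose_pos (by omega)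
  unfold cr
  push_cast at h1
  have h4 : (0 : ℝ) < (n : ℝ) + 1 := by positivity
  field_simp
  linear_combination h1

private theorem cr_tendsto {m : ℕ} (hm : 1 ≤ m) : Tendsto (fun n => cr n m) atTop (𝓝 0) := by
  have h1 : ∀ n : ℕ, cr n m ≤ ((n : ℝ) + 1)⁻¹ := by
    intro n
    unfold cr
    have h2 : n + 1 ≤ (n + m).choose n := by
      have h3 : (n + 1).choose n ≤ (n + m).choose n := Nat.choose_le_choose n (by omega)
      rwa [Nat.choose_succ_self_right] at h3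
    have h3 : ((n : ℝ) + 1) ≤ ((n + m).choose n : ℝ) := by exact_mod_cast h2
    exact inv_anti₀ (by positivity) h3
  refine squeeze_zero (fun n => (cr_pos n m).le) h1 ?_
  exact tendsto_inv_atTop_zero.comp
    (tendsto_atTop_add_const_right _ _ tendsto_natCast_atTop_atTop)

/-- the connecting identity `∑_(a > n) c(a,m) / a = c(n,m) / m` -/
private theorem cr_sum (n : ℕ) {m : ℕ} (hm : 1 ≤ m) :
    HasSum (fun j : ℕ => (((n + j : ℕ) : ℝ) + 1)⁻¹ * cr (n + j + 1) m) ((m : ℝ)⁻¹ * cr n m) := by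
  have hm0 : (0 : ℝ) < m := by exact_mod_cast hm
  have hnn : ∀ j : ℕ, 0 ≤ (((n + j : ℕ) : ℝ) + 1)⁻¹ * cr (n + j + 1) m := fun j =>
    mul_nonneg (by positivity) (cr_pos _ _).le
  rw [hasSum_iff_tendsto_nat_of_nonneg hnn]
  have h1 : ∀ N : ℕ, ∑ j ∈ range N, (((n + j : ℕ) : ℝ) + 1)⁻¹ * cr (n + j + 1) m =
      (m : ℝ)⁻¹ * (cr n m - cr (n + N) m) := by
    intro N
    induction N with
    | zero => simp
    | succ N ih =>
      rw [sum_range_succ, ih]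
      have h2 := cr_step (n + N) m
      rw [show n + (N + 1) = n + N + 1 by ring]
      have h3 : (((n + N : ℕ) : ℝ) + 1)⁻¹ * cr (n + N + 1) m =
          (m : ℝ)⁻¹ * (cr (n + N) m - cr (n + N + 1) m) := by
        rw [h2]
        field_simp
      rw [h3]
      ring
  simp only [h1]
  have h3 : Tendsto (fun N : ℕ => cr (n + N) m) atTop (𝓝 0) := by
    have := (cr_tendsto hm).comp (tendsto_add_atTop_nat n)
    refine this.congr fun N => ?_
    simp [Function.comp, Nat.add_comm]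
  have h4 := (tendsto_const_nhds (x := cr n m)).sub h3
  rw [sub_zero] at h4
  exact h4.const_mul _

/-- the same in `ℝ≥0∞` -/
private noncomputable def ce (n m : ℕ) : ℝ≥0∞ := ENNReal.ofReal (cr n m)

private theorem ce_comm (n m : ℕ) : ce n m = ce m n := by rw [ce, cr_comm, ce]

private theorem ce_zero (m : ℕ) : ce 0 m = 1 := by rw [ce, cr_zero, ENNReal.ofReal_one]

private theorem inv_ofReal (n : ℕ) : (((n + 1 : ℕ) : ℝ≥0∞))⁻¹ = ENNReal.ofReal (((n : ℝ) + 1)⁻¹) := by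
  rw [ENNReal.ofReal_inv_of_pos (by positivity)]
  congr 1
  rw [← ENNReal.ofReal_natCast]
  push_cast
  rfl

private theorem ce_sum (n : ℕ) (m : ℕ) :
    ∑' a : ℕ, (((n + a + 1 : ℕ) : ℝ≥0∞))⁻¹ * ce (n + a + 1) (m + 1) =
      (((m + 1 : ℕ) : ℝ≥0∞))⁻¹ * ce n (m + 1) := by
  have h1 := cr_sum n (m := m + 1) (by omega)
  have h2 : ∀ a : ℕ, (((n + a + 1 : ℕ) : ℝ≥0∞))⁻¹ * ce (n + a + 1) (m + 1) =
      ENNReal.ofReal ((((n + a : ℕ) : ℝ) + 1)⁻¹ * cr (n + a + 1) (m + 1)) := by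
    intro a
    rw [inv_ofReal, ce, ← ENNReal.ofReal_mul (by positivity)]
  simp only [h2]
  rw [← ENNReal.ofReal_tsum_of_nonneg (fun a => mul_nonneg (by positivity) (cr_pos _ _).le)
    h1.summable, h1.tsum_eq, ENNReal.ofReal_mul (by positivity), inv_ofReal, ce]
  push_cast
  rfl

/-- `V k M`, with `V 1 M = TE [2] M`, `V 2 M = TE [1, 2] M`, .. -/
private noncomputable def V : ℕ → ℕ → ℝ≥0∞
  | 0, M => ((M : ℕ) : ℝ≥0∞)⁻¹
  | k + 1, M => ∑' a : ℕ, (((M + a + 1 : ℕ) : ℝ≥0∞))⁻¹ * V k (M + a + 1)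

private theorem V_eq (k : ℕ) : ∀ M : ℕ, 1 ≤ k + M →
    ∑' n : ℕ, (((n + 1 : ℕ) : ℝ≥0∞))⁻¹ * ((((n + 1 : ℕ) : ℝ≥0∞))⁻¹ ^ k * ce M (n + 1)) = V k M := by
  induction k with
  | zero =>
    intro M hM
    obtain ⟨m, rfl⟩ : ∃ m, M = m + 1 := ⟨M - 1, by omega⟩
    have h1 := ce_sum 0 m
    rw [ce_zero, mul_one] at h1
    rw [V, ← h1]
    refine tsum_congr fun n => ?_
    rw [pow_zero, one_mul, ce_comm, Nat.zero_add]
  | succ k ih =>
    intro M _
    have h1 : ∀ n : ℕ, (((n + 1 : ℕ) : ℝ≥0∞))⁻¹ * ((((n + 1 : ℕ) : ℝ≥0∞))⁻¹ ^ (k + 1) * ce M (n + 1)) =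
        ∑' a : ℕ, (((M + a + 1 : ℕ) : ℝ≥0∞))⁻¹ * ((((n + 1 : ℕ) : ℝ≥0∞))⁻¹ *
          ((((n + 1 : ℕ) : ℝ≥0∞))⁻¹ ^ k * ce (M + a + 1) (n + 1))) := by
      intro n
      have h2 : (((n + 1 : ℕ) : ℝ≥0∞))⁻¹ * ((((n + 1 : ℕ) : ℝ≥0∞))⁻¹ ^ (k + 1) * ce M (n + 1)) =
          (((n + 1 : ℕ) : ℝ≥0∞))⁻¹ * (((n + 1 : ℕ) : ℝ≥0∞))⁻¹ ^ k *
            ((((n + 1 : ℕ) : ℝ≥0∞))⁻¹ * ce M (n + 1)) := by
        rw [pow_succ]
        ring
      rw [h2, ← ce_sum M n, ← ENNReal.tsum_mul_left]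
      refine tsum_congr fun a => ?_
      ring
    simp only [h1]
    rw [ENNReal.tsum_comm, V]
    refine tsum_congr fun a => ?_
    rw [ENNReal.tsum_mul_left, ih (M + a + 1) (by omega)]

private theorem V_one (M : ℕ) : V 1 M = TE [2] M := by
  rw [TE_cons_tail, V]
  refine tsum_congr fun a => ?_
  rw [V, TE, mul_one, ENNReal.inv_pow, pow_two]

private theorem V_two (M : ℕ) : V 2 M = TE [1, 2] M := by
  rw [TE_cons_tail, V]
  refine tsum_congr fun a => ?_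
  rw [V_one, pow_one]

private theorem V_three (M : ℕ) : V 3 M = TE [1, 1, 2] M := by
  rw [TE_cons_tail, V]
  refine tsum_congr fun a => ?_
  rw [V_two, pow_one]

private theorem V_zeta {k : ℕ} (hk : 1 ≤ k) : V k 0 = TE [k + 1] 0 := by
  rw [← V_eq k 0 (by omega), TE_cons_tail]
  refine tsum_congr fun n => ?_
  rw [ce_zero, TE, mul_one, mul_one, ENNReal.inv_pow, pow_succ, Nat.zero_add, mul_comm]

theorem TE_12 : TE [1, 2] 0 = TE [3] 0 := by rw [← V_two, V_zeta (by norm_num)]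

theorem TE_112 : TE [1, 1, 2] 0 = TE [4] 0 := by rw [← V_three, V_zeta (by norm_num)]

/-! ### the two products -/

private theorem sq_tsum (f : ℕ → ℝ≥0∞) (hf : ∑' n, f n ≠ ∞) :
    (∑' n, f n) ^ 2 = ∑' m, f m ^ 2 + 2 * ∑' m, f m * ∑' c, f (m + c + 1) := by
  set S : ℕ → ℝ≥0∞ := fun m => ∑' c, f (c + m) with hS
  have hstep : ∀ m, S m = f m + S (m + 1) := by
    intro m
    rw [hS]
    simp only
    rw [tsum_eq_zero_add' ENNReal.summable, Nat.zero_add]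
    congr 1
    refine tsum_congr fun c => ?_
    rw [Nat.add_assoc, Nat.add_comm 1 m]
  have hlim : Tendsto S atTop (𝓝 0) := ENNReal.tendsto_sum_nat_add f hf
  have hN : ∀ N : ℕ, S 0 ^ 2 = ∑ m ∈ range N, (f m ^ 2 + 2 * (f m * S (m + 1))) + S N ^ 2 := by
    intro N
    induction N with
    | zero => simp
    | succ N ih =>
      rw [ih, sum_range_succ, hstep N]
      ring
  have h1 : Tendsto (fun N : ℕ => ∑ m ∈ range N, (f m ^ 2 + 2 * (f m * S (m + 1))) + S N ^ 2)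
      atTop (𝓝 ((∑' m, (f m ^ 2 + 2 * (f m * S (m + 1)))) + 0 ^ 2)) := by
    refine Tendsto.add ENNReal.summable.hasSum.tendsto_sum_nat ?_
    exact ((ENNReal.continuous_pow 2).tendsto 0).comp hlim
  have h2 : (fun N : ℕ => ∑ m ∈ range N, (f m ^ 2 + 2 * (f m * S (m + 1))) + S N ^ 2) =
      fun _ => S 0 ^ 2 := by
    funext N
    exact (hN N).symm
  rw [h2] at h1
  have h3 := tendsto_nhds_unique h1 tendsto_const_nhds
  rw [zero_pow (by norm_num), add_zero] at h3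
  have h4 : (∑' n, f n) = S 0 := by simp [hS]
  rw [h4, ← h3, ENNReal.tsum_add, ENNReal.tsum_mul_left]
  congr 2
  refine tsum_congr fun m => ?_
  congr 1
  refine tsum_congr fun c => ?_
  congr 1
  ring

private theorem TE_single (a : ℕ) : TE [a] 0 = ∑' n : ℕ, (((n + 1 : ℕ) : ℝ≥0∞))⁻¹ ^ a := by
  rw [TE_cons_tail]
  refine tsum_congr fun n => ?_
  rw [TE, mul_one, ENNReal.inv_pow, Nat.zero_add]

private theorem TE_double (a b : ℕ) : TE [a, b] 0 =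
    ∑' m : ℕ, ∑' n : ℕ, (((m + 1 : ℕ) : ℝ≥0∞))⁻¹ ^ a * (((m + n + 1 + 1 : ℕ) : ℝ≥0∞))⁻¹ ^ b := by
  rw [TE_cons_tail]
  refine tsum_congr fun m => ?_
  rw [TE_cons_tail, ← ENNReal.tsum_mul_left]
  refine tsum_congr fun n => ?_
  rw [TE, mul_one, ENNReal.inv_pow, ENNReal.inv_pow]
  congr 4
  all_goals ring

theorem TE_stuffle : TE [2] 0 ^ 2 = TE [4] 0 + 2 * TE [2, 2] 0 := by
  have hfin : TE [2] 0 ≠ ∞ := TE_ne_top1 (adm1_single.2 le_rfl) 0
  rw [TE_single] at hfin ⊢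
  rw [sq_tsum _ hfin, TE_single, TE_double]
  congr 1
  · refine tsum_congr fun n => ?_
    rw [← pow_mul]
  · congr 1
    refine tsum_congr fun m => ?_
    rw [← ENNReal.tsum_mul_left]

private theorem pfrac (m n : ℕ) :
    (((m + 1 : ℕ) : ℝ≥0∞))⁻¹ ^ 2 * (((n + 1 : ℕ) : ℝ≥0∞))⁻¹ ^ 2 =
      ((((m + 1 : ℕ) : ℝ≥0∞))⁻¹ ^ 2 * (((m + n + 1 + 1 : ℕ) : ℝ≥0∞))⁻¹ ^ 2 +
        (((n + 1 : ℕ) : ℝ≥0∞))⁻¹ ^ 2 * (((n + m + 1 + 1 : ℕ) : ℝ≥0∞))⁻¹ ^ 2) +
      2 * ((((m + 1 : ℕ) : ℝ≥0∞))⁻¹ ^ 1 * (((m + n + 1 + 1 : ℕ) : ℝ≥0∞))⁻¹ ^ 3 +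
        (((n + 1 : ℕ) : ℝ≥0∞))⁻¹ ^ 1 * (((n + m + 1 + 1 : ℕ) : ℝ≥0∞))⁻¹ ^ 3) := by
  have h2 : (2 : ℝ≥0∞) = ENNReal.ofReal 2 := by simp
  rw [show n + m + 1 + 1 = m + n + 1 + 1 by ring, h2]
  simp only [inv_ofReal]
  have e1 : (0 : ℝ) ≤ ((m : ℝ) + 1)⁻¹ := by positivity
  have e2 : (0 : ℝ) ≤ ((n : ℝ) + 1)⁻¹ := by positivity
  have e3 : (0 : ℝ) ≤ ((((m + n + 1 : ℕ) : ℝ)) + 1)⁻¹ := by positivity
  rw [← ENNReal.ofReal_pow e1, ← ENNReal.ofReal_pow e2, ← ENNReal.ofReal_pow e3,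
    ← ENNReal.ofReal_pow e1, ← ENNReal.ofReal_pow e2, ← ENNReal.ofReal_pow e3,
    ← ENNReal.ofReal_mul (by positivity), ← ENNReal.ofReal_mul (by positivity),
    ← ENNReal.ofReal_mul (by positivity), ← ENNReal.ofReal_mul (by positivity),
    ← ENNReal.ofReal_mul (by positivity), ← ENNReal.ofReal_add (by positivity) (by positivity),
    ← ENNReal.ofReal_add (by positivity) (by positivity), ← ENNReal.ofReal_mul (by positivity),
    ← ENNReal.ofReal_add (by positivity) (by positivity)]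
  congr 1
  push_cast
  have f1 : ((m : ℝ) + 1) ≠ 0 := by positivity
  have f2 : ((n : ℝ) + 1) ≠ 0 := by positivity
  have f3 : ((m : ℝ) + n + 1 + 1) ≠ 0 := by positivity
  field_simp
  ring

theorem TE_shuffle : TE [2] 0 ^ 2 = 2 * TE [2, 2] 0 + 4 * TE [1, 3] 0 := by
  have h1 : TE [2] 0 ^ 2 = ∑' m : ℕ, ∑' n : ℕ,
      (((m + 1 : ℕ) : ℝ≥0∞))⁻¹ ^ 2 * (((n + 1 : ℕ) : ℝ≥0∞))⁻¹ ^ 2 := by
    rw [TE_single, pow_two, ← ENNReal.tsum_mul_right]
    refine tsum_congr fun m => ?_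
    rw [← ENNReal.tsum_mul_left]
  rw [h1, tsum_congr fun m => tsum_congr fun n => pfrac m n]
  simp only [ENNReal.tsum_add, ENNReal.tsum_mul_left]
  rw [ENNReal.tsum_comm (f := fun m n : ℕ => (((n + 1 : ℕ) : ℝ≥0∞))⁻¹ ^ 2 *
    (((n + m + 1 + 1 : ℕ) : ℝ≥0∞))⁻¹ ^ 2), ENNReal.tsum_comm (f := fun m n : ℕ =>
    (((n + 1 : ℕ) : ℝ≥0∞))⁻¹ ^ 1 * (((n + m + 1 + 1 : ℕ) : ℝ≥0∞))⁻¹ ^ 3)]
  rw [TE_double, TE_double]
  simp only [ENNReal.tsum_mul_left]
  ring

/-! ### real values -/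

private theorem T_12 : T [1, 2] 0 = T [3] 0 := by rw [T, T, TE_12]

private theorem T_112 : T [1, 1, 2] 0 = T [4] 0 := by rw [T, T, TE_112]

private theorem adm22 : Adm1 [2, 2] := adm1_cons_cons.2 ⟨by norm_num, adm1_single.2 le_rfl⟩

private theorem adm13 : Adm1 [1, 3] := adm1_cons_cons.2 ⟨by norm_num, adm1_single.2 (by norm_num)⟩

private theorem T_stuffle : T [2] 0 ^ 2 = T [4] 0 + 2 * T [2, 2] 0 := by
  have h4 : TE [4] 0 ≠ ∞ := TE_ne_top1 (adm1_single.2 (by norm_num)) 0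
  have h22 : TE [2, 2] 0 ≠ ∞ := TE_ne_top1 adm22 0
  have h := congrArg ENNReal.toReal TE_stuffle
  rw [ENNReal.toReal_pow, ENNReal.toReal_add h4 (ENNReal.mul_ne_top (by simp) h22),
    ENNReal.toReal_mul] at h
  simpa [T] using h

private theorem T_shuffle : T [2] 0 ^ 2 = 2 * T [2, 2] 0 + 4 * T [1, 3] 0 := by
  have h13 : TE [1, 3] 0 ≠ ∞ := TE_ne_top1 adm13 0
  have h22 : TE [2, 2] 0 ≠ ∞ := TE_ne_top1 adm22 0
  have h := congrArg ENNReal.toReal TE_shuffle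
  rw [ENNReal.toReal_pow, ENNReal.toReal_add (ENNReal.mul_ne_top (by simp) h22)
    (ENNReal.mul_ne_top (by simp) h13), ENNReal.toReal_mul, ENNReal.toReal_mul] at h
  simpa [T] using h

private theorem T_single {a : ℕ} (ha : 2 ≤ a) :
    T [a] 0 = ∑' n : ℕ, (1 : ℝ) / (n : ℝ) ^ a := by
  rw [(T_tsum1 (adm1_single.2 ha) 0).2]
  refine tsum_congr fun n => ?_
  rw [T_nil, mul_one]
  split_ifs with h
  · rw [one_div]
  · have h0 : n = 0 := by omega
    rw [h0, Nat.cast_zero, zero_pow (by omega), div_zero]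

private theorem T_2 : T [2] 0 = Real.pi ^ 2 / 6 := by
  rw [T_single le_rfl, hasSum_zeta_two.tsum_eq]

private theorem T_4 : T [4] 0 = Real.pi ^ 4 / 90 := by
  rw [T_single (by norm_num), hasSum_zeta_four.tsum_eq]

private theorem T_13 : T [1, 3] 0 = (1 / 4 : ℚ) * T [4] 0 := by
  push_cast
  linarith [T_stuffle, T_shuffle]

private theorem T_22 : T [2, 2] 0 = (3 / 4 : ℚ) * T [4] 0 := by
  have h := T_stuffle
  rw [T_2] at h
  push_cast
  rw [T_4] at h ⊢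
  linarith

/-! ### the dimensions -/

private theorem finrank_one {k : ℕ} {s0 : List ℕ} (h0 : s0 ∈ wd k) (hne : mzv s0 ≠ 0)
    (h : ∀ s ∈ wd k, ∃ q : ℚ, mzv s = q * mzv s0) : dimD k = 1 := by
  rw [dimD_eq, Zk]
  have h1 : Submodule.span ℚ (mzv '' wd k) = Submodule.span ℚ {mzv s0} := by
    refine le_antisymm (Submodule.span_le.2 ?_) (Submodule.span_mono ?_)
    · rintro _ ⟨s, hs, rfl⟩
      obtain ⟨q, hq⟩ := h s hs
      rw [hq]
      have h2 : ((q : ℝ) * mzv s0) = q • mzv s0 := by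
        rw [Rat.smul_def]
      rw [h2]
      exact Submodule.smul_mem _ _ (Submodule.subset_span rfl)
    · rintro _ rfl
      exact ⟨s0, h0, rfl⟩
  rw [h1, finrank_span_singleton hne]

private theorem zv_pos {l : List ℕ} (h : Adm1 l) : T l 0 ≠ 0 := (T_pos1 h 0).ne'

theorem dimD_zero : dimD 0 = 1 := by
  refine finrank_one (s0 := []) ⟨by simp, by simp, rfl⟩ ?_ ?_
  · rw [mzv_eq, zv]
    exact zv_pos adm1_nil
  · rintro s ⟨h1, -, h2⟩
    refine ⟨1, ?_⟩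
    rcases s with _ | ⟨a, s⟩
    · simp
    · have := h1 a (by simp)
      simp at h2
      omega

theorem dimD_one : dimD 1 = 0 := by
  have h : wd 1 = ∅ := by
    rw [Set.eq_empty_iff_forall_notMem]
    rintro s ⟨h1, h2, h3⟩
    rcases s with _ | ⟨a, s⟩
    · simp at h3
    · have := h2 a rfl
      simp at h3
      omega
  rw [dimD_eq, Zk, h, Set.image_empty, Submodule.span_empty, finrank_bot]

private theorem mem_single {a : ℕ} (ha : 2 ≤ a) : [a] ∈ wd a :=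
  ⟨fun b hb => by rw [List.mem_singleton.1 hb]; omega, fun b hb => by
    simp at hb
    omega, by simp⟩

theorem dimD_two : dimD 2 = 1 := by
  refine finrank_one (s0 := [2]) (mem_single le_rfl) ?_ ?_
  · rw [mzv_eq, zv]
    exact zv_pos (adm1_single.2 le_rfl)
  · rintro s ⟨h1, h2, h3⟩
    refine ⟨1, ?_⟩
    rcases s with _ | ⟨a, _ | ⟨b, s⟩⟩
    · simp at h3
    · simp at h3
      simp [h3]
    · have ha := h2 a rfl
      have hb := h1 b (by simp)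
      simp at h3
      omega

theorem dimD_three : dimD 3 = 1 := by
  refine finrank_one (s0 := [3]) (mem_single (by norm_num)) ?_ ?_
  · rw [mzv_eq, zv]
    exact zv_pos (adm1_single.2 (by norm_num))
  · rintro s ⟨h1, h2, h3⟩
    refine ⟨1, ?_⟩
    rw [Rat.cast_one, one_mul]
    rcases s with _ | ⟨a, _ | ⟨b, _ | ⟨c, s⟩⟩⟩
    · simp at h3
    · simp at h3
      simp [h3]
    · have ha := h2 a rfl
      have hb := h1 b (by simp)
      simp at h3
      have h4 : a = 2 ∧ b = 1 := by omega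
      rw [h4.1, h4.2, mzv_eq, mzv_eq]
      exact T_12
    · have ha := h2 a rfl
      have hb := h1 b (by simp)
      have hc := h1 c (by simp)
      simp at h3
      omega

theorem dimD_four : dimD 4 = 1 := by
  refine finrank_one (s0 := [4]) (mem_single (by norm_num)) ?_ ?_
  · rw [mzv_eq, zv]
    exact zv_pos (adm1_single.2 (by norm_num))
  · rintro s ⟨h1, h2, h3⟩
    rcases s with _ | ⟨a, _ | ⟨b, _ | ⟨c, _ | ⟨d, s⟩⟩⟩⟩
    · simp at h3
    · simp at h3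
      exact ⟨1, by simp [h3]⟩
    · have ha := h2 a rfl
      have hb := h1 b (by simp)
      simp at h3
      have h4 : (a = 3 ∧ b = 1) ∨ (a = 2 ∧ b = 2) := by omega
      rcases h4 with ⟨rfl, rfl⟩ | ⟨rfl, rfl⟩
      · exact ⟨1 / 4, by rw [mzv_eq, mzv_eq]; exact T_13⟩
      · exact ⟨3 / 4, by rw [mzv_eq, mzv_eq]; exact T_22⟩
    · have ha := h2 a rfl
      have hb := h1 b (by simp)
      have hc := h1 c (by simp)
      simp at h3
      have h4 : a = 2 ∧ b = 1 ∧ c = 1 := by omega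
      refine ⟨1, ?_⟩
      rw [h4.1, h4.2.1, h4.2.2, mzv_eq, mzv_eq, Rat.cast_one, one_mul]
      exact T_112
    · have ha := h2 a rfl
      have hb := h1 b (by simp)
      have hc := h1 c (by simp)
      have hd := h1 d (by simp)
      simp at h3
      omega

end Pool.Agent.K3
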