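import Pool.Agent.Lib.K3.ZFin
import Pool.Agent.Lib.K3.ZReal
import Pool.Agent.Lib.MZFin.DOne

/-!
MP_c511df_nt: Zagier's identity (the body of the frozen statement S18415) for `k = 2, 3, 4`, provided
that infinitely many primes do not divide `fz p [2, 1]` (a multiple of `B_(p-3)` by a unit).
-/

open Finset

namespace Pool.Agent.K3

open Pool.MZFin Pool.MZDim

/-- the finite part of the frozen statement: `d` is the dimension `a_k` -/
def IsA (k d : ℕ) : Prop :=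
  (∃ len : Fin d → ℕ, ∃ kk : (j : Fin d) → Fin (len j) → ℕ,
    (∀ j, (∀ a, 1 ≤ kk j a) ∧ ∑ a, kk j a = k) ∧
    ∀ c : Fin d → ℚ,
      (∃ N : ℕ, ∀ p : ℕ, p.Prime → N < p →
        ∑ j : Fin d, ((c j).num : ZMod p) * ((c j).den : ZMod p)⁻¹ * fsum p (len j) (kk j) = 0) →
      ∀ j, c j = 0) ∧
  (∀ len : Fin (d + 1) → ℕ, ∀ kk : (j : Fin (d + 1)) → Fin (len j) → ℕ,
    (∀ j, (∀ a, 1 ≤ kk j a) ∧ ∑ a, kk j a = k) →
    ∃ c : Fin (d + 1) → ℚ,
      (∃ N : ℕ, ∀ p : ℕ, p.Prime → N < p →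
        ∑ j : Fin (d + 1), ((c j).num : ZMod p) * ((c j).den : ZMod p)⁻¹ *
          fsum p (len j) (kk j) = 0) ∧
      ∃ j, c j ≠ 0)

private theorem isA_zero {k : ℕ} (h : ∀ p : ℕ, p.Prime → 5 < p → ∀ l : List ℕ, (∀ a ∈ l, 1 ≤ a) →
    l.sum = k → fz p l = 0) : IsA k 0 := by
  refine ⟨⟨Fin.elim0, fun j => j.elim0, fun j => j.elim0, fun c _ j => j.elim0⟩, ?_⟩
  intro len kk hk
  refine ⟨fun _ => 1, ⟨5, fun p hp h5 => ?_⟩, 0, one_ne_zero⟩
  refine sum_eq_zero fun j _ => ?_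
  rw [fsum_eq p hp, h p hp h5 _ ?_ ?_, mul_zero]
  · intro a ha
    obtain ⟨i, rfl⟩ := List.mem_ofFn.1 ha
    exact (hk j).1 i
  · rw [List.sum_ofFn]
    exact (hk j).2

private theorem isA_three (h : {p : ℕ | p.Prime ∧ fz p [2, 1] ≠ 0}.Infinite) : IsA 3 1 := by
  constructor
  · refine ⟨fun _ => 2, fun _ => ![2, 1], fun j => ⟨fun a => ?_, ?_⟩, ?_⟩
    · fin_cases a <;> simp
    · simp [Fin.sum_univ_two]
    · rintro c ⟨N, hN⟩ j
      fin_cases j
      by_contra hc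
      have hc' : c 0 ≠ 0 := hc
      obtain ⟨p, ⟨hp, hb⟩, hpN⟩ := h.exists_gt (N + (c 0).num.natAbs + (c 0).den)
      have hF : Fact p.Prime := ⟨hp⟩
      have h1 := hN p hp (by omega)
      rw [Fin.sum_univ_one, fsum_eq p hp] at h1
      have h2 : List.ofFn (![2, 1] : Fin 2 → ℕ) = [2, 1] := by simp
      rw [h2] at h1
      have h3 : ((c 0).num : ZMod p) ≠ 0 := by
        intro h4
        rw [ZMod.intCast_zmod_eq_zero_iff_dvd] at h4
        have h5 := Int.natAbs_dvd_natAbs.2 h4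
        rw [Int.natAbs_natCast] at h5
        have h6 := Nat.le_of_dvd (Int.natAbs_pos.2 (Rat.num_ne_zero.2 hc')) h5
        omega
      have h4 : ((c 0).den : ZMod p) ≠ 0 := by
        intro h4
        rw [ZMod.natCast_eq_zero_iff] at h4
        have h6 := Nat.le_of_dvd (c 0).den_pos h4
        omega
      exact mul_ne_zero (mul_ne_zero h3 (inv_ne_zero h4)) hb h1
  · intro len kk hk
    have hw : ∀ j : Fin 2, ∃ c : ℤ, ∀ p : ℕ, p.Prime → 5 < p →
        fsum p (len j) (kk j) = c * fz p [2, 1] := by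
      intro j
      obtain ⟨c, hc⟩ := fz_wt3 (l := List.ofFn (kk j)) (fun a ha => by
        obtain ⟨i, rfl⟩ := List.mem_ofFn.1 ha
        exact (hk j).1 i) (by
        rw [List.sum_ofFn]
        exact (hk j).2)
      exact ⟨c, fun p hp h5 => by rw [fsum_eq p hp, hc p hp h5]⟩
    obtain ⟨x, hx⟩ := hw 0
    obtain ⟨y, hy⟩ := hw 1
    by_cases hxy : x = 0 ∧ y = 0
    · refine ⟨fun _ => 1, ⟨5, fun p hp h5 => ?_⟩, 0, one_ne_zero⟩
      rw [Fin.sum_univ_two, hx p hp h5, hy p hp h5, hxy.1, hxy.2]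
      simp
    · refine ⟨![(y : ℚ), -(x : ℚ)], ⟨5, fun p hp h5 => ?_⟩, ?_⟩
      · rw [Fin.sum_univ_two, hx p hp h5, hy p hp h5]
        have h1 : (![(y : ℚ), -(x : ℚ)] : Fin 2 → ℚ) 0 = ((y : ℤ) : ℚ) := rfl
        have h2 : (![(y : ℚ), -(x : ℚ)] : Fin 2 → ℚ) 1 = (((-x : ℤ) : ℤ) : ℚ) := by
          push_cast
          rfl
        rw [h1, h2, Rat.num_intCast, Rat.den_intCast, Rat.num_intCast, Rat.den_intCast]
        push_cast
        ring
      · by_cases hy0 : y = 0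
        · refine ⟨1, ?_⟩
          have hx0 : x ≠ 0 := fun h0 => hxy ⟨h0, hy0⟩
          simp only [Matrix.cons_val_one, Matrix.cons_val_fin_one, ne_eq, neg_eq_zero]
          exact_mod_cast hx0
        · refine ⟨0, ?_⟩
          simp only [Matrix.cons_val_zero, ne_eq]
          exact_mod_cast hy0

/-- Zagier's identity for `k = 2, 3, 4` -/
theorem zagier_small (h : {p : ℕ | p.Prime ∧ fz p [2, 1] ≠ 0}.Infinite) {k : ℕ} (h2 : 2 ≤ k)
    (h4 : k ≤ 4) : ∃ d : ℕ, d + dimD (k - 2) = dimD k ∧ IsA k d := by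
  have hk : k = 2 ∨ k = 3 ∨ k = 4 := by omega
  rcases hk with rfl | rfl | rfl
  · refine ⟨0, ?_, isA_zero fun p hp h5 l h1 h2 => fz_wt2 hp h5 h1 h2⟩
    rw [dimD_two]
    exact congrArg (0 + ·) dimD_zero
  · refine ⟨1, ?_, isA_three h⟩
    rw [dimD_three]
    exact congrArg (1 + ·) dimD_one
  · refine ⟨0, ?_, isA_zero fun p hp h5 l h1 h2 => fz_wt4 hp h5 h1 h2⟩
    rw [dimD_four]
    exact congrArg (0 + ·) dimD_two

end Pool.Agent.K3
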